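import Pool.Agent.H36.PP.RFin

/-!
# Module LGQ: quotients of locally graded groups by almost polycyclic subgroups

* `lgq_central`: `P` finitely generated, locally graded, `Z` a central, finitely generated
  subgroup, `P ⧸ Z ≠ 1`.  Then `P` has a proper normal subgroup of finite index which contains `Z`.
  Proof.  Suppose not.  The abelianisation of `P ⧸ Z` is finitely generated abelian without
  proper subgroups of finite index, so it is trivial: `P = P' Z`, where `P'` is the commutator
  subgroup.  Then `P' = [P' Z, P' Z] = P''` is perfect.  `P'` is finitely generated: if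
  `F ≤ P'` is finitely generated with `F Z = P` then `P' = [F, F] ≤ F`.  `P' ≠ 1`.  As `P` is locally
  graded, `P'` has a proper normal subgroup `N` of finite index.  `N Z` has finite index in
  `P' Z = P` and is normal, so `N Z = P` by assumption; so `P' = [N, N] ≤ N`: contradiction.
* `LG.quotient`: strong induction on `ht M`, for all groups.  It suffices: `H` finitely generated
  locally graded (a preimage of a finitely generated subgroup of `G ⧸ M`: it contains `M`, which
  is finitely generated), `M` normal almost polycyclic, `H ⧸ M ≠ 1`; then `H` has a proper normal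
  subgroup of finite index containing `M`.  Suppose not.
  - `M` finite: the centraliser `D` of `M` has finite index in `H`, so `D M = H`, and
    `H ⧸ M ≅ D ⧸ (D ⊓ M)` with `D ⊓ M` central in `D`: `lgq_central` for `D`.
  - `M` infinite: let `A` be a free abelian infinite characteristic subgroup of `M`
    (`exists_char_free_abelian`), normal in `H`; `ht (M ⧸ A) < ht M` (`ht_lt_of_surjective`).
    If `A ≠ M`... in all cases it suffices that `H ⧸ A` is locally graded, by the induction
    hypothesis for `M/A ≤ H/A`.  So let `M = A` be abelian.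
    For every characteristic subgroup `T` of finite index of `A` the centraliser of `A/T` in `H`
    has finite index and contains `A`, so it is `H`; so `[h, a] ∈ ⋂ T = 1`: `A` is central,
    use `lgq_central`.
-/

set_option autoImplicit false

namespace H36.PP

open Subgroup
open scoped commutatorElement

universe u

/-- local gradedness passes to groups that embed -/
theorem LGQ_of_injective {G H : Type*} [Group G] [Group H] (f : G →* H)
    (hf : Function.Injective f) (h : LG H) : LG G := by
  intro K hK hne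
  have hK' : (K.map f).FG := by
    classical
    obtain ⟨S, hS⟩ := hK
    exact ⟨S.image f, by rw [Finset.coe_image, ← MonoidHom.map_closure, hS]⟩
  have hne' : K.map f ≠ ⊥ := by
    intro h0
    exact hne ((Subgroup.map_eq_bot_iff_of_injective K hf).mp h0)
  obtain ⟨N, hN1, hN2, hN3⟩ := h _ hK' hne'
  let e : K ≃* K.map f := K.equivMapOfInjective f hf
  refine ⟨N.comap (e : K →* K.map f), inferInstance, ?_, ?_⟩
  · intro h0
    apply hN2
    rw [eq_top_iff]
    intro x _
    have h1 : e.symm x ∈ N.comap (e : K →* K.map f) := by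
      rw [h0]
      trivial
    simpa using h1
  · refine ⟨?_⟩
    rw [index_comap_of_surjective _ (show Function.Surjective (e : K →* K.map f) from e.surjective)]
    exact hN3.index_ne_zero

theorem LG.subgroup {G : Type*} [Group G] (h : LG G) (K : Subgroup G) : LG K :=
  LGQ_of_injective K.subtype K.subtype_injective h

theorem LG.congr {G H : Type*} [Group G] [Group H] (e : G ≃* H) : LG G ↔ LG H :=
  ⟨LGQ_of_injective (e.symm : H →* G) e.symm.injective,
    LGQ_of_injective (e : G →* H) e.injective⟩

theorem LGQ_normal_of_central {P : Type*} [Group P] {Z : Subgroup P} (hZ : Z ≤ center P) :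
    Z.Normal := by
  refine ⟨fun n hn g => ?_⟩
  have h1 := mem_center_iff.mp (hZ hn) g
  rwa [h1, mul_inv_cancel_right]

/-- if `F Z = P` with `Z` central, all commutators of `P` are commutators of `F` -/
theorem LGQ_comm {P : Type*} [Group P] {F Z : Subgroup P} (hZ : Z ≤ center P)
    (h : F ⊔ Z = ⊤) : commutator P ≤ F := by
  have := LGQ_normal_of_central hZ
  have key : ∀ x : P, ∃ p ∈ F, ∃ z ∈ Z, p * z = x := by
    intro x
    have hx : x ∈ F ⊔ Z := by
      rw [h]
      trivial
    exact mem_sup_of_normal_right.mp hx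
  rw [_root_.commutator_def, commutator_le]
  intro x _ y _
  obtain ⟨p, hp, z, hz, rfl⟩ := key x
  obtain ⟨q, hq, w, hw, rfl⟩ := key y
  have hz' := mem_center_iff.mp (hZ hz)
  have hw' := mem_center_iff.mp (hZ hw)
  have e : ⁅p * z, q * w⁆ = p * q * p⁻¹ * q⁻¹ := by
    rw [commutatorElement_def]
    calc p * z * (q * w) * (p * z)⁻¹ * (q * w)⁻¹
        = p * (z * (q * w)) * z⁻¹ * p⁻¹ * w⁻¹ * q⁻¹ := by
          group
      _ = p * ((q * w) * z) * z⁻¹ * p⁻¹ * w⁻¹ * q⁻¹ := by rw [hz' (q * w)]
      _ = p * q * (w * p⁻¹) * w⁻¹ * q⁻¹ := by group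
      _ = p * q * (p⁻¹ * w) * w⁻¹ * q⁻¹ := by rw [hw' p⁻¹]
      _ = p * q * p⁻¹ * q⁻¹ := by group
  rw [e]
  exact F.mul_mem (F.mul_mem (F.mul_mem hp hq) (F.inv_mem hp)) (F.inv_mem hq)

/-- a nontrivial finitely generated abelian quotient gives a proper subgroup of finite index -/
theorem LGQ_abquot {P : Type*} [Group P] (hfg : Group.FG P) (K : Subgroup P) [K.Normal]
    (hK : commutator P ≤ K) (hne : K ≠ ⊤) :
    ∃ N : Subgroup P, N.Normal ∧ N.FiniteIndex ∧ N ≠ ⊤ ∧ K ≤ N := by
  have hcomm : ∀ x y : P ⧸ K, x * y = y * x := by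
    intro x y
    obtain ⟨x, rfl⟩ := QuotientGroup.mk'_surjective K x
    obtain ⟨y, rfl⟩ := QuotientGroup.mk'_surjective K y
    rw [← map_mul, ← map_mul, QuotientGroup.mk'_apply, QuotientGroup.mk'_apply,
      QuotientGroup.eq]
    apply hK
    have h1 : ⁅y⁻¹, x⁻¹⁆ ∈ commutator P := by
      rw [_root_.commutator_def]
      exact commutator_mem_commutator (mem_top _) (mem_top _)
    have h2 : (x * y)⁻¹ * (y * x) = ⁅y⁻¹, x⁻¹⁆ := by
      rw [commutatorElement_def]
      group
    rwa [h2]
  have hap : AP (P ⧸ K) :=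
    AP.of_comm_fg hcomm (Group.fg_of_surjective (QuotientGroup.mk'_surjective K))
  obtain ⟨g, hg⟩ : ∃ g, g ∉ K := by
    by_contra h
    push Not at h
    exact hne (eq_top_iff.mpr fun x _ => h x)
  have hg1 : QuotientGroup.mk' K g ≠ 1 := by
    intro h
    exact hg ((QuotientGroup.eq_one_iff g).mp h)
  obtain ⟨N, hN1, hN2, hN3⟩ := hap.rf _ hg1
  refine ⟨N.comap (QuotientGroup.mk' K), inferInstance, ⟨?_⟩, ?_, ?_⟩
  · rw [index_comap_of_surjective _ (QuotientGroup.mk'_surjective K)]
    exact hN2.index_ne_zero
  · intro h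
    have h1 : g ∈ N.comap (QuotientGroup.mk' K) := by
      rw [h]
      trivial
    exact hN3 h1
  · intro k hk
    rw [mem_comap, show QuotientGroup.mk' K k = 1 from (QuotientGroup.eq_one_iff k).mpr hk]
    exact N.one_mem

theorem lgq_central {P : Type*} [Group P] (hP : LG P) (hfg : Group.FG P) (Z : Subgroup P)
    (hZ : Z ≤ center P) (hZfg : Z.FG) (hne : Z ≠ ⊤) :
    ∃ N : Subgroup P, N.Normal ∧ N.FiniteIndex ∧ N ≠ ⊤ ∧ Z ≤ N := by
  by_contra hcon
  have hno : ∀ N : Subgroup P, N.Normal → N.FiniteIndex → Z ≤ N → N = ⊤ := by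
    intro N h1 h2 h3
    by_contra h4
    exact hcon ⟨N, h1, h2, h4, h3⟩
  have hZn : Z.Normal := LGQ_normal_of_central hZ
  have ha : commutator P ⊔ Z = ⊤ := by
    by_contra hK1
    obtain ⟨N, h1, h2, h3, h4⟩ := LGQ_abquot hfg (commutator P ⊔ Z) le_sup_left hK1
    exact h3 (hno N h1 h2 (le_sup_right.trans h4))
  have key : ∀ x : P, ∃ p ∈ commutator P, ∃ z ∈ Z, p * z = x := by
    intro x
    have hx : x ∈ commutator P ⊔ Z := by
      rw [ha]
      trivial
    exact mem_sup_of_normal_right.mp hx
  have hfgc : (commutator P).FG := by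
    classical
    obtain ⟨S, hS⟩ := Group.fg_def.mp hfg
    choose p hp z hz hpz using key
    have hF1 : closure ((S.image p : Finset P) : Set P) ≤ commutator P := by
      rw [closure_le]
      intro x hx
      rw [Finset.coe_image] at hx
      obtain ⟨s, _, rfl⟩ := hx
      exact hp s
    have hF2 : closure ((S.image p : Finset P) : Set P) ⊔ Z = ⊤ := by
      rw [eq_top_iff, ← hS, closure_le]
      intro s hs
      rw [← hpz s]
      refine mul_mem (mem_sup_left (subset_closure ?_)) (mem_sup_right (hz s))
      rw [Finset.coe_image]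
      exact ⟨s, hs, rfl⟩
    exact ⟨S.image p, le_antisymm hF1 (LGQ_comm hZ hF2)⟩
  have hc0 : commutator P ≠ ⊥ := by
    intro h0
    rw [h0, bot_sup_eq] at ha
    exact hne ha
  obtain ⟨N, hN1, hN2, hN3⟩ := hP (commutator P) hfgc hc0
  have hN₁n : (N.map (commutator P).subtype).Normal := by
    refine ⟨fun n hn g => ?_⟩
    obtain ⟨m, hm, rfl⟩ := hn
    obtain ⟨p, hp, z, hz, rfl⟩ := key g
    have hc := mem_center_iff.mp (hZ hz) (m : P)
    refine ⟨⟨p, hp⟩ * m * ⟨p, hp⟩⁻¹, hN1.conj_mem m hm _, ?_⟩
    simp only [map_mul, map_inv, Subgroup.coe_subtype]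
    calc p * (m : P) * p⁻¹ = p * ((m : P) * z) * z⁻¹ * p⁻¹ := by group
      _ = p * (z * (m : P)) * z⁻¹ * p⁻¹ := by rw [hc]
      _ = p * z * (m : P) * (p * z)⁻¹ := by group
  have hi : (N.map (commutator P).subtype ⊔ Z).FiniteIndex := by
    have := hN₁n
    refine ⟨?_⟩
    have e1 : commutator P ⊔ (N.map (commutator P).subtype ⊔ Z) = ⊤ := by
      rw [eq_top_iff, ← ha]
      exact sup_le_sup_left le_sup_right _
    have e2 := relIndex_sup_right (commutator P) (N.map (commutator P).subtype ⊔ Z)
    rw [e1, relIndex_top_right] at e2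
    rw [e2]
    have e3 : (N.map (commutator P).subtype).relIndex (commutator P) ≠ 0 := by
      have e4 : (N.map (commutator P).subtype).relIndex (commutator P) = N.index := by
        rw [relIndex]
        congr 1
        exact comap_map_eq_self_of_injective (commutator P).subtype_injective N
      rw [e4]
      exact hN3.index_ne_zero
    exact ne_zero_of_dvd_ne_zero e3 (relIndex_dvd_of_le_left _ le_sup_left)
  have htop : N.map (commutator P).subtype ⊔ Z = ⊤ := by
    have := hN₁n
    exact hno _ inferInstance hi le_sup_right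
  have hle := LGQ_comm hZ htop
  apply hN2
  rw [eq_top_iff]
  intro x _
  obtain ⟨m, hm, hmx⟩ := hle x.2
  have : m = x := Subtype.ext hmx
  rwa [← this]

/-- the centraliser of a finite normal subgroup has finite index -/
theorem LGQ_centralizer {G : Type*} [Group G] (F : Subgroup G) [F.Normal] [Finite F] :
    (centralizer (F : Set G)).FiniteIndex := by
  have h : (MulAut.conjNormal : G →* MulAut F).ker ≤ centralizer (F : Set G) := by
    intro g hg
    rw [mem_centralizer_iff]
    intro f hf
    have h1 := congrArg (fun e : MulAut F => ((e ⟨f, hf⟩ : F) : G)) (MonoidHom.mem_ker.mp hg)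
    simp only [MulAut.conjNormal_apply, MulAut.one_apply] at h1
    calc f * g = g * f * g⁻¹ * g := by rw [h1]
      _ = g * f := by group
  have : Finite (MulAut F) := inferInstanceAs (Finite (F ≃* F))
  exact finiteIndex_of_le h

/-- the core statement for an abelian normal subgroup -/
theorem LGQ_abelian {H : Type*} [Group H] (hH : LG H) (hfg : Group.FG H) (A : Subgroup H)
    [hAn : A.Normal] (hc : ∀ x ∈ A, ∀ y ∈ A, x * y = y * x) (hA : A.FG) (hne : A ≠ ⊤) :
    ∃ N : Subgroup H, N.Normal ∧ N.FiniteIndex ∧ N ≠ ⊤ ∧ A ≤ N := by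
  by_contra hcon
  have hno : ∀ N : Subgroup H, N.Normal → N.FiniteIndex → A ≤ N → N = ⊤ := by
    intro N h1 h2 h3
    by_contra h4
    exact hcon ⟨N, h1, h2, h4, h3⟩
  have hcen : A ≤ center H := by
    intro a ha
    rw [mem_center_iff]
    intro h
    by_contra hne'
    have hx : h⁻¹ * a * h * a⁻¹ ∈ A := A.mul_mem (hAn.conj_mem' a ha h) (A.inv_mem ha)
    have hx1 : (⟨_, hx⟩ : A) ≠ 1 := by
      intro h0
      have h1 : h⁻¹ * a * h * a⁻¹ = 1 := congrArg Subtype.val h0
      apply hne'
      calc h * a = h * 1 * a := by group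
        _ = h * (h⁻¹ * a * h * a⁻¹) * a := by rw [h1]
        _ = a * h := by group
    have hAfg : Group.FG A := (Group.fg_iff_subgroup_fg A).mpr hA
    have hap : AP A := AP.of_comm_fg (fun x y => Subtype.ext (hc x x.2 y y.2)) hAfg
    obtain ⟨N, hN1, hN2, hN3⟩ := hap.rf _ hx1
    obtain ⟨T, hT1, hT2, hT3⟩ := exists_char_core hAfg N hN2
    have := hT3
    have hT₁ : (T.map A.subtype).Normal := ConjAct.normal_of_characteristic_of_normal
    set π := QuotientGroup.mk' (T.map A.subtype) with hπ
    have hπs : Function.Surjective π := QuotientGroup.mk'_surjective _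
    have : (A.map π).Normal := hAn.map π hπs
    have : Finite (A.map π) := by
      have h1 : (π.subgroupMap A).ker = T := by
        ext x
        rw [MonoidHom.mem_ker]
        constructor
        · intro h2
          have h3 : π (x : H) = 1 := congrArg Subtype.val h2
          obtain ⟨y, hy, hyx⟩ := (QuotientGroup.eq_one_iff (x : H)).mp h3
          have : y = x := Subtype.ext hyx
          rwa [← this]
        · intro h2
          apply Subtype.ext
          exact (QuotientGroup.eq_one_iff (x : H)).mpr ⟨x, h2, rfl⟩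
      have h2 := index_ker (π.subgroupMap A)
      rw [h1, MonoidHom.range_eq_top.mpr (π.subgroupMap_surjective A)] at h2
      have h3 : Nat.card (⊤ : Subgroup (A.map π)) ≠ 0 := by
        rw [← h2]
        exact hT2.index_ne_zero
      rw [Subgroup.card_top] at h3
      exact Nat.finite_of_card_ne_zero h3
    have hD := LGQ_centralizer (A.map π)
    have htop := hno ((centralizer ((A.map π : Subgroup _) : Set _)).comap π) inferInstance
      ⟨by
        rw [index_comap_of_surjective _ hπs]
        exact hD.index_ne_zero⟩ (by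
        intro b hb
        rw [mem_comap, mem_centralizer_iff]
        rintro _ ⟨c, hc', rfl⟩
        rw [← map_mul, ← map_mul, hc c hc' b hb])
    have hh : h ∈ (centralizer ((A.map π : Subgroup _) : Set _)).comap π := by
      rw [htop]
      trivial
    rw [mem_comap, mem_centralizer_iff] at hh
    have h4 := hh (π a) ⟨a, ha, rfl⟩
    have h5 : π (h⁻¹ * a * h * a⁻¹) = 1 := by
      rw [map_mul, map_mul, map_mul, mul_assoc (π h⁻¹), h4, map_inv, map_inv]
      group
    obtain ⟨y, hy, hyx⟩ := (QuotientGroup.eq_one_iff _).mp h5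
    have h6 : y = ⟨_, hx⟩ := Subtype.ext hyx
    rw [h6] at hy
    exact hN3 (hT1 hy)
  exact hcon (lgq_central hH hfg A hcen hA hne)

/-- it suffices to find subgroups of finite index above the kernel -/
theorem LGQ_transfer {G : Type*} [Group G] (M : Subgroup G) [M.Normal] (hM : M.FG)
    (core : ∀ X : Subgroup G, X.FG → M ≤ X → X ≠ M →
      ∃ N : Subgroup X, N.Normal ∧ N.FiniteIndex ∧ N ≠ ⊤ ∧ M.subgroupOf X ≤ N) :
    LG (G ⧸ M) := by
  intro L hL hne
  have hs := QuotientGroup.mk'_surjective M
  have hMX : M ≤ L.comap (QuotientGroup.mk' M) := by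
    intro m hm
    rw [mem_comap, show QuotientGroup.mk' M m = 1 from (QuotientGroup.eq_one_iff m).mpr hm]
    exact L.one_mem
  have hXfg : (L.comap (QuotientGroup.mk' M)).FG := by
    classical
    obtain ⟨S, hS⟩ := hL
    choose l hl using hs
    have h1 : (closure ((S.image l : Finset G) : Set G)).map (QuotientGroup.mk' M) = L := by
      rw [MonoidHom.map_closure, ← hS]
      congr 1
      ext x
      rw [Finset.coe_image]
      constructor
      · rintro ⟨_, ⟨s, hs, rfl⟩, rfl⟩
        rw [hl]
        exact hs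
      · intro hx
        exact ⟨l x, ⟨x, hx, rfl⟩, hl x⟩
    have h2 : L.comap (QuotientGroup.mk' M) =
        closure ((S.image l : Finset G) : Set G) ⊔ M := by
      rw [← h1, comap_map_eq, QuotientGroup.ker_mk']
    rw [h2]
    exact FG.sup ⟨_, rfl⟩ hM
  have hXM : L.comap (QuotientGroup.mk' M) ≠ M := by
    intro h0
    apply hne
    rw [eq_bot_iff]
    intro x hx
    obtain ⟨y, rfl⟩ := hs x
    have hy : y ∈ L.comap (QuotientGroup.mk' M) := hx
    rw [h0] at hy
    rw [mem_bot]
    exact (QuotientGroup.eq_one_iff y).mpr hy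
  obtain ⟨N, hN1, hN2, hN3, hN4⟩ := core _ hXfg hMX hXM
  set φ := (QuotientGroup.mk' M).subgroupComap L with hφd
  have hφ : Function.Surjective φ :=
    MonoidHom.subgroupComap_surjective_of_surjective _ L hs
  have hk : φ.ker ≤ N := by
    intro x hx
    apply hN4
    rw [mem_subgroupOf]
    have h1 : QuotientGroup.mk' M (x : G) = 1 := congrArg Subtype.val (MonoidHom.mem_ker.mp hx)
    exact (QuotientGroup.eq_one_iff (x : G)).mp h1
  refine ⟨N.map φ, hN1.map φ hφ, ?_, ?_⟩
  · intro h0
    apply hN3
    rw [eq_top_iff]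
    intro x _
    have h1 : φ x ∈ N.map φ := by
      rw [h0]
      trivial
    obtain ⟨n, hn, hnx⟩ := h1
    have h2 : n⁻¹ * x ∈ N := by
      apply hk
      rw [MonoidHom.mem_ker, map_mul, map_inv, hnx, inv_mul_cancel]
    have h3 := N.mul_mem hn h2
    rwa [mul_inv_cancel_left] at h3
  · refine ⟨?_⟩
    rw [index_map_eq N hφ hk]
    exact hN2.index_ne_zero

/-- finite normal subgroups -/
theorem LGQ_finite {H : Type*} [Group H] (hH : LG H) (hfg : Group.FG H) (M : Subgroup H)
    [hMn : M.Normal] [Finite M] (hne : M ≠ ⊤) :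
    ∃ N : Subgroup H, N.Normal ∧ N.FiniteIndex ∧ N ≠ ⊤ ∧ M ≤ N := by
  by_contra hcon
  have hno : ∀ N : Subgroup H, N.Normal → N.FiniteIndex → M ≤ N → N = ⊤ := by
    intro N h1 h2 h3
    by_contra h4
    exact hcon ⟨N, h1, h2, h4, h3⟩
  have hD := LGQ_centralizer M
  set D := centralizer (M : Set H) with hDd
  have hDM : D ⊔ M = ⊤ := hno _ inferInstance (finiteIndex_of_le le_sup_left) le_sup_right
  have key : ∀ x : H, ∃ d ∈ D, ∃ m ∈ M, d * m = x := by
    intro x
    have hx : x ∈ D ⊔ M := by
      rw [hDM]
      trivial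
    exact mem_sup_of_normal_right.mp hx
  have hDfg : Group.FG D := inferInstance
  have hcomm : ∀ d ∈ D, ∀ m ∈ M, m * d = d * m := fun d hd m hm =>
    mem_centralizer_iff.mp hd m hm
  have hZ : M.subgroupOf D ≤ center D := by
    intro z hz
    rw [mem_center_iff]
    intro g
    exact Subtype.ext (hcomm g g.2 z (mem_subgroupOf.mp hz)).symm
  have hZfg : (M.subgroupOf D).FG := by
    have : Finite (M.subgroupOf D) :=
      Finite.of_injective (fun x : M.subgroupOf D => (⟨(x : D), mem_subgroupOf.mp x.2⟩ : M))
        (fun x y hxy => by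
          have h1 : ((x : D) : H) = ((y : D) : H) := congrArg (fun m : M => (m : H)) hxy
          exact Subtype.ext (Subtype.ext h1))
    exact (Group.fg_iff_subgroup_fg _).mp inferInstance
  have hZne : M.subgroupOf D ≠ ⊤ := by
    intro h0
    have h1 : D ≤ M := subgroupOf_eq_top.mp h0
    rw [sup_eq_right.mpr h1] at hDM
    exact hne hDM
  obtain ⟨N, hN1, hN2, hN3, hN4⟩ := lgq_central (hH.subgroup D) hDfg _ hZ hZfg hZne
  have hNn : (N.map D.subtype).Normal := by
    refine ⟨fun n hn g => ?_⟩
    obtain ⟨d, hd, rfl⟩ := hn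
    obtain ⟨p, hp, z, hz, rfl⟩ := key g
    have hc := hcomm d d.2 z hz
    refine ⟨⟨p, hp⟩ * d * ⟨p, hp⟩⁻¹, hN1.conj_mem d hd _, ?_⟩
    simp only [map_mul, map_inv, Subgroup.coe_subtype]
    calc p * (d : H) * p⁻¹ = p * ((d : H) * z) * z⁻¹ * p⁻¹ := by group
      _ = p * (z * (d : H)) * z⁻¹ * p⁻¹ := by rw [hc]
      _ = p * z * (d : H) * (p * z)⁻¹ := by group
  have hNi : (N.map D.subtype).FiniteIndex := by
    refine ⟨?_⟩
    rw [index_map_subtype]
    exact mul_ne_zero hN2.index_ne_zero hD.index_ne_zero
  have htop : N.map D.subtype ⊔ M = ⊤ := by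
    have := hNn
    have := hNi
    exact hno _ inferInstance (finiteIndex_of_le le_sup_left) le_sup_right
  apply hN3
  rw [eq_top_iff]
  intro x _
  have hx : (x : H) ∈ N.map D.subtype ⊔ M := by
    rw [htop]
    trivial
  obtain ⟨n, ⟨d, hd, rfl⟩, m, hm, hnm⟩ := mem_sup_of_normal_right.mp hx
  have h1 : d⁻¹ * x ∈ N := by
    apply hN4
    rw [mem_subgroupOf]
    have h2 : ((d⁻¹ * x : D) : H) = m := by
      rw [Subgroup.coe_mul, ← hnm, Subgroup.coe_inv, Subgroup.coe_subtype, inv_mul_cancel_left]
    rw [h2]
    exact hm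
  have h3 := N.mul_mem hd h1
  rwa [mul_inv_cancel_left] at h3

/-- the core induction -/
theorem LGQ_core (n : ℕ) : ∀ (H : Type u) [Group H], LG H → Group.FG H →
    ∀ (M : Subgroup H) [M.Normal], AP M → ht M < n → M ≠ ⊤ →
      ∃ N : Subgroup H, N.Normal ∧ N.FiniteIndex ∧ N ≠ ⊤ ∧ M ≤ N := by
  induction n with
  | zero => intro H _ _ _ M _ _ h
            omega
  | succ n ih =>
    intro H _ hH hfg M hMn hM hht hne
    rcases finite_or_infinite M with hfin | hinf
    · exact LGQ_finite hH hfg M hne
    · obtain ⟨A, hA1, hA2, -, hA4⟩ := exists_char_free_abelian hM hinf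
      have := hA1
      have hAn : (A.map M.subtype).Normal := ConjAct.normal_of_characteristic_of_normal
      have hAM : A.map M.subtype ≤ M := map_subtype_le A
      have hAfg : (A.map M.subtype).FG := by
        classical
        obtain ⟨S, hS⟩ := hM.1 A
        exact ⟨S.image M.subtype, by rw [Finset.coe_image, ← MonoidHom.map_closure, hS]⟩
      have hAc : ∀ x ∈ A.map M.subtype, ∀ y ∈ A.map M.subtype, x * y = y * x := by
        rintro _ ⟨x, hx, rfl⟩ _ ⟨y, hy, rfl⟩
        rw [← map_mul, ← map_mul, hA2 x hx y hy]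
      have hLG : LG (H ⧸ A.map M.subtype) := by
        refine LGQ_transfer _ hAfg ?_
        intro X hX hAX hXA
        refine LGQ_abelian (hH.subgroup X) ((Group.fg_iff_subgroup_fg X).mpr hX)
          ((A.map M.subtype).subgroupOf X) ?_ ?_ ?_
        · intro x hx y hy
          exact Subtype.ext (hAc x (mem_subgroupOf.mp hx) y (mem_subgroupOf.mp hy))
        · rw [← Group.fg_iff_subgroup_fg]
          have := (Group.fg_iff_subgroup_fg _).mpr hAfg
          exact Group.fg_of_surjective (f := ((subgroupOfEquivOfLe hAX).symm :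
            A.map M.subtype →* (A.map M.subtype).subgroupOf X))
            (subgroupOfEquivOfLe hAX).symm.surjective
        · intro h0
          exact hXA (le_antisymm (subgroupOf_eq_top.mp h0) hAX)
      set π := QuotientGroup.mk' (A.map M.subtype) with hπ
      have hπs : Function.Surjective π := QuotientGroup.mk'_surjective _
      have : (M.map π).Normal := hMn.map π hπs
      have hMπ : (M.map π).comap π = M := by
        rw [comap_map_eq, hπ, QuotientGroup.ker_mk']
        exact sup_eq_left.mpr hAM
      have hker : Infinite (π.subgroupMap M).ker := by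
        have h1 : A ≤ (π.subgroupMap M).ker := by
          intro x hx
          rw [MonoidHom.mem_ker]
          apply Subtype.ext
          exact (QuotientGroup.eq_one_iff (x : H)).mpr ⟨x, hx, rfl⟩
        exact Infinite.of_injective (Subgroup.inclusion h1) (Subgroup.inclusion_injective h1)
      have h1 := ht_lt_of_surjective hM (π.subgroupMap M) (π.subgroupMap_surjective M) hker
      have h2 : AP (M.map π) := AP.of_surjective _ (π.subgroupMap_surjective M) hM
      have h3 : M.map π ≠ ⊤ := by
        intro h0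
        rw [h0, comap_top] at hMπ
        exact hne hMπ.symm
      obtain ⟨N, hN1, hN2, hN3, hN4⟩ := ih (H ⧸ A.map M.subtype) hLG
        (Group.fg_of_surjective hπs) (M.map π) h2 (by omega) h3
      refine ⟨N.comap π, inferInstance, ⟨?_⟩, ?_, ?_⟩
      · rw [index_comap_of_surjective _ hπs]
        exact hN2.index_ne_zero
      · intro h0
        apply hN3
        rw [eq_top_iff]
        intro x _
        obtain ⟨y, rfl⟩ := hπs x
        have hy : y ∈ N.comap π := by
          rw [h0]
          trivial
        exact hy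
      · exact map_le_iff_le_comap.mp hN4

theorem LG.quotient {G : Type*} [Group G] (h : LG G) (M : Subgroup G) [M.Normal] (hM : AP M) :
    LG (G ⧸ M) := by
  have hMfg : M.FG := by
    rw [← Group.fg_iff_subgroup_fg]
    exact Group.fg_def.mpr (hM.1 ⊤)
  refine LGQ_transfer M hMfg ?_
  intro X hX hMX hXM
  have e := subgroupOfEquivOfLe hMX
  refine LGQ_core (ht (M.subgroupOf X) + 1) X (h.subgroup X)
    ((Group.fg_iff_subgroup_fg X).mpr hX) (M.subgroupOf X) ((AP.congr e).mpr hM)
    (Nat.lt_succ_self _) ?_
  intro h0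
  exact hXM (le_antisymm (subgroupOf_eq_top.mp h0) hMX)

end H36.PP
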