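import Pool.Agent.H36.PP.ThmA
import Pool.Agent.H36.PP.LGQ

/-!
# Module ThmB: reduction of the locally graded case to the residually finite case (est. 250 lines)

Among all locally graded counterexamples (`A` nilpotent, `A`, `B` almost polycyclic, and
`B` nilpotent if `c`) choose one with `ht A + ht B` minimal; call it `G`.  It satisfies `MinCE`
(subgroups of locally graded groups are locally graded).  Let `M` be the join of all normal almost
polycyclic subgroups.  They form a directed family (`AP.sup`).  If `M` is not almost polycyclic then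
`AP (G ⧸ M)` by `MinCE.dich`, `M` is finitely generated by `MinCE.fg`, so `M` lies in one of them:
contradiction.  So `AP M`.  `Ḡ = G ⧸ M` is locally graded (`LG.quotient`), is not
almost polycyclic, `ht Ā + ht B̄ ≤ ht A + ht B`, so it is again minimal in the class and satisfies
`MinCE`.  A normal almost polycyclic subgroup of `Ḡ` is trivial (its preimage is almost
polycyclic).  So every normal `N ≠ 1` of `Ḡ` is not almost polycyclic, `AP (Ḡ ⧸ N)` by
`MinCE.dich`, and `N` is finitely generated by `MinCE.fg`.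
Residual finiteness: let `J` be the intersection of all normal subgroups of finite index and suppose
`J ≠ 1`.  `J` is finitely generated, `AP (Ḡ ⧸ J)`; `J` has a proper normal subgroup of finite index,
hence (`exists_normal_core`) a subgroup `T < J`, normal in `Ḡ`, of finite index in `J`;
`AP (Ḡ ⧸ T)` by `AP.quotient_of_le`, so `Ḡ ⧸ T` is residually finite (`AP.rf`): an element of
`J \ T` survives in a finite quotient, contradiction.
The last property is `MinCE.exists_fab`.
-/

set_option autoImplicit false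

universe u

namespace H36.PP

open Subgroup

/-- the class of locally graded counterexamples with given sum of lengths -/
def ThmB_Cls (c : Prop) (X : Type u) [Group X] (A B : Subgroup X) : Prop :=
  Fact A B ∧ Group.IsNilpotent A ∧ AP A ∧ AP B ∧ (c → Group.IsNilpotent B) ∧ LG X ∧ ¬ AP X

theorem ThmB_nil_subgroupOf {X : Type u} [Group X] {A X' A' : Subgroup X} (hn : Group.IsNilpotent A)
    (h1 : A' ≤ A) (h2 : A' ≤ X') : Group.IsNilpotent (A'.subgroupOf X') := by
  have := hn
  have h3 : Group.IsNilpotent (A'.subgroupOf A) := inferInstance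
  have h4 : Group.IsNilpotent A' := Group.nilpotent_of_mulEquiv (Subgroup.subgroupOfEquivOfLe h1)
  exact Group.nilpotent_of_mulEquiv (Subgroup.subgroupOfEquivOfLe h2).symm

/-- a minimal member of the class is a minimal counterexample -/
theorem ThmB_minCE {c : Prop} {X : Type u} [Group X] {A B : Subgroup X} (h : ThmB_Cls c X A B)
    (hmin : ∀ (Y : Type u) (_ : Group Y) (A' B' : Subgroup Y), ThmB_Cls c Y A' B' →
      ht A + ht B ≤ ht A' + ht B') : MinCE X A B := by
  obtain ⟨hf, hn, hA, hB, hc, hLG, hG⟩ := h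
  refine ⟨hf, hn, hA, hB, hG, ?_⟩
  intro X' A' B' hA' hB' hf' hlt
  by_contra hX'
  obtain ⟨hAX, hBX, hfac⟩ := hf'
  have hcls : ThmB_Cls c X' (A'.subgroupOf X') (B'.subgroupOf X') := by
    refine ⟨?_, ThmB_nil_subgroupOf hn hA' hAX, ?_, ?_, ?_, hLG.subgroup X', hX'⟩
    · intro g
      obtain ⟨a, ha, b, hb, hab⟩ := hfac g g.2
      exact ⟨⟨a, hAX ha⟩, ha, ⟨b, hBX hb⟩, hb, Subtype.ext hab⟩
    · exact (AP.congr (Subgroup.subgroupOfEquivOfLe hAX)).mpr (hA.mono hA')
    · exact (AP.congr (Subgroup.subgroupOfEquivOfLe hBX)).mpr (hB.mono hB')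
    · intro h
      exact ThmB_nil_subgroupOf (hc h) hB' hBX
  have := hmin X' inferInstance _ _ hcls
  rw [ht_congr (Subgroup.subgroupOfEquivOfLe hAX), ht_congr (Subgroup.subgroupOfEquivOfLe hBX)]
    at this
  omega

/-- extensions through a surjective homomorphism -/
theorem ThmB_ext {X Y : Type u} [Group X] [Group Y] (f : X →* Y) (hf : Function.Surjective f)
    (hk : AP f.ker) (hY : AP Y) : AP X :=
  AP.ext f.ker hk ((AP.congr (QuotientGroup.quotientKerEquivOfSurjective f hf)).mpr hY)

/-- the preimage of an almost polycyclic subgroup of the quotient by an almost polycyclic one -/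
theorem ThmB_comap {X : Type u} [Group X] (M : Subgroup X) [M.Normal] (hM : AP M)
    (N : Subgroup (X ⧸ M)) (hN : AP N) : AP (N.comap (QuotientGroup.mk' M) : Subgroup X) := by
  let π := QuotientGroup.mk' M
  refine ThmB_ext (π.subgroupComap N)
    (π.subgroupComap_surjective_of_surjective N (QuotientGroup.mk'_surjective M)) ?_ hN
  have hmem : ∀ x : (N.comap π : Subgroup X), x ∈ (π.subgroupComap N).ker → (x : X) ∈ M := by
    intro x hx
    rw [MonoidHom.mem_ker] at hx
    have h1 : ((π.subgroupComap N x : N) : X ⧸ M) = 1 := by rw [hx]; rfl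
    have h2 : π (x : X) = 1 := h1
    exact (QuotientGroup.eq_one_iff (x : X)).mp h2
  let g : (π.subgroupComap N).ker →* M :=
    { toFun := fun x => ⟨(x : (N.comap π : Subgroup X)), hmem x.1 x.2⟩
      map_one' := rfl
      map_mul' := fun _ _ => rfl }
  refine AP.of_injective g ?_ hM
  intro x y hxy
  apply Subtype.ext
  apply Subtype.ext
  exact congrArg (fun z : M => (z : X)) hxy

/-- the join of all normal almost polycyclic subgroups of a minimal counterexample is almost
polycyclic -/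
theorem ThmB_join {X : Type u} [Group X] {A B : Subgroup X} (h : MinCE X A B) :
    ∃ M : Subgroup X, M.Normal ∧ AP M ∧ ∀ N : Subgroup X, N.Normal → AP N → N ≤ M := by
  let K : Set (Subgroup X) := {N | N.Normal ∧ AP N}
  have hbot : (⊥ : Subgroup X) ∈ K := by
    refine ⟨inferInstance, ?_⟩
    have : Finite (⊥ : Subgroup X) := inferInstance
    exact AP.of_finite
  have hdir : DirectedOn (· ≤ ·) K := by
    rintro N ⟨hN, hN'⟩ L ⟨hL, hL'⟩
    exact ⟨N ⊔ L, ⟨inferInstance, AP.sup N L hN' hL'⟩, le_sup_left, le_sup_right⟩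
  have hmem : ∀ x, x ∈ sSup K ↔ ∃ s ∈ K, x ∈ s := fun x => mem_sSup_of_directedOn ⟨⊥, hbot⟩ hdir
  have hnorm : (sSup K).Normal := by
    refine ⟨fun x hx g => ?_⟩
    obtain ⟨s, hs, hxs⟩ := (hmem x).mp hx
    exact (hmem _).mpr ⟨s, hs, hs.1.conj_mem x hxs g⟩
  refine ⟨sSup K, hnorm, ?_, fun N hN hN' => le_sSup ⟨hN, hN'⟩⟩
  by_contra hM
  have hq := (h.dich (sSup K) hM).1
  obtain ⟨S, hS⟩ := h.fg (sSup K) hq
  -- a finite set of generators lies in one member
  have hfin : ∀ S : Finset X, (∀ x ∈ S, x ∈ sSup K) → ∃ s ∈ K, ∀ x ∈ S, x ∈ s := by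
    classical
    intro S
    induction S using Finset.induction_on with
    | empty => exact fun _ => ⟨⊥, hbot, fun x hx => absurd hx (Finset.notMem_empty x)⟩
    | insert a S _ ih =>
      intro hS
      obtain ⟨s, hs, hs'⟩ := ih fun x hx => hS x (Finset.mem_insert_of_mem hx)
      obtain ⟨t, ht, hat⟩ := (hmem a).mp (hS a (Finset.mem_insert_self a S))
      obtain ⟨w, hw, hsw, htw⟩ := hdir s hs t ht
      refine ⟨w, hw, fun x hx => ?_⟩
      rcases Finset.mem_insert.mp hx with rfl | hx
      · exact htw hat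
      · exact hsw (hs' x hx)
  obtain ⟨s, hs, hs'⟩ := hfin S fun x hx => by
    rw [← hS]
    exact subset_closure hx
  have hle : sSup K ≤ s := by
    rw [← hS, closure_le]
    exact fun x hx => hs' x hx
  exact hM (hs.2.mono hle)

/-- residual finiteness -/
theorem ThmB_rf {X : Type u} [Group X] (hLG : LG X)
    (hN : ∀ (N : Subgroup X) [N.Normal], N ≠ ⊥ → N.FG ∧ AP (X ⧸ N)) : RF X := by
  by_contra hrf
  simp only [RF, not_forall, not_exists, not_and, not_not] at hrf
  obtain ⟨g, hg1, hg⟩ := hrf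
  let K : Set (Subgroup X) := {N | N.Normal ∧ N.FiniteIndex}
  have hJn : (sInf K).Normal := by
    refine ⟨fun x hx g => ?_⟩
    rw [mem_sInf] at hx ⊢
    exact fun p hp => hp.1.conj_mem x (hx p hp) g
  have hJ : sInf K ≠ ⊥ := by
    intro h
    apply hg1
    have : g ∈ sInf K := by
      rw [mem_sInf]
      exact fun p hp => hg p hp.1 hp.2
    rw [h] at this
    exact mem_bot.mp this
  set J := sInf K with hJdef
  obtain ⟨hJfg, hJq⟩ := hN J hJ
  obtain ⟨N, hNn, hNt, hNf⟩ := hLG J hJfg hJ
  have hSle : N.map J.subtype ≤ J := map_subtype_le N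
  have hSrel : (N.map J.subtype).relIndex J ≠ 0 := by
    have e : (N.map J.subtype).subgroupOf J = N :=
      Subgroup.comap_map_eq_self_of_injective J.subtype_injective N
    rw [relIndex, e]
    exact hNf.index_ne_zero
  obtain ⟨T, hTn, hTS, hTrel⟩ := exists_normal_core J hJfg (N.map J.subtype) hSle hSrel
  have hTJ : T ≤ J := hTS.trans hSle
  have hfinT : (T.subgroupOf J).FiniteIndex := ⟨hTrel⟩
  have hfinQ : Finite (J.map (QuotientGroup.mk' T) : Subgroup (X ⧸ T)) := by
    let f := (QuotientGroup.mk' T).subgroupMap J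
    have hker : f.ker = T.subgroupOf J := by
      ext x
      rw [MonoidHom.mem_ker, mem_subgroupOf]
      constructor
      · intro hx
        have h1 : ((f x : (J.map (QuotientGroup.mk' T) : Subgroup (X ⧸ T))) : X ⧸ T) = 1 := by
          rw [hx]; rfl
        exact (QuotientGroup.eq_one_iff (x : X)).mp h1
      · intro hx
        apply Subtype.ext
        exact (QuotientGroup.eq_one_iff (x : X)).mpr hx
    have hfk : Finite (J ⧸ f.ker) := by
      rw [hker]
      infer_instance
    exact Finite.of_equiv _ (QuotientGroup.quotientKerEquivOfSurjective f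
      ((QuotientGroup.mk' T).subgroupMap_surjective J)).toEquiv
  have hapT : AP (X ⧸ T) := AP.quotient_of_le T J hTJ AP.of_finite hJq
  have hrfT := hapT.rf
  -- an element of J outside T
  have hex : ∃ x ∈ J, x ∉ T := by
    by_contra hno
    push Not at hno
    apply hNt
    rw [eq_top_iff]
    intro x _
    obtain ⟨y, hy, hyx⟩ := hTS (hno x x.2)
    have : y = x := Subtype.ext hyx
    rwa [← this]
  obtain ⟨x, hxJ, hxT⟩ := hex
  have hx1 : (QuotientGroup.mk x : X ⧸ T) ≠ 1 := fun h => hxT ((QuotientGroup.eq_one_iff x).mp h)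
  obtain ⟨L, hLn, hLf, hxL⟩ := hrfT _ hx1
  apply hxL
  have hmem : L.comap (QuotientGroup.mk' T) ∈ K := by
    refine ⟨inferInstance, ?_⟩
    refine ⟨?_⟩
    rw [index_comap_of_surjective L (QuotientGroup.mk'_surjective T)]
    exact hLf.index_ne_zero
  have := (sInf_le hmem : sInf K ≤ _) hxJ
  exact this

theorem thmB (c : Prop) {G : Type u} [Group G] (A B : Subgroup G) (hf : Fact A B)
    (hn : Group.IsNilpotent A) (hA : AP A) (hB : AP B) (hc : c → Group.IsNilpotent B)
    (hLG : LG G) (hG : ¬ AP G) :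
    ∃ (X : Type u) (_ : Group X) (A' B' : Subgroup X), Fact A' B' ∧ Group.IsNilpotent A' ∧
      AP A' ∧ AP B' ∧ (c → Group.IsNilpotent B') ∧ RF X ∧ ¬ AP X ∧
      (∀ (N : Subgroup X) [N.Normal], N ≠ ⊥ → N.FG ∧ AP (X ⧸ N)) ∧
      ∃ (N : Subgroup X) (_ : N.Normal), Infinite N ∧ N.FG ∧ AP (X ⧸ N) ∧
        ∀ K : Subgroup N, K.FiniteIndex → ∀ f : K →* Multiplicative ℤ, f = 1 := by
  classical
  -- a minimal member of the class
  let P : ℕ → Prop := fun n => ∃ (X : Type u) (_ : Group X) (A B : Subgroup X),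
    ThmB_Cls c X A B ∧ ht A + ht B = n
  have hex : ∃ n, P n := ⟨_, G, inferInstance, A, B, ⟨hf, hn, hA, hB, hc, hLG, hG⟩, rfl⟩
  obtain ⟨Y, hY, A₁, B₁, hcls, hsum⟩ := Nat.find_spec hex
  have hmin : ∀ (Z : Type u) (_ : Group Z) (A' B' : Subgroup Z), ThmB_Cls c Z A' B' →
      ht A₁ + ht B₁ ≤ ht A' + ht B' := by
    intro Z hZ A' B' h
    rw [hsum]
    exact Nat.find_min' hex ⟨Z, hZ, A', B', h, rfl⟩
  have hmce := ThmB_minCE hcls hmin
  obtain ⟨M, hMn, hMap, hMmax⟩ := ThmB_join hmce
  obtain ⟨hf₁, hn₁, hA₁, hB₁, hc₁, hLG₁, hG₁⟩ := hcls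
  -- the quotient
  let π : Y →* Y ⧸ M := QuotientGroup.mk' M
  have hπ : Function.Surjective π := QuotientGroup.mk'_surjective M
  have hLGq : LG (Y ⧸ M) := hLG₁.quotient M hMap
  have hGq : ¬ AP (Y ⧸ M) := fun h => hG₁ (AP.ext M hMap h)
  have hclsq : ThmB_Cls c (Y ⧸ M) (A₁.map π) (B₁.map π) := by
    refine ⟨?_, ?_, ?_, ?_, ?_, hLGq, hGq⟩
    · intro x
      obtain ⟨g, rfl⟩ := hπ x
      obtain ⟨a, ha, b, hb, rfl⟩ := hf₁ g
      exact ⟨π a, mem_map_of_mem π ha, π b, mem_map_of_mem π hb, map_mul π a b⟩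
    · have := hn₁
      exact Group.nilpotent_of_surjective (π.subgroupMap A₁) (π.subgroupMap_surjective A₁)
    · exact AP.of_surjective (π.subgroupMap A₁) (π.subgroupMap_surjective A₁) hA₁
    · exact AP.of_surjective (π.subgroupMap B₁) (π.subgroupMap_surjective B₁) hB₁
    · intro h
      have := hc₁ h
      exact Group.nilpotent_of_surjective (π.subgroupMap B₁) (π.subgroupMap_surjective B₁)
  have hle1 : ht (A₁.map π : Subgroup (Y ⧸ M)) ≤ ht A₁ :=
    ht_le_of_surjective hA₁ (π.subgroupMap A₁) (π.subgroupMap_surjective A₁)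
  have hle2 : ht (B₁.map π : Subgroup (Y ⧸ M)) ≤ ht B₁ :=
    ht_le_of_surjective hB₁ (π.subgroupMap B₁) (π.subgroupMap_surjective B₁)
  have hmceq : MinCE (Y ⧸ M) (A₁.map π) (B₁.map π) :=
    ThmB_minCE hclsq fun Z hZ A' B' h => (add_le_add hle1 hle2).trans (hmin Z hZ A' B' h)
  -- normal subgroups
  have hNorm : ∀ (N : Subgroup (Y ⧸ M)) [N.Normal], N ≠ ⊥ → N.FG ∧ AP ((Y ⧸ M) ⧸ N) := by
    intro N hN hne
    have hnap : ¬ AP N := by
      intro hNap
      have h1 : AP (N.comap π : Subgroup Y) := ThmB_comap M hMap N hNap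
      have h2 : N.comap π ≤ M := hMmax _ inferInstance h1
      apply hne
      rw [eq_bot_iff]
      intro x hx
      obtain ⟨g, rfl⟩ := hπ x
      have h3 : g ∈ M := h2 hx
      rw [mem_bot]
      exact (QuotientGroup.eq_one_iff g).mpr h3
    have h4 := (hmceq.dich N hnap).1
    exact ⟨hmceq.fg N h4, h4⟩
  obtain ⟨hf₂, hn₂, hA₂, hB₂, hc₂, -, hG₂⟩ := hclsq
  exact ⟨Y ⧸ M, inferInstance, A₁.map π, B₁.map π, hf₂, hn₂, hA₂, hB₂, hc₂,
    ThmB_rf hLGq hNorm, hG₂, hNorm, hmceq.exists_fab⟩

end H36.PP
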