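import Pool.Agent.H36.PP.DerivT

/-!
# Module DerivV: derivations of nilpotent groups, the rational case   (est. 300 lines)

`H` finitely generated nilpotent (all subgroups finitely generated), `V` a rational
representation of finite dimension, `δ : H → V` a derivation whose set of values is a subgroup
`M`.  Then `M` is finitely generated.

* `deriv_irred` (`V` irreducible).  Assume `M ≠ 0`.
  - `H` acts trivially: `δ` is a homomorphism and `M` is its image.
  - otherwise let `C` be the kernel of the action; the nilpotent group `H/C ≠ 1` has a nontrivial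
    central element, the image of `z ∈ H`.  `ρ z - 1` commutes with the action and is not 0, so it
    is invertible (Schur: kernel and range are invariant).  `δ` restricted to `C` is a
    homomorphism and `δ (h c h⁻¹) = ρ h (δ c)`, so `L = δ(C)` is an invariant finitely generated
    subgroup.
    * `L ≠ 0`: the span of `L` is invariant, so it is `V`, and `V/L` is torsion.  `M/L` is
      a torsion group with the rank bound `dim V` (`ARk.of_vec`), `δ` induces a derivation onto
      it: it is finite by `deriv_torsion_finite`.  So `M` is finitely generated.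
    * `L = 0`: `δ (g c) = δ g` for `c ∈ C`.  From `z h = h z c` one gets
      `(ρ z - 1) (δ h) = (ρ h - 1) (δ z)`; with `v = (ρ z - 1)⁻¹ (δ z)`: `δ h = ρ h v - v` for all
      `h`.  So `v + M` is the orbit `H v`, and `v ≠ 0`.  The span of `M` is `V` (it is invariant
      and not 0), so `N v ∈ M` for some integer `N > 0`.  For every integer `m` with
      `m ≡ 1 mod N` we get `m v = v + (m-1) v ∈ H v`.  The subgroup `S` of all `h` with
      `ρ h v ∈ ℚ v` is finitely generated and maps homomorphically into `ℚˣ` (the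
      eigenvalue), and the image contains all nonzero integers `m ≡ 1 mod N`: impossible,
      since a finitely generated subgroup of `ℚˣ` involves only finitely many primes (for a
      prime `p` not dividing `N` there is `m ≡ 1 mod N`, `p ∣ m`, `m ≠ 0`).
* `deriv_vec`: induction on the dimension; if `0 ≠ W ≠ V` is invariant, use `H_W = δ⁻¹ W` with the
  representation `W` (values `M ⊓ W`) and `H` with the representation `V ⧸ W`.
* `deriv_fg`: `T` = torsion subgroup of `M`: it is invariant, `δ⁻¹ T → T` is onto, `T` is finite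
  by `deriv_torsion_finite`; apply `embed_vec` and `deriv_vec` to `M ⧸ T`.
-/

set_option autoImplicit false

universe u v

namespace H36.PP

theorem DerivV_max {H : Type*} [Group H] (hH : Max H) (K : Subgroup H) : Max K := by
  intro L
  have h1 : (L.map K.subtype).FG := hH _
  have h2 : Group.FG (L.map K.subtype) := (Group.fg_iff_subgroup_fg _).mpr h1
  have h3 : Group.FG L :=
    Group.fg_of_surjective (f := (L.equivMapOfInjective K.subtype
      (Subgroup.subtype_injective K)).symm.toMonoidHom)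
      (L.equivMapOfInjective K.subtype (Subgroup.subtype_injective K)).symm.surjective
  exact (Group.fg_iff_subgroup_fg _).mp h3

theorem DerivV_groupfg {H : Type*} [Group H] (hH : Max H) : Group.FG H :=
  Group.fg_def.mpr (hH ⊤)

/-- extensions -/
theorem DerivV_fg_ext {V V' : Type*} [AddCommGroup V] [AddCommGroup V'] (f : V →+ V')
    (M : AddSubgroup V) (h1 : (M.map f).FG) (h2 : (M ⊓ f.ker).FG) : M.FG := by
  have h3 : (AddSubgroup.toIntSubmodule M).FG := by
    apply Submodule.fg_of_fg_map_of_fg_inf_ker f.toIntLinearMap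
    · rw [Submodule.fg_iff_addSubgroup_fg]
      exact h1
    · rw [Submodule.fg_iff_addSubgroup_fg]
      exact h2
  rw [Submodule.fg_iff_addSubgroup_fg] at h3
  exact h3

theorem DerivV_fg_finite {V : Type*} [AddCommGroup V] (M : AddSubgroup V) [Finite M] : M.FG := by
  rw [AddSubgroup.fg_iff]
  exact ⟨M, AddSubgroup.closure_eq M, Set.toFinite _⟩

theorem DerivV_span_mul {V : Type*} [AddCommGroup V] [Module ℚ V] (L : AddSubgroup V) (v : V)
    (hv : v ∈ Submodule.span ℚ (L : Set V)) : ∃ n : ℕ, 0 < n ∧ n • v ∈ L := by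
  induction hv using Submodule.span_induction with
  | mem x hx => exact ⟨1, one_pos, by simpa using hx⟩
  | zero => exact ⟨1, one_pos, by simp⟩
  | add x y _ _ hx hy =>
    obtain ⟨n, hn, hx⟩ := hx
    obtain ⟨m, hm, hy⟩ := hy
    refine ⟨n * m, Nat.mul_pos hn hm, ?_⟩
    rw [smul_add]
    apply L.add_mem
    · rw [mul_comm, mul_smul]; exact L.nsmul_mem hx m
    · rw [mul_smul]; exact L.nsmul_mem hy n
  | smul q x _ hx =>
    obtain ⟨n, hn, hx⟩ := hx
    refine ⟨q.den * n, Nat.mul_pos q.den_pos hn, ?_⟩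
    have h1 : (q.den * n) • q • x = q.num • (n • x) := by
      have h2 : (q.den * n) • q • x = (((q.den : ℚ) * q) * (n : ℚ)) • x := by
        rw [← Nat.cast_smul_eq_nsmul ℚ, smul_smul]
        push_cast
        congr 1
        ring
      have h3 : (q.den : ℚ) * q = q.num := by
        rw [mul_comm]; exact Rat.mul_den_eq_num q
      rw [h2, h3, mul_smul, Int.cast_smul_eq_zsmul, Nat.cast_smul_eq_nsmul]
    rw [h1]
    exact L.zsmul_mem hx _

/-- values of a homomorphism -/
theorem DerivV_hom {H V : Type*} [Group H] [AddCommGroup V] (δ : H → V) (K : Subgroup H)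
    (hK : K.FG) (hadd : ∀ g ∈ K, ∀ h ∈ K, δ (g * h) = δ g + δ h) (L : AddSubgroup V)
    (hL : ∀ v, v ∈ L ↔ ∃ k ∈ K, δ k = v) : L.FG := by
  classical
  obtain ⟨T, hT⟩ := hK
  have hone : δ 1 = 0 := by
    have h := hadd 1 K.one_mem 1 K.one_mem
    rw [mul_one] at h
    exact left_eq_add.mp h
  refine ⟨T.image δ, le_antisymm ?_ ?_⟩
  · rw [AddSubgroup.closure_le]
    intro x hx
    obtain ⟨t, ht, rfl⟩ := Finset.mem_image.mp (Finset.mem_coe.mp hx)
    refine (hL _).mpr ⟨t, ?_, rfl⟩
    rw [← hT]
    exact Subgroup.subset_closure ht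
  · intro x hx
    obtain ⟨k, hk, rfl⟩ := (hL x).mp hx
    clear hx
    rw [← hT] at hk
    induction hk using Subgroup.closure_induction with
    | mem x hx =>
      exact AddSubgroup.subset_closure (Finset.mem_coe.mpr (Finset.mem_image_of_mem δ hx))
    | one => rw [hone]; exact AddSubgroup.zero_mem _
    | mul x y hx hy h1 h2 =>
      rw [hT] at hx hy
      rw [hadd x hx y hy]
      exact AddSubgroup.add_mem _ h1 h2
    | inv x hx h1 =>
      rw [hT] at hx
      have h2 := hadd x⁻¹ (K.inv_mem hx) x hx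
      rw [inv_mul_cancel, hone] at h2
      have h3 : δ x⁻¹ = - δ x := eq_neg_of_add_eq_zero_left h2.symm
      rw [h3]
      exact AddSubgroup.neg_mem _ h1

/-- the torsion case for a subgroup of values -/
theorem DerivV_tors {H V : Type*} [Group H] [AddCommGroup V] (act : H → (V →+ V))
    (hH : Group.FG H) (δ : H → V) (hδ : ∀ g h, δ (g * h) = δ g + act g (δ h))
    (M : AddSubgroup V) (hM : ∀ v, v ∈ M ↔ ∃ h, δ h = v) (r : ℕ) (hr : ARk M r)
    (ht : ∀ m ∈ M, ∃ n : ℕ, 0 < n ∧ n • m = 0) : Finite M := by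
  have hmem : ∀ h, δ h ∈ M := fun h => (hM _).mpr ⟨h, rfl⟩
  have hinv : ∀ g, ∀ m ∈ M, act g m ∈ M := by
    intro g m hm
    obtain ⟨h, rfl⟩ := (hM m).mp hm
    have h1 : act g (δ h) = δ (g * h) - δ g := by rw [hδ]; abel
    rw [h1]
    exact M.sub_mem (hmem _) (hmem _)
  refine DerivT_torsion_finite
    (act := fun g => ((act g).comp M.subtype).codRestrict M (fun m => hinv g m m.2))
    hH r hr ?_ (fun h => (⟨δ h, hmem h⟩ : M)) ?_ ?_
  · intro m
    obtain ⟨n, hn, h⟩ := ht m m.2
    exact ⟨n, hn, Subtype.ext h⟩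
  · intro g h
    exact Subtype.ext (hδ g h)
  · intro m
    obtain ⟨h, hh⟩ := (hM m).mp m.2
    exact ⟨h, Subtype.ext hh⟩

/-- a finitely generated group of rationals does not contain an arithmetic progression -/
theorem DerivV_arith {H V : Type*} [Group H] [AddCommGroup V] [Module ℚ V]
    (hH : Max H) (ρ : H →* (V →ₗ[ℚ] V)) (v : V) (hv : v ≠ 0) (N : ℕ) (hN : 0 < N)
    (h : ∀ k : ℕ, ∃ g : H, ρ g v = ((1 + N * k : ℕ) : ℚ) • v) : False := by
  classical
  have hmul : ∀ g h x, ρ (g * h) x = ρ g (ρ h x) := by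
    intro g h x
    rw [map_mul]
    rfl
  let S : Subgroup H :=
    { carrier := {g | ∃ q : ℚ, q ≠ 0 ∧ ρ g v = q • v}
      mul_mem' := by
        rintro a b ⟨q, hq, ha⟩ ⟨q', hq', hb⟩
        refine ⟨q' * q, mul_ne_zero hq' hq, ?_⟩
        rw [hmul, hb, map_smul, ha, smul_smul]
      one_mem' := ⟨1, one_ne_zero, by rw [map_one, one_smul]; rfl⟩
      inv_mem' := by
        rintro a ⟨q, hq, ha⟩
        refine ⟨q⁻¹, inv_ne_zero hq, ?_⟩
        have h1 : ρ a⁻¹ (ρ a v) = v := by
          rw [← hmul, inv_mul_cancel, map_one]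
          rfl
        rw [ha, map_smul] at h1
        rw [← h1, smul_smul, inv_mul_cancel₀ hq, one_smul, h1] }
  obtain ⟨T, hT⟩ := hH S
  have hTS : ∀ t : H, t ∈ T → ∃ q : ℚ, q ≠ 0 ∧ ρ t v = q • v := by
    intro t ht
    have : t ∈ S := by
      rw [← hT]
      exact Subgroup.subset_closure ht
    exact this
  choose! q hq0 hq using hTS
  obtain ⟨p, hp, hpp⟩ := Nat.exists_infinite_primes
    (N + ∑ t ∈ T, ((q t).num.natAbs + (q t).den) + 1)
  have : _root_.Fact p.Prime := ⟨hpp⟩
  have hval : ∀ t ∈ T, padicValRat p (q t) = 0 := by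
    intro t ht
    have h1 : (q t).num.natAbs + (q t).den ≤ ∑ t ∈ T, ((q t).num.natAbs + (q t).den) :=
      Finset.single_le_sum (f := fun t => (q t).num.natAbs + (q t).den)
        (fun _ _ => Nat.zero_le _) ht
    have h2 : (q t).num.natAbs ≠ 0 := by
      rw [Int.natAbs_ne_zero]
      exact Rat.num_ne_zero.mpr (hq0 t ht)
    have h3 : (q t).den ≠ 0 := (q t).den_ne_zero
    have h4 : padicValInt p (q t).num = 0 := by
      unfold padicValInt
      exact padicValNat.eq_zero_of_not_dvd (fun hd => by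
        have := Nat.le_of_dvd (Nat.pos_of_ne_zero h2) hd
        omega)
    have h5 : padicValNat p (q t).den = 0 :=
      padicValNat.eq_zero_of_not_dvd (fun hd => by
        have := Nat.le_of_dvd (Nat.pos_of_ne_zero h3) hd
        omega)
    unfold padicValRat
    rw [h4, h5]
    simp
  have hall : ∀ g ∈ S, ∃ x : ℚ, x ≠ 0 ∧ ρ g v = x • v ∧ padicValRat p x = 0 := by
    intro g hg
    rw [← hT] at hg
    induction hg using Subgroup.closure_induction with
    | mem x hx => exact ⟨q x, hq0 x hx, hq x hx, hval x hx⟩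
    | one => exact ⟨1, one_ne_zero, by rw [map_one, one_smul]; rfl, by simp⟩
    | mul a b _ _ ha hb =>
      obtain ⟨x, hx, ha, hx'⟩ := ha
      obtain ⟨y, hy, hb, hy'⟩ := hb
      refine ⟨y * x, mul_ne_zero hy hx, ?_, ?_⟩
      · rw [hmul, hb, map_smul, ha, smul_smul]
      · rw [padicValRat.mul hy hx, hx', hy', add_zero]
    | inv a _ ha =>
      obtain ⟨x, hx, ha, hx'⟩ := ha
      refine ⟨x⁻¹, inv_ne_zero hx, ?_, ?_⟩
      · have h1 : ρ a⁻¹ (ρ a v) = v := by
          rw [← hmul, inv_mul_cancel, map_one]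
          rfl
        rw [ha, map_smul] at h1
        rw [← h1, smul_smul, inv_mul_cancel₀ hx, one_smul, h1]
      · rw [padicValRat.inv, hx', neg_zero]
  have hco : Nat.Coprime N p := by
    rw [Nat.coprime_comm, Nat.Prime.coprime_iff_not_dvd hpp]
    intro hd
    have := Nat.le_of_dvd hN hd
    omega
  obtain ⟨m, hm1, hm2⟩ := Nat.chineseRemainder hco 1 0
  have hm1' : m + N * p ≡ 1 [MOD N] := by
    have : m + N * p ≡ m [MOD N] := by
      simp [Nat.ModEq]
    exact this.trans hm1
  have hNp : 0 < N * p := Nat.mul_pos hN hpp.pos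
  have h1 : 1 ≤ m + N * p := by omega
  have h2 : N ∣ (m + N * p) - 1 := (Nat.modEq_iff_dvd' h1).mp hm1'.symm
  obtain ⟨k, hk⟩ := h2
  have hk' : 1 + N * k = m + N * p := by omega
  have hpd : p ∣ m + N * p := by
    have h3 : p ∣ m := (Nat.modEq_zero_iff_dvd).mp hm2
    exact dvd_add h3 (Dvd.intro_left N rfl)
  obtain ⟨g, hg⟩ := h k
  rw [hk'] at hg
  have hne : ((m + N * p : ℕ) : ℚ) ≠ 0 := by
    have : m + N * p ≠ 0 := by omega
    exact_mod_cast this
  obtain ⟨x, hx, hx1, hx2⟩ := hall g ⟨_, hne, hg⟩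
  have h5 : x = ((m + N * p : ℕ) : ℚ) := smul_left_injective ℚ hv (by
    change x • v = ((m + N * p : ℕ) : ℚ) • v
    rw [← hx1, hg])
  rw [h5] at hx2
  have h6 : padicValNat p (m + N * p) = 0 := by
    have : padicValRat p ((m + N * p : ℕ) : ℚ) = ((padicValNat p (m + N * p) : ℕ) : ℤ) :=
      padicValRat.of_nat
    rw [this] at hx2
    exact_mod_cast hx2
  have h7 : 1 ≤ padicValNat p (m + N * p) :=
    one_le_padicValNat_of_dvd (by omega) hpd
  omega

theorem deriv_irred {H V : Type*} [Group H] [AddCommGroup V] [Module ℚ V]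
    [FiniteDimensional ℚ V] (hH : Max H) (hn : Group.IsNilpotent H) (ρ : H →* (V →ₗ[ℚ] V))
    (hirr : ∀ W : Submodule ℚ V, (∀ h, ∀ w ∈ W, ρ h w ∈ W) → W = ⊥ ∨ W = ⊤)
    (δ : H → V) (hδ : ∀ g h, δ (g * h) = δ g + ρ g (δ h)) (M : AddSubgroup V)
    (hM : ∀ v, v ∈ M ↔ ∃ h, δ h = v) : M.FG := by
  classical
  have hmul : ∀ g h x, ρ (g * h) x = ρ g (ρ h x) := by
    intro g h x
    rw [map_mul]
    rfl
  have hmem : ∀ h, δ h ∈ M := fun h => (hM _).mpr ⟨h, rfl⟩
  have hinv : ∀ g, ∀ m ∈ M, ρ g m ∈ M := by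
    intro g m hm
    obtain ⟨h, rfl⟩ := (hM m).mp hm
    have h1 : ρ g (δ h) = δ (g * h) - δ g := by rw [hδ]; abel
    rw [h1]
    exact M.sub_mem (hmem _) (hmem _)
  have hspan : ∀ L : AddSubgroup V, (∀ g, ∀ x ∈ L, ρ g x ∈ L) → L ≠ ⊥ →
      Submodule.span ℚ (L : Set V) = ⊤ := by
    intro L hL hne
    rcases hirr (Submodule.span ℚ (L : Set V)) (by
      intro h w hw
      have h1 : Submodule.span ℚ (L : Set V) ≤ (Submodule.span ℚ (L : Set V)).comap (ρ h) := by
        rw [Submodule.span_le]
        intro x hx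
        exact Submodule.subset_span (hL h x hx)
      exact h1 hw) with h1 | h1
    · exfalso
      apply hne
      rw [eq_bot_iff]
      intro x hx
      have h2 : x ∈ Submodule.span ℚ (L : Set V) := Submodule.subset_span hx
      rw [h1] at h2
      exact h2
    · exact h1
  by_cases hM0 : M = ⊥
  · rw [hM0]
    exact DerivV_fg_finite _
  have hMspan := hspan M hinv hM0
  by_cases htriv : ∀ h v, ρ h v = v
  · apply DerivV_hom δ ⊤ (hH ⊤) _ M
    · intro v
      rw [hM v]
      constructor
      · rintro ⟨h, hh⟩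
        exact ⟨h, trivial, hh⟩
      · rintro ⟨h, -, hh⟩
        exact ⟨h, hh⟩
    · intro g _ h _
      rw [hδ, htriv]
  -- a central element modulo the kernel
  have hker : ∃ z : H, z ∉ ρ.ker ∧ ∀ h : H, ∃ c ∈ ρ.ker, z * h = h * z * c := by
    have hnt : Nontrivial (H ⧸ ρ.ker) := by
      rw [QuotientGroup.nontrivial_iff]
      intro htop
      apply htriv
      intro h v
      have : h ∈ ρ.ker := by rw [htop]; trivial
      rw [MonoidHom.mem_ker] at this
      rw [this]
      rfl
    have hnil : Group.IsNilpotent (H ⧸ ρ.ker) := inferInstance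
    have hc := Group.IsNilpotent.center_ne_bot (G := H ⧸ ρ.ker)
    obtain ⟨⟨y, hy⟩, hy0⟩ := Subgroup.ne_bot_iff_exists_ne_one.mp hc
    have hy1 : y ≠ 1 := fun h => hy0 (Subtype.ext h)
    obtain ⟨z, rfl⟩ := QuotientGroup.mk_surjective y
    refine ⟨z, ?_, ?_⟩
    · intro h
      exact hy1 ((QuotientGroup.eq_one_iff z).mpr h)
    · intro h
      have h1 := Subgroup.mem_center_iff.mp hy (h : H ⧸ ρ.ker)
      refine ⟨(h * z)⁻¹ * (z * h), ?_, by group⟩
      rw [← QuotientGroup.eq]
      exact h1
  obtain ⟨z, hz, hzc⟩ := hker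
  have hkerρ : ∀ c ∈ ρ.ker, ∀ v, ρ c v = v := by
    intro c hc v
    rw [MonoidHom.mem_ker] at hc
    rw [hc]
    rfl
  have hcomm : ∀ h v, ρ z (ρ h v) = ρ h (ρ z v) := by
    intro h v
    obtain ⟨c, hc, hh⟩ := hzc h
    rw [← hmul, hh, hmul, hkerρ c hc, hmul]
  let D : V →ₗ[ℚ] V := ρ z - LinearMap.id
  have hD : ∀ v, D v = ρ z v - v := fun v => rfl
  have hDcomm : ∀ h v, D (ρ h v) = ρ h (D v) := by
    intro h v
    rw [hD, hD, hcomm, map_sub]
  have hDinj : Function.Injective D := by
    rw [← LinearMap.ker_eq_bot]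
    rcases hirr (LinearMap.ker D) (by
      intro h w hw
      rw [LinearMap.mem_ker] at hw ⊢
      rw [hDcomm, hw, map_zero]) with h1 | h1
    · exact h1
    · exfalso
      apply hz
      rw [MonoidHom.mem_ker]
      ext v
      have h2 : v ∈ LinearMap.ker D := by rw [h1]; trivial
      rw [LinearMap.mem_ker, hD, sub_eq_zero] at h2
      exact h2
  have hDsurj : Function.Surjective D := LinearMap.injective_iff_surjective.mp hDinj
  have hone : δ 1 = 0 := by
    have h := hδ 1 1
    rw [mul_one, map_one] at h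
    exact left_eq_add.mp h
  have haddC : ∀ g ∈ ρ.ker, ∀ h ∈ ρ.ker, δ (g * h) = δ g + δ h := by
    intro g hg h _
    rw [hδ, hkerρ g hg]
  let L : AddSubgroup V :=
    { carrier := {v | ∃ k ∈ ρ.ker, δ k = v}
      zero_mem' := ⟨1, ρ.ker.one_mem, hone⟩
      add_mem' := by
        rintro a b ⟨k, hk, rfl⟩ ⟨l, hl, rfl⟩
        exact ⟨k * l, ρ.ker.mul_mem hk hl, haddC k hk l hl⟩
      neg_mem' := by
        rintro a ⟨k, hk, rfl⟩
        refine ⟨k⁻¹, ρ.ker.inv_mem hk, ?_⟩
        have h2 := haddC k⁻¹ (ρ.ker.inv_mem hk) k hk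
        rw [inv_mul_cancel, hone] at h2
        exact eq_neg_of_add_eq_zero_left h2.symm }
  have hLmem : ∀ v, v ∈ L ↔ ∃ k ∈ ρ.ker, δ k = v := fun v => Iff.rfl
  have hLfg : L.FG := DerivV_hom δ ρ.ker (hH _) haddC L hLmem
  have hLM : L ≤ M := by
    rintro v ⟨k, _, rfl⟩
    exact hmem k
  have hLinv : ∀ g, ∀ x ∈ L, ρ g x ∈ L := by
    rintro h x ⟨c, hc, rfl⟩
    refine ⟨h * c * h⁻¹, ρ.normal_ker.conj_mem c hc h, ?_⟩
    have h1 : δ (h * c * h⁻¹) = δ h + ρ h (δ c) + ρ h (δ h⁻¹) := by
      rw [hδ, hδ, hmul, hkerρ c hc]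
    have h2 : δ h + ρ h (δ h⁻¹) = 0 := by
      rw [← hδ, mul_inv_cancel, hone]
    rw [h1, add_right_comm, h2, zero_add]
  by_cases hL0 : L = ⊥
  · -- the orbit case
    obtain ⟨v, hv⟩ := hDsurj (δ z)
    have hδv : ∀ h, δ h = ρ h v - v := by
      intro h
      apply hDinj
      obtain ⟨c, hc, hh⟩ := hzc h
      have h1 : δ c = 0 := by
        have : δ c ∈ L := ⟨c, hc, rfl⟩
        rw [hL0] at this
        exact this
      have h2 : δ z + ρ z (δ h) = δ h + ρ h (δ z) := by
        rw [← hδ, hh, hδ (h * z) c, h1, map_zero, add_zero, hδ]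
      have h3 : D (δ h) = ρ h (δ z) - δ z := by
        rw [hD]
        have : ρ z (δ h) = δ h + ρ h (δ z) - δ z := by
          rw [← h2]; abel
        rw [this]; abel
      rw [h3, map_sub, hDcomm, hv]
    have hv0 : v ≠ 0 := by
      rintro rfl
      apply hM0
      rw [eq_bot_iff]
      intro x hx
      obtain ⟨h, rfl⟩ := (hM x).mp hx
      rw [hδv h, map_zero, sub_zero]
      exact AddSubgroup.zero_mem _
    obtain ⟨N, hN, hNv⟩ := DerivV_span_mul M v (by rw [hMspan]; trivial)
    exfalso
    refine DerivV_arith hH ρ v hv0 N hN (fun k => ?_)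
    have h1 : (N * k) • v ∈ M := by
      rw [mul_comm, mul_smul]
      exact M.nsmul_mem hNv k
    obtain ⟨g, hg⟩ := (hM _).mp h1
    refine ⟨g, ?_⟩
    rw [hδv] at hg
    have h2 : ρ g v = (N * k) • v + v := by
      rw [← hg]; abel
    rw [h2, Nat.cast_smul_eq_nsmul, add_smul, one_smul, add_comm]
  · -- the lattice case
    have hLspan := hspan L hLinv hL0
    let f : V →+ V ⧸ L := QuotientAddGroup.mk' L
    have hfin : Finite (M.map f) := by
      refine DerivV_tors
        (act := fun g => QuotientAddGroup.map L L (ρ g : V →ₗ[ℚ] V).toAddMonoidHom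
          (fun x hx => hLinv g x hx))
        (DerivV_groupfg hH) (fun h => f (δ h)) ?_ (M.map f) ?_ (Module.finrank ℚ V) ?_ ?_
      · intro g h
        rw [hδ, map_add]
        rfl
      · intro v
        constructor
        · rintro ⟨m, hm, rfl⟩
          obtain ⟨h, rfl⟩ := (hM m).mp hm
          exact ⟨h, rfl⟩
        · rintro ⟨h, rfl⟩
          exact ⟨δ h, hmem h, rfl⟩
      · exact ((ARk.of_vec V).of_surjective f (QuotientAddGroup.mk'_surjective L)).of_injective
          (M.map f).subtype (AddSubgroup.subtype_injective _)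
      · rintro _ ⟨m, _, rfl⟩
        obtain ⟨n, hn, h⟩ := DerivV_span_mul L m (by rw [hLspan]; trivial)
        refine ⟨n, hn, ?_⟩
        rw [← map_nsmul]
        exact (QuotientAddGroup.eq_zero_iff _).mpr h
    refine DerivV_fg_ext f M (DerivV_fg_finite _) ?_
    have h1 : f.ker = L := QuotientAddGroup.ker_mk' L
    rw [h1, inf_eq_right.mpr hLM]
    exact hLfg

theorem DerivV_vec (n : ℕ) : ∀ (H : Type u) (V : Type v) [Group H] [AddCommGroup V] [Module ℚ V]
    [FiniteDimensional ℚ V] (_ : Max H) (_ : Group.IsNilpotent H) (ρ : H →* (V →ₗ[ℚ] V))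
    (δ : H → V) (_ : ∀ g h, δ (g * h) = δ g + ρ g (δ h)) (M : AddSubgroup V)
    (_ : ∀ v, v ∈ M ↔ ∃ h, δ h = v), Module.finrank ℚ V ≤ n → M.FG := by
  induction n with
  | zero =>
    intro H V _ _ _ _ hH hn ρ δ hδ M hM hd
    have h1 : Module.finrank ℚ V = 0 := Nat.le_zero.mp hd
    have : Subsingleton V := Module.finrank_zero_iff.mp h1
    exact DerivV_fg_finite _
  | succ n ih =>
    intro H V _ _ _ _ hH hn ρ δ hδ M hM hd
    by_cases hirr : ∀ W : Submodule ℚ V, (∀ h, ∀ w ∈ W, ρ h w ∈ W) → W = ⊥ ∨ W = ⊤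
    · exact deriv_irred hH hn ρ hirr δ hδ M hM
    push Not at hirr
    obtain ⟨W, hW, hWb, hWt⟩ := hirr
    have hone : δ 1 = 0 := by
      have h := hδ 1 1
      rw [mul_one, map_one] at h
      exact left_eq_add.mp h
    have hinvδ : ∀ g, δ g⁻¹ = - ρ g⁻¹ (δ g) := by
      intro g
      have h := hδ g⁻¹ g
      rw [inv_mul_cancel, hone] at h
      exact eq_neg_of_add_eq_zero_left h.symm
    let K : Subgroup H :=
      { carrier := {h | δ h ∈ W}
        mul_mem' := by
          intro a b ha hb
          simp only [Set.mem_ofPred_eq] at *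
          rw [hδ]
          exact W.add_mem ha (hW _ _ hb)
        one_mem' := by
          simp only [Set.mem_ofPred_eq]
          rw [hone]
          exact W.zero_mem
        inv_mem' := by
          intro a ha
          simp only [Set.mem_ofPred_eq] at *
          rw [hinvδ]
          exact W.neg_mem (hW _ _ ha) }
    have hWlt : Module.finrank ℚ W < Module.finrank ℚ V := Submodule.finrank_lt hWt
    have hWpos : 0 < Module.finrank ℚ W := by
      rw [Nat.pos_iff_ne_zero]
      intro h
      exact hWb (Submodule.finrank_eq_zero.mp h)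
    have hquot : Module.finrank ℚ (V ⧸ W) + Module.finrank ℚ W = Module.finrank ℚ V :=
      Submodule.finrank_quotient_add_finrank W
    -- the submodule
    let ρW : K →* (W →ₗ[ℚ] W) :=
      { toFun := fun h => (ρ (h : H)).restrict (fun w hw => hW (h : H) w hw)
        map_one' := by
          ext w
          simp
        map_mul' := by
          intro a b
          ext w
          simp }
    have h1 : (M.addSubgroupOf W.toAddSubgroup : AddSubgroup W).FG := by
      refine ih K W (DerivV_max hH K) inferInstance ρW (fun h => ⟨δ h, h.2⟩) ?_ _ ?_ (by omega)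
      · intro g h
        exact Subtype.ext (hδ g h)
      · intro v
        constructor
        · intro hv
          obtain ⟨h, hh⟩ := (hM v).mp hv
          refine ⟨⟨h, ?_⟩, Subtype.ext hh⟩
          change δ h ∈ W
          rw [hh]
          exact v.2
        · rintro ⟨h, rfl⟩
          exact (hM _).mpr ⟨h, rfl⟩
    let ρQ : H →* ((V ⧸ W) →ₗ[ℚ] (V ⧸ W)) :=
      { toFun := fun h => W.mapQ W (ρ h) (fun w hw => hW h w hw)
        map_one' := by
          ext w
          simp
        map_mul' := by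
          intro a b
          ext w
          simp }
    have h2 : (M.map W.mkQ.toAddMonoidHom).FG := by
      refine ih H (V ⧸ W) hH hn ρQ (fun h => W.mkQ (δ h)) ?_ _ ?_ (by omega)
      · intro g h
        rw [hδ, map_add]
        rfl
      · intro v
        constructor
        · rintro ⟨m, hm, rfl⟩
          obtain ⟨h, rfl⟩ := (hM m).mp hm
          exact ⟨h, rfl⟩
        · rintro ⟨h, rfl⟩
          exact ⟨δ h, (hM _).mpr ⟨h, rfl⟩, rfl⟩
    refine DerivV_fg_ext W.mkQ.toAddMonoidHom M h2 ?_
    have h3 : M ⊓ (W.mkQ.toAddMonoidHom).ker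
        = (M.addSubgroupOf W.toAddSubgroup).map W.toAddSubgroup.subtype := by
      ext x
      constructor
      · rintro ⟨hx1, hx2⟩
        have hx3 : x ∈ W := by
          have : W.mkQ x = 0 := hx2
          simpa using this
        exact ⟨⟨x, hx3⟩, hx1, rfl⟩
      · rintro ⟨y, hy, rfl⟩
        refine ⟨hy, ?_⟩
        change W.mkQ (y : V) = 0
        simp
    rw [h3]
    obtain ⟨T, hT⟩ := h1
    classical
    refine ⟨T.image W.toAddSubgroup.subtype, ?_⟩
    rw [Finset.coe_image]
    rw [← AddMonoidHom.map_closure]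
    exact congrArg _ hT

theorem deriv_vec {H V : Type*} [Group H] [AddCommGroup V] [Module ℚ V]
    [FiniteDimensional ℚ V] (hH : Max H) (hn : Group.IsNilpotent H) (ρ : H →* (V →ₗ[ℚ] V))
    (δ : H → V) (hδ : ∀ g h, δ (g * h) = δ g + ρ g (δ h)) (M : AddSubgroup V)
    (hM : ∀ v, v ∈ M ↔ ∃ h, δ h = v) : M.FG :=
  DerivV_vec (Module.finrank ℚ V) H V hH hn ρ δ hδ M hM le_rfl

/-- a surjective derivation from a finitely generated nilpotent group onto a module of finite
rank: the module is finitely generated -/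
theorem deriv_fg {H M : Type*} [Group H] [AddCommGroup M] [DistribMulAction H M]
    (hH : Max H) (hn : Group.IsNilpotent H) (r : ℕ) (hr : ARk M r)
    (δ : H → M) (hδ : ∀ g h, δ (g * h) = δ g + g • δ h) (hs : Function.Surjective δ) :
    AddGroup.FG M := by
  have hone : δ 1 = 0 := by
    have h := hδ 1 1
    rw [mul_one, one_smul] at h
    exact left_eq_add.mp h
  have hinvδ : ∀ g, δ g⁻¹ = - (g⁻¹ • δ g) := by
    intro g
    have h := hδ g⁻¹ g
    rw [inv_mul_cancel, hone] at h
    exact eq_neg_of_add_eq_zero_left h.symm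
  let T : AddSubgroup M :=
    { carrier := {m | ∃ n : ℕ, 0 < n ∧ n • m = 0}
      zero_mem' := ⟨1, one_pos, by simp⟩
      add_mem' := by
        rintro a b ⟨n, hn, ha⟩ ⟨m, hm, hb⟩
        refine ⟨n * m, Nat.mul_pos hn hm, ?_⟩
        rw [smul_add, mul_smul n m b, hb, smul_zero, add_zero, mul_comm, mul_smul, ha, smul_zero]
      neg_mem' := by
        rintro a ⟨n, hn, ha⟩
        exact ⟨n, hn, by rw [smul_neg, ha, neg_zero]⟩ }
  have hTinv : ∀ (g : H), ∀ m ∈ T, g • m ∈ T := by
    rintro g m ⟨n, hn, hm⟩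
    refine ⟨n, hn, ?_⟩
    have h1 : n • g • m = g • (n • m) :=
      (map_nsmul (DistribSMul.toAddMonoidHom M g) n m).symm
    rw [h1, hm, smul_zero]
  let K : Subgroup H :=
    { carrier := {h | δ h ∈ T}
      mul_mem' := by
        intro a b ha hb
        simp only [Set.mem_ofPred_eq] at *
        rw [hδ]
        exact T.add_mem ha (hTinv _ _ hb)
      one_mem' := by
        simp only [Set.mem_ofPred_eq]
        rw [hone]
        exact T.zero_mem
      inv_mem' := by
        intro a ha
        simp only [Set.mem_ofPred_eq] at *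
        rw [hinvδ]
        exact T.neg_mem (hTinv _ _ ha) }
  have hTfin : Finite T := by
    refine DerivT_torsion_finite
      (act := fun g : K => ((DistribSMul.toAddMonoidHom M (g : H)).comp T.subtype).codRestrict T
        (fun m => hTinv g m m.2))
      (DerivV_groupfg (DerivV_max hH K)) r
      (hr.of_injective T.subtype (AddSubgroup.subtype_injective _)) ?_
      (fun h => (⟨δ h, h.2⟩ : T)) ?_ ?_
    · rintro ⟨m, n, hn, hm⟩
      exact ⟨n, hn, Subtype.ext hm⟩
    · intro g h
      exact Subtype.ext (hδ g h)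
    · intro m
      obtain ⟨h, hh⟩ := hs m
      refine ⟨⟨h, ?_⟩, Subtype.ext hh⟩
      change δ h ∈ T
      rw [hh]
      exact m.2
  let act : H →* AddMonoid.End (M ⧸ T) :=
    { toFun := fun g => QuotientAddGroup.map T T (DistribSMul.toAddMonoidHom M g)
        (fun m hm => hTinv g m hm)
      map_one' := by
        apply AddMonoidHom.ext
        intro x
        obtain ⟨y, rfl⟩ := QuotientAddGroup.mk_surjective x
        change ((1 : H) • y : M) = (y : M ⧸ T)
        rw [one_smul]
      map_mul' := by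
        intro a b
        apply AddMonoidHom.ext
        intro x
        obtain ⟨y, rfl⟩ := QuotientAddGroup.mk_surjective x
        change (((a * b) • y : M) : M ⧸ T) = ((a • b • y : M) : M ⧸ T)
        rw [mul_smul] }
  obtain ⟨d, ρ, i, hi, hiρ⟩ := DerivT_embed_vec act r
    (hr.of_surjective (QuotientAddGroup.mk' T) (QuotientAddGroup.mk'_surjective T)) (by
      intro x n hn hx
      obtain ⟨y, rfl⟩ := QuotientAddGroup.mk_surjective x
      have h1 : n • y ∈ T := (QuotientAddGroup.eq_zero_iff _).mp hx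
      obtain ⟨k, hk, hy⟩ := h1
      apply (QuotientAddGroup.eq_zero_iff _).mpr
      refine ⟨k * n, Nat.mul_pos hk hn, ?_⟩
      rw [mul_smul, hy])
  let f : M →+ (Fin d → ℚ) := i.comp (QuotientAddGroup.mk' T)
  have hfker : f.ker = T := by
    ext x
    rw [AddMonoidHom.mem_ker]
    constructor
    · intro hx
      have h1 : i (QuotientAddGroup.mk' T x) = i 0 := by
        rw [map_zero]; exact hx
      exact (QuotientAddGroup.eq_zero_iff _).mp (hi h1)
    · intro hx
      have h1 : QuotientAddGroup.mk' T x = 0 := (QuotientAddGroup.eq_zero_iff _).mpr hx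
      change i (QuotientAddGroup.mk' T x) = 0
      rw [h1, map_zero]
  have h1 : ((⊤ : AddSubgroup M).map f).FG := by
    refine deriv_vec hH hn ρ (fun h => f (δ h)) ?_ _ ?_
    · intro g h
      rw [hδ, map_add]
      congr 1
      exact hiρ g (QuotientAddGroup.mk' T (δ h))
    · intro v
      constructor
      · rintro ⟨m, _, rfl⟩
        obtain ⟨h, rfl⟩ := hs m
        exact ⟨h, rfl⟩
      · rintro ⟨h, rfl⟩
        exact ⟨δ h, trivial, rfl⟩
  have h2 : (⊤ : AddSubgroup M).FG := by
    refine DerivV_fg_ext f ⊤ h1 ?_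
    rw [hfker, top_inf_eq]
    exact DerivV_fg_finite T
  exact ⟨h2⟩

end H36.PP
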