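import Pool.Agent.H36.PP.APB
import Pool.Agent.H36.PP.DerivV

/-!
# Module SolRank: products with a normal soluble subgroup of finite rank   (est. 220 lines)

* `ab_rank`: `M` normal abelian, `FRk M r`, `G = A B`.  `A' = A ⊓ (B ⊔ M)` acts by conjugation
  on `M̄ = M / (M ⊓ B)` (`M ⊓ B` is normalised by `B` and by `M`).  For `a ∈ A'` write
  `a = m b` (`m ∈ M`, `b ∈ B`, `m` is unique modulo `M ⊓ B`) and put `δ a = m (M ⊓ B)`:
  `a a' = m b m' b' = m (b m' b⁻¹) b b'` and `b m' b⁻¹ = a m' a⁻¹` (as `M` is abelian), so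
  `δ (a a') = δ a + a • δ a'`.  `δ` is onto: `m = a b`, so `a = m b⁻¹ ∈ A'`.  By `deriv_fg` the group
  `M̄` is finitely generated, and so is `M ⊓ B`.
* `sol_rank`: induction on the derived length of `R`: the derived subgroup `N'` of a normal
  subgroup `N` with `AP (G ⧸ N)`: `N / N'` is finitely generated by `ab_rank` for `G ⧸ N'`, so
  `AP (G ⧸ N')`.
-/

set_option autoImplicit false

namespace H36.PP

open Subgroup
open scoped commutatorElement

variable {G H : Type*} [Group G] [Group H]

theorem SolRank_fgmap (f : G →* H) {F : Subgroup G} (hF : F.FG) : (F.map f).FG := by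
  classical
  obtain ⟨T, hT⟩ := hF
  refine ⟨T.image f, ?_⟩
  rw [Finset.coe_image, ← MonoidHom.map_closure, hT]

theorem FRk.of_injective {r : ℕ} (h : FRk H r) (f : G →* H) (hf : Function.Injective f) :
    FRk G r := by
  intro F hF
  obtain ⟨S, hS, hSF⟩ := h (F.map f) (SolRank_fgmap f hF)
  have hcard : (S.preimage f hf.injOn).card ≤ S.card :=
    Finset.card_le_card_of_injOn f (fun x hx => Finset.mem_preimage.mp hx) hf.injOn
  refine ⟨S.preimage f hf.injOn, hcard.trans hS, ?_⟩
  have hr : (S : Set H) ⊆ Set.range f := by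
    intro x hx
    have h1 : x ∈ closure (S : Set H) := subset_closure hx
    rw [hSF] at h1
    obtain ⟨y, -, hy⟩ := h1
    exact ⟨y, hy⟩
  apply Subgroup.map_injective hf
  rw [MonoidHom.map_closure, Finset.coe_preimage, Set.image_preimage_eq_of_subset hr, hSF]

theorem FRk.of_surjective {r : ℕ} (h : FRk G r) (f : G →* H) (hf : Function.Surjective f) :
    FRk H r := by
  classical
  intro F hF
  obtain ⟨T, hT⟩ := hF
  obtain ⟨g, hg⟩ := hf.hasRightInverse
  obtain ⟨S, hS, hSF⟩ := h (closure ((T.image g : Finset G) : Set G)) ⟨T.image g, rfl⟩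
  refine ⟨S.image f, Finset.card_image_le.trans hS, ?_⟩
  rw [Finset.coe_image, ← MonoidHom.map_closure, hSF, MonoidHom.map_closure, ← hT,
    Finset.coe_image, ← Set.image_comp]
  congr 1
  ext x
  simp only [Set.mem_image, Function.comp_apply, Finset.mem_coe]
  constructor
  · rintro ⟨y, hy, rfl⟩
    rwa [hg y]
  · intro hx
    exact ⟨x, hx, hg x⟩

/-- the rank bound, additive version -/
theorem SolRank_ark {Q : Type*} [CommGroup Q] {r : ℕ} (h : FRk Q r) : ARk (Additive Q) r := by
  classical
  intro F hF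
  obtain ⟨T, hT⟩ := hF
  have hFG : (closure (Additive.ofMul ⁻¹' (T : Set (Additive Q)))).FG := by
    refine ⟨T.map Additive.toMul.toEmbedding, ?_⟩
    have e3 : ((T.map Additive.toMul.toEmbedding : Finset Q) : Set Q) =
        Additive.ofMul ⁻¹' (T : Set (Additive Q)) := by
      ext x
      simp only [Finset.coe_map, Set.mem_image, Set.mem_preimage, Finset.mem_coe]
      constructor
      · rintro ⟨y, hy, hyx⟩
        rw [← hyx]
        exact hy
      · intro hx
        exact ⟨Additive.ofMul x, hx, rfl⟩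
    rw [e3]
  obtain ⟨S, hS, hSF⟩ := h (closure (Additive.ofMul ⁻¹' (T : Set (Additive Q)))) hFG
  · refine ⟨S.map Additive.ofMul.toEmbedding, by rwa [Finset.card_map], ?_⟩
    have e := congrArg Subgroup.toAddSubgroup hSF
    rw [Subgroup.toAddSubgroup_closure, Subgroup.toAddSubgroup_closure] at e
    have e' : AddSubgroup.closure (Additive.toMul ⁻¹' (S : Set Q)) =
      AddSubgroup.closure (T : Set (Additive Q)) := e
    have e2 : ((S.map Additive.ofMul.toEmbedding : Finset (Additive Q)) : Set (Additive Q)) =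
        Additive.toMul ⁻¹' (S : Set Q) := by
      ext x
      simp only [Finset.coe_map, Set.mem_image, Set.mem_preimage, Finset.mem_coe]
      exact ⟨fun ⟨y, hy, hyx⟩ => hyx ▸ hy, fun hx => ⟨Additive.toMul x, hx, rfl⟩⟩
    rw [e2, ← hT]
    exact e'

/-- the intersection is normalised -/
theorem SolRank_conj {A B M : Subgroup G} [M.Normal]
    (hc : ∀ x ∈ M, ∀ y ∈ M, x * y = y * x) {a : G} (ha : a ∈ A ⊓ (B ⊔ M)) {x : G} (hx : x ∈ M ⊓ B) :
    a * x * a⁻¹ ∈ M ⊓ B := by
  obtain ⟨-, h2⟩ := ha
  obtain ⟨b, hb, m, hm, rfl⟩ := mem_sup_of_normal_right.mp h2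
  obtain ⟨hxM, hxB⟩ := hx
  have e : b * m * x * (b * m)⁻¹ = b * x * b⁻¹ := by
    have : m * x = x * m := hc m hm x hxM
    calc b * m * x * (b * m)⁻¹ = b * (m * x) * m⁻¹ * b⁻¹ := by group
      _ = b * (x * m) * m⁻¹ * b⁻¹ := by rw [this]
      _ = b * x * b⁻¹ := by group
  rw [e]
  exact ⟨‹M.Normal›.conj_mem x hxM b, B.mul_mem (B.mul_mem hb hxB) (B.inv_mem hb)⟩

theorem ab_rank {A B : Subgroup G} (hf : Fact A B) (hn : Group.IsNilpotent A) (hA : Max A)
    (hB : Max B) (M : Subgroup G) [M.Normal] (hc : ∀ x ∈ M, ∀ y ∈ M, x * y = y * x) (r : ℕ)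
    (hr : FRk M r) : M.FG := by
  classical
  letI : CommGroup M := { (inferInstance : Group M) with
    mul_comm := fun x y => Subtype.ext (hc x x.2 y y.2) }
  let A' : Subgroup G := A ⊓ (B ⊔ M)
  let N0 : Subgroup M := (M ⊓ B).subgroupOf M
  have hN0 : ∀ x : M, x ∈ N0 ↔ (x : G) ∈ B := by
    intro x
    rw [Subgroup.mem_subgroupOf, Subgroup.mem_inf]
    exact ⟨fun h => h.2, fun h => ⟨x.2, h⟩⟩
  -- conjugation
  have hconj : ∀ a : A', N0 ≤ N0.comap (MulAut.conjNormal (a : G) : M ≃* M).toMonoidHom := by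
    intro a x hx
    rw [Subgroup.mem_comap, hN0]
    show ((MulAut.conjNormal (a : G) x : M) : G) ∈ B
    rw [MulAut.conjNormal_apply]
    exact (SolRank_conj hc a.2 ⟨x.2, (hN0 x).mp hx⟩).2
  let φ : A' → (M ⧸ N0 →* M ⧸ N0) := fun a =>
    QuotientGroup.map N0 N0 (MulAut.conjNormal (a : G) : M ≃* M).toMonoidHom (hconj a)
  have hφ : ∀ (a : A') (x : M), φ a (QuotientGroup.mk x) =
      QuotientGroup.mk (MulAut.conjNormal (a : G) x) := fun a x => rfl
  letI act : DistribMulAction A' (Additive (M ⧸ N0)) :=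
    { smul := fun a x => Additive.ofMul (φ a (Additive.toMul x))
      one_smul := by
        intro x
        induction x using Additive.rec with | _ x
        induction x using QuotientGroup.induction_on with | _ x
        show Additive.ofMul (φ 1 (QuotientGroup.mk x)) = _
        rw [hφ]
        congr 2
        apply Subtype.ext
        rw [MulAut.conjNormal_apply]
        simp
      mul_smul := by
        intro a b x
        induction x using Additive.rec with | _ x
        induction x using QuotientGroup.induction_on with | _ x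
        show Additive.ofMul (φ (a * b) (QuotientGroup.mk x)) =
          Additive.ofMul (φ a (φ b (QuotientGroup.mk x)))
        rw [hφ, hφ, hφ]
        congr 2
        apply Subtype.ext
        rw [MulAut.conjNormal_apply, MulAut.conjNormal_apply, MulAut.conjNormal_apply]
        simp only [Subgroup.coe_mul]
        group
      smul_zero := by
        intro a
        show Additive.ofMul (φ a 1) = _
        rw [map_one]
        rfl
      smul_add := by
        intro a x y
        show Additive.ofMul (φ a (Additive.toMul x * Additive.toMul y)) = _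
        rw [map_mul]
        rfl }
  have hsmul : ∀ (a : A') (x : M), a • (Additive.ofMul (QuotientGroup.mk x : M ⧸ N0)) =
      Additive.ofMul (QuotientGroup.mk (MulAut.conjNormal (a : G) x) : M ⧸ N0) := fun a x => rfl
  -- the derivation
  have hdec : ∀ a : A', ∃ m : M, ∃ b ∈ B, (a : G) = m * b := by
    intro a
    have h2 : (a : G) ∈ M ⊔ B := by
      rw [sup_comm]
      exact a.2.2
    obtain ⟨m, hm, b, hb, h⟩ := mem_sup_of_normal_left.mp h2
    exact ⟨⟨m, hm⟩, b, hb, h.symm⟩
  choose mm bb hbb hmb using hdec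
  let δ : A' → Additive (M ⧸ N0) := fun a => Additive.ofMul (QuotientGroup.mk (mm a))
  have hδu : ∀ (a : A') (m : M) (b : G), b ∈ B → (a : G) = m * b →
      δ a = Additive.ofMul (QuotientGroup.mk m : M ⧸ N0) := by
    intro a m b hb h
    show Additive.ofMul (QuotientGroup.mk (mm a) : M ⧸ N0) = Additive.ofMul (QuotientGroup.mk m)
    congr 1
    rw [QuotientGroup.eq, hN0]
    have h1 := hmb a
    rw [h] at h1
    have h3 : (mm a : G)⁻¹ * (m : G) = bb a * b⁻¹ := by
      rw [inv_mul_eq_iff_eq_mul, ← mul_assoc, ← h1]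
      group
    simp only [Subgroup.coe_mul, Subgroup.coe_inv]
    rw [h3]
    exact B.mul_mem (hbb a) (B.inv_mem hb)
  have hδ : ∀ g h : A', δ (g * h) = δ g + g • δ h := by
    intro g h
    have e1 : ((g * h : A') : G) =
        ((mm g * MulAut.conjNormal (g : G) (mm h) : M) : G) * (bb g * bb h) := by
      rw [Subgroup.coe_mul, Subgroup.coe_mul, MulAut.conjNormal_apply]
      have e2 : (g : G) * (mm h : G) * (g : G)⁻¹ = bb g * (mm h : G) * (bb g)⁻¹ := by
        have e3 : (bb g * (mm h : G) * (bb g)⁻¹) ∈ M := ‹M.Normal›.conj_mem _ (mm h).2 _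
        have e4 := hc (mm g : G) (mm g).2 _ e3
        calc (g : G) * (mm h : G) * (g : G)⁻¹
            = (mm g : G) * (bb g * (mm h : G) * (bb g)⁻¹) * (mm g : G)⁻¹ := by
              rw [hmb g]
              group
          _ = (bb g * (mm h : G) * (bb g)⁻¹) * (mm g : G) * (mm g : G)⁻¹ := by rw [e4]
          _ = bb g * (mm h : G) * (bb g)⁻¹ := by group
      rw [e2]
      calc (g : G) * (h : G) = (mm g : G) * bb g * ((mm h : G) * bb h) := by rw [← hmb, ← hmb]
        _ = (mm g : G) * (bb g * (mm h : G) * (bb g)⁻¹) * (bb g * bb h) := by group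
    rw [hδu (g * h) (mm g * MulAut.conjNormal (g : G) (mm h)) (bb g * bb h)
      (B.mul_mem (hbb g) (hbb h)) e1]
    rfl
  have hs : Function.Surjective δ := by
    intro x
    induction x using Additive.rec with | _ x
    induction x using QuotientGroup.induction_on with | _ m
    obtain ⟨a, ha, b, hb, hab⟩ := hf (m : G)
    have h1 : a = (m : G) * b⁻¹ := by rw [hab]; group
    have h2 : a ∈ B ⊔ M := by
      rw [h1]
      exact mul_mem (mem_sup_right m.2) (mem_sup_left (B.inv_mem hb))
    exact ⟨⟨a, ha, h2⟩, hδu ⟨a, ha, h2⟩ m b⁻¹ (B.inv_mem hb) h1⟩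
  have hA'le : A' ≤ A := inf_le_left
  have hA' : Max A' := Max.of_injective (Subgroup.inclusion hA'le)
    (Subgroup.inclusion_injective hA'le) hA
  have hnA' : Group.IsNilpotent A' := by
    haveI := hn
    haveI : Group.IsNilpotent (A'.subgroupOf A) := inferInstance
    exact Group.nilpotent_of_mulEquiv (Subgroup.subgroupOfEquivOfLe hA'le)
  have hrk : ARk (Additive (M ⧸ N0)) r :=
    SolRank_ark (hr.of_surjective (QuotientGroup.mk' N0) (QuotientGroup.mk'_surjective N0))
  have hfg : AddGroup.FG (Additive (M ⧸ N0)) := deriv_fg hA' hnA' r hrk δ hδ hs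
  have hfg' : Group.FG (M ⧸ N0) := GroupFG.iff_add_fg.mpr hfg
  have hmax1 : Max N0 := by
    let f : N0 →* B :=
      { toFun := fun x => ⟨((x : M) : G), (hN0 x.1).mp x.2⟩
        map_one' := rfl
        map_mul' := fun _ _ => rfl }
    refine Max.of_injective f ?_ hB
    intro x y hxy
    apply Subtype.ext
    apply Subtype.ext
    exact congrArg (fun z : B => (z : G)) hxy
  have hmax2 : Max (M ⧸ N0) := (AP.of_comm_fg (fun x y => mul_comm x y) hfg').1
  have hM : Max M := Max.ext N0 hmax1 hmax2
  have := hM ⊤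
  exact (Group.fg_iff_subgroup_fg M).mp ⟨this⟩

/-- one step of the derived series -/
theorem SolRank_step {A B : Subgroup G} (hf : Fact A B) (hn : Group.IsNilpotent A) (hA : AP A)
    (hB : AP B) (N : Subgroup G) [N.Normal] (r : ℕ) (hr : FRk N r) (hq : AP (G ⧸ N)) :
    AP (G ⧸ ⁅N, N⁆) := by
  have hle : ⁅N, N⁆ ≤ N := Subgroup.commutator_le_left N N
  set K : Subgroup G := ⁅N, N⁆ with hK
  let π : G →* G ⧸ K := QuotientGroup.mk' K
  have hπ : Function.Surjective π := QuotientGroup.mk'_surjective K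
  have hNn : (N.map π).Normal := Subgroup.Normal.map ‹_› π hπ
  have hAmap : AP (A.map π : Subgroup (G ⧸ K)) :=
    AP.of_surjective (π.subgroupMap A) (π.subgroupMap_surjective A) hA
  have hBmap : AP (B.map π : Subgroup (G ⧸ K)) :=
    AP.of_surjective (π.subgroupMap B) (π.subgroupMap_surjective B) hB
  have hnA : Group.IsNilpotent (A.map π : Subgroup (G ⧸ K)) := by
    haveI := hn
    exact Group.nilpotent_of_surjective (π.subgroupMap A) (π.subgroupMap_surjective A)
  have hfact : Fact (A.map π) (B.map π) := by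
    intro x
    obtain ⟨g, rfl⟩ := hπ x
    obtain ⟨a, ha, b, hb, rfl⟩ := hf g
    exact ⟨π a, mem_map_of_mem π ha, π b, mem_map_of_mem π hb, map_mul π a b⟩
  have hcomm : ∀ x ∈ N.map π, ∀ y ∈ N.map π, x * y = y * x := by
    rintro _ ⟨x, hx, rfl⟩ _ ⟨y, hy, rfl⟩
    rw [← map_mul, ← map_mul]
    show (QuotientGroup.mk (x * y) : G ⧸ K) = QuotientGroup.mk (y * x)
    rw [QuotientGroup.eq]
    have h1 : ⁅y⁻¹, x⁻¹⁆ ∈ K := Subgroup.commutator_mem_commutator (N.inv_mem hy) (N.inv_mem hx)
    have h2 : (x * y)⁻¹ * (y * x) = ⁅y⁻¹, x⁻¹⁆ := by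
      rw [commutatorElement_def]
      group
    rw [h2]
    exact h1
  have hrM : FRk (N.map π : Subgroup (G ⧸ K)) r :=
    hr.of_surjective (π.subgroupMap N) (π.subgroupMap_surjective N)
  have hfg : (N.map π).FG := ab_rank hfact hnA hAmap.1 hBmap.1 (N.map π) hcomm r hrM
  have hapM : AP (N.map π : Subgroup (G ⧸ K)) :=
    AP.of_comm_fg (fun x y => Subtype.ext (hcomm x x.2 y y.2))
      ((Group.fg_iff_subgroup_fg _).mpr hfg)
  exact AP.quotient_of_le K N hle hapM hq

theorem sol_rank {A B : Subgroup G} (hf : Fact A B) (hn : Group.IsNilpotent A) (hA : AP A)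
    (hB : AP B) (R : Subgroup G) [R.Normal] (hs : Group.IsSolvable R) (r : ℕ) (hr : FRk R r)
    (hq : AP (G ⧸ R)) : AP G := by
  have key : ∀ n : ℕ, ∃ N : Subgroup G, ∃ _ : N.Normal,
      N = (derivedSeries R n).map R.subtype ∧ AP (G ⧸ N) := by
    intro n
    induction n with
    | zero =>
      refine ⟨R, inferInstance, ?_, hq⟩
      rw [derivedSeries_zero, ← MonoidHom.range_eq_map, Subgroup.range_subtype]
    | succ n ih =>
      obtain ⟨N, hN, hNe, hap⟩ := ih
      refine ⟨⁅N, N⁆, inferInstance, ?_, ?_⟩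
      · rw [derivedSeries_succ, Subgroup.map_commutator, ← hNe]
      · have hNR : N ≤ R := by
          rw [hNe]
          exact Subgroup.map_subtype_le _
        have hrN : FRk N r := hr.of_injective (Subgroup.inclusion hNR)
          (Subgroup.inclusion_injective hNR)
        exact SolRank_step hf hn hA hB N r hrN hap
  obtain ⟨n, hn'⟩ := hs.solvable
  obtain ⟨N, hN, hNe, hap⟩ := key n
  rw [hn', Subgroup.map_bot] at hNe
  have hapN : AP N := by
    haveI : Subsingleton N := by
      rw [hNe]
      infer_instance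
    haveI : Finite N := Finite.of_subsingleton
    exact AP.of_finite
  exact AP.ext N hapN hap

end H36.PP
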