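import Pool.Agent.H36.PP.Ht

/-!
# Module RFin: almost polycyclic groups are residually finite   (est. 200 lines)

`exists_char_free_abelian`: `G` infinite almost polycyclic.  Take a characteristic soluble
subgroup `S` of finite index (`exists_char_core`).  Some derived term `M = S^(j)` is infinite
with `M' = S^(j+1)` finite.  `M` is finitely generated with finite commutator subgroup, so every
generator has finitely many conjugates and the centre `Z` of `M` has finite index in `M`; `Z` is
an infinite finitely generated abelian group, characteristic in `G`.  Let `k` be the exponent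
(or the order) of its torsion subgroup; the set of `k`-th powers of `Z` is a torsion-free
infinite characteristic subgroup.

`AP.rf`: strong induction on `ht G`.  `G` infinite: let `A` be as above and `g ≠ 1`.  There is
`n ≥ 1` such that `g` is not an `n`-th power of an element of `A` (finitely generated free abelian
groups).  `A^n` is normal in `G` and infinite, so `ht (G ⧸ A^n) < ht G` and the image of `g` in
`G ⧸ A^n` is not trivial.
-/

set_option autoImplicit false
set_option linter.style.haveILetI false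

namespace H36.PP

open Subgroup

variable {G H : Type*} [Group G] [Group H]

theorem RFin_fg (h : Max G) (K : Subgroup G) : Group.FG K :=
  (Group.fg_iff_subgroup_fg K).2 (h K)

/-- a subgroup of finite index in an infinite subgroup is infinite -/
theorem RFin_inf {K : Type*} [Group K] [Infinite K] (S : Subgroup K) (hS : S.FiniteIndex) :
    Infinite S := by
  by_contra hc
  rw [not_infinite_iff_finite] at hc
  have : Finite (K ⧸ S) := finite_quotient_of_finiteIndex
  have : Finite K := Finite.of_equiv _ (groupEquivQuotientProdSubgroup (s := S)).symm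
  exact not_finite K

/-- the derived series inside the big group -/
def RFin_D (S : Subgroup G) : ℕ → Subgroup G
  | 0 => S
  | (j + 1) => ⁅RFin_D S j, RFin_D S j⁆

theorem RFin_D_char (S : Subgroup G) (hS : S.Characteristic) (j : ℕ) :
    (RFin_D S j).Characteristic := by
  induction j with
  | zero => exact hS
  | succ j ih =>
    have := ih
    show (⁅RFin_D S j, RFin_D S j⁆ : Subgroup G).Characteristic
    infer_instance

theorem RFin_D_eq (S : Subgroup G) (j : ℕ) :
    RFin_D S j = (derivedSeries S j).map S.subtype := by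
  induction j with
  | zero =>
    show S = _
    rw [derivedSeries_zero, ← MonoidHom.range_eq_map, Subgroup.range_subtype]
  | succ j ih =>
    show (⁅RFin_D S j, RFin_D S j⁆ : Subgroup G) = _
    rw [derivedSeries_succ, map_commutator, ih]

/-- the group of `k`-th powers of an abelian subgroup -/
def RFin_pow (Z : Subgroup G) (hZ : ∀ x ∈ Z, ∀ y ∈ Z, x * y = y * x) (k : ℕ) : Subgroup G where
  carrier := {x | ∃ z ∈ Z, z ^ k = x}
  mul_mem' := by
    rintro a b ⟨z, hz, rfl⟩ ⟨w, hw, rfl⟩
    exact ⟨z * w, Z.mul_mem hz hw, (show Commute z w from hZ z hz w hw).mul_pow k⟩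
  one_mem' := ⟨1, Z.one_mem, one_pow k⟩
  inv_mem' := by
    rintro a ⟨z, hz, rfl⟩
    exact ⟨z⁻¹, Z.inv_mem hz, inv_pow z k⟩

theorem RFin_mem_pow (Z : Subgroup G) (hZ : ∀ x ∈ Z, ∀ y ∈ Z, x * y = y * x) (k : ℕ) (x : G) :
    x ∈ RFin_pow Z hZ k ↔ ∃ z ∈ Z, z ^ k = x := Iff.rfl

theorem RFin_pow_char (Z : Subgroup G) (hZ : ∀ x ∈ Z, ∀ y ∈ Z, x * y = y * x) (k : ℕ)
    (hc : Z.Characteristic) : (RFin_pow Z hZ k).Characteristic := by
  rw [characteristic_iff_le_comap] at hc ⊢
  intro φ x hx
  obtain ⟨z, hz, rfl⟩ := hx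
  refine ⟨φ z, hc φ hz, ?_⟩
  simp

theorem RFin_pow_le (Z : Subgroup G) (hZ : ∀ x ∈ Z, ∀ y ∈ Z, x * y = y * x) (k : ℕ) :
    RFin_pow Z hZ k ≤ Z := by
  rintro x ⟨z, hz, rfl⟩
  exact Z.pow_mem hz k

/-- a finitely generated infinite abelian subgroup: for some `k ≥ 1` the `k`-th powers are torsion
free and infinite -/
theorem RFin_torsion (Z : Subgroup G) (hZ : ∀ x ∈ Z, ∀ y ∈ Z, x * y = y * x)
    (hM : Max G) (hi : Infinite Z) :
    ∃ k : ℕ, 0 < k ∧ (∀ x ∈ RFin_pow Z hZ k, ∀ n : ℕ, 0 < n → x ^ n = 1 → x = 1) ∧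
      Infinite (RFin_pow Z hZ k) := by
  classical
  letI : CommGroup Z := { (inferInstance : Group Z) with
    mul_comm := fun a b => Subtype.ext (hZ a a.2 b b.2) }
  -- the torsion subgroup as a subgroup of `G`
  let T : Subgroup G := (CommGroup.torsion Z).map Z.subtype
  have hTZ : T ≤ Z := by
    rintro x ⟨z, -, rfl⟩
    exact z.2
  letI : CommGroup T := { (inferInstance : Group T) with
    mul_comm := fun a b => Subtype.ext (hZ a (hTZ a.2) b (hTZ b.2)) }
  haveI : Group.FG T := RFin_fg hM T
  have hTt : IsMulTorsion T := by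
    rintro ⟨x, z, hz, rfl⟩
    obtain ⟨n, hn, hzn⟩ := (isOfFinOrder_iff_pow_eq_one.1 (show IsOfFinOrder z from hz))
    refine isOfFinOrder_iff_pow_eq_one.2 ⟨n, hn, ?_⟩
    apply Subtype.ext
    have : ((z ^ n : Z) : G) = 1 := by rw [hzn]; rfl
    simpa using this
  haveI : Finite T := CommGroup.finite_of_fg_isMulTorsion T hTt
  have hk : 0 < Nat.card T := Nat.card_pos
  have hkT : ∀ z ∈ Z, ∀ n : ℕ, 0 < n → z ^ n = 1 → z ^ (Nat.card T) = 1 := by
    intro z hz n hn hzn
    have hzT : z ∈ T := by
      refine ⟨⟨z, hz⟩, ?_, rfl⟩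
      show IsOfFinOrder _
      refine isOfFinOrder_iff_pow_eq_one.2 ⟨n, hn, ?_⟩
      apply Subtype.ext
      simpa using hzn
    have h1 : (⟨z, hzT⟩ : T) ^ (Nat.card T) = 1 := pow_card_eq_one'
    have h2 : ((⟨z, hzT⟩ : T) ^ (Nat.card T) : T).1 = (1 : T).1 := congrArg (Subtype.val) h1
    exact h2
  refine ⟨Nat.card T, hk, ?_, ?_⟩
  · rintro x ⟨z, hz, rfl⟩ n hn hx
    rw [← pow_mul] at hx
    exact hkT z hz _ (Nat.mul_pos hk hn) hx
  · by_contra hc
    rw [not_infinite_iff_finite] at hc
    haveI := hc
    have hm : 0 < Nat.card (RFin_pow Z hZ (Nat.card T)) := Nat.card_pos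
    haveI : Group.FG Z := RFin_fg hM Z
    have hZt : IsMulTorsion Z := by
      rintro ⟨z, hz⟩
      refine isOfFinOrder_iff_pow_eq_one.2
        ⟨Nat.card T * Nat.card (RFin_pow Z hZ (Nat.card T)), Nat.mul_pos hk hm, ?_⟩
      have h1 : (⟨z ^ (Nat.card T), z, hz, rfl⟩ : RFin_pow Z hZ (Nat.card T)) ^
        (Nat.card (RFin_pow Z hZ (Nat.card T))) = 1 := pow_card_eq_one'
      have h2 : (z ^ (Nat.card T)) ^ (Nat.card (RFin_pow Z hZ (Nat.card T))) = 1 :=
        congrArg (Subtype.val) h1
      apply Subtype.ext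
      rw [← pow_mul] at h2
      exact h2
    have : Finite Z := CommGroup.finite_of_fg_isMulTorsion Z hZt
    exact not_finite Z

theorem exists_char_free_abelian (h : AP G) (hi : Infinite G) :
    ∃ A : Subgroup G, A.Characteristic ∧ (∀ x ∈ A, ∀ y ∈ A, x * y = y * x) ∧
      (∀ x ∈ A, ∀ n : ℕ, 0 < n → x ^ n = 1 → x = 1) ∧ Infinite A := by
  classical
  obtain ⟨hM, S0, hS0, hsol⟩ := h
  have hG : Group.FG G := by
    rw [Group.fg_def]
    exact hM ⊤
  obtain ⟨S, hSS0, hSfi, hSc⟩ := exists_char_core hG S0 hS0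
  have hSsol : Group.IsSolvable S := by
    haveI := hsol
    exact Group.isSolvable_of_isSolvable_injective (f := Subgroup.inclusion hSS0)
      (Subgroup.inclusion_injective hSS0)
  have hSinf : Infinite S := RFin_inf S hSfi
  obtain ⟨n, hn⟩ := (Group.isSolvable_def S).1 hSsol
  have hex : ∃ j, Finite (RFin_D S j) := by
    refine ⟨n, ?_⟩
    rw [RFin_D_eq, hn, Subgroup.map_bot]
    infer_instance
  have hmin := Nat.find_spec hex
  obtain ⟨j, hj⟩ : ∃ j, Nat.find hex = j + 1 := by
    apply Nat.exists_eq_succ_of_ne_zero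
    intro h0
    rw [h0] at hmin
    have : Finite S := hmin
    exact not_finite S
  rw [hj] at hmin
  have hjinf : Infinite (RFin_D S j) := by
    rw [← not_finite_iff_infinite]
    exact Nat.find_min hex (by omega)
  have hMc : (RFin_D S j).Characteristic := RFin_D_char S hSc j
  generalize hMdef : RFin_D S j = M at *
  have hM' : Finite (⁅M, M⁆ : Subgroup G) := by
    have : RFin_D S (j + 1) = ⁅RFin_D S j, RFin_D S j⁆ := rfl
    rw [this, hMdef] at hmin
    exact hmin
  haveI : Finite (commutatorSet M) := by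
    refine Finite.of_injective (β := (⁅M, M⁆ : Subgroup G))
      (fun x => ⟨((x : M) : G), ?_⟩) ?_
    · obtain ⟨a, b, hab⟩ := x.2
      rw [← hab]
      exact commutator_mem_commutator a.2 b.2
    · intro x y hxy
      apply Subtype.ext
      apply Subtype.ext
      simp only [Subtype.mk.injEq] at hxy
      exact hxy
  haveI : Group.FG M := RFin_fg hM M
  have hcfi : (center M).FiniteIndex := finiteIndex_center
  have hcinf : Infinite (center M) := RFin_inf _ hcfi
  have hcinf' : Infinite (M ⊓ centralizer (M : Set G) : Subgroup G) := by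
    refine Infinite.of_injective
      (fun x : center M => (⟨((x : M) : G), (x : M).2, ?_⟩ :
        (M ⊓ centralizer (M : Set G) : Subgroup G))) ?_
    · show ((x : M) : G) ∈ centralizer (M : Set G)
      rw [mem_centralizer_iff]
      intro y hy
      have h1 := (mem_center_iff.1 x.2) ⟨y, hy⟩
      exact congrArg Subtype.val h1
    · intro x y hxy
      apply Subtype.ext
      apply Subtype.ext
      have h1 : ((x : M) : G) = ((y : M) : G) :=
        congrArg (fun z : (M ⊓ centralizer (M : Set G) : Subgroup G) => (z : G)) hxy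
      exact h1
  have hZc : (M ⊓ centralizer (M : Set G) : Subgroup G).Characteristic := by
    haveI := hMc
    infer_instance
  have hZcomm : ∀ x ∈ (M ⊓ centralizer (M : Set G) : Subgroup G),
      ∀ y ∈ (M ⊓ centralizer (M : Set G) : Subgroup G), x * y = y * x := by
    intro x hx y hy
    exact (mem_centralizer_iff.1 hy.2) x hx.1
  obtain ⟨k, hk, htf, hinf⟩ := RFin_torsion _ hZcomm hM hcinf'
  exact ⟨_, RFin_pow_char _ hZcomm k hZc,
    fun x hx y hy => hZcomm x (RFin_pow_le _ _ _ hx) y (RFin_pow_le _ _ _ hy), htf, hinf⟩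

/-- in a finitely generated torsion free abelian subgroup no nontrivial element is an `n`-th power
for every `n` -/
theorem RFin_root (A : Subgroup G) (hA : ∀ x ∈ A, ∀ y ∈ A, x * y = y * x)
    (htf : ∀ x ∈ A, ∀ n : ℕ, 0 < n → x ^ n = 1 → x = 1) (hfg : A.FG) (g : G) (hg : g ≠ 1) :
    ∃ n : ℕ, 0 < n ∧ g ∉ RFin_pow A hA n := by
  classical
  by_cases hgA : g ∈ A
  swap
  · exact ⟨1, one_pos, fun h => hgA (RFin_pow_le _ _ _ h)⟩
  letI : CommGroup A := { (inferInstance : Group A) with
    mul_comm := fun a b => Subtype.ext (hA a a.2 b b.2) }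
  haveI : Group.FG A := (Group.fg_iff_subgroup_fg A).2 hfg
  haveI : AddGroup.FG (Additive A) := inferInstance
  haveI : Module.Finite ℤ (Additive A) := Module.Finite.iff_addGroup_fg.2 inferInstance
  haveI : IsMulTorsionFree A := by
    rw [CommGroup.isMulTorsionFree_iff_torsion_eq_bot]
    rw [eq_bot_iff]
    intro x hx
    obtain ⟨n, hn, hxn⟩ := isOfFinOrder_iff_pow_eq_one.1 (show IsOfFinOrder x from hx)
    rw [mem_bot]
    apply Subtype.ext
    refine htf x x.2 n hn ?_
    have := congrArg Subtype.val hxn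
    simpa using this
  haveI : Module.IsTorsionFree ℤ (Additive A) := inferInstance
  haveI : Module.Free ℤ (Additive A) := Module.free_of_finite_type_torsion_free'
  let b := Module.Free.chooseBasis ℤ (Additive A)
  let x : Additive A := Additive.ofMul ⟨g, hgA⟩
  have hx : x ≠ 0 := by
    intro h0
    apply hg
    have : (⟨g, hgA⟩ : A) = 1 := h0
    exact congrArg Subtype.val this
  have hr : b.repr x ≠ 0 := by
    intro h0
    exact hx (b.repr.map_eq_zero_iff.1 h0)
  obtain ⟨i, hi⟩ := Finsupp.ne_iff.1 hr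
  simp only [Finsupp.coe_zero, Pi.zero_apply] at hi
  refine ⟨(b.repr x i).natAbs + 1, Nat.succ_pos _, ?_⟩
  rintro ⟨z, hz, hzg⟩
  have h1 : x = ((b.repr x i).natAbs + 1) • (Additive.ofMul (⟨z, hz⟩ : A)) := by
    apply Additive.toMul.injective
    apply Subtype.ext
    show g = _
    rw [← hzg]
    simp
  have h2 : b.repr x i = (((b.repr x i).natAbs + 1 : ℕ) : ℤ) *
      b.repr (Additive.ofMul (⟨z, hz⟩ : A)) i := by
    conv_lhs => rw [h1]
    rw [map_nsmul]
    simp
  have h3 : ((b.repr x i).natAbs + 1) ∣ (b.repr x i).natAbs := by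
    rw [← Int.natCast_dvd_natCast, Int.dvd_natAbs]
    exact Dvd.intro _ h2.symm
  have h4 := Nat.le_of_dvd (Int.natAbs_pos.2 hi) h3
  omega

theorem RFin_rf_aux (n : ℕ) : ∀ {G : Type*} [Group G], AP G → ht G = n → RF G := by
  induction n using Nat.strong_induction_on with
  | _ n ih =>
    intro G _ h hn g hg
    by_cases hfin : Finite G
    · exact ⟨⊥, inferInstance, inferInstance, by simpa using hg⟩
    · rw [not_finite_iff_infinite] at hfin
      obtain ⟨A, hAc, hAcomm, htf, hAi⟩ := exists_char_free_abelian h hfin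
      obtain ⟨m, hm, hgm⟩ := RFin_root A hAcomm htf (h.1 A) g hg
      have hPc : (RFin_pow A hAcomm m).Characteristic := RFin_pow_char A hAcomm m hAc
      haveI hPn : (RFin_pow A hAcomm m).Normal := by
        haveI := hPc
        infer_instance
      have hPi : Infinite (RFin_pow A hAcomm m) := by
        refine Infinite.of_injective
          (fun x : A => (⟨(x : G) ^ m, x, x.2, rfl⟩ : RFin_pow A hAcomm m)) ?_
        intro x y hxy
        have h1 : (x : G) ^ m = (y : G) ^ m := congrArg Subtype.val hxy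
        have hc : Commute (x : G) ((y : G)⁻¹) :=
          (show Commute (x : G) (y : G) from hAcomm x x.2 y y.2).inv_right
        have h2 : ((x : G) * (y : G)⁻¹) ^ m = 1 := by
          rw [hc.mul_pow, h1, inv_pow, mul_inv_cancel]
        have h3 := htf _ (A.mul_mem x.2 (A.inv_mem y.2)) m hm h2
        exact Subtype.ext (mul_inv_eq_one.1 h3)
      have hlt : ht (G ⧸ RFin_pow A hAcomm m) < n := by
        rw [← hn]
        refine ht_lt_of_surjective h (QuotientGroup.mk' (RFin_pow A hAcomm m))
          (QuotientGroup.mk'_surjective _) ?_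
        rw [QuotientGroup.ker_mk']
        exact hPi
      have hq : RF (G ⧸ RFin_pow A hAcomm m) := ih _ hlt (h.quotient _) rfl
      obtain ⟨N, hN1, hN2, hN3⟩ := hq (QuotientGroup.mk' (RFin_pow A hAcomm m) g) (by
        intro h0
        apply hgm
        rw [← QuotientGroup.ker_mk' (RFin_pow A hAcomm m)]
        exact h0)
      refine ⟨N.comap (QuotientGroup.mk' _), inferInstance, ⟨?_⟩, hN3⟩
      rw [index_comap_of_surjective _ (QuotientGroup.mk'_surjective _)]
      exact hN2.index_ne_zero

theorem AP.rf (h : AP G) : RF G := RFin_rf_aux (ht G) h rfl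

end H36.PP
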