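import Pool.Agent.H36.PP.MinFG
import Pool.Agent.H36.PP.RFin

/-!
# Module ThmA   (est. 200 lines)

* `exists_minCE`: choose a factorised subgroup `X = A' B'`, not almost polycyclic, with
  `ht A' + ht B'` minimal; transport to the group `X`.
* `MinCE.exists_fab`: choose `N` normal with `AP (G ⧸ N)` and `ht (G ⧸ N)` maximal
  (`MinCE.ht_quot_le` bounds it by `ht A`; `N = ⊤` is allowed).  `N` is finitely generated
  (`MinCE.fg`) and infinite (`AP.ext`, `AP.of_finite`).  If a subgroup `K` of finite index in `N`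
  had a nontrivial homomorphism to `ℤ`: take `K` characteristic in `N` (`exists_char_core`, restrict
  the homomorphism: it stays nontrivial on a subgroup of finite index), let `D` be the
  intersection of the kernels of all homomorphisms `K → ℤ`: normal in `G`, `K/D` is finitely
  generated abelian and infinite, so `N/D` is infinite and `AP (G ⧸ D)`, and
  `ht (G ⧸ N) < ht (G ⧸ D)` by `ht_lt_of_surjective`: contradiction.
* `thmA`.
-/

set_option autoImplicit false

namespace H36.PP

open Subgroup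

theorem FactS.map {G H : Type*} [Group G] [Group H] {X A B : Subgroup G} (h : FactS X A B)
    (f : G →* H) : FactS (X.map f) (A.map f) (B.map f) := by
  refine ⟨map_mono h.1, map_mono h.2.1, ?_⟩
  rintro _ ⟨x, hx, rfl⟩
  obtain ⟨a, ha, b, hb, rfl⟩ := h.2.2 x hx
  exact ⟨f a, mem_map_of_mem f ha, f b, mem_map_of_mem f hb, map_mul f a b⟩

theorem AP_subgroupOf {G : Type*} [Group G] {K L : Subgroup G} (h : AP K) :
    AP (K.subgroupOf L) := by
  refine AP.of_injective (G := K.subgroupOf L) (H := K)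
    { toFun := fun x => ⟨((x : L) : G), x.2⟩, map_one' := rfl, map_mul' := fun _ _ => rfl } ?_ h
  intro x y hxy
  apply Subtype.ext
  apply Subtype.ext
  exact congrArg (fun z : K => (z : G)) hxy

theorem ht_subgroupOf {G : Type*} [Group G] {K L : Subgroup G} (h : K ≤ L) :
    ht (K.subgroupOf L) = ht K := ht_congr (subgroupOfEquivOfLe h)

theorem ht_map_subtype {G : Type*} [Group G] {L : Subgroup G} (K : Subgroup L) :
    ht (K.map L.subtype) = ht K :=
  (ht_congr (K.equivMapOfInjective L.subtype L.subtype_injective)).symm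

theorem exists_minCE {G : Type*} [Group G] (A B : Subgroup G) (hf : Fact A B)
    (hn : Group.IsNilpotent A) (hA : AP A) (hB : AP B) (hG : ¬ AP G) :
    ∃ (X A' B' : Subgroup G), A' ≤ A ∧ B' ≤ B ∧
      MinCE X (A'.subgroupOf X) (B'.subgroupOf X) := by
  classical
  let P : ℕ → Prop := fun n => ∃ X A' B' : Subgroup G, A' ≤ A ∧ B' ≤ B ∧ FactS X A' B' ∧
    ¬ AP X ∧ ht A' + ht B' = n
  have hP : ∃ n, P n := by
    refine ⟨ht A + ht B, ⊤, A, B, le_rfl, le_rfl, ⟨le_top, le_top, fun g _ => hf g⟩, ?_, rfl⟩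
    intro h
    exact hG ((AP.congr Subgroup.topEquiv).1 h)
  obtain ⟨X, A', B', hA', hB', hX, hXn, hXm⟩ := Nat.find_spec hP
  refine ⟨X, A', B', hA', hB', ?_⟩
  refine ⟨?_, ?_, ?_, ?_, hXn, ?_⟩
  · intro g
    obtain ⟨a, ha, b, hb, hab⟩ := hX.2.2 g g.2
    exact ⟨⟨a, hX.1 ha⟩, mem_subgroupOf.2 ha, ⟨b, hX.2.1 hb⟩, mem_subgroupOf.2 hb,
      Subtype.ext hab⟩
  · have : Group.IsNilpotent A' := by
      have h1 : Group.IsNilpotent (A'.subgroupOf A) := Subgroup.isNilpotent (A'.subgroupOf A)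
      exact Group.nilpotent_of_mulEquiv (subgroupOfEquivOfLe hA')
    exact Group.nilpotent_of_mulEquiv (subgroupOfEquivOfLe hX.1).symm
  · exact AP_subgroupOf (hA.mono hA')
  · exact AP_subgroupOf (hB.mono hB')
  · intro Y A'' B'' hA'' hB'' hY hlt
    rw [ht_subgroupOf hX.1, ht_subgroupOf hX.2.1, hXm] at hlt
    by_contra hYn
    refine Nat.find_min hP hlt ?_
    refine ⟨Y.map X.subtype, A''.map X.subtype, B''.map X.subtype, ?_, ?_, hY.map _, ?_, ?_⟩
    · refine le_trans ?_ hA'
      rw [map_le_iff_le_comap]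
      exact hA''
    · refine le_trans ?_ hB'
      rw [map_le_iff_le_comap]
      exact hB''
    · intro h
      exact hYn ((AP.congr (Y.equivMapOfInjective X.subtype X.subtype_injective)).2 h)
    · rw [ht_map_subtype, ht_map_subtype]

theorem MinCE.exists_fab {G : Type*} [Group G] {A B : Subgroup G} (h : MinCE G A B) :
    ∃ (N : Subgroup G) (_ : N.Normal), Infinite N ∧ N.FG ∧ AP (G ⧸ N) ∧
      ∀ K : Subgroup N, K.FiniteIndex → ∀ f : K →* Multiplicative ℤ, f = 1 := by
  classical
  -- all normal subgroups with almost polycyclic quotient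
  have hnap : ∀ (N : Subgroup G) (_ : N.Normal), AP (G ⧸ N) → ¬ AP N := by
    intro N _ hq hN
    exact h.nap (AP.ext N hN hq)
  let T : Set ℕ := {n | ∃ (N : Subgroup G) (_ : N.Normal), AP (G ⧸ N) ∧ ht (G ⧸ N) = n}
  have hT1 : T.Nonempty := by
    refine ⟨ht (G ⧸ (⊤ : Subgroup G)), ⊤, inferInstance, ?_, rfl⟩
    have : Finite (G ⧸ (⊤ : Subgroup G)) := by
      have : Subsingleton (G ⧸ (⊤ : Subgroup G)) := QuotientGroup.subsingleton_quotient_top
      infer_instance
    exact AP.of_finite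
  have hT2 : BddAbove T := by
    refine ⟨ht A, ?_⟩
    rintro n ⟨N, hN, hq, rfl⟩
    exact h.ht_quot_le N (hnap N hN hq)
  obtain ⟨N, hN, hq, hNm⟩ := Nat.sSup_mem hT1 hT2
  have hmax : ∀ (D : Subgroup G) (_ : D.Normal), AP (G ⧸ D) → ht (G ⧸ D) ≤ ht (G ⧸ N) := by
    intro D hD hDq
    rw [hNm]
    exact le_csSup hT2 ⟨D, hD, hDq, rfl⟩
  have hNfg : N.FG := h.fg N hq
  have hNi : Infinite N := by
    by_contra hc
    rw [not_infinite_iff_finite] at hc
    exact hnap N hN hq AP.of_finite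
  refine ⟨N, hN, hNi, hNfg, hq, ?_⟩
  intro K hK f
  by_contra hf
  obtain ⟨k, hk⟩ : ∃ k, f k ≠ 1 := by
    by_contra hc
    push Not at hc
    exact hf (MonoidHom.ext hc)
  -- the subgroup `S` of `G`
  let S : Subgroup G := K.map N.subtype
  have hSN : S ≤ N := map_subtype_le K
  have hSi : S.relIndex N ≠ 0 := by
    have h1 : S.subgroupOf N = K := by
      ext x
      constructor
      · rintro ⟨y, hy, hyx⟩
        have : y = x := Subtype.ext hyx
        rwa [← this]
      · intro hx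
        exact ⟨x, hx, rfl⟩
    rw [relIndex, h1]
    exact hK.index_ne_zero
  obtain ⟨T', hTn, hTS, hTi⟩ := exists_normal_core N hNfg S hSN hSi
  have hTN : T' ≤ N := hTS.trans hSN
  let e : K ≃* S := K.equivMapOfInjective N.subtype N.subtype_injective
  let F : T' →* Multiplicative ℤ :=
    f.comp (e.symm.toMonoidHom.comp (Subgroup.inclusion hTS))
  have hpow : ∀ (z : Multiplicative ℤ) (n : ℕ), 0 < n → z ^ n = 1 → z = 1 := by
    intro z n hn hz
    have h1 : (n : ℤ) * Multiplicative.toAdd z = 0 := by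
      have := congrArg Multiplicative.toAdd hz
      rwa [toAdd_pow, toAdd_one, nsmul_eq_mul] at this
    rcases mul_eq_zero.1 h1 with h2 | h2
    · exact absurd (by exact_mod_cast h2) hn.ne'
    · exact h2
  obtain ⟨t, ht⟩ : ∃ t : T', F t ≠ 1 := by
    have hkN : ((e k : S) : G) ∈ N := hSN (e k).2
    obtain ⟨n, hn, -, hm⟩ := exists_pow_mem_of_relIndex_ne_zero hTi hkN
    refine ⟨⟨((e k : S) : G) ^ n, hm.1⟩, ?_⟩
    intro hc
    have h1 : Subgroup.inclusion hTS ⟨((e k : S) : G) ^ n, hm.1⟩ = (e k) ^ n :=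
      Subtype.ext rfl
    have h2 : F ⟨((e k : S) : G) ^ n, hm.1⟩ = f k ^ n := by
      change f (e.symm (Subgroup.inclusion hTS ⟨((e k : S) : G) ^ n, hm.1⟩)) = f k ^ n
      rw [h1, map_pow, MulEquiv.symm_apply_apply, map_pow]
    rw [h2] at hc
    exact hk (hpow _ n hn hc)
  -- the intersection of the kernels
  let D0 : Subgroup T' := ⨅ g : T' →* Multiplicative ℤ, g.ker
  have hD0 : ∀ x : T', x ∈ D0 ↔ ∀ g : T' →* Multiplicative ℤ, g x = 1 := by
    intro x
    simp only [D0, mem_iInf, MonoidHom.mem_ker]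
  have hchar : D0.Characteristic := by
    rw [characteristic_iff_le_comap]
    intro φ x hx
    rw [mem_comap, hD0]
    intro g
    exact (hD0 x).1 hx (g.comp φ.toMonoidHom)
  let D : Subgroup G := D0.map T'.subtype
  have hDn : D.Normal := ConjAct.normal_of_characteristic_of_normal
  have hDT : D ≤ T' := map_subtype_le D0
  have hDN : D ≤ N := hDT.trans hTN
  have hmemD : ∀ x : T', (x : G) ∈ D ↔ x ∈ D0 := by
    intro x
    constructor
    · rintro ⟨y, hy, hyx⟩
      have : y = x := Subtype.ext hyx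
      rwa [← this]
    · intro hx
      exact ⟨x, hx, rfl⟩
  have hTfg : T'.FG := by
    have h1 : Group.FG N := (Group.fg_iff_subgroup_fg N).2 hNfg
    have h2 : (T'.subgroupOf N).FiniteIndex := ⟨hTi⟩
    have h3 : Group.FG (T'.subgroupOf N) := Subgroup.fg_of_index_ne_zero (T'.subgroupOf N)
    have h4 : (T'.subgroupOf N).FG := (Group.fg_iff_subgroup_fg _).1 h3
    have h5 := fg_map h4 N.subtype
    rwa [subgroupOf_map_subtype, inf_eq_left.2 hTN] at h5
  have hA1 : AP (T'.map (QuotientGroup.mk' D) : Subgroup (G ⧸ D)) := by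
    refine AP.of_comm_fg ?_ ((Group.fg_iff_subgroup_fg _).2 (fg_map hTfg _))
    rintro ⟨_, x, hx, rfl⟩ ⟨_, y, hy, rfl⟩
    apply Subtype.ext
    change (QuotientGroup.mk (x * y) : G ⧸ D) = QuotientGroup.mk (y * x)
    rw [QuotientGroup.eq]
    have : (x * y)⁻¹ * (y * x) =
        (((⟨x, hx⟩ * ⟨y, hy⟩)⁻¹ * (⟨y, hy⟩ * ⟨x, hx⟩) : T') : G) := rfl
    rw [this, hmemD, hD0]
    intro g
    rw [map_mul, map_inv, map_mul, map_mul, mul_comm (g ⟨y, hy⟩), inv_mul_cancel]
  have hA2 : AP (N.map (QuotientGroup.mk' D) : Subgroup (G ⧸ D)) := by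
    refine AP.of_finiteIndex ((T'.map (QuotientGroup.mk' D)).subgroupOf
      (N.map (QuotientGroup.mk' D))) ⟨?_⟩ (AP_subgroupOf hA1)
    change (T'.map (QuotientGroup.mk' D)).relIndex (N.map (QuotientGroup.mk' D)) ≠ 0
    rw [relIndex_map_map, QuotientGroup.ker_mk', sup_eq_left.2 hDT, sup_eq_left.2 hDN]
    exact hTi
  have hA3 : AP (G ⧸ D) := AP.quotient_of_le D N hDN hA2 hq
  have hle : D ≤ N.comap (MonoidHom.id G) := hDN
  have hlt : H36.PP.ht (G ⧸ N) < H36.PP.ht (G ⧸ D) := by
    refine ht_lt_of_surjective hA3 (QuotientGroup.map D N (MonoidHom.id G) hle) ?_ ?_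
    · intro x
      induction x using QuotientGroup.induction_on with
      | H x => exact ⟨QuotientGroup.mk x, rfl⟩
    · by_contra hc
      rw [not_infinite_iff_finite] at hc
      have h1 : (QuotientGroup.mk (t : G) : G ⧸ D) ∈
          (QuotientGroup.map D N (MonoidHom.id G) hle).ker := by
        rw [MonoidHom.mem_ker]
        change (QuotientGroup.mk (t : G) : G ⧸ N) = 1
        rw [QuotientGroup.eq_one_iff]
        exact hTN t.2
      obtain ⟨n, hn, h2⟩ := (isOfFinOrder_iff_pow_eq_one.1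
        (isOfFinOrder_of_finite (⟨_, h1⟩ : (QuotientGroup.map D N (MonoidHom.id G) hle).ker)))
      have h3 : (QuotientGroup.mk ((t : G) ^ n) : G ⧸ D) = 1 := congrArg Subtype.val h2
      rw [QuotientGroup.eq_one_iff] at h3
      have h4 : t ^ n ∈ D0 := (hmemD (t ^ n)).1 h3
      have h5 := (hD0 _).1 h4 F
      rw [map_pow] at h5
      exact ht (hpow _ n hn h5)
  exact absurd (hmax D hDn hA3) (not_le.2 hlt)

theorem VInd.subgroup {G : Type*} [Group G] (h : VInd G) (X : Subgroup G) : VInd X := by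
  intro H hH hi
  let e : H ≃* H.map X.subtype := H.equivMapOfInjective X.subtype X.subtype_injective
  have hi' : Infinite (H.map X.subtype) := Infinite.of_injective e e.injective
  obtain ⟨K, hK, f, hf⟩ := h (H.map X.subtype) (fg_map hH X.subtype) hi'
  refine ⟨K.comap e.toMonoidHom, ?_, ?_⟩
  · constructor
    rw [index_comap_of_surjective _ e.surjective]
    exact hK.index_ne_zero
  · refine ⟨f.comp (e.toMonoidHom.subgroupComap K), ?_⟩
    intro hc
    apply hf
    refine MonoidHom.ext fun x => ?_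
    obtain ⟨y, hy⟩ := e.surjective (x : H.map X.subtype)
    have hyK : y ∈ K.comap e.toMonoidHom := by
      rw [mem_comap]
      change e y ∈ K
      rw [hy]
      exact x.2
    have h1 : e.toMonoidHom.subgroupComap K ⟨y, hyK⟩ = x := Subtype.ext hy
    have h2 := DFunLike.congr_fun hc ⟨y, hyK⟩
    change f (e.toMonoidHom.subgroupComap K ⟨y, hyK⟩) = 1 at h2
    rw [h1] at h2
    exact h2

theorem thmA {G : Type*} [Group G] (A B : Subgroup G) (hf : Fact A B)
    (hn : Group.IsNilpotent A) (hA : AP A) (hB : AP B) (hv : VInd G) : AP G := by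
  by_contra hG
  obtain ⟨X, A', B', -, -, hX⟩ := exists_minCE A B hf hn hA hB hG
  obtain ⟨N, hN, hNi, hNfg, -, hNf⟩ := hX.exists_fab
  obtain ⟨K, hK, f, hf⟩ := hv.subgroup X N hNfg hNi
  exact hf (hNf K hK f)

end H36.PP
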