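import Pool.Agent.H36.PP.ThmA

/-! # Translation of the working definitions into the wording of the problem -/

set_option autoImplicit false

namespace H36.PP

open Subgroup

variable {G : Type*} [Group G]

theorem max_of_le {A : Subgroup G} (h : ∀ K : Subgroup G, K ≤ A → K.FG) : Max A := by
  intro H
  have h1 : (H.map A.subtype).FG := h _ (map_subtype_le H)
  have h2 : Group.FG (H.map A.subtype) := (Group.fg_iff_subgroup_fg _).2 h1
  have h3 : Group.FG H := Group.fg_of_surjective
    (f := (H.equivMapOfInjective A.subtype A.subtype_injective).symm.toMonoidHom)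
    (H.equivMapOfInjective A.subtype A.subtype_injective).symm.surjective
  exact (Group.fg_iff_subgroup_fg _).1 h3

theorem ap_of_le {B : Subgroup G} (h : (∀ K : Subgroup G, K ≤ B → K.FG) ∧
    ∃ S : Subgroup G, S ≤ B ∧ Group.IsSolvable S ∧ (S.subgroupOf B).FiniteIndex) : AP B := by
  refine ⟨max_of_le h.1, ?_⟩
  obtain ⟨S, hS, hsol, hi⟩ := h.2
  refine ⟨S.subgroupOf B, hi, ?_⟩
  have := hsol
  exact Group.isSolvable_of_isSolvable_injective
    (f := (subgroupOfEquivOfLe hS).toMonoidHom) (subgroupOfEquivOfLe hS).injective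

theorem ap_nil {A : Subgroup G} (h : (∀ K : Subgroup G, K ≤ A → K.FG) ∧
    Group.IsNilpotent A) : AP A := by
  have := h.2
  refine ⟨max_of_le h.1, ⊤, inferInstance, ?_⟩
  have h1 : Group.IsSolvable A := inferInstance
  infer_instance

theorem ap_iff : AP G ↔ ((∀ K : Subgroup G, K.FG) ∧
    ∃ S : Subgroup G, Group.IsSolvable S ∧ S.FiniteIndex) :=
  ⟨fun h => ⟨h.1, h.2.imp fun _ hS => ⟨hS.2, hS.1⟩⟩,
    fun h => ⟨h.1, h.2.imp fun _ hS => ⟨hS.2, hS.1⟩⟩⟩

end H36.PP
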