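import Pool.Agent.H36.PP.APB

/-!
# Module Ht: lengths of chains of subgroups of infinite index   (est. 250 lines)

`HasChain G n`: there are `c 0 ≥ c 1 ≥ ... ≥ c n` in which every step has infinite index.

* transport along injective homomorphisms: map the chain (`relIndex_map_map_of_injective`).
* surjective homomorphisms `f : G →* H`: take preimages (`relIndex_comap`).
* subgroups of finite index: intersect the chain with `K`: if `c (i+1)` has infinite index in
  `c i` then `c (i+1) ⊓ K` has infinite index in `c i ⊓ K`.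
* boundedness: for `N` normal, a chain of length `n` in `G` gives `p` steps with
  `c (i+1) ⊓ N` of infinite index in `c i ⊓ N` and `q` steps with images of infinite index in
  `G ⧸ N`, `p + q ≥ n` (if both are finite for a step then the step is finite:
  `|c i : c (i+1)| ≤ |c i N : c (i+1) N| |c i ⊓ N : c (i+1) ⊓ N|`), and after deleting the other
  steps one gets chains of lengths `p` and `q`.  So the bound is additive in extensions.
  Finite groups: 0.  Cyclic groups: 1.  A finitely generated abelian group is a finite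
  iterated extension of cyclic groups.  Soluble groups with `Max`: derived series.
* `ht_lt`: put `K` in front of a chain of `H`.
* `ht_lt_of_surjective`: pull back a longest chain of the image; its last term contains the
  infinite kernel, so one can append the trivial subgroup.
-/

set_option autoImplicit false

namespace H36.PP

open Subgroup

variable {G H : Type*} [Group G] [Group H]

/-! ### helper lemmas -/

theorem Ht_step_ker (f : G →* H) {A B : Subgroup G} (hAB : A ≤ B)
    (h1 : A.relIndex (B ⊓ f.ker) ≠ 0)
    (h2 : (A.map f).relIndex (B.map f) ≠ 0) : A.relIndex B ≠ 0 := by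
  set M : Subgroup G := (A.map f).comap f ⊓ B with hM
  have hMB : M.relIndex B ≠ 0 := by
    rw [hM, inf_relIndex_right, relIndex_comap]
    exact h2
  have hAM : A.relIndex M ≠ 0 := by
    rw [relIndex] at h1 ⊢
    haveI : (A.subgroupOf (B ⊓ f.ker)).FiniteIndex := ⟨h1⟩
    have hfin : Finite (↥(B ⊓ f.ker) ⧸ A.subgroupOf (B ⊓ f.ker)) :=
      finite_quotient_of_finiteIndex
    have hle : B ⊓ f.ker ≤ M := by
      intro x hx
      refine ⟨?_, hx.1⟩
      have h0 : f x = 1 := hx.2
      show f x ∈ A.map f
      rw [h0]
      exact one_mem _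
    let F : (↥(B ⊓ f.ker) ⧸ A.subgroupOf (B ⊓ f.ker)) → (↥M ⧸ A.subgroupOf M) :=
      Quotient.map' (fun k => ⟨(k : G), hle k.2⟩) (by
        intro a b hab
        rw [QuotientGroup.leftRel_apply] at hab ⊢
        exact hab)
    have hF : Function.Surjective F := by
      intro q
      induction q using Quotient.inductionOn' with
      | h m =>
        obtain ⟨a, ha, hfa⟩ : ∃ a ∈ A, f a = f m := m.2.1
        have haK : (m : G) * a⁻¹ ∈ f.ker := by
          rw [MonoidHom.mem_ker, map_mul, map_inv, hfa, mul_inv_cancel]
        refine ⟨Quotient.mk'' ⟨(m : G) * a⁻¹, ⟨B.mul_mem m.2.2 (B.inv_mem (hAB ha)), haK⟩⟩, ?_⟩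
        show Quotient.mk'' _ = Quotient.mk'' _
        apply Quotient.sound'
        rw [QuotientGroup.leftRel_apply]
        show (((m : G) * a⁻¹)⁻¹ * (m : G)) ∈ A
        have : ((m : G) * a⁻¹)⁻¹ * (m : G) = a := by group
        rw [this]
        exact ha
    have : Finite (↥M ⧸ A.subgroupOf M) := Finite.of_surjective F hF
    exact index_ne_zero_of_finite
  exact relIndex_ne_zero_trans hAM hMB

theorem Ht_relIndex_subgroupOf (A B K : Subgroup G) :
    (A.subgroupOf K).relIndex (B.subgroupOf K) = A.relIndex (B ⊓ K) := by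
  rw [← inf_subgroupOf_right B K, relIndex_subgroupOf inf_le_right]

/-- from a decreasing sequence, keep only the steps of infinite index -/
theorem Ht_count (c : ℕ → Subgroup G) (n : ℕ) (hc : ∀ i < n, c (i + 1) ≤ c i) :
    ∃ d : ℕ → Subgroup G,
      (∀ i < ((Finset.range n).filter fun i => (c (i + 1)).relIndex (c i) = 0).card,
        d (i + 1) ≤ d i ∧ (d (i + 1)).relIndex (d i) = 0) ∧
      c n ≤ d ((Finset.range n).filter fun i => (c (i + 1)).relIndex (c i) = 0).card := by
  induction n with
  | zero => exact ⟨c, fun i hi => absurd hi (by simp), by simp⟩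
  | succ n ih =>
    obtain ⟨d, hd1, hd2⟩ := ih (fun i hi => hc i (Nat.lt_succ_of_lt hi))
    set p := ((Finset.range n).filter fun i => (c (i + 1)).relIndex (c i) = 0).card with hp
    by_cases h : (c (n + 1)).relIndex (c n) = 0
    · have hcard : ((Finset.range (n + 1)).filter
          fun i => (c (i + 1)).relIndex (c i) = 0).card = p + 1 := by
        rw [Finset.range_add_one, Finset.filter_insert, if_pos h, Finset.card_insert_of_notMem]
        simp
      rw [hcard]
      refine ⟨fun i => if i ≤ p then d i else c (n + 1), ?_, ?_⟩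
      · intro i hi
        rcases Nat.lt_succ_iff_lt_or_eq.mp hi with hi' | hi'
        · have h1 : i ≤ p := hi'.le
          have h2 : i + 1 ≤ p := hi'
          simp only [h1, h2, if_true]
          exact hd1 i hi'
        · subst hi'
          have h2 : ¬ (p + 1 ≤ p) := by omega
          simp only [le_refl, h2, if_true, if_false]
          exact ⟨(hc n (Nat.lt_succ_self n)).trans hd2,
            relIndex_eq_zero_of_le_right hd2 h⟩
      · have h2 : ¬ (p + 1 ≤ p) := by omega
        simp only [h2, if_false]
        exact le_refl _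
    · have hcard : ((Finset.range (n + 1)).filter
          fun i => (c (i + 1)).relIndex (c i) = 0).card = p := by
        rw [Finset.range_add_one, Finset.filter_insert, if_neg h]
      rw [hcard]
      exact ⟨d, hd1, (hc n (Nat.lt_succ_self n)).trans hd2⟩

theorem Ht_count' (c : ℕ → Subgroup G) (n : ℕ) (hc : ∀ i < n, c (i + 1) ≤ c i) :
    HasChain G ((Finset.range n).filter fun i => (c (i + 1)).relIndex (c i) = 0).card := by
  obtain ⟨d, hd, _⟩ := Ht_count c n hc
  exact ⟨d, hd⟩

theorem hasChain_zero : HasChain G 0 :=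
  ⟨fun _ => ⊥, fun i hi => absurd hi (Nat.not_lt_zero i)⟩

theorem HasChain.of_injective (f : G →* H) (hf : Function.Injective f) {n : ℕ}
    (h : HasChain G n) : HasChain H n := by
  obtain ⟨c, hc⟩ := h
  refine ⟨fun i => (c i).map f, fun i hi => ⟨map_mono (hc i hi).1, ?_⟩⟩
  rw [relIndex_map_map_of_injective _ _ hf]
  exact (hc i hi).2

theorem HasChain.of_surjective (f : G →* H) (hf : Function.Surjective f) {n : ℕ}
    (h : HasChain H n) : HasChain G n := by
  obtain ⟨c, hc⟩ := h
  refine ⟨fun i => (c i).comap f, fun i hi => ⟨comap_mono (hc i hi).1, ?_⟩⟩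
  rw [relIndex_comap, map_comap_eq_self_of_surjective hf]
  exact (hc i hi).2

/-- intersection with a subgroup of finite index -/
theorem Ht_inf_finite (K : Subgroup G) (hK : K.index ≠ 0) {n : ℕ} (h : HasChain G n) :
    HasChain K n := by
  obtain ⟨c, hc⟩ := h
  refine ⟨fun i => (c i).subgroupOf K, fun i hi => ⟨comap_mono (hc i hi).1, ?_⟩⟩
  rw [Ht_relIndex_subgroupOf]
  by_contra h0
  have h1 : (c i ⊓ K).relIndex (c i) ≠ 0 := by
    rw [inf_relIndex_left]
    exact fun h2 => hK (index_eq_zero_of_relIndex_eq_zero h2)
  exact relIndex_ne_zero_trans h0 h1 (hc i hi).2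

/-- bounded chains -/
def HtBd (G : Type*) [Group G] : Prop := ∃ N : ℕ, ∀ n, HasChain G n → n ≤ N

theorem HtBd.ext (f : G →* H) (h1 : HtBd f.ker) (h2 : HtBd H) : HtBd G := by
  obtain ⟨N1, h1⟩ := h1
  obtain ⟨N2, h2⟩ := h2
  refine ⟨N1 + N2, fun n hn => ?_⟩
  obtain ⟨c, hc⟩ := hn
  have e1 := h1 _ (Ht_count' (fun i => (c i).subgroupOf f.ker) n
    (fun i hi => comap_mono (hc i hi).1))
  have e2 := h2 _ (Ht_count' (fun i => (c i).map f) n (fun i hi => map_mono (hc i hi).1))
  have e3 : (Finset.range n) ⊆
      ((Finset.range n).filter fun i =>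
        ((c (i + 1)).subgroupOf f.ker).relIndex ((c i).subgroupOf f.ker) = 0) ∪
      ((Finset.range n).filter fun i => ((c (i + 1)).map f).relIndex ((c i).map f) = 0) := by
    intro i hi
    rw [Finset.mem_union, Finset.mem_filter, Finset.mem_filter]
    by_contra h0
    push Not at h0
    have ha := h0.1 hi
    have hb := h0.2 hi
    rw [Ht_relIndex_subgroupOf] at ha
    exact Ht_step_ker f (hc i (Finset.mem_range.mp hi)).1 ha hb (hc i (Finset.mem_range.mp hi)).2
  have e4 := Finset.card_le_card e3
  rw [Finset.card_range] at e4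
  have e5 := Finset.card_union_le
    ((Finset.range n).filter fun i =>
        ((c (i + 1)).subgroupOf f.ker).relIndex ((c i).subgroupOf f.ker) = 0)
      ((Finset.range n).filter fun i => ((c (i + 1)).map f).relIndex ((c i).map f) = 0)
  omega

theorem HtBd.of_injective (f : G →* H) (hf : Function.Injective f) (h : HtBd H) : HtBd G := by
  obtain ⟨N, h⟩ := h
  exact ⟨N, fun n hn => h n (hn.of_injective f hf)⟩

theorem HtBd.of_surjective (f : G →* H) (hf : Function.Surjective f) (h : HtBd G) : HtBd H := by
  obtain ⟨N, h⟩ := h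
  exact ⟨N, fun n hn => h n (hn.of_surjective f hf)⟩

theorem HtBd.of_finite [Finite G] : HtBd G := by
  refine ⟨0, fun n hn => ?_⟩
  obtain ⟨c, hc⟩ := hn
  by_contra h0
  have h1 := (hc 0 (by omega)).2
  rw [relIndex] at h1
  exact index_ne_zero_of_finite h1

theorem HtBd.int : HtBd (Multiplicative ℤ) := by
  refine ⟨1, fun n hn => ?_⟩
  obtain ⟨c, hc⟩ := hn
  by_contra h0
  have h1 := (hc 0 (by omega)).2
  have h2 := (hc 1 (by omega)).2
  have h3 := (hc 1 (by omega)).1
  have h4 : c 1 = ⊥ := by
    by_contra h5
    obtain ⟨x, hx, hx1⟩ := (c 1).bot_or_exists_ne_one.resolve_left h5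
    have h6 : (c (0 + 1)).index = 0 := index_eq_zero_of_relIndex_eq_zero h1
    have h7 : zpowers x ≤ c (0 + 1) := by
      rw [zpowers_le]; exact hx
    have h8 : (zpowers x).index = 0 := by
      have := index_dvd_of_le h7
      rw [h6] at this
      exact Nat.eq_zero_of_zero_dvd this
    have hm : (Multiplicative.toAdd x) ≠ 0 := by
      intro h9
      apply hx1
      exact Multiplicative.toAdd.injective h9
    have hfin : Finite (Multiplicative ℤ ⧸ zpowers x) := by
      haveI : NeZero (Multiplicative.toAdd x).natAbs := ⟨Int.natAbs_ne_zero.mpr hm⟩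
      let g : ZMod (Multiplicative.toAdd x).natAbs → (Multiplicative ℤ ⧸ zpowers x) :=
        fun z => QuotientGroup.mk (Multiplicative.ofAdd (z.val : ℤ))
      refine Finite.of_surjective g ?_
      intro q
      induction q using Quotient.inductionOn' with
      | h y =>
        refine ⟨((Multiplicative.toAdd y : ℤ) : ZMod (Multiplicative.toAdd x).natAbs), ?_⟩
        show QuotientGroup.mk _ = QuotientGroup.mk _
        rw [QuotientGroup.eq, mem_zpowers_iff]
        have hd : (((Multiplicative.toAdd x).natAbs : ℕ) : ℤ) ∣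
            (Multiplicative.toAdd y -
              ((((Multiplicative.toAdd y : ℤ) : ZMod (Multiplicative.toAdd x).natAbs).val : ℕ) : ℤ)) := by
          rw [← ZMod.intCast_zmod_eq_zero_iff_dvd]
          push_cast
          rw [ZMod.natCast_val, ZMod.cast_id', id, sub_self]
        have hd2 : (Multiplicative.toAdd x) ∣
            (Multiplicative.toAdd y -
              ((((Multiplicative.toAdd y : ℤ) : ZMod (Multiplicative.toAdd x).natAbs).val : ℕ) : ℤ)) :=
          Int.natAbs_dvd.mp hd
        obtain ⟨k, hk⟩ := hd2
        refine ⟨k, ?_⟩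
        apply Multiplicative.toAdd.injective
        rw [toAdd_zpow, toAdd_mul, toAdd_inv, toAdd_ofAdd, smul_eq_mul]
        linarith
    exact index_ne_zero_of_finite h8
  have h5 : c (1 + 1) = c 1 := le_antisymm h3 (by rw [h4]; exact bot_le)
  rw [h5, relIndex_self] at h2
  exact one_ne_zero h2

theorem HtBd.pi (n : ℕ) : HtBd (Multiplicative (Fin n → ℤ)) := by
  induction n with
  | zero =>
    haveI : Finite (Multiplicative (Fin 0 → ℤ)) :=
      Finite.of_injective (β := Fin 0 → ℤ) (fun x => Multiplicative.toAdd x)
        Multiplicative.toAdd.injective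
    exact HtBd.of_finite
  | succ n ih =>
    let f : Multiplicative (Fin (n + 1) → ℤ) →* Multiplicative ℤ :=
      AddMonoidHom.toMultiplicative (Pi.evalAddMonoidHom (fun _ : Fin (n + 1) => ℤ) 0)
    let g0 : (Fin (n + 1) → ℤ) →+ (Fin n → ℤ) :=
      { toFun := fun v i => v i.succ
        map_zero' := by funext i; rfl
        map_add' := by intro a b; funext i; rfl }
    let g : f.ker →* Multiplicative (Fin n → ℤ) :=
      (AddMonoidHom.toMultiplicative g0).comp f.ker.subtype
    refine HtBd.ext f (HtBd.of_injective g ?_ ih) HtBd.int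
    rw [← MonoidHom.ker_eq_bot_iff, eq_bot_iff]
    rintro ⟨x, hx⟩ hx2
    rw [mem_bot]
    apply Subtype.ext
    show x = 1
    apply Multiplicative.toAdd.injective
    funext i
    refine Fin.cases ?_ (fun j => ?_) i
    · exact congrArg Multiplicative.toAdd hx
    · have h3 : g ⟨x, hx⟩ = 1 := hx2
      have h4 := congrArg Multiplicative.toAdd h3
      exact congrFun h4 j

theorem HtBd.comm (hc : ∀ x y : G, x * y = y * x) (hG : Group.FG G) : HtBd G := by
  letI : CommGroup G := { (inferInstance : Group G) with mul_comm := hc }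
  haveI : AddGroup.FG (Additive G) := GroupFG.iff_add_fg.mp hG
  haveI : Module.Finite ℤ (Additive G) := Module.Finite.iff_addGroup_fg.mpr inferInstance
  obtain ⟨n, f, hf⟩ := Module.Finite.exists_fin' ℤ (Additive G)
  let F : Multiplicative (Fin n → ℤ) →* G :=
    { toFun := fun v => Additive.toMul (f (Multiplicative.toAdd v))
      map_one' := by simp
      map_mul' := by intro a b; simp }
  refine HtBd.of_surjective F ?_ (HtBd.pi n)
  intro x
  obtain ⟨v, hv⟩ := hf (Additive.ofMul x)
  exact ⟨Multiplicative.ofAdd v, by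
    show Additive.toMul (f v) = x
    rw [hv]; rfl⟩

theorem HtBd.solvable (n : ℕ) : ∀ (G : Type _) [Group G], derivedSeries G n = ⊥ → Max G →
    HtBd G := by
  induction n with
  | zero =>
    intro G _ h _
    rw [derivedSeries_zero] at h
    haveI : Subsingleton G := by
      refine ⟨fun a b => ?_⟩
      have ha : a ∈ (⊤ : Subgroup G) := mem_top a
      have hb : b ∈ (⊤ : Subgroup G) := mem_top b
      rw [h, mem_bot] at ha hb
      rw [ha, hb]
    exact HtBd.of_finite
  | succ n ih =>
    intro G _ h hM
    set N : Subgroup G := derivedSeries G n with hN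
    have hcomm : ∀ x y : N, x * y = y * x := by
      rw [derivedSeries_succ, commutator_eq_bot_iff_le_centralizer] at h
      intro x y
      apply Subtype.ext
      have := h x.2
      rw [mem_centralizer_iff] at this
      exact (this y y.2).symm
    have h1 : HtBd N := HtBd.comm hcomm ((Group.fg_iff_subgroup_fg N).mpr (hM N))
    have h2 : HtBd (G ⧸ N) := by
      apply ih
      · rw [← map_derivedSeries_eq (QuotientGroup.mk'_surjective N) n, ← hN]
        rw [Subgroup.map_eq_bot_iff, QuotientGroup.ker_mk']
      · exact Max.of_surjective (QuotientGroup.mk' N) (QuotientGroup.mk'_surjective N) hM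
    refine HtBd.ext (QuotientGroup.mk' N) ?_ h2
    rw [QuotientGroup.ker_mk']
    exact h1

theorem Ht_ap (h : AP G) : HtBd G := by
  obtain ⟨hM, S, hS, hsol⟩ := h
  obtain ⟨n, hn⟩ := hsol.solvable
  obtain ⟨N, hN⟩ := HtBd.solvable n S hn (Max.subgroup hM S)
  exact ⟨N, fun m hm => hN m (Ht_inf_finite S hS.index_ne_zero hm)⟩

theorem ht_bdd (h : AP G) : BddAbove {n | HasChain G n} := by
  obtain ⟨N, hN⟩ := Ht_ap h
  exact ⟨N, fun n hn => hN n hn⟩

theorem hasChain_ht (h : AP G) : HasChain G (ht G) :=
  Nat.sSup_mem (s := {n | HasChain G n}) ⟨0, hasChain_zero⟩ (ht_bdd h)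

theorem HasChain.le_ht (h : AP G) {n : ℕ} (hn : HasChain G n) : n ≤ ht G :=
  le_csSup (ht_bdd h) hn

theorem ht_congr (e : G ≃* H) : ht G = ht H := by
  unfold ht
  congr 1
  ext n
  exact ⟨fun h => h.of_injective e.toMonoidHom e.injective,
    fun h => h.of_injective e.symm.toMonoidHom e.symm.injective⟩

theorem ht_le_of_injective (hH : AP H) (f : G →* H) (hf : Function.Injective f) :
    ht G ≤ ht H :=
  ((hasChain_ht (AP.of_injective f hf hH)).of_injective f hf).le_ht hH

theorem ht_mono {H K : Subgroup G} (hK : AP K) (h : H ≤ K) : ht H ≤ ht K :=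
  ht_le_of_injective hK (inclusion h) (inclusion_injective h)

theorem ht_lt {H K : Subgroup G} (hK : AP K) (h : H ≤ K) (hi : H.relIndex K = 0) :
    ht H < ht K := by
  have hi0 := hi
  have hH : AP H := AP.of_injective (inclusion h) (inclusion_injective h) hK
  obtain ⟨c, hc⟩ := hasChain_ht hH
  have hch : HasChain K (ht H + 1) := by
    refine ⟨fun i => if i = 0 then ⊤ else (c (i - 1)).map (inclusion h), fun i hi => ?_⟩
    rcases i with _ | i
    · simp only [Nat.zero_add, one_ne_zero, if_false, if_true, Nat.sub_self]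
      refine ⟨le_top, ?_⟩
      rw [relIndex_top_right]
      have h1 : (c 0).map (inclusion h) ≤ H.subgroupOf K := by
        rintro _ ⟨x, _, rfl⟩
        exact x.2
      have h2 := index_dvd_of_le h1
      have h3 : (H.subgroupOf K).index = 0 := hi0
      rw [h3] at h2
      exact Nat.eq_zero_of_zero_dvd h2
    · simp only [Nat.add_one_ne_zero, if_false, Nat.add_sub_cancel]
      refine ⟨map_mono (hc i (by omega)).1, ?_⟩
      rw [relIndex_map_map_of_injective _ _ (inclusion_injective h)]
      exact (hc i (by omega)).2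
  have := hch.le_ht hK
  omega

theorem ht_eq_of_relIndex {H K : Subgroup G} (hK : AP K) (h : H ≤ K) (hi : H.relIndex K ≠ 0) :
    ht H = ht K := by
  refine le_antisymm (ht_mono hK h) ?_
  have hH : AP H := AP.of_injective (inclusion h) (inclusion_injective h) hK
  have h1 : HasChain (H.subgroupOf K) (ht K) := Ht_inf_finite _ hi (hasChain_ht hK)
  have h2 : HasChain H (ht K) :=
    h1.of_injective (subgroupOfEquivOfLe h).toMonoidHom (subgroupOfEquivOfLe h).injective
  exact h2.le_ht hH

theorem ht_eq_of_finiteIndex (hG : AP G) (K : Subgroup G) (hK : K.FiniteIndex) :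
    ht K = ht G := by
  refine le_antisymm (ht_le_of_injective hG K.subtype K.subtype_injective) ?_
  exact (Ht_inf_finite K hK.index_ne_zero (hasChain_ht hG)).le_ht (AP.subgroup hG K)

theorem ht_le_of_surjective (hG : AP G) (f : G →* H) (hf : Function.Surjective f) :
    ht H ≤ ht G :=
  ((hasChain_ht (AP.of_surjective f hf hG)).of_surjective f hf).le_ht hG

theorem ht_lt_of_surjective (hG : AP G) (f : G →* H) (hf : Function.Surjective f)
    (hk : Infinite f.ker) : ht H < ht G := by
  obtain ⟨c, hc⟩ := hasChain_ht (AP.of_surjective f hf hG)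
  have hch : HasChain G (ht H + 1) := by
    refine ⟨fun i => if i ≤ ht H then (c i).comap f else ⊥, fun i hi => ?_⟩
    rcases Nat.lt_succ_iff_lt_or_eq.mp hi with hi' | hi'
    · have h1 : i ≤ ht H := hi'.le
      have h2 : i + 1 ≤ ht H := hi'
      simp only [h1, h2, if_true]
      refine ⟨comap_mono (hc i hi').1, ?_⟩
      rw [relIndex_comap, map_comap_eq_self_of_surjective hf]
      exact (hc i hi').2
    · subst hi'
      have h2 : ¬ (ht H + 1 ≤ ht H) := by omega
      simp only [le_refl, h2, if_true, if_false]
      refine ⟨bot_le, ?_⟩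
      rw [relIndex_bot_left]
      have hle : f.ker ≤ (c (ht H)).comap f := by
        intro x hx
        show f x ∈ c (ht H)
        rw [MonoidHom.mem_ker.mp hx]
        exact one_mem _
      haveI : Infinite ((c (ht H)).comap f) :=
        Infinite.of_injective (inclusion hle) (inclusion_injective hle)
      exact Nat.card_eq_zero_of_infinite
  have := hch.le_ht hG
  omega

end H36.PP
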