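import Pool.Agent.H36.PP.BNSD

/-!
# Module BNSPush: paths between elements of the kernel can be pushed into a ball

Let `δ`, `L` be as in the statement; take an integer `R ≥ 0` with `R ≥ (L / (2 δ))²`.
For a vertex `g` with `nsq g = m > R` and the unit vector `u = - π g / ρ`, `ρ² = m`:
`nsq (g v) = m - 2 ρ χ_u v + nsq v`;
so a neighbour `g s` with `nsq (g s) ≤ m` has `χ_u s ≥ 0`, and if `χ_u v ≥ δ` and `nsq v ≤ L` then
`nsq (g v) < m`.  Invariant of the induction along a path with `nsq ≤ m` that starts below `m`: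
a vertex below `m` is reached by a path below `m`; a vertex at `m` has a neighbour that is
reached by a path below `m`.
-/

set_option autoImplicit false

namespace H36.PP

open Subgroup

variable {C : Type*} [Group C] {k : ℕ}

/-- edge of the Cayley graph inside the ball `nsq ≤ m` -/
private def EB (S : Set C) (π : C →* Multiplicative (Fin k → ℤ)) (m : ℤ) (g h : C) : Prop :=
  (g⁻¹ * h ∈ S ∨ h⁻¹ * g ∈ S) ∧ nsq π g ≤ m ∧ nsq π h ≤ m

private theorem nsq_nonneg' (π : C →* Multiplicative (Fin k → ℤ)) (g : C) : 0 ≤ nsq π g :=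
  Finset.sum_nonneg fun _ _ => sq_nonneg _

/-- the unit vector opposite to `π g` -/
private theorem unit_vec (π : C →* Multiplicative (Fin k → ℤ)) (g : C) (hm : 0 < nsq π g) :
    ∃ u : Fin k → ℝ, ∑ i, u i ^ 2 = 1 ∧ ∀ v : C,
      (nsq π (g * v) : ℝ) = nsq π g - 2 * Real.sqrt (nsq π g) * chr π u v + nsq π v := by
  set ρ : ℝ := Real.sqrt (nsq π g) with hρ
  have hm' : (0 : ℝ) < (nsq π g : ℝ) := by exact_mod_cast hm
  have hρ0 : 0 < ρ := Real.sqrt_pos.mpr hm'
  have hρ2 : ρ ^ 2 = (nsq π g : ℝ) := Real.sq_sqrt hm'.le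
  refine ⟨fun i => - ((Multiplicative.toAdd (π g) i : ℤ) : ℝ) / ρ, ?_, ?_⟩
  · have h1 : ∀ i : Fin k, (- ((Multiplicative.toAdd (π g) i : ℤ) : ℝ) / ρ) ^ 2
        = ((Multiplicative.toAdd (π g) i : ℤ) : ℝ) ^ 2 / ρ ^ 2 := by
      intro i; rw [div_pow, neg_sq]
    rw [Finset.sum_congr rfl fun i _ => h1 i, ← Finset.sum_div]
    have h2 : ∑ i, ((Multiplicative.toAdd (π g) i : ℤ) : ℝ) ^ 2 = (nsq π g : ℝ) := by
      unfold nsq; push_cast; rfl
    rw [h2, hρ2]
    exact div_self hm'.ne'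
  · intro v
    unfold chr nsq
    push_cast
    rw [Finset.mul_sum, ← Finset.sum_sub_distrib, ← Finset.sum_add_distrib]
    refine Finset.sum_congr rfl fun i _ => ?_
    rw [map_mul, toAdd_mul, Pi.add_apply, Int.cast_add]
    field_simp
    ring

private theorem push_step {S : Set C}
    (π : C →* Multiplicative (Fin k → ℤ)) (δ L : ℝ) (hδ : 0 < δ)
    (hl : ∀ u : Fin k → ℝ, ∑ i, u i ^ 2 = 1 → ∃ t : C,
      ∀ s : C, s ∈ S ∨ s⁻¹ ∈ S → 0 ≤ chr π u s →
        Relation.ReflTransGen (fun g h : C => (g⁻¹ * h ∈ S ∨ h⁻¹ * g ∈ S) ∧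
          δ ≤ chr π u g ∧ (nsq π g : ℝ) ≤ L) t s)
    (m : ℤ) (hm0 : 0 < m) (hm : (L / (2 * δ)) ^ 2 < m) (x y : C) (hx : nsq π x ≤ m - 1)
    (h : Relation.ReflTransGen (EB S π m) x y) :
    (nsq π y ≤ m - 1 → Relation.ReflTransGen (EB S π (m - 1)) x y) ∧
      (nsq π y = m → ∃ w, (y⁻¹ * w ∈ S ∨ w⁻¹ * y ∈ S) ∧ nsq π w ≤ m - 1 ∧
        Relation.ReflTransGen (EB S π (m - 1)) x w) := by
  induction h with
  | refl => exact ⟨fun _ => Relation.ReflTransGen.refl, fun h => by omega⟩
  | @tail y z hxy hyz ih =>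
    obtain ⟨hyz1, hy, hz⟩ := hyz
    by_cases hym : nsq π y ≤ m - 1
    · have h1 := ih.1 hym
      refine ⟨fun hz' => h1.tail ⟨hyz1, hym, hz'⟩, fun _ => ⟨y, ?_, hym, h1⟩⟩
      exact hyz1.symm
    · have hym' : nsq π y = m := by omega
      obtain ⟨w, hw, hwm, hxw⟩ := ih.2 hym'
      obtain ⟨u, hu, hun⟩ := unit_vec π y (by omega)
      obtain ⟨t, ht⟩ := hl u hu
      set ρ : ℝ := Real.sqrt (nsq π y) with hρ
      have hmR : (0 : ℝ) < (m : ℝ) := by exact_mod_cast hm0
      have hρ0 : 0 < ρ := by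
        rw [hρ, hym']; exact Real.sqrt_pos.mpr hmR
      have hρL : L < 2 * ρ * δ := by
        have h1 : L / (2 * δ) < ρ := by
          rw [hρ, hym']
          exact Real.lt_sqrt_of_sq_lt hm
        rw [div_lt_iff₀ (by positivity)] at h1
        nlinarith
      -- below
      have hbelow : ∀ v, δ ≤ chr π u v → (nsq π v : ℝ) ≤ L → nsq π (y * v) ≤ m - 1 := by
        intro v h1 h2
        have h3 := hun v
        have h4 : (nsq π (y * v) : ℝ) < (m : ℝ) := by
          rw [h3, hym']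
          have : ρ * δ ≤ ρ * chr π u v := mul_le_mul_of_nonneg_left h1 hρ0.le
          nlinarith
        have h5 : nsq π (y * v) < m := by exact_mod_cast h4
        omega
      have hnonneg : ∀ v, nsq π (y * v) ≤ m → 0 ≤ chr π u v := by
        intro v h1
        have h3 := hun v
        have h4 : (nsq π (y * v) : ℝ) ≤ (m : ℝ) := by exact_mod_cast h1
        have h5 : (0 : ℝ) ≤ (nsq π v : ℝ) := by exact_mod_cast nsq_nonneg' π v
        rw [h3, hym'] at h4
        by_contra h6
        push Not at h6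
        have : ρ * chr π u v < 0 := mul_neg_of_pos_of_neg hρ0 h6
        nlinarith
      -- path from t to s, translated
      have htr : ∀ s : C, s ∈ S ∨ s⁻¹ ∈ S → nsq π (y * s) ≤ m → 
          (t = s ∨ (nsq π (y * t) ≤ m - 1 ∧ ∃ s', ((s' : C)⁻¹ * s ∈ S ∨ s⁻¹ * s' ∈ S) ∧
            nsq π (y * s') ≤ m - 1 ∧
            Relation.ReflTransGen (EB S π (m - 1)) (y * t) (y * s'))) := by
        intro s hs hsm
        have h1 := ht s hs (hnonneg s hsm)
        have key : ∀ v, Relation.ReflTransGen (fun g h : C => (g⁻¹ * h ∈ S ∨ h⁻¹ * g ∈ S) ∧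
          δ ≤ chr π u g ∧ (nsq π g : ℝ) ≤ L) t v → 
          (t = v ∨ (nsq π (y * t) ≤ m - 1 ∧ ∃ s', ((s' : C)⁻¹ * v ∈ S ∨ v⁻¹ * s' ∈ S) ∧
            nsq π (y * s') ≤ m - 1 ∧
            Relation.ReflTransGen (EB S π (m - 1)) (y * t) (y * s'))) := by
          intro v hv
          induction hv with
          | refl => exact Or.inl rfl
          | @tail a b _ hab ih' =>
            obtain ⟨hab1, hab2, hab3⟩ := hab
            have hya := hbelow a hab2 hab3
            right
            rcases ih' with rfl | ⟨h2, s', h3, h4, h5⟩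
            · exact ⟨hya, t, hab1, hya, Relation.ReflTransGen.refl⟩
            · refine ⟨h2, a, hab1, hya, h5.tail ⟨?_, h4, hya⟩⟩
              have e1 : (y * s')⁻¹ * (y * a) = s'⁻¹ * a := by group
              have e2 : (y * a)⁻¹ * (y * s') = a⁻¹ * s' := by group
              rw [e1, e2]; exact h3
        exact key s h1
      -- w = y s0
      have hw0 : (y⁻¹ * w) ∈ S ∨ (y⁻¹ * w)⁻¹ ∈ S := by
        rcases hw with h1 | h1
        · exact Or.inl h1
        · right; rw [mul_inv_rev, inv_inv]; exact h1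
      have hz0 : (y⁻¹ * z) ∈ S ∨ (y⁻¹ * z)⁻¹ ∈ S := by
        rcases hyz1 with h1 | h1
        · exact Or.inl h1
        · right; rw [mul_inv_rev, inv_inv]; exact h1
      have ew : y * (y⁻¹ * w) = w := by group
      have ez : y * (y⁻¹ * z) = z := by group
      have hsymm : ∀ a b, EB S π (m - 1) a b → EB S π (m - 1) b a :=
        fun a b hab => ⟨hab.1.symm, hab.2.2, hab.2.1⟩
      -- x reaches y t
      have hyt : nsq π (y * t) ≤ m - 1 ∧ Relation.ReflTransGen (EB S π (m - 1)) x (y * t) := by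
        rcases htr (y⁻¹ * w) hw0 (by rw [ew]; omega) with h1 | ⟨h2, s', h3, h4, h5⟩
        · rw [h1, ew]; exact ⟨hwm, hxw⟩
        · refine ⟨h2, hxw.trans ?_⟩
          have h6 : Relation.ReflTransGen (EB S π (m - 1)) (y * s') (y * t) := by
            clear h3 h4
            generalize y * s' = q at h5 ⊢
            induction h5 with
            | refl => exact Relation.ReflTransGen.refl
            | tail _ hab ih' => exact Relation.ReflTransGen.head (hsymm _ _ hab) ih'
          refine Relation.ReflTransGen.head ⟨?_, hwm, h4⟩ h6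
          have e1 : w⁻¹ * (y * s') = (y⁻¹ * w)⁻¹ * s' := by group
          have e2 : (y * s')⁻¹ * w = s'⁻¹ * (y⁻¹ * w) := by group
          rw [e1, e2]; exact h3.symm
      rcases htr (y⁻¹ * z) hz0 (by rw [ez]; exact hz) with h1 | ⟨h2, s', h3, h4, h5⟩
      · have e : y * t = z := by rw [h1, ez]
        rw [e] at hyt
        exact ⟨fun _ => hyt.2, fun h => by omega⟩
      · have h6 := hyt.2.trans h5
        have e1 : z⁻¹ * (y * s') = (y⁻¹ * z)⁻¹ * s' := by group
        have e2 : (y * s')⁻¹ * z = s'⁻¹ * (y⁻¹ * z) := by group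
        refine ⟨fun hz' => h6.tail ⟨?_, h4, hz'⟩, fun _ => ⟨y * s', ?_, h4, h6⟩⟩
        · rw [e1, e2]; exact h3
        · rw [e1, e2]; exact h3.symm

theorem bns_push {S : Set C} (hS : closure S = ⊤)
    (π : C →* Multiplicative (Fin k → ℤ)) (δ L : ℝ) (hδ : 0 < δ)
    (hl : ∀ u : Fin k → ℝ, ∑ i, u i ^ 2 = 1 → ∃ t : C,
      ∀ s : C, s ∈ S ∨ s⁻¹ ∈ S → 0 ≤ chr π u s →
        Relation.ReflTransGen (fun g h : C => (g⁻¹ * h ∈ S ∨ h⁻¹ * g ∈ S) ∧
          δ ≤ chr π u g ∧ (nsq π g : ℝ) ≤ L) t s) :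
    ∃ R : ℤ, ∀ n : C, π n = 1 →
      Relation.ReflTransGen (fun g h : C => (g⁻¹ * h ∈ S ∨ h⁻¹ * g ∈ S) ∧
        nsq π g ≤ R ∧ nsq π h ≤ R) 1 n := by
  refine ⟨⌈(L / (2 * δ)) ^ 2⌉, fun n hn => ?_⟩
  set R : ℤ := ⌈(L / (2 * δ)) ^ 2⌉ with hR
  have hR0 : 0 ≤ R := Int.ceil_nonneg (sq_nonneg _)
  have hnsq : ∀ g : C, π g = 1 → nsq π g = 0 := by
    intro g hg
    unfold nsq
    rw [hg]
    simp
  have mono : ∀ {a b : ℤ}, a ≤ b → ∀ {g h : C}, Relation.ReflTransGen (EB S π a) g h →
      Relation.ReflTransGen (EB S π b) g h := by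
    intro a b hab g h hgh
    induction hgh with
    | refl => exact Relation.ReflTransGen.refl
    | tail _ hpq ih' =>
      exact ih'.tail ⟨hpq.1, hpq.2.1.trans hab, hpq.2.2.trans hab⟩
  -- descent
  have desc : ∀ j : ℕ, ∀ y : C, π y = 1 → Relation.ReflTransGen (EB S π (R + j)) 1 y →
      Relation.ReflTransGen (EB S π R) 1 y := by
    intro j
    induction j with
    | zero => intro y _ h; simpa using h
    | succ j ih =>
      intro y hy h
      apply ih y hy
      have hlt : (L / (2 * δ)) ^ 2 < ((R + ((j + 1 : ℕ) : ℤ) : ℤ) : ℝ) := by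
        have h1 : (L / (2 * δ)) ^ 2 ≤ (R : ℝ) := Int.le_ceil _
        push_cast
        have : (0 : ℝ) ≤ (j : ℝ) := Nat.cast_nonneg j
        linarith
      have h2 := (push_step π δ L hδ hl (R + ((j + 1 : ℕ) : ℤ)) (by push_cast; omega) hlt 1 y
        (by rw [hnsq 1 (map_one π)]; push_cast; omega) h).1
        (by rw [hnsq y hy]; push_cast; omega)
      have e : R + ((j + 1 : ℕ) : ℤ) - 1 = R + (j : ℤ) := by push_cast; ring
      rw [e] at h2
      exact h2
  -- every element is reached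
  have reach : ∀ g : C, ∃ a : ℤ, Relation.ReflTransGen (EB S π a) 1 g := by
    intro g
    have hg : g ∈ closure S := by rw [hS]; trivial
    induction hg using Subgroup.closure_induction_right with
    | one => exact ⟨0, Relation.ReflTransGen.refl⟩
    | mul_right x hx y hy ih =>
      obtain ⟨a, ha⟩ := ih
      refine ⟨max a (max (nsq π x) (nsq π (x * y))), (mono (le_max_left _ _) ha).tail ⟨?_, ?_, ?_⟩⟩
      · left
        have : x⁻¹ * (x * y) = y := by group
        rw [this]; exact hy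
      · exact (le_max_left _ _).trans (le_max_right _ _)
      · exact (le_max_right _ _).trans (le_max_right _ _)
    | mul_inv_cancel x hx y hy ih =>
      obtain ⟨a, ha⟩ := ih
      refine ⟨max a (max (nsq π x) (nsq π (x * y⁻¹))),
        (mono (le_max_left _ _) ha).tail ⟨?_, ?_, ?_⟩⟩
      · right
        have : (x * y⁻¹)⁻¹ * x = y := by group
        rw [this]; exact hy
      · exact (le_max_left _ _).trans (le_max_right _ _)
      · exact (le_max_right _ _).trans (le_max_right _ _)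
  obtain ⟨a, ha⟩ := reach n
  have h1 : Relation.ReflTransGen (EB S π (R + ((a - R).toNat : ℤ))) 1 n :=
    mono (by have := Int.self_le_toNat (a - R); omega) ha
  exact desc _ n hn h1

end H36.PP
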