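import Pool.Agent.H36.PP.BNSLocal
import Pool.Agent.H36.PP.BNSPush

/-!
# Module BNSFin: the kernel is finitely generated; the step for abelian quotients (est. 200 lines)

* `bns_fin`.  For every `x : Fin k → ℤ` with norm² at most `R` (a finite set) choose `σ x ∈ C` with
  `π (σ x) = x`, `σ 0 = 1`.  For a path `1 = g_0, ..., g_m = n` with `nsq ≤ R`:
  `k_i = g_i σ(π g_i)⁻¹ ∈ ker π` and `k_i⁻¹ k_(i+1) = σ(x) s^± σ(x')⁻¹` lies in a finite set.
* `fg_step`.  `C ⧸ D` is a finitely generated abelian group; let `D₀ ≥ D` be the preimage of its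
  torsion subgroup: `D` has finite index in `D₀` and `C ⧸ D₀ ≅ ℤ^k`.  Let `π : C → ℤ^k` be the
  projection; `chr π u`, `u ≠ 0`, is not identically 0 and kills `D`, so it is good.  By
  `bns_local`, `bns_push`, `bns_fin` the kernel `D₀` is finitely generated, and so is
  its subgroup `D` of finite index.
-/

set_option autoImplicit false

namespace H36.PP

open Subgroup

variable {C : Type*} [Group C] {k : ℕ}

theorem BNSFin_ball_finite (k : ℕ) (R : ℤ) :
    {x : Multiplicative (Fin k → ℤ) | ∑ i, (Multiplicative.toAdd x i) ^ 2 ≤ R}.Finite := by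
  have h : {x : Fin k → ℤ | ∑ i, x i ^ 2 ≤ R}.Finite := by
    refine (Set.Finite.pi' (t := fun _ : Fin k => Set.Icc (-R) R)
      (fun _ => Set.finite_Icc _ _)).subset ?_
    intro x hx i
    have h1 : x i ^ 2 ≤ ∑ j, x j ^ 2 :=
      Finset.single_le_sum (f := fun j => x j ^ 2) (fun j _ => sq_nonneg _) (Finset.mem_univ i)
    have h2 : x i ^ 2 ≤ R := h1.trans hx
    constructor
    · nlinarith [Int.le_self_sq (-(x i))]
    · nlinarith [Int.le_self_sq (x i)]
  exact Set.Finite.preimage (f := (Multiplicative.toAdd : Multiplicative (Fin k → ℤ) → (Fin k → ℤ)))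
    (s := {x : Fin k → ℤ | ∑ i, x i ^ 2 ≤ R})
    (Function.Injective.injOn Multiplicative.toAdd.injective) h

theorem bns_fin {S : Set C} (hf : S.Finite) (π : C →* Multiplicative (Fin k → ℤ))
    (hπ : Function.Surjective π) (R : ℤ)
    (hR : ∀ n : C, π n = 1 →
      Relation.ReflTransGen (fun g h : C => (g⁻¹ * h ∈ S ∨ h⁻¹ * g ∈ S) ∧
        nsq π g ≤ R ∧ nsq π h ≤ R) 1 n) : π.ker.FG := by
  classical
  obtain ⟨σ, hσ, hσ1⟩ : ∃ σ : Multiplicative (Fin k → ℤ) → C, (∀ x, π (σ x) = x) ∧ σ 1 = 1 := by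
    choose σ0 h0 using hπ
    refine ⟨fun x => if x = 1 then 1 else σ0 x, fun x => ?_, if_pos rfl⟩
    by_cases hx : x = 1
    · simp [hx]
    · simp only [if_neg hx]
      exact h0 x
  have hfT : (S ∪ S⁻¹).Finite := hf.union hf.inv
  let Y : Set (Multiplicative (Fin k → ℤ)) :=
    {x : Multiplicative (Fin k → ℤ) | ∑ i, (Multiplicative.toAdd x i) ^ 2 ≤ R}
  have hY : Y.Finite := BNSFin_ball_finite k R
  let F : Set C := ((fun q : (Multiplicative (Fin k → ℤ)) × C × (Multiplicative (Fin k → ℤ)) =>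
    σ q.1 * q.2.1 * (σ q.2.2)⁻¹) '' (Y ×ˢ ((S ∪ S⁻¹) ×ˢ Y))) ∩ (π.ker : Set C)
  have hF : F.Finite := ((hY.prod (hfT.prod hY)).image _).inter_of_left _
  have hFle : closure F ≤ π.ker := by
    rw [closure_le]
    exact Set.inter_subset_right
  have key : ∀ n : C, Relation.ReflTransGen (fun g h : C => (g⁻¹ * h ∈ S ∨ h⁻¹ * g ∈ S) ∧
        nsq π g ≤ R ∧ nsq π h ≤ R) 1 n → n * (σ (π n))⁻¹ ∈ closure F := by
    intro n hn
    induction hn with
    | refl => rw [map_one, hσ1]; simp
    | @tail g h _ hgh ih =>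
      obtain ⟨h1, h2, h3⟩ := hgh
      have h4 : h * (σ (π h))⁻¹ = (g * (σ (π g))⁻¹) * (σ (π g) * (g⁻¹ * h) * (σ (π h))⁻¹) := by
        group
      rw [h4]
      refine mul_mem ih (subset_closure ⟨⟨(π g, g⁻¹ * h, π h), ⟨h2, ?_, h3⟩, rfl⟩, ?_⟩)
      · rcases h1 with h1 | h1
        · exact Or.inl h1
        · right
          rw [Set.mem_inv]
          simpa using h1
      · rw [SetLike.mem_coe, MonoidHom.mem_ker, map_mul, map_mul, map_inv, hσ, hσ, map_mul,
          map_inv]
        group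
  refine (Subgroup.fg_iff _).mpr ⟨F, le_antisymm hFle ?_, hF⟩
  intro n hn
  have h1 : π n = 1 := hn
  have h2 := key n (hR n h1)
  rw [h1, hσ1] at h2
  simpa using h2

theorem BNSFin_chr_ne (π : C →* Multiplicative (Fin k → ℤ)) (hπ : Function.Surjective π)
    {u : Fin k → ℝ} (hu : u ≠ 0) : ∃ g, chr π u g ≠ 0 := by
  obtain ⟨i, hi⟩ : ∃ i, u i ≠ 0 := by
    by_contra h4
    push Not at h4
    exact hu (funext h4)
  obtain ⟨g, hgi⟩ := hπ (Multiplicative.ofAdd (Pi.single i 1))
  refine ⟨g, ?_⟩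
  unfold chr
  rw [hgi, toAdd_ofAdd, Finset.sum_eq_single i]
  · simpa using hi
  · intro j _ hj
    simp [hj]
  · intro hj
    exact absurd (Finset.mem_univ i) hj

theorem fg_step (hC : Group.FG C) (D : Subgroup C) [D.Normal]
    (hab : ∀ x y : C, x * y * x⁻¹ * y⁻¹ ∈ D)
    (hg : ∀ S : Set C, S.Finite → closure S = ⊤ → ∀ χ : C → ℝ, IsChar χ →
      (∀ d ∈ D, χ d = 0) → (∃ g, χ g ≠ 0) → Good χ S) : D.FG := by
  classical
  let _ : CommGroup (C ⧸ D) :=
    { (inferInstance : Group (C ⧸ D)) with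
      mul_comm := by
        intro a b
        induction a using QuotientGroup.induction_on with | H x => ?_
        induction b using QuotientGroup.induction_on with | H y => ?_
        rw [← QuotientGroup.mk_mul, ← QuotientGroup.mk_mul, QuotientGroup.eq]
        have := hab y⁻¹ x⁻¹
        simpa [mul_assoc] using this }
  have : Group.FG (C ⧸ D) := QuotientGroup.fg D
  have hfin : Module.Finite ℤ (Additive (C ⧸ D)) := inferInstance
  let T : Submodule ℤ (Additive (C ⧸ D)) := Submodule.torsion ℤ (Additive (C ⧸ D))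
  have hTfin : Finite T := by
    refine Module.finite_of_fg_torsion T ?_
    exact Submodule.torsion_isTorsion
  have : Module.Free ℤ (Additive (C ⧸ D) ⧸ T) := Module.free_of_finite_type_torsion_free'
  let k := Module.finrank ℤ (Additive (C ⧸ D) ⧸ T)
  let b : Module.Basis (Fin k) ℤ (Additive (C ⧸ D) ⧸ T) := Module.finBasis ℤ _
  let f : Additive (C ⧸ D) →ₗ[ℤ] (Fin k → ℤ) := b.equivFun.toLinearMap ∘ₗ T.mkQ
  have hfs : Function.Surjective f := b.equivFun.surjective.comp T.mkQ_surjective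
  have hfk : ∀ x, f x = 0 ↔ x ∈ T := by
    intro x
    change b.equivFun (T.mkQ x) = 0 ↔ _
    rw [LinearEquiv.map_eq_zero_iff, Submodule.mkQ_apply, Submodule.Quotient.mk_eq_zero]
  let π : C →* Multiplicative (Fin k → ℤ) :=
    { toFun := fun g => Multiplicative.ofAdd (f (Additive.ofMul (g : C ⧸ D)))
      map_one' := by
        rw [QuotientGroup.mk_one, ofMul_one, map_zero, ofAdd_zero]
      map_mul' := by
        intro x y
        rw [QuotientGroup.mk_mul, ofMul_mul, map_add, ofAdd_add] }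
  have hπapp : ∀ g : C, π g = Multiplicative.ofAdd (f (Additive.ofMul (g : C ⧸ D))) :=
    fun g => rfl
  have hπ : Function.Surjective π := by
    intro x
    obtain ⟨q, hq⟩ := hfs (Multiplicative.toAdd x)
    obtain ⟨g, hgq⟩ := QuotientGroup.mk_surjective (Additive.toMul q)
    refine ⟨g, ?_⟩
    rw [hπapp, hgq, ofMul_toMul, hq, ofAdd_toAdd]
  have hDk : D ≤ π.ker := by
    intro d hd
    rw [MonoidHom.mem_ker, hπapp, (QuotientGroup.eq_one_iff d).mpr hd, ofMul_one, map_zero,
      ofAdd_zero]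
  obtain ⟨S, hS⟩ := hC.out
  have hSf : (S : Set C).Finite := S.finite_toSet
  have hgood : ∀ u : Fin k → ℝ, u ≠ 0 → Good (chr π u) (S : Set C) := by
    intro u hu
    refine hg _ hSf hS _ (chr_isChar π u) ?_ (BNSFin_chr_ne π hπ hu)
    intro d hd
    have h1 : π d = 1 := hDk hd
    unfold chr
    rw [h1]
    simp
  obtain ⟨δ, L, hδ, hl⟩ := bns_local hSf hS π hπ hgood
  obtain ⟨R, hR⟩ := bns_push hS π δ L hδ hl
  have hker : π.ker.FG := bns_fin hSf π hπ R hR
  have : Group.FG π.ker := (Group.fg_iff_subgroup_fg _).mpr hker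
  -- `D` has finite index in the kernel
  let φ : π.ker →* Multiplicative T :=
    { toFun := fun g => Multiplicative.ofAdd ⟨Additive.ofMul ((g : C) : C ⧸ D), (hfk _).mp (by
        have h1 : π (g : C) = 1 := g.2
        rw [hπapp] at h1
        exact Multiplicative.ofAdd.injective h1)⟩
      map_one' := by
        rfl
      map_mul' := by
        intro x y
        rfl }
  have : φ.ker.FiniteIndex := inferInstance
  have hφ : φ.ker = D.subgroupOf π.ker := by
    ext g
    rw [MonoidHom.mem_ker, mem_subgroupOf, ← QuotientGroup.eq_one_iff (g : C)]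
    constructor
    · intro h1
      have h2 : (⟨Additive.ofMul ((g : C) : C ⧸ D), _⟩ : T) = 0 := Multiplicative.ofAdd.injective h1
      have h3 := congrArg Subtype.val h2
      exact Additive.ofMul.injective h3
    · intro h1
      refine congrArg Multiplicative.ofAdd ?_
      refine Subtype.ext ?_
      exact congrArg Additive.ofMul h1
  have : (D.subgroupOf π.ker).FiniteIndex := hφ ▸ ‹φ.ker.FiniteIndex›
  have h1 : Group.FG (D.subgroupOf π.ker) := Subgroup.fg_of_index_ne_zero _
  rw [← Group.fg_iff_subgroup_fg]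
  exact Group.fg_of_surjective (f := (Subgroup.subgroupOfEquivOfLe hDk).toMonoidHom)
    (Subgroup.subgroupOfEquivOfLe hDk).surjective

end H36.PP
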