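import Pool.Agent.H36.PP.APB

/-!
# Module Union: ascending unions of almost polycyclic groups   (est. 220 lines)

* `AP.frk`: almost polycyclic groups have finite rank: if `N` is normal and `FRk N r`,
  `FRk (G ⧸ N) s` and `Max G` then `FRk G (r + s)`; finite groups, cyclic groups; derived series.
* `exists_sol_radical`: the join of two normal soluble subgroups is soluble, so by `Max` there is
  a largest normal soluble subgroup; it has finite index because `Q` has a normal
  soluble subgroup of finite index.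
* `union_radical`: `Q_n = tⁿ Q t⁻ⁿ` is an ascending chain with union `K`; let `S_n` be the soluble
  radical of `Q_n` (the conjugate of the radical of `Q`); all indices `|Q_n : S_n|` are equal.
  `S_(n+1) ⊓ Q_n` is a normal soluble subgroup of `Q_n`, so it lies in `S_n`, and its index in
  `Q_n` is at most `|Q_(n+1) : S_(n+1)|`: so `S_(n+1) ⊓ Q_n = S_n` and `S_n ≤ S_(n+1)`.
  `R = ⋃ S_n` has finite index in `K`, is soluble (all `S_n` have the same derived length), has
  finite rank (every finitely generated subgroup lies in some `S_n ≅ S_0`), and it is the largest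
  normal soluble subgroup of `K` (if `W` is one then `W ⊓ Q_n ≤ S_n`), so it is normal in `G`.
-/

set_option autoImplicit false

universe u

namespace H36.PP

open Subgroup
open scoped commutatorElement

variable {G : Type*} [Group G]

/-! ### finite rank -/

theorem Union_frk_mono {r s : ℕ} (hrs : r ≤ s) (h : FRk G r) : FRk G s := by
  intro F hF
  obtain ⟨S, hS, h1⟩ := h F hF
  exact ⟨S, hS.trans hrs, h1⟩

theorem Union_frk_ext (hG : Max G) (N : Subgroup G) [N.Normal] {r s : ℕ} (h1 : FRk N r)
    (h2 : FRk (G ⧸ N) s) : FRk G (r + s) := by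
  classical
  intro F _
  obtain ⟨S1, hc1, hS1⟩ := h1 (F.subgroupOf N) ((Max.subgroup hG N) _)
  obtain ⟨S2, hc2, hS2⟩ := h2 (F.map (QuotientGroup.mk' N))
    ((Max.of_surjective (QuotientGroup.mk' N) (QuotientGroup.mk'_surjective N) hG) _)
  have hch : ∀ q : G ⧸ N, ∃ x : G, x ∈ F ∧ (q ∈ F.map (QuotientGroup.mk' N) →
      QuotientGroup.mk' N x = q) := by
    intro q
    by_cases hq : q ∈ F.map (QuotientGroup.mk' N)
    · obtain ⟨x, hx, hxq⟩ := hq
      exact ⟨x, hx, fun _ => hxq⟩
    · exact ⟨1, F.one_mem, fun h => absurd h hq⟩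
  choose f hfF hfq using hch
  refine ⟨S1.image (fun x : N => (x : G)) ∪ S2.image f, ?_, ?_⟩
  · refine (Finset.card_union_le _ _).trans ?_
    exact add_le_add (Finset.card_image_le.trans hc1) (Finset.card_image_le.trans hc2)
  · set T : Set G := ((S1.image (fun x : N => (x : G)) ∪ S2.image f : Finset G) : Set G) with hT
    apply le_antisymm
    · rw [closure_le]
      intro x hx
      rw [hT, Finset.mem_coe, Finset.mem_union, Finset.mem_image, Finset.mem_image] at hx
      rcases hx with ⟨y, hy, rfl⟩ | ⟨y, _, rfl⟩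
      · have : y ∈ F.subgroupOf N := by
          rw [← hS1]
          exact Subgroup.subset_closure hy
        exact this
      · exact hfF y
    · intro x hx
      have hle2 : F.map (QuotientGroup.mk' N) ≤ (closure T).map (QuotientGroup.mk' N) := by
        rw [← hS2, closure_le]
        intro q hq
        refine ⟨f q, Subgroup.subset_closure ?_, hfq q ?_⟩
        · rw [hT, Finset.mem_coe, Finset.mem_union]
          exact Or.inr (Finset.mem_image_of_mem f hq)
        · rw [← hS2]
          exact Subgroup.subset_closure hq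
      have hle1 : ∀ z : N, (z : G) ∈ F → (z : G) ∈ closure T := by
        intro z hz
        have hz1 : z ∈ closure (S1 : Set N) := by
          rw [hS1]
          exact hz
        have hmap : (closure (S1 : Set N)).map N.subtype ≤ closure T := by
          rw [MonoidHom.map_closure, closure_le]
          rintro _ ⟨y, hy, rfl⟩
          apply Subgroup.subset_closure
          rw [hT, Finset.mem_coe, Finset.mem_union]
          exact Or.inl (Finset.mem_image_of_mem (fun x : N => (x : G)) hy)
        exact hmap ⟨z, hz1, rfl⟩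
      obtain ⟨y, hy, hyx⟩ := hle2 (mem_map_of_mem (QuotientGroup.mk' N) hx)
      have hN : y⁻¹ * x ∈ N := by
        rw [← QuotientGroup.eq]
        exact hyx
      have hyF : y ∈ F := by
        have hTF : closure T ≤ F := by
          rw [closure_le]
          intro x hx
          rw [hT, Finset.mem_coe, Finset.mem_union, Finset.mem_image, Finset.mem_image] at hx
          rcases hx with ⟨y, hy, rfl⟩ | ⟨y, _, rfl⟩
          · have : y ∈ F.subgroupOf N := by
              rw [← hS1]
              exact Subgroup.subset_closure hy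
            exact this
          · exact hfF y
        exact hTF hy
      have h3 := hle1 ⟨y⁻¹ * x, hN⟩ (F.mul_mem (F.inv_mem hyF) hx)
      have h4 := mul_mem hy h3
      simpa using h4

theorem Union_frk_finite [Finite G] : FRk G (Nat.card G) := by
  classical
  intro F _
  have := Fintype.ofFinite G
  refine ⟨Finset.univ.filter (fun x => x ∈ F), ?_, ?_⟩
  · rw [Nat.card_eq_fintype_card]
    exact Finset.card_le_univ _
  · have : ((Finset.univ.filter (fun x => x ∈ F) : Finset G) : Set G) = (F : Set G) := by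
      ext x
      simp
    rw [this, closure_eq]

theorem Union_frk_cyclic (g : G) : FRk (zpowers g) 1 := by
  classical
  intro F _
  obtain ⟨⟨x, hx⟩, hxF⟩ := (inferInstance : IsCyclic F).exists_generator
  refine ⟨{x}, by simp, ?_⟩
  rw [Finset.coe_singleton, ← zpowers_eq_closure]
  apply le_antisymm
  · rw [zpowers_le]
    exact hx
  · intro y hy
    obtain ⟨n, hn⟩ := hxF ⟨y, hy⟩
    refine ⟨n, ?_⟩
    have := congrArg Subtype.val hn
    simpa using this

theorem Union_frk_comm_aux (n : ℕ) : ∀ (G : Type u) [Group G] (_ : ∀ x y : G, x * y = y * x)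
    (S : Finset G), S.card ≤ n → closure (S : Set G) = ⊤ → FRk G n := by
  classical
  induction n with
  | zero =>
    intro G _ _ S hc hS F _
    have hS0 : S = ∅ := by simpa using hc
    rw [hS0, Finset.coe_empty, Subgroup.closure_empty] at hS
    refine ⟨∅, by simp, ?_⟩
    rw [Finset.coe_empty, Subgroup.closure_empty]
    symm
    rw [eq_bot_iff, hS]
    exact le_top
  | succ n ih =>
    intro G _ hcomm S hc hS
    by_cases hSn : S.card ≤ n
    · exact Union_frk_mono (Nat.le_succ n) (ih G hcomm S hSn hS)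
    · have hne : S.Nonempty := by
        rw [← Finset.card_pos]
        omega
      obtain ⟨g, hg⟩ := hne
      have : (zpowers g).Normal := ⟨fun x hx y => by
        rw [hcomm y x, mul_assoc, mul_inv_cancel, mul_one]
        exact hx⟩
      have hG : Group.FG G := ⟨⟨S, hS⟩⟩
      have hq := ih (G ⧸ zpowers g) (by
          intro x y
          induction x using QuotientGroup.induction_on with | H x => ?_
          induction y using QuotientGroup.induction_on with | H y => ?_
          rw [← QuotientGroup.mk_mul, ← QuotientGroup.mk_mul, hcomm])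
        ((S.erase g).image (QuotientGroup.mk' (zpowers g)))
        (by
          refine Finset.card_image_le.trans ?_
          rw [Finset.card_erase_of_mem hg]
          omega)
        (by
          rw [Finset.coe_image, ← MonoidHom.map_closure, eq_top_iff,
            ← MonoidHom.range_eq_top.2 (QuotientGroup.mk'_surjective (zpowers g)),
            MonoidHom.range_eq_map, ← hS]
          rw [MonoidHom.map_closure, closure_le]
          rintro _ ⟨x, hx, rfl⟩
          by_cases hxg : x = g
          · subst hxg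
            have : QuotientGroup.mk' (zpowers x) x = 1 := by
              rw [← MonoidHom.mem_ker, QuotientGroup.ker_mk']
              exact mem_zpowers x
            rw [this]
            exact one_mem _
          · refine ⟨x, Subgroup.subset_closure ?_, rfl⟩
            exact Finset.mem_erase.2 ⟨hxg, hx⟩)
      have := Union_frk_ext (AP.of_comm_fg hcomm hG).1 (zpowers g) (Union_frk_cyclic g) hq
      rw [add_comm] at this
      exact this

theorem Union_frk_comm (G : Type u) [Group G] (hc : ∀ x y : G, x * y = y * x)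
    (hG : Group.FG G) : ∃ r, FRk G r := by
  obtain ⟨⟨S, hS⟩⟩ := hG
  exact ⟨_, Union_frk_comm_aux S.card G hc S le_rfl hS⟩

theorem Union_frk_solv (n : ℕ) : ∀ (G : Type u) [Group G] (_ : Max G),
    derivedSeries G n = ⊥ → ∃ r, FRk G r := by
  induction n with
  | zero =>
    intro G _ _ h
    rw [derivedSeries_zero] at h
    have : Subsingleton G := (Subgroup.subsingleton_iff).1 (subsingleton_of_bot_eq_top h.symm)
    exact ⟨_, Union_frk_finite⟩
  | succ n ih =>
    intro G _ hG h
    have hA : ∃ r, FRk (derivedSeries G n) r := by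
      apply Union_frk_comm
      · rintro ⟨x, hx⟩ ⟨y, hy⟩
        have h1 : ⁅x, y⁆ ∈ derivedSeries G (n + 1) := by
          rw [derivedSeries_succ]
          exact commutator_mem_commutator hx hy
        rw [h, mem_bot, commutatorElement_eq_one_iff_mul_comm] at h1
        exact Subtype.ext h1
      · exact (Group.fg_iff_subgroup_fg _).2 (hG _)
    obtain ⟨r, hr⟩ := hA
    have hQ : derivedSeries (G ⧸ derivedSeries G n) n = ⊥ := by
      rw [← map_derivedSeries_eq (QuotientGroup.mk'_surjective (derivedSeries G n)) n,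
        Subgroup.map_eq_bot_iff, QuotientGroup.ker_mk']
    obtain ⟨s, hs⟩ := ih (G ⧸ derivedSeries G n)
      (Max.of_surjective _ (QuotientGroup.mk'_surjective _) hG) hQ
    exact ⟨r + s, Union_frk_ext hG _ hr hs⟩

theorem Union_solv_mono {H K : Subgroup G} (h : H ≤ K) (hK : Group.IsSolvable K) :
    Group.IsSolvable H :=
  Group.isSolvable_of_isSolvable_injective (f := inclusion h) (inclusion_injective h)

theorem AP.frk (h : AP G) : ∃ r, FRk G r := by
  obtain ⟨hM, S, hSf, hSs⟩ := h
  obtain ⟨n, hn⟩ := (Union_solv_mono (normalCore_le S) hSs).solvable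
  obtain ⟨r, hr⟩ := Union_frk_solv n S.normalCore (Max.subgroup hM _) hn
  have : Finite (G ⧸ S.normalCore) := inferInstance
  exact ⟨_, Union_frk_ext hM S.normalCore hr Union_frk_finite⟩

/-! ### the soluble radical -/

theorem Union_solv_sup (M N : Subgroup G) [M.Normal] [N.Normal] (hM : Group.IsSolvable M)
    (hN : Group.IsSolvable N) : Group.IsSolvable (N ⊔ M : Subgroup G) := by
  have h1 : Group.IsSolvable (N ⧸ M.subgroupOf N) := inferInstance
  have h2 : Group.IsSolvable ((N ⊔ M : Subgroup G) ⧸ M.subgroupOf (N ⊔ M)) :=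
    Group.isSolvable_of_surjective
      (f := (QuotientGroup.quotientInfEquivProdNormalQuotient N M).toMonoidHom)
      (QuotientGroup.quotientInfEquivProdNormalQuotient N M).surjective
  refine Group.isSolvable_of_ker_le_range (inclusion (le_sup_right : M ≤ N ⊔ M))
    (QuotientGroup.mk' (M.subgroupOf (N ⊔ M))) ?_
  rw [QuotientGroup.ker_mk']
  intro x hx
  exact ⟨⟨x, hx⟩, rfl⟩

theorem exists_sol_radical (h : AP G) :
    ∃ S : Subgroup G, S.Normal ∧ S.FiniteIndex ∧ Group.IsSolvable S ∧
      ∀ T : Subgroup G, T.Normal → Group.IsSolvable T → T ≤ S := by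
  classical
  obtain ⟨_, S0, hSf, hSs⟩ := h
  have hex : ∃ d, ∃ S : Subgroup G, S.Normal ∧ S.FiniteIndex ∧ Group.IsSolvable S ∧
      S.index = d :=
    ⟨_, S0.normalCore, inferInstance, inferInstance,
      Union_solv_mono (normalCore_le S0) hSs, rfl⟩
  obtain ⟨S, h1, h2, h3, h4⟩ := Nat.find_spec hex
  refine ⟨S, h1, h2, h3, fun T hT hTs => ?_⟩
  have := h1
  have := hT
  have := h2
  have hsolv : Group.IsSolvable (S ⊔ T : Subgroup G) := Union_solv_sup T S hTs h3
  have hfin : (S ⊔ T : Subgroup G).FiniteIndex := Subgroup.finiteIndex_of_le (le_sup_left)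
  have hmin : Nat.find hex ≤ (S ⊔ T : Subgroup G).index :=
    Nat.find_min' hex ⟨S ⊔ T, inferInstance, hfin, hsolv, rfl⟩
  have hmul := relIndex_mul_index (le_sup_left : S ≤ S ⊔ T)
  rw [h4] at hmul
  have hpos : 0 < (S ⊔ T : Subgroup G).index := Nat.pos_of_ne_zero hfin.index_ne_zero
  have hd : 0 < Nat.find hex := by
    rw [← h4]
    exact Nat.pos_of_ne_zero h2.index_ne_zero
  have hrel : S.relIndex (S ⊔ T) = 1 := by
    have h5 : S.relIndex (S ⊔ T) ≤ 1 := by
      by_contra h6
      push Not at h6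
      have : 2 * (S ⊔ T : Subgroup G).index ≤ S.relIndex (S ⊔ T) * (S ⊔ T : Subgroup G).index :=
        Nat.mul_le_mul_right _ h6
      omega
    have h6 : S.relIndex (S ⊔ T) ≠ 0 := by
      intro h0
      rw [h0, zero_mul] at hmul
      omega
    omega
  rw [relIndex_eq_one] at hrel
  exact le_sup_right.trans hrel

/-! ### iterated commutator subgroups inside the ambient group -/

/-- the iterated commutator subgroups, as subgroups of the ambient group -/
def Union_D (H : Subgroup G) : ℕ → Subgroup G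
  | 0 => H
  | n + 1 => ⁅Union_D H n, Union_D H n⁆

theorem Union_D_eq (H : Subgroup G) (n : ℕ) :
    Union_D H n = (derivedSeries H n).map H.subtype := by
  induction n with
  | zero =>
    rw [Union_D, derivedSeries_zero, ← MonoidHom.range_eq_map, H.range_subtype]
  | succ n ih => rw [Union_D, ih, derivedSeries_succ, map_commutator]

theorem Union_solv_iff (H : Subgroup G) : Group.IsSolvable H ↔ ∃ n, Union_D H n = ⊥ := by
  rw [Group.isSolvable_def]
  refine exists_congr fun n => ?_
  rw [Union_D_eq]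
  constructor
  · intro h
    rw [h, Subgroup.map_bot]
  · intro h
    rw [Subgroup.map_eq_bot_iff_of_injective _ H.subtype_injective] at h
    exact h

theorem Union_D_conj (t : G) (H : Subgroup G) (hH : ∀ x ∈ H, t⁻¹ * x * t ∈ H) (n : ℕ) :
    ∀ x ∈ Union_D H n, t⁻¹ * x * t ∈ Union_D H n := by
  induction n with
  | zero => exact hH
  | succ n ih =>
    have : Union_D H (n + 1) ≤ (Union_D H (n + 1)).comap (MulAut.conj t⁻¹).toMonoidHom := by
      rw [Union_D, commutator_le]
      intro a ha b hb
      rw [mem_comap, map_commutatorElement]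
      apply commutator_mem_commutator
      · simpa using ih a ha
      · simpa using ih b hb
    intro x hx
    simpa using this hx

/-- the ascending union of the conjugates -/
def Union_U (t : G) (H : Subgroup G) (hH : ∀ x ∈ H, t⁻¹ * x * t ∈ H) : Subgroup G where
  carrier := {g | ∃ n : ℕ, (t ^ n)⁻¹ * g * t ^ n ∈ H}
  mul_mem' := by
    rintro a b ⟨n, hn⟩ ⟨m, hm⟩
    have hmono : ∀ (g : G) (k l : ℕ), (t ^ k)⁻¹ * g * t ^ k ∈ H →
        (t ^ (k + l))⁻¹ * g * t ^ (k + l) ∈ H := by
      intro g k l hk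
      induction l with
      | zero => exact hk
      | succ l ih =>
        have := hH _ ih
        have h2 : (t ^ (k + (l + 1)))⁻¹ * g * t ^ (k + (l + 1))
            = t⁻¹ * ((t ^ (k + l))⁻¹ * g * t ^ (k + l)) * t := by
          rw [← add_assoc, pow_succ]
          group
        rw [h2]
        exact this
    refine ⟨n + m, ?_⟩
    have h1 := hmono a n m hn
    have h2 := hmono b m n hm
    rw [add_comm m n] at h2
    have h3 := H.mul_mem h1 h2
    have h4 : (t ^ (n + m))⁻¹ * (a * b) * t ^ (n + m) =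
        (t ^ (n + m))⁻¹ * a * t ^ (n + m) * ((t ^ (n + m))⁻¹ * b * t ^ (n + m)) := by
      group
    rw [h4]
    exact h3
  one_mem' := ⟨0, by simp⟩
  inv_mem' := by
    rintro a ⟨n, hn⟩
    refine ⟨n, ?_⟩
    have h3 := H.inv_mem hn
    have h4 : (t ^ n)⁻¹ * a⁻¹ * t ^ n = ((t ^ n)⁻¹ * a * t ^ n)⁻¹ := by
      group
    rw [h4]
    exact h3

theorem Union_mono (t : G) (H : Subgroup G) (hH : ∀ x ∈ H, t⁻¹ * x * t ∈ H) (g : G) (k l : ℕ)
    (hk : (t ^ k)⁻¹ * g * t ^ k ∈ H) (hkl : k ≤ l) : (t ^ l)⁻¹ * g * t ^ l ∈ H := by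
  obtain ⟨m, rfl⟩ := Nat.exists_eq_add_of_le hkl
  clear hkl
  induction m with
  | zero => exact hk
  | succ l ih =>
    have := hH _ ih
    have h2 : (t ^ (k + (l + 1)))⁻¹ * g * t ^ (k + (l + 1))
        = t⁻¹ * ((t ^ (k + l))⁻¹ * g * t ^ (k + l)) * t := by
      rw [← add_assoc, pow_succ]
      group
    rw [h2]
    exact this

theorem Union_D_U (t : G) (H : Subgroup G) (hH : ∀ x ∈ H, t⁻¹ * x * t ∈ H) (n : ℕ) :
    Union_D (Union_U t H hH) n ≤ Union_U t (Union_D H n) (Union_D_conj t H hH n) := by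
  induction n with
  | zero => exact le_rfl
  | succ n ih =>
    rw [Union_D, commutator_le]
    intro a ha b hb
    obtain ⟨k, hk⟩ := ih ha
    obtain ⟨l, hl⟩ := ih hb
    refine ⟨max k l, ?_⟩
    have h1 := Union_mono t _ (Union_D_conj t H hH n) a k (max k l) hk (le_max_left _ _)
    have h2 := Union_mono t _ (Union_D_conj t H hH n) b l (max k l) hl (le_max_right _ _)
    have h3 : (t ^ max k l)⁻¹ * ⁅a, b⁆ * t ^ max k l =
        ⁅(t ^ max k l)⁻¹ * a * t ^ max k l, (t ^ max k l)⁻¹ * b * t ^ max k l⁆ := by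
      simp only [commutatorElement_def]
      group
    rw [h3, Union_D]
    exact commutator_mem_commutator h1 h2

theorem Union_U_solv (t : G) (H : Subgroup G) (hH : ∀ x ∈ H, t⁻¹ * x * t ∈ H)
    (hs : Group.IsSolvable H) : Group.IsSolvable (Union_U t H hH) := by
  obtain ⟨n, hn⟩ := (Union_solv_iff H).1 hs
  rw [Union_solv_iff]
  refine ⟨n, ?_⟩
  rw [eq_bot_iff]
  intro x hx
  obtain ⟨k, hk⟩ := Union_D_U t H hH n hx
  rw [hn, mem_bot] at hk
  rw [mem_bot]
  have : x = t ^ k * ((t ^ k)⁻¹ * x * t ^ k) * (t ^ k)⁻¹ := by group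
  rw [this, hk]
  group

theorem Union_U_frk (t : G) (H Q : Subgroup G) (hH : ∀ x ∈ H, t⁻¹ * x * t ∈ H) (hHQ : H ≤ Q)
    {r : ℕ} (hr : FRk Q r) : FRk (Union_U t H hH) r := by
  classical
  intro F hF
  -- all of `F` lies in one conjugate
  obtain ⟨n, hn⟩ : ∃ n : ℕ, ∀ x : Union_U t H hH, x ∈ F → (t ^ n)⁻¹ * (x : G) * t ^ n ∈ H := by
    obtain ⟨S, hS⟩ := hF
    have hb : ∃ n : ℕ, ∀ x ∈ S, (t ^ n)⁻¹ * ((x : Union_U t H hH) : G) * t ^ n ∈ H := by
      clear hS
      induction S using Finset.induction_on with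
      | empty => exact ⟨0, by simp⟩
      | insert a S _ ih =>
        obtain ⟨n, hn⟩ := ih
        obtain ⟨m, hm⟩ := a.2
        refine ⟨max m n, fun x hx => ?_⟩
        rw [Finset.mem_insert] at hx
        rcases hx with rfl | hx
        · exact Union_mono t H hH _ m _ hm (le_max_left _ _)
        · exact Union_mono t H hH _ n _ (hn x hx) (le_max_right _ _)
    obtain ⟨n, hn⟩ := hb
    refine ⟨n, fun x hx => ?_⟩
    have hle : closure (S : Set (Union_U t H hH)) ≤
        H.comap ((MulAut.conj (t ^ n)⁻¹).toMonoidHom.comp (Union_U t H hH).subtype) := by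
      rw [closure_le]
      intro y hy
      have := hn y hy
      show (t ^ n)⁻¹ * (y : G) * (t ^ n)⁻¹⁻¹ ∈ H
      rw [inv_inv]
      exact this
    rw [hS] at hle
    have h5 : (t ^ n)⁻¹ * (x : G) * (t ^ n)⁻¹⁻¹ ∈ H := hle hx
    rw [inv_inv] at h5
    exact h5
  -- the homomorphism to `Q`
  let ψ : F →* Q := MonoidHom.mk' (fun x => ⟨(t ^ n)⁻¹ * ((x : Union_U t H hH) : G) * t ^ n,
    hHQ (hn x.1 x.2)⟩) (by
      intro a b
      apply Subtype.ext
      show (t ^ n)⁻¹ * ((a : Union_U t H hH) * (b : Union_U t H hH) : G) * t ^ n =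
        (t ^ n)⁻¹ * ((a : Union_U t H hH) : G) * t ^ n *
          ((t ^ n)⁻¹ * ((b : Union_U t H hH) : G) * t ^ n)
      group)
  have hψ : Function.Injective ψ := by
    intro a b hab
    have h1 : (t ^ n)⁻¹ * ((a : Union_U t H hH) : G) * t ^ n =
        (t ^ n)⁻¹ * ((b : Union_U t H hH) : G) * t ^ n := congrArg Subtype.val hab
    have h2 := mul_right_cancel h1
    have h3 := mul_left_cancel h2
    exact Subtype.ext (Subtype.ext h3)
  have hFG : Group.FG F := (Group.fg_iff_subgroup_fg F).2 hF
  have hrange : ψ.range.FG := (Group.fg_iff_subgroup_fg _).1 (Group.fg_range ψ)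
  obtain ⟨T, hT, hTc⟩ := hr ψ.range hrange
  have hch : ∀ q : Q, ∃ x : F, q ∈ ψ.range → ψ x = q := by
    intro q
    by_cases hq : q ∈ ψ.range
    · obtain ⟨x, hx⟩ := hq
      exact ⟨x, fun _ => hx⟩
    · exact ⟨1, fun h => absurd h hq⟩
  choose f hf using hch
  have hTr : ∀ q ∈ T, q ∈ ψ.range := by
    intro q hq
    rw [← hTc]
    exact Subgroup.subset_closure hq
  refine ⟨T.image (fun q => ((f q : F) : Union_U t H hH)), Finset.card_image_le.trans hT, ?_⟩
  apply le_antisymm
  · rw [closure_le]
    intro x hx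
    rw [Finset.mem_coe, Finset.mem_image] at hx
    obtain ⟨q, _, rfl⟩ := hx
    exact (f q).2
  · intro x hx
    have h1 : ψ ⟨x, hx⟩ ∈ closure (T : Set Q) := by
      rw [hTc]
      exact ⟨_, rfl⟩
    have h2 : closure (T : Set Q) ≤
        ((closure ((T.image (fun q => ((f q : F) : Union_U t H hH)) : Finset _) :
          Set (Union_U t H hH))).comap F.subtype).map ψ := by
      rw [closure_le]
      intro q hq
      refine ⟨f q, ?_, hf q (hTr q hq)⟩
      show ((f q : F) : Union_U t H hH) ∈ Subgroup.closure _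
      apply Subgroup.subset_closure
      rw [Finset.mem_coe]
      exact Finset.mem_image_of_mem (fun q => ((f q : F) : Union_U t H hH)) hq
    obtain ⟨y, hy, hyx⟩ := h2 h1
    have := hψ hyx
    rw [this] at hy
    exact hy

/-! ### the main statement -/

theorem Union_sup_map (t : G) (A B : Subgroup G) :
    (A ⊔ B).map (MulAut.conj t).toMonoidHom =
      A.map (MulAut.conj t).toMonoidHom ⊔ B.map (MulAut.conj t).toMonoidHom :=
  Subgroup.map_sup _ _ _

theorem union_radical (K Q : Subgroup G) [K.Normal] (hQK : Q ≤ K) (hQ : AP Q) (t : G)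
    (h1 : ∀ q ∈ Q, t⁻¹ * q * t ∈ Q)
    (h2 : ∀ k ∈ K, ∃ n : ℕ, (t ^ n)⁻¹ * k * t ^ n ∈ Q) :
    ∃ R : Subgroup G, R.Normal ∧ R ≤ K ∧ R.relIndex K ≠ 0 ∧ Group.IsSolvable R ∧
      ∃ r, FRk R r := by
  classical
  obtain ⟨S, hSn, hSf, hSs, hSmax⟩ := exists_sol_radical hQ
  obtain ⟨r, hr⟩ := AP.frk hQ
  have hQKn : ∀ (g x : G), x ∈ K → g * x * g⁻¹ ∈ K := fun g x hx =>
    (inferInstance : K.Normal).conj_mem x hx g
  set S0 : Subgroup G := S.map Q.subtype with hS0
  have hS0Q : S0 ≤ Q := map_subtype_le S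
  have hS0norm : ∀ q ∈ Q, ∀ x ∈ S0, q * x * q⁻¹ ∈ S0 := by
    rintro q hq _ ⟨x, hx, rfl⟩
    exact ⟨⟨q, hq⟩ * x * ⟨q, hq⟩⁻¹, hSn.conj_mem x hx ⟨q, hq⟩, rfl⟩
  have hS0rel : S0.relIndex Q ≠ 0 := by
    have : S0.subgroupOf Q = S := by
      rw [hS0, subgroupOf, comap_map_eq_self_of_injective Q.subtype_injective]
    rw [relIndex, this]
    exact hSf.index_ne_zero
  have hS0sol : Group.IsSolvable S0 :=
    Group.isSolvable_of_surjective (f := Q.subtype.subgroupMap S)
      (Q.subtype.subgroupMap_surjective S)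
  have hS0max : ∀ T : Subgroup G, T ≤ Q → (∀ q ∈ Q, ∀ x ∈ T, q * x * q⁻¹ ∈ T) →
      Group.IsSolvable T → T ≤ S0 := by
    intro T hTQ hTn hTs
    have hn : (T.subgroupOf Q).Normal := ⟨fun x hx q => by
      rw [mem_subgroupOf] at hx ⊢
      exact hTn q q.2 x hx⟩
    have hs : Group.IsSolvable (T.subgroupOf Q) := by
      have := hTs
      exact Group.isSolvable_of_isSolvable_injective (f := (subgroupOfEquivOfLe hTQ).toMonoidHom)
        (subgroupOfEquivOfLe hTQ).injective
    have h3 := hSmax _ hn hs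
    have h4 : (T.subgroupOf Q).map Q.subtype = T := by
      rw [subgroupOf_map_subtype, inf_eq_left]
      exact hTQ
    rw [← h4]
    exact map_mono h3
  set c : G →* G := (MulAut.conj t).toMonoidHom with hc
  have hcapp : ∀ x, c x = t * x * t⁻¹ := fun x => by rw [hc]; simp
  have hcinj : Function.Injective c := (MulAut.conj t).injective
  have hmemc : ∀ (H : Subgroup G) (x : G), x ∈ H.map c ↔ t⁻¹ * x * t ∈ H := by
    intro H x
    constructor
    · rintro ⟨y, hy, rfl⟩
      rw [hcapp]
      have : t⁻¹ * (t * y * t⁻¹) * t = y := by group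
      rw [this]
      exact hy
    · intro h
      refine ⟨_, h, ?_⟩
      rw [hcapp]
      group
  have hQQ1 : Q ≤ Q.map c := fun q hq => (hmemc Q q).2 (h1 q hq)
  -- step A
  have hA : S0.map c ⊓ Q ≤ S0 := by
    refine hS0max _ inf_le_right ?_ ?_
    · rintro q hq x ⟨hx1, hx2⟩
      refine ⟨?_, Q.mul_mem (Q.mul_mem hq hx2) (Q.inv_mem hq)⟩
      have hx1' := (hmemc S0 x).1 hx1
      refine (hmemc S0 _).2 ?_
      have := hS0norm _ (h1 q hq) _ hx1'
      have h3 : t⁻¹ * (q * x * q⁻¹) * t = t⁻¹ * q * t * (t⁻¹ * x * t) * (t⁻¹ * q * t)⁻¹ := by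
        group
      rw [h3]
      exact this
    · refine Union_solv_mono inf_le_left ?_
      have := hS0sol
      exact Group.isSolvable_of_surjective (f := c.subgroupMap S0) (c.subgroupMap_surjective S0)
  have hd : (S0.map c).relIndex (Q.map c) = S0.relIndex Q :=
    relIndex_map_map_of_injective S0 Q hcinj
  have hd1 : (S0.map c).relIndex Q ≤ S0.relIndex Q := by
    rw [← hd]
    exact relIndex_le_of_le_right hQQ1 (by rw [hd]; exact hS0rel)
  have hd2 : (S0.map c).relIndex Q ≠ 0 := by
    intro h0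
    have := relIndex_eq_zero_of_le_right hQQ1 h0
    rw [hd] at this
    exact hS0rel this
  -- step B
  have hB : S0 ≤ S0.map c ⊓ Q := by
    have h3 := relIndex_mul_relIndex (S0.map c ⊓ Q) S0 Q hA hS0Q
    rw [inf_relIndex_right] at h3
    have h4 : (S0.map c ⊓ Q).relIndex S0 = 1 := by
      have h5 : (S0.map c ⊓ Q).relIndex S0 ≠ 0 := by
        intro h0
        rw [h0, zero_mul] at h3
        exact hd2 h3.symm
      have h6 : (S0.map c ⊓ Q).relIndex S0 ≤ 1 := by
        by_contra h7
        push Not at h7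
        have : 2 * S0.relIndex Q ≤ (S0.map c ⊓ Q).relIndex S0 * S0.relIndex Q :=
          Nat.mul_le_mul_right _ h7
        have hpos : 0 < S0.relIndex Q := Nat.pos_of_ne_zero hS0rel
        omega
      omega
    rw [relIndex_eq_one] at h4
    exact h4
  have hconj : ∀ x ∈ S0, t⁻¹ * x * t ∈ S0 := fun x hx => (hmemc S0 x).1 (hB hx).1
  -- step C
  have hC : Q.map c ≤ Q ⊔ S0.map c := by
    have hle : Q ⊔ S0.map c ≤ Q.map c := sup_le hQQ1 (map_mono hS0Q)
    have h3 := relIndex_mul_relIndex (S0.map c) (Q ⊔ S0.map c) (Q.map c) le_sup_right hle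
    rw [hd] at h3
    have h0 : (S0.map c).relIndex (Q ⊔ S0.map c) ≠ 0 := by
      intro h0
      rw [h0, zero_mul] at h3
      exact hS0rel h3.symm
    have h4 : S0.relIndex Q ≤ (S0.map c).relIndex (Q ⊔ S0.map c) := by
      have h5 : (S0.map c).relIndex Q = S0.relIndex Q := by
        rw [← inf_relIndex_right, le_antisymm hA hB]
      rw [← h5]
      exact relIndex_le_of_le_right le_sup_left h0
    have hpos : 0 < S0.relIndex Q := Nat.pos_of_ne_zero hS0rel
    have h5 : (Q ⊔ S0.map c).relIndex (Q.map c) ≠ 0 := by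
      intro h0
      rw [h0, mul_zero] at h3
      omega
    have h6 : (Q ⊔ S0.map c).relIndex (Q.map c) ≤ 1 := by
      by_contra h7
      push Not at h7
      have : (S0.map c).relIndex (Q ⊔ S0.map c) * 2 ≤
          (S0.map c).relIndex (Q ⊔ S0.map c) * (Q ⊔ S0.map c).relIndex (Q.map c) :=
        Nat.mul_le_mul_left _ h7
      omega
    have h7 : (Q ⊔ S0.map c).relIndex (Q.map c) = 1 := by omega
    rw [relIndex_eq_one] at h7
    exact h7
  -- the union
  set R : Subgroup G := Union_U t S0 hconj with hR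
  have hRs : Group.IsSolvable R := Union_U_solv t S0 hconj hS0sol
  have hRr : FRk R r := Union_U_frk t S0 Q hconj hS0Q hr
  have hRK : R ≤ K := by
    rintro x ⟨n, hn⟩
    have h3 := hQKn (t ^ n) _ (hQK (hS0Q hn))
    have h4 : t ^ n * ((t ^ n)⁻¹ * x * t ^ n) * (t ^ n)⁻¹ = x := by group
    rwa [h4] at h3
  have hRnK : ∀ k ∈ K, ∀ x ∈ R, k * x * k⁻¹ ∈ R := by
    rintro k hk x ⟨n, hn⟩
    obtain ⟨m, hm⟩ := h2 k hk
    refine ⟨max m n, ?_⟩
    have h3 := Union_mono t Q h1 k m (max m n) hm (le_max_left _ _)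
    have h4 := Union_mono t S0 hconj x n (max m n) hn (le_max_right _ _)
    have h5 := hS0norm _ h3 _ h4
    have h6 : (t ^ max m n)⁻¹ * (k * x * k⁻¹) * t ^ max m n =
        (t ^ max m n)⁻¹ * k * t ^ max m n * ((t ^ max m n)⁻¹ * x * t ^ max m n) *
          ((t ^ max m n)⁻¹ * k * t ^ max m n)⁻¹ := by group
    rw [h6]
    exact h5
  have hWmax : ∀ W : Subgroup G, W ≤ K → (∀ k ∈ K, ∀ x ∈ W, k * x * k⁻¹ ∈ W) →
      Group.IsSolvable W → W ≤ R := by
    intro W hWK hWn hWs w hw
    obtain ⟨n, hn⟩ := h2 w (hWK hw)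
    refine ⟨n, ?_⟩
    have hmem : ∀ x : G, x ∈ W.map (MulAut.conj (t ^ n)⁻¹).toMonoidHom ↔
        t ^ n * x * (t ^ n)⁻¹ ∈ W := by
      intro x
      constructor
      · rintro ⟨y, hy, rfl⟩
        have : t ^ n * ((MulAut.conj (t ^ n)⁻¹).toMonoidHom y) * (t ^ n)⁻¹ = y := by
          simp only [MulEquiv.toMonoidHom_eq_coe, MonoidHom.coe_coe, MulAut.conj_apply]
          group
        rw [this]
        exact hy
      · intro h
        refine ⟨_, h, ?_⟩
        simp only [MulEquiv.toMonoidHom_eq_coe, MonoidHom.coe_coe, MulAut.conj_apply]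
        group
    have hle : W.map (MulAut.conj (t ^ n)⁻¹).toMonoidHom ⊓ Q ≤ S0 := by
      refine hS0max _ inf_le_right ?_ ?_
      · rintro q hq x ⟨hx1, hx2⟩
        refine ⟨?_, Q.mul_mem (Q.mul_mem hq hx2) (Q.inv_mem hq)⟩
        refine (hmem _).2 ?_
        have h3 := hWn _ (hQKn (t ^ n) q (hQK hq)) _ ((hmem x).1 hx1)
        have h4 : t ^ n * (q * x * q⁻¹) * (t ^ n)⁻¹ =
            t ^ n * q * (t ^ n)⁻¹ * (t ^ n * x * (t ^ n)⁻¹) * (t ^ n * q * (t ^ n)⁻¹)⁻¹ := by
          group
        rw [h4]
        exact h3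
      · refine Union_solv_mono inf_le_left ?_
        have := hWs
        exact Group.isSolvable_of_surjective
          (f := (MulAut.conj (t ^ n)⁻¹).toMonoidHom.subgroupMap W)
          ((MulAut.conj (t ^ n)⁻¹).toMonoidHom.subgroupMap_surjective W)
    refine hle ⟨(hmem _).2 ?_, hn⟩
    have h4 : t ^ n * ((t ^ n)⁻¹ * w * t ^ n) * (t ^ n)⁻¹ = w := by group
    rw [h4]
    exact hw
  have hRn : R.Normal := by
    refine ⟨fun x hx g => ?_⟩
    have hle : R.map (MulAut.conj g).toMonoidHom ≤ R := by
      refine hWmax _ ?_ ?_ ?_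
      · rintro _ ⟨y, hy, rfl⟩
        simpa using hQKn g y (hRK hy)
      · rintro k hk _ ⟨y, hy, rfl⟩
        have h3 : g⁻¹ * k * g ∈ K := by simpa using hQKn g⁻¹ k hk
        refine ⟨_, hRnK _ h3 y hy, ?_⟩
        simp only [MulEquiv.toMonoidHom_eq_coe, MonoidHom.coe_coe, MulAut.conj_apply]
        group
      · have := hRs
        exact Group.isSolvable_of_surjective
          (f := (MulAut.conj g).toMonoidHom.subgroupMap R)
          ((MulAut.conj g).toMonoidHom.subgroupMap_surjective R)
    have h3 := hle ⟨x, hx, rfl⟩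
    simpa using h3
  have := hRn
  have hS0R : S0 ≤ R := fun x hx => ⟨0, by simpa using hx⟩
  have hS1R : S0.map c ≤ R := fun x hx => ⟨1, by simpa using (hmemc S0 x).1 hx⟩
  have hKle : K ≤ Q ⊔ R := by
    have hind : ∀ n : ℕ, ∀ k : G, (t ^ n)⁻¹ * k * t ^ n ∈ Q → k ∈ Q ⊔ R := by
      intro n
      induction n with
      | zero =>
        intro k hk
        exact (le_sup_left : Q ≤ Q ⊔ R) (by simpa using hk)
      | succ n ih =>
        intro k hk
        have h3 : (t ^ (n + 1))⁻¹ * k * t ^ (n + 1) = (t ^ n)⁻¹ * (t⁻¹ * k * t) * t ^ n := by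
          rw [pow_succ']
          group
        rw [h3] at hk
        have h4 := ih _ hk
        have h5 : k ∈ (Q ⊔ R).map c := (hmemc _ _).2 h4
        rw [Subgroup.map_sup] at h5
        have h6 : Q.map c ⊔ R.map c ≤ Q ⊔ R := by
          refine sup_le (hC.trans (sup_le le_sup_left (hS1R.trans le_sup_right))) ?_
          refine le_trans ?_ le_sup_right
          rintro _ ⟨y, hy, rfl⟩
          rw [hcapp]
          exact hRn.conj_mem y hy t
        exact h6 h5
    intro k hk
    obtain ⟨n, hn⟩ := h2 k hk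
    exact hind n k hn
  refine ⟨R, hRn, hRK, ?_, hRs, r, hRr⟩
  intro h0
  have h3 := relIndex_eq_zero_of_le_right hKle h0
  rw [relIndex_sup_right] at h3
  exact hS0rel (relIndex_eq_zero_of_le_left hS0R h3)

end H36.PP
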