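import Pool.Agent.H36.PP.Defs

/-!
# Module APB: closure properties of `Max` and `AP`   (est. 250 lines)

Everything is standard.
* `Max.ext`: `H ≤ G`: `H ⊓ N` and the image of `H` in `G ⧸ N` are finitely generated.
* `exists_char_core`: there are only finitely many homomorphisms of a finitely generated
  group into `Equiv.Perm (Fin n)`; intersect their kernels.
* `exists_normal_core`: a characteristic subgroup of a normal subgroup is normal
  (`ConjAct` / `Subgroup.normal_of_characteristic...`).
* `AP.ext`: let `S₁ ≤ N` be soluble of finite index, by `exists_normal_core` take it normal in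
  `G`.  `E = G ⧸ S₁` has the finite normal subgroup `F = N/S₁` with `E/F` virtually soluble: the
  centraliser `C` of `F` has finite index in `E`, `C ⊓ F` is central in `C`, so
  `C ⊓ (preimage of a soluble subgroup of finite index of E/F)` is soluble of finite index in
  `E`; its preimage in `G` is soluble of finite index.
  (Solubility of extensions: `Group.isSolvable_of_ker_le_range`.)
-/

set_option autoImplicit false

namespace H36.PP

open Subgroup

variable {G H : Type*} [Group G] [Group H]

theorem APB_fg_ext (f : G →* H) (K : Subgroup G) (h1 : (K.map f).FG) (h2 : (K ⊓ f.ker).FG) :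
    K.FG := by
  classical
  obtain ⟨S, hS⟩ := h1
  obtain ⟨T, hT⟩ := h2
  have hex : ∀ s : S, ∃ g ∈ K, f g = s := by
    intro s
    have h3 : (s : H) ∈ K.map f := by
      rw [← hS]
      exact subset_closure s.2
    obtain ⟨g, hg, h⟩ := h3
    exact ⟨g, hg, h⟩
  choose g hg1 hg2 using hex
  refine ⟨Finset.univ.image g ∪ T, ?_⟩
  have hle : closure ((Finset.univ.image g ∪ T : Finset G) : Set G) ≤ K := by
    rw [closure_le]
    intro x hx
    simp only [Finset.coe_union, Finset.coe_image, Finset.coe_univ, Set.image_univ,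
      Set.mem_union, Set.mem_range, Finset.mem_coe] at hx
    rcases hx with ⟨s, rfl⟩ | hx
    · exact hg1 s
    · have h3 : x ∈ K ⊓ f.ker := by
        rw [← hT]
        exact subset_closure hx
      exact h3.1
  apply le_antisymm hle
  intro x hx
  have h3 : f x ∈ closure (S : Set H) := by
    rw [hS]
    exact mem_map_of_mem f hx
  have h4 : closure (S : Set H) ≤
      (closure ((Finset.univ.image g ∪ T : Finset G) : Set G)).map f := by
    rw [closure_le]
    intro s hs
    refine ⟨g ⟨s, hs⟩, subset_closure ?_, hg2 _⟩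
    simp
  obtain ⟨y, hy, hxy⟩ := h4 h3
  have hyK : y ∈ K := hle hy
  have h5 : x * y⁻¹ ∈ K ⊓ f.ker := by
    refine ⟨K.mul_mem hx (K.inv_mem hyK), ?_⟩
    change f (x * y⁻¹) = 1
    rw [map_mul, map_inv, hxy, mul_inv_cancel]
  have h6 : x * y⁻¹ ∈ closure ((Finset.univ.image g ∪ T : Finset G) : Set G) := by
    have h7 : closure (T : Set G) ≤
        closure ((Finset.univ.image g ∪ T : Finset G) : Set G) := by
      apply Subgroup.closure_mono
      simp
    rw [hT] at h7
    exact h7 h5
  have h8 := mul_mem h6 hy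
  simpa using h8

theorem APB_fg_map (f : G →* H) (K : Subgroup G) (h : K.FG) : (K.map f).FG := by
  classical
  obtain ⟨S, hS⟩ := h
  refine ⟨S.image f, ?_⟩
  rw [Finset.coe_image, ← MonoidHom.map_closure, hS]

theorem Max.of_injective (f : G →* H) (hf : Function.Injective f) (h : Max H) : Max G := by
  intro K
  apply APB_fg_ext f K (h _)
  rw [(MonoidHom.ker_eq_bot_iff f).2 hf, inf_bot_eq]
  exact FG.bot

theorem Max.of_surjective (f : G →* H) (hf : Function.Surjective f) (h : Max G) : Max H := by
  intro K
  rw [← map_comap_eq_self_of_surjective hf K]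
  exact APB_fg_map f _ (h _)

theorem Max.subgroup (h : Max G) (K : Subgroup G) : Max K :=
  Max.of_injective K.subtype K.subtype_injective h

theorem Max.ext (N : Subgroup G) [N.Normal] (h1 : Max N) (h2 : Max (G ⧸ N)) : Max G := by
  intro K
  apply APB_fg_ext (QuotientGroup.mk' N) K (h2 _)
  rw [QuotientGroup.ker_mk']
  have h3 := APB_fg_map N.subtype _ (h1 (K.subgroupOf N))
  rwa [subgroupOf_map_subtype] at h3

theorem APB_finiteIndex_comap (f : G →* H) (S : Subgroup H) (hS : S.FiniteIndex) :
    (S.comap f).FiniteIndex := by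
  rw [finiteIndex_iff] at hS ⊢
  rw [index_comap]
  intro h0
  exact hS (index_eq_zero_of_relIndex_eq_zero h0)

theorem AP.of_injective (f : G →* H) (hf : Function.Injective f) (h : AP H) : AP G := by
  obtain ⟨h1, S, h2, h3⟩ := h
  refine ⟨Max.of_injective f hf h1, S.comap f, APB_finiteIndex_comap f S h2, ?_⟩
  refine Group.isSolvable_of_isSolvable_injective (f := f.subgroupComap S) ?_
  intro x y hxy
  apply Subtype.ext
  apply hf
  exact congrArg Subtype.val hxy

theorem AP.of_surjective (f : G →* H) (hf : Function.Surjective f) (h : AP G) : AP H := by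
  obtain ⟨h1, S, h2, h3⟩ := h
  refine ⟨Max.of_surjective f hf h1, S.map f, ?_, ?_⟩
  · rw [finiteIndex_iff] at h2 ⊢
    intro h0
    have h4 := index_map_dvd S hf
    rw [h0] at h4
    exact h2 (Nat.eq_zero_of_zero_dvd h4)
  · exact Group.isSolvable_of_surjective (f.subgroupMap_surjective S)

theorem AP.congr (e : G ≃* H) : AP G ↔ AP H :=
  ⟨fun h => AP.of_surjective e.toMonoidHom e.surjective h,
    fun h => AP.of_injective e.toMonoidHom e.injective h⟩

theorem AP.subgroup (h : AP G) (K : Subgroup G) : AP K :=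
  AP.of_injective K.subtype K.subtype_injective h

theorem AP.mono {K L : Subgroup G} (hKL : K ≤ L) (h : AP L) : AP K :=
  AP.of_injective (inclusion hKL) (inclusion_injective hKL) h

theorem AP.quotient (h : AP G) (N : Subgroup G) [N.Normal] : AP (G ⧸ N) :=
  AP.of_surjective (QuotientGroup.mk' N) (QuotientGroup.mk'_surjective N) h

theorem APB_finite_hom (hG : Group.FG G) (P : Type*) [Group P] [Finite P] :
    Finite (G →* P) := by
  obtain ⟨S, hS⟩ := hG
  let r : (G →* P) → (S → P) := fun f s => f s
  have hr : Function.Injective r := by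
    intro f g hfg
    apply MonoidHom.eq_of_eqOn_dense hS
    intro s hs
    exact congrFun hfg ⟨s, hs⟩
  exact Finite.of_injective r hr

/-- a finitely generated group: every subgroup of finite index contains a characteristic
subgroup of finite index -/
theorem exists_char_core (hG : Group.FG G) (S : Subgroup G) (hS : S.FiniteIndex) :
    ∃ T : Subgroup G, T ≤ S ∧ T.FiniteIndex ∧ T.Characteristic := by
  have : Finite (G ⧸ S) := finite_quotient_of_finiteIndex
  have : Finite (G →* Equiv.Perm (G ⧸ S)) := APB_finite_hom hG _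
  refine ⟨⨅ f : G →* Equiv.Perm (G ⧸ S), f.ker, ?_, ?_, ?_⟩
  · refine (iInf_le _ (MulAction.toPermHom G (G ⧸ S))).trans ?_
    rw [← normalCore_eq_ker]
    exact normalCore_le S
  · exact finiteIndex_iInf fun f => inferInstance
  · rw [characteristic_iff_le_comap]
    intro φ x hx
    rw [mem_comap, mem_iInf]
    intro f
    rw [mem_iInf] at hx
    exact hx (f.comp φ.toMonoidHom)

theorem exists_normal_core (N : Subgroup G) [N.Normal] (hN : N.FG) (S : Subgroup G)
    (hS : S ≤ N) (h : S.relIndex N ≠ 0) :
    ∃ T : Subgroup G, T.Normal ∧ T ≤ S ∧ T.relIndex N ≠ 0 := by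
  obtain ⟨T, hT1, hT2, hT3⟩ := exists_char_core ((Group.fg_iff_subgroup_fg N).2 hN)
    (S.subgroupOf N) (finiteIndex_iff.2 h)
  refine ⟨T.map N.subtype, inferInstance, ?_, ?_⟩
  · rintro _ ⟨x, hx, rfl⟩
    exact hT1 hx
  · rw [relIndex, subgroupOf, comap_map_eq_self_of_injective N.subtype_injective]
    exact finiteIndex_iff.1 hT2

theorem AP.of_finite [Finite G] : AP G := by
  refine ⟨?_, ⊥, inferInstance, inferInstance⟩
  intro K
  exact (Group.fg_iff_subgroup_fg K).1 inferInstance

/-- centralisers modulo a finite normal section -/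
theorem APB_solv (N S : Subgroup G) [N.Normal] [S.Normal] (hSN : S ≤ N)
    (hfin : S.relIndex N ≠ 0) (hS : Group.IsSolvable S) (U : Subgroup (G ⧸ N))
    (hU : U.FiniteIndex) (hUs : Group.IsSolvable U) :
    ∃ D : Subgroup G, D.FiniteIndex ∧ Group.IsSolvable D := by
  have : (N.map (QuotientGroup.mk' S)).Normal :=
    Normal.map inferInstance _ (QuotientGroup.mk'_surjective S)
  have hF : Finite (N.map (QuotientGroup.mk' S)) := by
    apply Nat.finite_of_card_ne_zero
    rw [← relIndex_ker, QuotientGroup.ker_mk']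
    exact hfin
  have : Finite (MulAut (N.map (QuotientGroup.mk' S))) := by
    exact Finite.of_injective (fun e : MulAut (N.map (QuotientGroup.mk' S)) =>
      (e : N.map (QuotientGroup.mk' S) → N.map (QuotientGroup.mk' S))) DFunLike.coe_injective
  let φ : G →* MulAut (N.map (QuotientGroup.mk' S)) :=
    (MulAut.conjNormal (H := N.map (QuotientGroup.mk' S))).comp (QuotientGroup.mk' S)
  have hC : φ.ker.FiniteIndex := inferInstance
  have hH : (U.comap (QuotientGroup.mk' N)).FiniteIndex := APB_finiteIndex_comap _ U hU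
  refine ⟨φ.ker ⊓ U.comap (QuotientGroup.mk' N), inferInstance, ?_⟩
  set D : Subgroup G := φ.ker ⊓ U.comap (QuotientGroup.mk' N) with hD
  have hcomm : ∀ x ∈ D, ∀ y ∈ N, QuotientGroup.mk' S x * QuotientGroup.mk' S y =
      QuotientGroup.mk' S y * QuotientGroup.mk' S x := by
    intro x hx y hy
    have h1 : φ x = 1 := hx.1
    have h2 := congrArg (fun e : MulAut (N.map (QuotientGroup.mk' S)) =>
      ((e ⟨QuotientGroup.mk' S y, mem_map_of_mem _ hy⟩ : N.map (QuotientGroup.mk' S)) :
        G ⧸ S)) h1
    simp only [φ, MonoidHom.comp_apply, MulAut.conjNormal_apply, MulAut.one_apply] at h2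
    rw [mul_inv_eq_iff_eq_mul] at h2
    exact h2
  -- `W = D ⊓ N` is soluble
  have hW : Group.IsSolvable (D ⊓ N : Subgroup G) := by
    have h3 : Group.IsSolvable ((D ⊓ N).map (QuotientGroup.mk' S) : Subgroup (G ⧸ S)) := by
      apply Group.isSolvable_of_comm
      rintro ⟨_, x, hx, rfl⟩ ⟨_, y, hy, rfl⟩
      apply Subtype.ext
      exact hcomm x hx.1 y hy.2
    have h4 : Group.IsSolvable ((S ⊓ (D ⊓ N) : Subgroup G)) :=
      Group.isSolvable_of_isSolvable_injective
        (f := inclusion (inf_le_left : S ⊓ (D ⊓ N) ≤ S)) (inclusion_injective _)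
    refine Group.isSolvable_of_ker_le_range
      (inclusion (inf_le_right : S ⊓ (D ⊓ N) ≤ D ⊓ N))
      ((QuotientGroup.mk' S).subgroupMap (D ⊓ N)) ?_
    intro x hx
    have h5 : QuotientGroup.mk' S (x : G) = 1 := congrArg Subtype.val hx
    have h6 : (x : G) ∈ S := by
      rw [← QuotientGroup.ker_mk' S]
      exact h5
    exact ⟨⟨x, h6, x.2⟩, rfl⟩
  let ψ : D →* U := ((QuotientGroup.mk' N).comp D.subtype).codRestrict U (fun x => x.2.2)
  refine Group.isSolvable_of_ker_le_range (inclusion (inf_le_left : D ⊓ N ≤ D)) ψ ?_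
  intro x hx
  have h5 : QuotientGroup.mk' N (x : G) = 1 := congrArg Subtype.val hx
  have h6 : (x : G) ∈ N := by
    rw [← QuotientGroup.ker_mk' N]
    exact h5
  exact ⟨⟨x, x.2, h6⟩, rfl⟩

theorem AP.ext (N : Subgroup G) [N.Normal] (h1 : AP N) (h2 : AP (G ⧸ N)) : AP G := by
  refine ⟨Max.ext N h1.1 h2.1, ?_⟩
  obtain ⟨hmax, S₁, hS1, hS2⟩ := h1
  obtain ⟨_, U, hU1, hU2⟩ := h2
  have hNfg : N.FG := (Group.fg_iff_subgroup_fg N).1 (Group.fg_def.2 (hmax ⊤))
  obtain ⟨T, hT1, hT2, hT3⟩ := exists_normal_core N hNfg (S₁.map N.subtype)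
    (map_subtype_le S₁) (by
      rw [relIndex, subgroupOf, comap_map_eq_self_of_injective N.subtype_injective]
      exact finiteIndex_iff.1 hS1)
  have hT4 : Group.IsSolvable T := by
    have : Group.IsSolvable (S₁.map N.subtype) :=
      Group.isSolvable_of_surjective (N.subtype.subgroupMap_surjective S₁)
    exact Group.isSolvable_of_isSolvable_injective (f := inclusion hT2) (inclusion_injective _)
  exact APB_solv N T (hT2.trans (map_subtype_le S₁)) hT3 hT4 U hU1 hU2

theorem AP.of_finiteIndex (K : Subgroup G) (hK : K.FiniteIndex) (h : AP K) : AP G := by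
  have : K.normalCore.FiniteIndex := inferInstance
  have : Finite (G ⧸ K.normalCore) := finite_quotient_of_finiteIndex
  exact AP.ext K.normalCore (AP.mono (normalCore_le K) h) AP.of_finite

theorem AP.of_comm_fg (hc : ∀ x y : G, x * y = y * x) (hG : Group.FG G) : AP G := by
  refine ⟨?_, ⊤, inferInstance, ?_⟩
  · let inst : CommGroup G := { (inferInstance : Group G) with mul_comm := hc }
    intro K
    have h1 : AddGroup.FG (Additive G) := GroupFG.iff_add_fg.1 hG
    have h2 : Module.Finite ℤ (Additive G) := Module.Finite.iff_addGroup_fg.2 h1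
    have h3 : IsNoetherian ℤ (Additive G) := inferInstance
    have h4 := h3.noetherian (AddSubgroup.toIntSubmodule (Subgroup.toAddSubgroup K))
    rw [Submodule.fg_iff_addSubgroup_fg] at h4
    rw [Subgroup.fg_iff_add_fg]
    exact h4
  · have : Group.IsSolvable G := Group.isSolvable_of_comm hc
    infer_instance

/-- the join of two normal almost polycyclic subgroups -/
theorem AP.sup (M N : Subgroup G) [M.Normal] [N.Normal] (h1 : AP M) (h2 : AP N) :
    AP (M ⊔ N : Subgroup G) := by
  apply AP.ext (N.subgroupOf (M ⊔ N))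
  · exact (AP.congr (subgroupOfEquivOfLe (le_sup_right : N ≤ M ⊔ N))).2 h2
  · exact (AP.congr (QuotientGroup.quotientInfEquivProdNormalQuotient M N)).1
      (AP.quotient h1 _)

/-- quotients in two steps -/
theorem AP.quotient_of_le (M N : Subgroup G) [M.Normal] [N.Normal] (hMN : M ≤ N)
    (h1 : AP (N.map (QuotientGroup.mk' M) : Subgroup (G ⧸ M))) (h2 : AP (G ⧸ N)) :
    AP (G ⧸ M) := by
  have : (N.map (QuotientGroup.mk' M)).Normal :=
    Normal.map inferInstance _ (QuotientGroup.mk'_surjective M)
  exact AP.ext (N.map (QuotientGroup.mk' M)) h1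
    ((AP.congr (QuotientGroup.quotientQuotientEquivQuotient M N hMN)).2 h2)

end H36.PP
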