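import Pool.Agent.H36.PP.CayB

/-!
# The Bieri-Neumann-Strebel criterion: definitions

`C` is generated by the finite set `S`, `π : C → ℤ^k` a homomorphism onto, all characters
`χ_u = Σ u_i π_i`, `u ≠ 0`, are good.  Then `ker π` is finitely generated: modules `BNSLocal`,
`BNSPush`, `BNSFin`.
-/

set_option autoImplicit false

namespace H36.PP

open Subgroup

variable {C : Type*} [Group C] {k : ℕ}

/-- the character `Σ u_i π_i` -/
def chr (π : C →* Multiplicative (Fin k → ℤ)) (u : Fin k → ℝ) (g : C) : ℝ :=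
  ∑ i, u i * ((Multiplicative.toAdd (π g) i : ℤ) : ℝ)

/-- square of the Euclidean norm -/
def nsq (π : C →* Multiplicative (Fin k → ℤ)) (g : C) : ℤ :=
  ∑ i, (Multiplicative.toAdd (π g) i) ^ 2

theorem chr_isChar (π : C →* Multiplicative (Fin k → ℤ)) (u : Fin k → ℝ) :
    IsChar (chr π u) := by
  intro g h
  unfold chr
  rw [← Finset.sum_add_distrib]
  refine Finset.sum_congr rfl fun i _ => ?_
  rw [map_mul, toAdd_mul, Pi.add_apply, Int.cast_add, mul_add]

end H36.PP
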