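import Pool.Agent.H36.PP.BNSD

/-!
# Module BNSLocal: uniform local paths, by compactness of the sphere   (est. 200 lines)

Let `u` be a unit vector.  There is `τ` with `τ ∈ S` or `τ⁻¹ ∈ S` and `χ_u τ > 0`
(`π` is onto and `S` generates).  Let `c` be the constant of `Good χ_u S` and `t = τ^M` with
`M χ_u τ > c`.  For every `s ∈ S^±` with `χ_u s ≥ 0`: by `Good`, `1` and `t⁻¹ s t` are connected in
`{χ_u ≥ -c}`; translate by `t`: `t` and `s t` are connected in `{χ_u ≥ M χ_u τ - c}`; then go from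
`s τ^M` down to `s`: the `s τ^i`, `i ≥ 1`, have `χ_u > 0`.  All vertices of this path except the
last one have `χ_u > 0`.  There are finitely many such vertices for the finitely many `s`;
for `u'` near `u` the character `χ_u'` is still positive on them, and `χ_u' s ≥ 0` implies
`χ_u s ≥ 0`.  The unit sphere is compact.
-/

set_option autoImplicit false

namespace H36.PP

open Subgroup Filter Topology

variable {C : Type*} [Group C] {k : ℕ}

theorem BNSLocal_continuous (π : C →* Multiplicative (Fin k → ℤ)) (g : C) :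
    Continuous fun u : Fin k → ℝ => chr π u g := by
  unfold chr
  fun_prop

/-- the relation used in `bns_local` -/
def BNSLocalRel (S : Set C) (π : C →* Multiplicative (Fin k → ℤ)) (δ L : ℝ) (u : Fin k → ℝ)
    (g h : C) : Prop :=
  (g⁻¹ * h ∈ S ∨ h⁻¹ * g ∈ S) ∧ δ ≤ chr π u g ∧ (nsq π g : ℝ) ≤ L

theorem BNSLocal_mono {S : Set C} {π : C →* Multiplicative (Fin k → ℤ)} {δ L δ' L' : ℝ}
    {u : Fin k → ℝ} {g h : C} (hδ : δ' ≤ δ) (hL : L ≤ L')
    (hp : Relation.ReflTransGen (BNSLocalRel S π δ L u) g h) :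
    Relation.ReflTransGen (BNSLocalRel S π δ' L' u) g h := by
  refine Relation.ReflTransGen.mono ?_ _ _ hp
  rintro a b ⟨h1, h2, h3⟩
  exact ⟨h1, hδ.trans h2, h3.trans hL⟩

/-- a path with positive values of `χ_u` is a uniformly positive path for all `u'` near `u` -/
theorem BNSLocal_eventually {S : Set C} (π : C →* Multiplicative (Fin k → ℤ)) {u : Fin k → ℝ}
    {t s : C} (hp : Relation.ReflTransGen (fun g h : C => (g⁻¹ * h ∈ S ∨ h⁻¹ * g ∈ S) ∧
      0 < chr π u g) t s) :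
    ∃ δ L : ℝ, 0 < δ ∧ ∀ᶠ u' in 𝓝 u, Relation.ReflTransGen (BNSLocalRel S π δ L u') t s := by
  induction hp with
  | refl => exact ⟨1, 0, one_pos, Eventually.of_forall fun _ => Relation.ReflTransGen.refl⟩
  | @tail b c _ hbc ih =>
    obtain ⟨δ, L, hδ, h⟩ := ih
    obtain ⟨h1, h2⟩ := hbc
    have h3 : ∀ᶠ u' in 𝓝 u, chr π u b / 2 < chr π u' b := by
      have := (BNSLocal_continuous π b).continuousAt (x := u)
      exact this.eventually (lt_mem_nhds (by linarith : chr π u b / 2 < chr π u b))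
    refine ⟨min δ (chr π u b / 2), max L (nsq π b), lt_min hδ (by linarith), ?_⟩
    filter_upwards [h, h3] with u' h4 h5
    refine (BNSLocal_mono (min_le_left _ _) (le_max_left _ _) h4).tail ?_
    exact ⟨h1, (min_le_right _ _).trans h5.le, le_max_right _ _⟩

/-- the same for finitely many ends -/
theorem BNSLocal_finset {S : Set C} (π : C →* Multiplicative (Fin k → ℤ)) {u : Fin k → ℝ}
    {t : C} (T : Finset C) (hT : ∀ s ∈ T, 0 ≤ chr π u s →
      Relation.ReflTransGen (fun g h : C => (g⁻¹ * h ∈ S ∨ h⁻¹ * g ∈ S) ∧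
        0 < chr π u g) t s) :
    ∃ δ L : ℝ, 0 < δ ∧ ∀ᶠ u' in 𝓝 u, ∀ s ∈ T, 0 ≤ chr π u' s →
      Relation.ReflTransGen (BNSLocalRel S π δ L u') t s := by
  classical
  induction T using Finset.induction_on with
  | empty => exact ⟨1, 0, one_pos, Eventually.of_forall fun _ s hs => absurd hs (Finset.notMem_empty s)⟩
  | insert a T ha ih =>
    obtain ⟨δ, L, hδ, h⟩ := ih fun s hs => hT s (Finset.mem_insert_of_mem hs)
    have h1 : ∃ δ' L' : ℝ, 0 < δ' ∧ ∀ᶠ u' in 𝓝 u, 0 ≤ chr π u' a →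
        Relation.ReflTransGen (BNSLocalRel S π δ' L' u') t a := by
      by_cases h0 : 0 ≤ chr π u a
      · obtain ⟨δ', L', hδ', h2⟩ := BNSLocal_eventually π (hT a (Finset.mem_insert_self a T) h0)
        exact ⟨δ', L', hδ', h2.mono fun _ h3 _ => h3⟩
      · refine ⟨1, 0, one_pos, ?_⟩
        push Not at h0
        have := (BNSLocal_continuous π a).continuousAt (x := u)
        filter_upwards [this.eventually (gt_mem_nhds h0)] with u' h2 h3
        exact absurd h3 (not_le.mpr h2)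
    obtain ⟨δ', L', hδ', h2⟩ := h1
    refine ⟨min δ δ', max L L', lt_min hδ hδ', ?_⟩
    filter_upwards [h, h2] with u' h3 h4 s hs h5
    rcases Finset.mem_insert.mp hs with rfl | hs
    · exact BNSLocal_mono (min_le_right _ _) (le_max_right _ _) (h4 h5)
    · exact BNSLocal_mono (min_le_left _ _) (le_max_left _ _) (h3 s hs h5)

/-- the path for one unit vector -/
theorem BNSLocal_one {S : Set C} (hS : closure S = ⊤)
    (π : C →* Multiplicative (Fin k → ℤ)) (hπ : Function.Surjective π) {u : Fin k → ℝ}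
    (hu : u ≠ 0) (hg : Good (chr π u) S) :
    ∃ t : C, ∀ s : C, s ∈ S ∨ s⁻¹ ∈ S → 0 ≤ chr π u s →
      Relation.ReflTransGen (fun g h : C => (g⁻¹ * h ∈ S ∨ h⁻¹ * g ∈ S) ∧
        0 < chr π u g) t s := by
  have hχ := chr_isChar π u
  -- an element of `S^±` with positive value
  obtain ⟨τ, hτS, hτ⟩ : ∃ τ : C, (τ ∈ S ∨ τ⁻¹ ∈ S) ∧ 0 < chr π u τ := by
    by_contra hcon
    push Not at hcon
    have h0 : ∀ s ∈ S, chr π u s = 0 := by
      intro s hs
      have h1 := hcon s (Or.inl hs)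
      have h2 := hcon s⁻¹ (Or.inr (by rwa [inv_inv]))
      rw [hχ.inv] at h2
      linarith
    have h3 : (⊤ : Subgroup C) ≤ charKer (chr π u) hχ := by
      rw [← hS, closure_le]
      intro s hs
      exact h0 s hs
    obtain ⟨i, hi⟩ : ∃ i, u i ≠ 0 := by
      by_contra h4
      push Not at h4
      exact hu (funext h4)
    obtain ⟨g, hgi⟩ := hπ (Multiplicative.ofAdd (Pi.single i 1))
    have h5 : chr π u g = 0 := h3 (mem_top g)
    unfold chr at h5
    rw [hgi, toAdd_ofAdd, Finset.sum_eq_single i] at h5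
    · simp at h5
      exact hi h5
    · intro j _ hj
      simp [hj]
    · intro hj
      exact absurd (Finset.mem_univ i) hj
  obtain ⟨c, hc, hgood⟩ := hg
  obtain ⟨M, hM⟩ := exists_nat_gt (c / chr π u τ)
  have hM' : c < M * chr π u τ := by
    rw [div_lt_iff₀ hτ] at hM
    exact hM
  refine ⟨τ ^ M, fun s hs hs0 => ?_⟩
  have h1 : 0 ≤ chr π u ((τ ^ M)⁻¹ * s * τ ^ M) := by
    rw [hχ, hχ, hχ.inv]
    linarith
  have h2 := (hgood _ h1).translate hχ (τ ^ M)
  rw [mul_one] at h2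
  have h3 : τ ^ M * ((τ ^ M)⁻¹ * s * τ ^ M) = s * τ ^ M := by group
  rw [h3, hχ.pow] at h2
  have h4 : Relation.ReflTransGen (fun g h : C => (g⁻¹ * h ∈ S ∨ h⁻¹ * g ∈ S) ∧
      0 < chr π u g) (τ ^ M) (s * τ ^ M) := by
    refine Relation.ReflTransGen.mono ?_ _ _ h2
    rintro a b ⟨h5, _, h6⟩
    exact ⟨h6, by linarith⟩
  refine h4.trans ?_
  have h7 : ∀ n : ℕ, Relation.ReflTransGen (fun g h : C => (g⁻¹ * h ∈ S ∨ h⁻¹ * g ∈ S) ∧
      0 < chr π u g) (s * τ ^ n) s := by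
    intro n
    induction n with
    | zero => rw [pow_zero, mul_one]
    | succ n ih =>
      refine Relation.ReflTransGen.head ⟨?_, ?_⟩ ih
      · have e1 : (s * τ ^ (n + 1))⁻¹ * (s * τ ^ n) = τ⁻¹ := by
          rw [pow_succ]; group
        have e2 : (s * τ ^ n)⁻¹ * (s * τ ^ (n + 1)) = τ := by
          rw [pow_succ]; group
        rw [e1, e2]
        exact hτS.symm
      · rw [hχ, hχ.pow]
        have : 0 < ((n + 1 : ℕ) : ℝ) * chr π u τ := by positivity
        linarith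
  exact h7 M

theorem bns_local {S : Set C} (hf : S.Finite) (hS : closure S = ⊤)
    (π : C →* Multiplicative (Fin k → ℤ)) (hπ : Function.Surjective π)
    (hg : ∀ u : Fin k → ℝ, u ≠ 0 → Good (chr π u) S) :
    ∃ δ L : ℝ, 0 < δ ∧ ∀ u : Fin k → ℝ, ∑ i, u i ^ 2 = 1 → ∃ t : C,
      ∀ s : C, s ∈ S ∨ s⁻¹ ∈ S → 0 ≤ chr π u s →
        Relation.ReflTransGen (fun g h : C => (g⁻¹ * h ∈ S ∨ h⁻¹ * g ∈ S) ∧
          δ ≤ chr π u g ∧ (nsq π g : ℝ) ≤ L) t s := by
  classical
  have hfT : {s : C | s ∈ S ∨ s⁻¹ ∈ S}.Finite := by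
    have : {s : C | s ∈ S ∨ s⁻¹ ∈ S} = S ∪ S⁻¹ := by
      ext s; simp
    rw [this]
    exact hf.union hf.inv
  have hcomp : IsCompact {u : Fin k → ℝ | ∑ i, u i ^ 2 = 1} := by
    refine Metric.isCompact_of_isClosed_isBounded ?_ ?_
    · exact isClosed_eq (by fun_prop) continuous_const
    · refine (Metric.isBounded_closedBall (x := (0 : Fin k → ℝ)) (r := 1)).subset ?_
      intro u hu
      rw [mem_closedBall_zero_iff, pi_norm_le_iff_of_nonneg zero_le_one]
      intro i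
      have h1 : u i ^ 2 ≤ ∑ j, u j ^ 2 :=
        Finset.single_le_sum (f := fun j => u j ^ 2) (fun j _ => sq_nonneg _) (Finset.mem_univ i)
      have h2 : u i ^ 2 ≤ 1 := h1.trans (le_of_eq hu)
      rw [Real.norm_eq_abs]
      exact (sq_le_one_iff_abs_le_one _).mp h2
  let p : Set (Fin k → ℝ) → Prop := fun A => ∃ δ L : ℝ, 0 < δ ∧ ∀ u ∈ A, ∃ t : C,
      ∀ s : C, s ∈ S ∨ s⁻¹ ∈ S → 0 ≤ chr π u s →
        Relation.ReflTransGen (BNSLocalRel S π δ L u) t s
  have key : p {u : Fin k → ℝ | ∑ i, u i ^ 2 = 1} := by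
    refine hcomp.induction_on (p := p) ?_ ?_ ?_ ?_
    · exact ⟨1, 0, one_pos, fun u hu => absurd hu (Set.notMem_empty u)⟩
    · rintro A B hAB ⟨δ, L, hδ, h⟩
      exact ⟨δ, L, hδ, fun u hu => h u (hAB hu)⟩
    · rintro A B ⟨δ, L, hδ, h⟩ ⟨δ', L', hδ', h'⟩
      refine ⟨min δ δ', max L L', lt_min hδ hδ', ?_⟩
      rintro u (hu | hu)
      · obtain ⟨t, ht⟩ := h u hu
        exact ⟨t, fun s hs h0 => BNSLocal_mono (min_le_left _ _) (le_max_left _ _) (ht s hs h0)⟩
      · obtain ⟨t, ht⟩ := h' u hu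
        exact ⟨t, fun s hs h0 => BNSLocal_mono (min_le_right _ _) (le_max_right _ _) (ht s hs h0)⟩
    · intro u hu
      have hu0 : u ≠ 0 := by
        rintro rfl
        simp at hu
      obtain ⟨t, ht⟩ := BNSLocal_one hS π hπ hu0 (hg u hu0)
      obtain ⟨δ, L, hδ, h⟩ := BNSLocal_finset π (u := u) (t := t) hfT.toFinset
        (fun s hs h0 => ht s ((hfT.mem_toFinset).mp hs) h0)
      refine ⟨{u' | ∀ s ∈ hfT.toFinset, 0 ≤ chr π u' s →
        Relation.ReflTransGen (BNSLocalRel S π δ L u') t s}, mem_nhdsWithin_of_mem_nhds h,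
        δ, L, hδ, fun u' hu' => ⟨t, fun s hs h0 => hu' s ((hfT.mem_toFinset).mpr hs) h0⟩⟩
  obtain ⟨δ, L, hδ, h⟩ := key
  exact ⟨δ, L, hδ, fun u hu => h u hu⟩

end H36.PP
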