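import Pool.Agent.H36.PP.CayB

/-!
# Module Cay: from jumps to paths   (est. 200 lines)

`jump_path`: `A ≤ G` with all subgroups finitely generated, `χ` a character of `G`, `S` a
generating set of `G`.  There is a constant `c` such that for all `h ∈ G` and `a ∈ A` with
`χ h ≥ 0` and `χ (h a) ≥ 0` the points `h` and `h a` are connected in `{χ ≥ -c}`.
Proof.  Let `k_1, ..., k_l` generate `A ⊓ ker χ` (`Max A`) and let `c` be the maximum of the
constants of `CConn.bound` for the `k_i` and their inverses.  If `χ` vanishes on `A` then `a` is a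
product of the `k_i^±`, done.  Otherwise let `t ∈ A` with `χ t > 0`.  For `M` large:
`h → h t^M` (every vertex on the way: apply the word of `t` at `h t^i`, so at least
`χ h - c_t`, enlarge `c`), `→ h t^M a` (a fixed word for `a` applied at a very high point),
`→ h t^M a t^(-M)` (the points `h t^M a t^(-i)` have `χ ≥ χ (h a) ≥ 0`), and
`h t^M a t^(-M) = h a k` with `k = a⁻¹ t^M a t^(-M) ∈ A ⊓ ker χ`; `k⁻¹` is a product of the `k_i^±`,
so `h a k → h a` inside `{χ ≥ χ (h a) - c}`.
`good_of_jconn`: connect `1` to `g` by jumps in `{χ ≥ 0}` and replace every jump.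
-/

set_option autoImplicit false

namespace H36.PP

open Subgroup

variable {G : Type*} [Group G] {χ : G → ℝ}

/-- elements of `A ⊓ ker χ` move every point inside `{χ ≥ χ g - c}`, with `c` independent of the
element -/
lemma Cay_kernel (hχ : IsChar χ) {S : Set G} (hS : closure S = ⊤) (A : Subgroup G)
    (hA : Max A) : ∃ c : ℝ, 0 ≤ c ∧ ∀ k : G, k ∈ A → χ k = 0 → ∀ g : G,
      CConn χ S (χ g - c) g (g * k) := by
  classical
  let K : Subgroup A :=
    { carrier := {a | χ (a : G) = 0}
      mul_mem' := by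
        intro a b ha hb
        simp only [Set.mem_ofPred_eq, Subgroup.coe_mul] at *
        rw [hχ, ha, hb, add_zero]
      one_mem' := by
        simp only [Set.mem_ofPred_eq, Subgroup.coe_one]
        exact hχ.one
      inv_mem' := by
        intro a ha
        simp only [Set.mem_ofPred_eq, Subgroup.coe_inv] at *
        rw [hχ.inv, ha, neg_zero] }
  have hK : ∀ a : A, a ∈ K ↔ χ (a : G) = 0 := fun a => Iff.rfl
  obtain ⟨T, hT⟩ := hA K
  choose f hf0 hf using fun x : G => CConn.bound hχ hS x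
  refine ⟨∑ x ∈ T, f (x : G), Finset.sum_nonneg fun x _ => hf0 _, ?_⟩
  set c := ∑ x ∈ T, f (x : G) with hc
  have hc0 : 0 ≤ c := Finset.sum_nonneg fun x _ => hf0 _
  have key : ∀ x : A, x ∈ closure (T : Set A) → ∀ g : G,
      CConn χ S (χ g - c) g (g * (x : G)) := by
    intro x hx
    induction hx using Subgroup.closure_induction with
    | mem x hx =>
      intro g
      have h1 : f (x : G) ≤ c :=
        Finset.single_le_sum (f := fun x : A => f (x : G)) (fun y _ => hf0 _)
          (Finset.mem_coe.1 hx)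
      exact (hf (x : G) g).mono (by linarith)
    | one =>
      intro g
      rw [Subgroup.coe_one, mul_one]
      exact Relation.ReflTransGen.refl
    | mul x y hx hy ihx ihy =>
      intro g
      have hx0 : χ (x : G) = 0 := by
        rw [← hK]; rw [← hT]; exact hx
      have h1 := ihx g
      have h2 := ihy (g * x)
      rw [hχ, hx0, add_zero] at h2
      rw [Subgroup.coe_mul, ← mul_assoc]
      exact h1.trans h2
    | inv x hx ihx =>
      intro g
      have hx0 : χ (x : G) = 0 := by
        rw [← hK]; rw [← hT]; exact hx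
      have h1 := ihx (g * (x : G)⁻¹)
      rw [hχ, hχ.inv, hx0, neg_zero, add_zero, inv_mul_cancel_right] at h1
      rw [Subgroup.coe_inv]
      exact h1.symm
  intro k hk hk0 g
  have h1 : (⟨k, hk⟩ : A) ∈ closure (T : Set A) := by
    rw [hT, hK]
    exact hk0
  exact key ⟨k, hk⟩ h1 g

/-- going up along a positive element -/
lemma Cay_up (hχ : IsChar χ) {S : Set G} {t : G} (ht : 0 ≤ χ t) {c : ℝ}
    (hc : ∀ g, CConn χ S (χ g - c) g (g * t)) (g : G) (hg : 0 ≤ χ g) (n : ℕ) :
    CConn χ S (-c) g (g * t ^ n) := by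
  induction n with
  | zero =>
    rw [pow_zero, mul_one]
    exact Relation.ReflTransGen.refl
  | succ n ih =>
    have h1 := hc (g * t ^ n)
    have h2 : 0 ≤ χ (g * t ^ n) := by
      rw [hχ, hχ.pow]
      positivity
    rw [pow_succ, ← mul_assoc]
    exact ih.trans (h1.mono (by linarith))

theorem jump_path (hχ : IsChar χ) {S : Set G} (hS : closure S = ⊤) (A : Subgroup G)
    (hA : Max A) :
    ∃ c : ℝ, 0 ≤ c ∧ ∀ (h a : G), a ∈ A → 0 ≤ χ h → 0 ≤ χ (h * a) →
      CConn χ S (-c) h (h * a) := by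
  obtain ⟨c1, hc1, hk⟩ := Cay_kernel hχ hS A hA
  by_cases hv : ∀ a ∈ A, χ a = 0
  · refine ⟨c1, hc1, fun h a ha hh _ => ?_⟩
    exact (hk a ha (hv a ha) h).mono (by linarith)
  · have hex : ∃ t ∈ A, 0 < χ t := by
      push Not at hv
      obtain ⟨t, htA, ht⟩ := hv
      rcases lt_or_gt_of_ne ht with h | h
      · exact ⟨t⁻¹, A.inv_mem htA, by rw [hχ.inv]; linarith⟩
      · exact ⟨t, htA, h⟩
    obtain ⟨t, htA, ht⟩ := hex
    obtain ⟨c2, hc2, hb⟩ := CConn.bound hχ hS t
    refine ⟨c1 + c2, by linarith, fun h a ha hh hha => ?_⟩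
    obtain ⟨ca, _, hba⟩ := CConn.bound hχ hS a
    obtain ⟨M, hM⟩ := exists_nat_ge (ca / χ t)
    have hM' : ca ≤ M * χ t := by rwa [div_le_iff₀ ht] at hM
    have e1 : χ (h * t ^ M) = χ h + M * χ t := by rw [hχ, hχ.pow]
    -- up
    have s1 : CConn χ S (-(c1 + c2)) h (h * t ^ M) :=
      (Cay_up hχ ht.le hb h hh M).mono (by linarith)
    -- the word for `a`, very high
    have s2 : CConn χ S (-(c1 + c2)) (h * t ^ M) (h * t ^ M * a) :=
      (hba (h * t ^ M)).mono (by rw [e1]; linarith)
    -- down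
    have e3 : χ (h * t ^ M * a * (t ^ M)⁻¹) = χ (h * a) := by
      rw [hχ, hχ, hχ, hχ.inv, hχ h a]; ring
    have s3 : CConn χ S (-(c1 + c2)) (h * t ^ M * a * (t ^ M)⁻¹) (h * t ^ M * a) := by
      have := Cay_up hχ ht.le hb (h * t ^ M * a * (t ^ M)⁻¹) (by rw [e3]; exact hha) M
      rw [inv_mul_cancel_right] at this
      exact this.mono (by linarith)
    -- the kernel element
    have hkA : a⁻¹ * t ^ M * a * (t ^ M)⁻¹ ∈ A :=
      A.mul_mem (A.mul_mem (A.mul_mem (A.inv_mem ha) (A.pow_mem htA M)) ha)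
        (A.inv_mem (A.pow_mem htA M))
    have hk0 : χ (a⁻¹ * t ^ M * a * (t ^ M)⁻¹) = 0 := by
      rw [hχ, hχ, hχ, hχ.inv, hχ.inv]; ring
    have s4 : CConn χ S (-(c1 + c2)) (h * a) (h * t ^ M * a * (t ^ M)⁻¹) := by
      have := hk _ hkA hk0 (h * a)
      have e4 : h * a * (a⁻¹ * t ^ M * a * (t ^ M)⁻¹) = h * t ^ M * a * (t ^ M)⁻¹ := by group
      rw [e4] at this
      exact this.mono (by linarith)
    exact ((s1.trans s2).trans s3.symm).trans s4.symm

theorem good_of_jconn (hχ : IsChar χ) {S : Set G} (hS : closure S = ⊤) {A B : Subgroup G}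
    (hA : Max A) (hB : Max B)
    (hj : ∀ (r : ℝ) (g h : G), r ≤ χ g → r ≤ χ h → JConn χ A B r g h) : Good χ S := by
  obtain ⟨cA, hcA, hpA⟩ := jump_path hχ hS A hA
  obtain ⟨cB, hcB, hpB⟩ := jump_path hχ hS B hB
  refine ⟨cA + cB, by linarith, fun g hg => ?_⟩
  have h1 : JConn χ A B 0 1 g := hj 0 1 g hχ.one.ge hg
  have step : ∀ x y, Jump χ A B 0 x y → CConn χ S (-(cA + cB)) x y := by
    rintro x y ⟨hx, hy, hxy⟩
    have e : x * (x⁻¹ * y) = y := mul_inv_cancel_left x y
    rcases hxy with h | h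
    · have := hpA x (x⁻¹ * y) h hx (by rw [e]; exact hy)
      rw [e] at this
      exact this.mono (by linarith)
    · have := hpB x (x⁻¹ * y) h hx (by rw [e]; exact hy)
      rw [e] at this
      exact this.mono (by linarith)
  unfold JConn at h1
  clear hg
  induction h1 with
  | refl => exact Relation.ReflTransGen.refl
  | tail _ hb ih => exact ih.trans (step _ _ hb)

end H36.PP
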