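import Pool.Agent.H36.PP.Defs

/-!
# Module CayB: basic properties of `CConn`   (est. 150 lines)

Paths in the Cayley graph of `G` with respect to `S` (edges `g - g s`), inside `{χ ≥ r}`.
* `bound`: closure induction on `x`.
* `change`: for every `t ∈ T` there is a constant from `bound`; take the maximum over the finite
  set `T`; replace every edge.
* `map`: the same for the image of a path under a homomorphism `f` with `χ (f g) = χ g`:
  an edge `g - g s` becomes a path from `f g` to `f g * f s`.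
-/

set_option autoImplicit false

namespace H36.PP

open Subgroup

variable {G : Type*} [Group G] {χ : G → ℝ}

theorem IsChar.one (hχ : IsChar χ) : χ 1 = 0 := by
  have h := hχ 1 1
  rw [mul_one] at h
  linarith

theorem IsChar.inv (hχ : IsChar χ) (g : G) : χ g⁻¹ = - χ g := by
  have h := hχ g g⁻¹
  rw [mul_inv_cancel, hχ.one] at h
  linarith

theorem IsChar.pow (hχ : IsChar χ) (g : G) (n : ℕ) : χ (g ^ n) = n * χ g := by
  induction n with
  | zero => rw [pow_zero, hχ.one]; simp
  | succ n ih =>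
    rw [pow_succ, hχ, ih]
    push_cast
    ring

lemma CayB_step_symm {S : Set G} {r : ℝ} {g h : G} (hc : CStep χ S r g h) :
    CStep χ S r h g :=
  ⟨hc.2.1, hc.1, hc.2.2.symm⟩

theorem CConn.symm {S : Set G} {r : ℝ} {g h : G} (hc : CConn χ S r g h) :
    CConn χ S r h g := by
  unfold CConn at hc ⊢
  induction hc with
  | refl => exact Relation.ReflTransGen.refl
  | tail _ h2 ih => exact Relation.ReflTransGen.head (CayB_step_symm h2) ih

theorem CConn.mono {S : Set G} {r r' : ℝ} {g h : G} (hr : r' ≤ r) (hc : CConn χ S r g h) :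
    CConn χ S r' g h := by
  unfold CConn at hc ⊢
  induction hc with
  | refl => exact Relation.ReflTransGen.refl
  | tail _ h2 ih => exact ih.tail ⟨hr.trans h2.1, hr.trans h2.2.1, h2.2.2⟩

/-- left translation -/
theorem CConn.translate (hχ : IsChar χ) {S : Set G} {r : ℝ} {g h : G}
    (hc : CConn χ S r g h) (x : G) : CConn χ S (χ x + r) (x * g) (x * h) := by
  unfold CConn at hc ⊢
  induction hc with
  | refl => exact Relation.ReflTransGen.refl
  | @tail b c _ h2 ih =>
    refine ih.tail ⟨?_, ?_, ?_⟩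
    · rw [hχ]
      linarith [h2.1]
    · rw [hχ]
      linarith [h2.2.1]
    · have e1 : (x * b)⁻¹ * (x * c) = b⁻¹ * c := by group
      have e2 : (x * c)⁻¹ * (x * b) = c⁻¹ * b := by group
      rw [e1, e2]
      exact h2.2.2

lemma CayB_trans {S : Set G} {r : ℝ} {g h k : G} (h1 : CConn χ S r g h) (h2 : CConn χ S r h k) :
    CConn χ S r g k :=
  Relation.ReflTransGen.trans h1 h2

/-- a word for `x`, applied at any point, goes down by at most a constant -/
theorem CConn.bound (hχ : IsChar χ) {S : Set G} (hS : closure S = ⊤) (x : G) :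
    ∃ c : ℝ, 0 ≤ c ∧ ∀ g, CConn χ S (χ g - c) g (g * x) := by
  have hx : x ∈ closure S := by rw [hS]; exact mem_top x
  induction hx using closure_induction with
  | mem x hx =>
    refine ⟨|χ x|, abs_nonneg _, fun g => ?_⟩
    refine Relation.ReflTransGen.single ⟨?_, ?_, Or.inl ?_⟩
    · linarith [abs_nonneg (χ x)]
    · rw [hχ]
      linarith [neg_abs_le (χ x)]
    · rw [inv_mul_cancel_left]
      exact hx
  | one =>
    refine ⟨0, le_rfl, fun g => ?_⟩
    rw [mul_one]
    exact Relation.ReflTransGen.refl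
  | mul x y _ _ ihx ihy =>
    obtain ⟨c, hc, h1⟩ := ihx
    obtain ⟨c', hc', h2⟩ := ihy
    refine ⟨c + c' + |χ x|, by positivity, fun g => ?_⟩
    have h3 := h2 (g * x)
    rw [mul_assoc, hχ] at h3
    refine CayB_trans ((h1 g).mono ?_) (h3.mono ?_)
    · linarith [abs_nonneg (χ x)]
    · linarith [neg_abs_le (χ x)]
  | inv x _ ihx =>
    obtain ⟨c, hc, h1⟩ := ihx
    refine ⟨c + |χ x|, by positivity, fun g => ?_⟩
    have h2 := (h1 (g * x⁻¹)).symm
    rw [inv_mul_cancel_right, hχ, hχ.inv] at h2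
    refine h2.mono ?_
    linarith [le_abs_self (χ x)]

lemma CayB_bound_fin (hχ : IsChar χ) {S : Set G} (hS : closure S = ⊤) {T : Set G}
    (hT : T.Finite) :
    ∃ c : ℝ, 0 ≤ c ∧ ∀ x ∈ T, ∀ g, CConn χ S (χ g - c) g (g * x) := by
  choose f hf0 hf using fun x : G => CConn.bound hχ hS x
  refine ⟨∑ t ∈ hT.toFinset, f t, Finset.sum_nonneg fun t _ => hf0 t, fun x hx g => ?_⟩
  refine (hf x g).mono ?_
  have : f x ≤ ∑ t ∈ hT.toFinset, f t :=
    Finset.single_le_sum (fun t _ => hf0 t) (hT.mem_toFinset.2 hx)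
  linarith

/-- change of the set of generators -/
theorem CConn.change (hχ : IsChar χ) {S : Set G} (hS : closure S = ⊤) (T : Set G)
    (hT : T.Finite) :
    ∃ c : ℝ, 0 ≤ c ∧ ∀ r g h, CConn χ T r g h → CConn χ S (r - c) g h := by
  obtain ⟨c, hc, hb⟩ := CayB_bound_fin hχ hS hT
  refine ⟨c, hc, fun r g h hgh => ?_⟩
  unfold CConn at hgh
  induction hgh with
  | refl => exact Relation.ReflTransGen.refl
  | @tail b k _ h2 ih =>
    refine CayB_trans ih ?_
    obtain ⟨h3, h4, h5 | h5⟩ := h2
    · have h6 := hb _ h5 b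
      rw [mul_inv_cancel_left] at h6
      exact h6.mono (by linarith)
    · have h6 := hb _ h5 k
      rw [mul_inv_cancel_left] at h6
      exact (h6.mono (by linarith)).symm

/-- images of paths under homomorphisms which preserve `χ` -/
theorem CConn.map_hom (hχ : IsChar χ) {S : Set G} (hf : S.Finite) (hS : closure S = ⊤)
    (f : G →* G) (hχf : ∀ g, χ (f g) = χ g) :
    ∃ c : ℝ, 0 ≤ c ∧ ∀ r g h, CConn χ S r g h → CConn χ S (r - c) (f g) (f h) := by
  obtain ⟨c, hc, h1⟩ := CConn.change hχ hS (f '' S) (hf.image f)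
  refine ⟨c, hc, fun r g h hgh => h1 r _ _ ?_⟩
  unfold CConn at hgh ⊢
  refine Relation.ReflTransGen.lift f ?_ _ _ hgh
  rintro a b ⟨h2, h3, h4⟩
  refine ⟨by rw [hχf]; exact h2, by rw [hχf]; exact h3, ?_⟩
  rcases h4 with h4 | h4
  · left
    refine ⟨_, h4, ?_⟩
    rw [map_mul, map_inv]
  · right
    refine ⟨_, h4, ?_⟩
    rw [map_mul, map_inv]

end H36.PP
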