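import Pool.Agent.H36.PP.CayB

/-!
# Module Dist: characters which do not vanish on a distorted element are good (est. 150 lines)

`C` is generated by the finite set `S`, `χ` a character, `x`, `y` automorphisms of `C` which
preserve `χ`, and for every `n` there is `z_n ∈ C` with `conj z_n = [x^n, y^n]` and
`χ z_n = n² κ`, `κ ≠ 0`.

Proof.  We may assume `κ > 0` (exchange `x` and `y`: `conj z_n⁻¹ = [y^n, x^n]`).  By `CConn.map_hom`
(for `x`, `y` and their inverses) there is a constant `K` such that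
`CConn r g h → CConn (r - K) (φ g) (φ h)` for these four automorphisms; so
`CConn r g h → CConn (r - 4 n K) (φ g) (φ h)` for `φ = [x^n, y^n]⁻¹ = conj z_n⁻¹`.  Fix `n` with
`δ := n² κ - 4 n K > 0`, put `z = z_n`, and let `c₀ ≥ 0` with `CConn (-c₀) 1 z`
(`CConn.bound` at `1`).
Claim: if `χ g ≥ 0` and `CConn (-c) 1 g` then `CConn (-(max c₀ (c - δ))) 1 g`.  Indeed
`1 → z` in `{χ ≥ -c₀}`; `CConn (-c - 4nK) 1 (z⁻¹ g z)`, translated by `z`:
`CConn (n² κ - c - 4 n K) z (g z)`; and `g z → g` is the translate by `g` of the path from `z`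
to `1`, in `{χ ≥ χ g - c₀}`.  By induction on `m`: `CConn (-(c₀ + m δ)) 1 g → CConn (-c₀) 1 g`.
Every `g` is connected to `1` at some level (`CConn.bound`), so `Good` holds with `c = c₀`.
-/

set_option autoImplicit false

namespace H36.PP

open Subgroup

variable {C : Type*} [Group C]

/-- iteration of the loss of an automorphism -/
lemma Dist_pow {S : Set C} {χ : C → ℝ} {K : ℝ} (φ : MulAut C)
    (h : ∀ r g h, CConn χ S r g h → CConn χ S (r - K) (φ g) (φ h)) (n : ℕ) :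
    ∀ r g h, CConn χ S r g h → CConn χ S (r - n * K) ((φ ^ n) g) ((φ ^ n) h) := by
  induction n with
  | zero =>
    intro r g h' hc
    simpa using hc
  | succ n ih =>
    intro r g h' hc
    have h1 := h _ _ _ (ih r g h' hc)
    rw [pow_succ', MulAut.mul_apply, MulAut.mul_apply]
    refine h1.mono (le_of_eq ?_)
    push_cast
    ring

lemma Dist_map {S : Set C} (hf : S.Finite) (hS : closure S = ⊤) {χ : C → ℝ} (hχ : IsChar χ)
    (φ : MulAut C) (hφ : ∀ g, χ (φ g) = χ g) :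
    ∃ c : ℝ, 0 ≤ c ∧ ∀ r g h, CConn χ S r g h → CConn χ S (r - c) (φ g) (φ h) :=
  CConn.map_hom hχ hf hS (φ : C ≃* C).toMonoidHom hφ

/-- the case `κ > 0` -/
lemma Dist_pos {S : Set C} (hf : S.Finite) (hS : closure S = ⊤) {χ : C → ℝ} (hχ : IsChar χ)
    (x y : MulAut C) (hx : ∀ g, χ (x g) = χ g) (hy : ∀ g, χ (y g) = χ g) (κ : ℝ) (hκ : 0 < κ)
    (hz : ∀ n : ℕ, ∃ z : C, MulAut.conj z = x ^ n * y ^ n * (x ^ n)⁻¹ * (y ^ n)⁻¹ ∧
      χ z = (n : ℝ) ^ 2 * κ) :
    Good χ S := by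
  have hxi : ∀ g, χ (x⁻¹ g) = χ g := by
    intro g
    have h := hx (x⁻¹ g)
    rw [MulAut.apply_inv_self] at h
    exact h.symm
  have hyi : ∀ g, χ (y⁻¹ g) = χ g := by
    intro g
    have h := hy (y⁻¹ g)
    rw [MulAut.apply_inv_self] at h
    exact h.symm
  obtain ⟨c1, h1, k1⟩ := Dist_map hf hS hχ x hx
  obtain ⟨c2, h2, k2⟩ := Dist_map hf hS hχ y hy
  obtain ⟨c3, h3, k3⟩ := Dist_map hf hS hχ x⁻¹ hxi
  obtain ⟨c4, h4, k4⟩ := Dist_map hf hS hχ y⁻¹ hyi
  set K := c1 + c2 + c3 + c4 with hK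
  obtain ⟨n, hn⟩ : ∃ n : ℕ, 0 < (n : ℝ) ^ 2 * κ - n * K := by
    obtain ⟨n, hn⟩ := exists_nat_gt ((K + 1) / κ)
    refine ⟨n, ?_⟩
    rw [div_lt_iff₀ hκ] at hn
    have hK0 : 0 ≤ K := by positivity
    have hn0 : 0 < (n : ℝ) := by
      by_contra hcon
      push Not at hcon
      nlinarith
    nlinarith
  obtain ⟨z, hzc, hzχ⟩ := hz n
  -- the inner automorphism of `z⁻¹`
  have hconj : ∀ r g h, CConn χ S r g h →
      CConn χ S (r - n * K) (z⁻¹ * g * z) (z⁻¹ * h * z) := by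
    intro r g h hc
    have e1 : (MulAut.conj z)⁻¹ = y ^ n * x ^ n * (y⁻¹) ^ n * (x⁻¹) ^ n := by
      rw [hzc, inv_pow, inv_pow]
      group
    have e2 : ∀ u : C, (y ^ n) ((x ^ n) ((y⁻¹ ^ n) ((x⁻¹ ^ n) u))) = z⁻¹ * u * z := by
      intro u
      have e3 : ((MulAut.conj z)⁻¹) u = z⁻¹ * u * z := by
        rw [← map_inv, MulAut.conj_apply, inv_inv]
      rw [← e3, e1]
      rfl
    have s1 := Dist_pow x⁻¹ k3 n _ _ _ hc
    have s2 := Dist_pow y⁻¹ k4 n _ _ _ s1
    have s3 := Dist_pow x k1 n _ _ _ s2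
    have s4 := Dist_pow y k2 n _ _ _ s3
    rw [e2, e2] at s4
    refine s4.mono (le_of_eq ?_)
    rw [hK]
    ring
  obtain ⟨c₀, hc₀, hb⟩ := CConn.bound hχ hS z
  have hz1 : CConn χ S (-c₀) 1 z := by
    have h := hb 1
    rw [hχ.one, one_mul, zero_sub] at h
    exact h
  set δ : ℝ := (n : ℝ) ^ 2 * κ - n * K with hδ
  have claim : ∀ g c, 0 ≤ χ g → CConn χ S (-c) 1 g → CConn χ S (-(max c₀ (c - δ))) 1 g := by
    intro g c hg hc
    have a1 : CConn χ S (-(max c₀ (c - δ))) 1 z := hz1.mono (neg_le_neg (le_max_left _ _))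
    have a2 := (hconj _ _ _ hc).translate hχ z
    have e1 : z * (z⁻¹ * 1 * z) = z := by group
    have e2 : z * (z⁻¹ * g * z) = g * z := by group
    rw [e1, e2, hzχ] at a2
    have a3 : CConn χ S (-(max c₀ (c - δ))) z (g * z) := by
      refine a2.mono ?_
      have := le_max_right c₀ (c - δ)
      rw [hδ] at this ⊢
      linarith
    have a4 := (hz1.symm).translate hχ g
    rw [mul_one] at a4
    have a5 : CConn χ S (-(max c₀ (c - δ))) (g * z) g := by
      refine a4.mono ?_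
      have := le_max_left c₀ (c - δ)
      linarith
    exact CayB_trans (CayB_trans a1 a3) a5
  have ind : ∀ (m : ℕ) (g : C), 0 ≤ χ g → CConn χ S (-(c₀ + m * δ)) 1 g →
      CConn χ S (-c₀) 1 g := by
    intro m
    induction m with
    | zero =>
      intro g _ hc
      simpa using hc
    | succ m ih =>
      intro g hg hc
      apply ih g hg
      have h5 := claim g _ hg hc
      refine h5.mono ?_
      apply neg_le_neg
      apply max_le
      · have : 0 ≤ (m : ℝ) * δ := by positivity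
        linarith
      · push_cast
        linarith
  refine ⟨c₀, hc₀, fun g hg => ?_⟩
  obtain ⟨c, hc, hbg⟩ := CConn.bound hχ hS g
  have h6 := hbg 1
  rw [hχ.one, one_mul, zero_sub] at h6
  obtain ⟨m, hm⟩ := exists_nat_gt (c / δ)
  rw [div_lt_iff₀ hn] at hm
  refine ind m g hg (h6.mono ?_)
  apply neg_le_neg
  linarith

theorem dist {S : Set C} (hf : S.Finite) (hS : closure S = ⊤) {χ : C → ℝ} (hχ : IsChar χ)
    (x y : MulAut C) (hx : ∀ g, χ (x g) = χ g) (hy : ∀ g, χ (y g) = χ g) (κ : ℝ) (hκ : κ ≠ 0)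
    (hz : ∀ n : ℕ, ∃ z : C, MulAut.conj z = x ^ n * y ^ n * (x ^ n)⁻¹ * (y ^ n)⁻¹ ∧ χ z = (n : ℝ) ^ 2 * κ) :
    Good χ S := by
  rcases lt_or_gt_of_ne hκ with h | h
  · refine Dist_pos hf hS hχ y x hy hx (-κ) (by linarith) ?_
    intro n
    obtain ⟨z, h1, h2⟩ := hz n
    refine ⟨z⁻¹, ?_, ?_⟩
    · rw [map_inv, h1]
      group
    · rw [hχ.inv, h2]
      ring
  · exact Dist_pos hf hS hχ x y hx hy κ h hz

end H36.PP
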