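import Pool.Agent.H36.PP.BNSFin
import Pool.Agent.H36.PP.Dist

/-!
# Module Chain: if all characters are good, kernels of nilpotent quotients are finitely
generated   (est. 250 lines)

`X` finitely generated, all characters of `X` good, `X ⧸ N` nilpotent.  Then `N` is finitely
generated.  (In particular: if `X` and its commutator subgroup are finitely generated then every
term of the lower central series is.)

Let `Γ j = γ_j ⊔ N` with `γ_j = (⊤ : Subgroup X).lowerCentralSeries j`; `Γ 0 = ⊤`, `Γ c = N`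
for some `c`, all `Γ j` are normal and `[X, Γ j] ≤ Γ (j+1)`.  By induction on `j`: `Γ j` is
finitely generated.
* `Γ 1`: `fg_step` with `C = X`, `D = Γ 1` and `h0`.
* `Γ (j+1)` for `j ≥ 1`: `fg_step` with `C = Γ j`, `D = Γ (j+1)` (as a subgroup of the group `Γ j`).
  Let `χ` be a character of `Γ j` which kills `Γ (j+1)`, not identically 0.
  For `g ∈ X` conjugation by `g` is an automorphism of `Γ j` which preserves `χ`, because
  `g c g⁻¹ c⁻¹ ∈ Γ (j+1)`.  `Γ j` is generated by `N ≤ Γ (j+1)` and the commutators `[x, y]`,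
  `x ∈ γ_(j-1)`, `y ∈ X`, so there are such `x`, `y` with `κ := χ [x, y] ≠ 0`.  Modulo `Γ (j+1)` the
  element `[x, y] ∈ Γ j` is central, so `[x^n, y^n] ≡ [x, y]^(n²)` modulo `Γ (j+1)` and
  `χ [x^n, y^n] = n² κ`.  Apply `dist` to the automorphisms given by `x` and `y`.
-/

set_option autoImplicit false

namespace H36.PP

open Subgroup
open scoped commutatorElement

/-- images of finitely generated subgroups -/
theorem Chain_fg_map {G H : Type*} [Group G] [Group H] {P : Subgroup G} (hP : P.FG)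
    (f : G →* H) : (P.map f).FG := by
  classical
  obtain ⟨S, hS⟩ := hP
  refine ⟨S.image f, ?_⟩
  rw [Finset.coe_image, ← MonoidHom.map_closure, hS]

/-- commutators of powers when the commutator is central -/
theorem Chain_comm_pow {Q : Type*} [Group Q] (x y : Q) (hc : ∀ g : Q, g * (x * y * x⁻¹ * y⁻¹) =
    (x * y * x⁻¹ * y⁻¹) * g) (n m : ℕ) :
    x ^ n * y ^ m * (x ^ n)⁻¹ * (y ^ m)⁻¹ = (x * y * x⁻¹ * y⁻¹) ^ (n * m) := by
  set c := x * y * x⁻¹ * y⁻¹ with hcdef
  have hcc : ∀ g : Q, Commute c g := fun g => (hc g).symm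
  have h1 : x * y = c * (y * x) := by
    rw [hcdef]; group
  have h2 : ∀ m : ℕ, x * y ^ m = c ^ m * (y ^ m * x) := by
    intro m
    induction m with
    | zero => simp
    | succ m ih =>
      calc x * y ^ (m + 1) = (x * y ^ m) * y := by rw [pow_succ, mul_assoc]
        _ = c ^ m * (y ^ m * (x * y)) := by rw [ih]; group
        _ = c ^ m * (y ^ m * (c * (y * x))) := by rw [h1]
        _ = c ^ m * ((y ^ m * c) * (y * x)) := by group
        _ = c ^ m * ((c * y ^ m) * (y * x)) := by rw [((hcc (y ^ m)).eq)]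
        _ = c ^ (m + 1) * (y ^ (m + 1) * x) := by rw [pow_succ, pow_succ]; group
  have h3 : ∀ n : ℕ, x ^ n * y ^ m = c ^ (n * m) * (y ^ m * x ^ n) := by
    intro n
    induction n with
    | zero => simp
    | succ n ih =>
      have h4 : x ^ n * c ^ m = c ^ m * x ^ n := (((hcc (x ^ n)).pow_left m).eq).symm
      calc x ^ (n + 1) * y ^ m = x ^ n * (x * y ^ m) := by rw [pow_succ, mul_assoc]
        _ = x ^ n * (c ^ m * (y ^ m * x)) := by rw [h2]
        _ = (x ^ n * c ^ m) * (y ^ m * x) := by group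
        _ = c ^ m * (x ^ n * y ^ m) * x := by rw [h4]; group
        _ = c ^ m * (c ^ (n * m) * (y ^ m * x ^ n)) * x := by rw [ih]
        _ = c ^ (m + n * m) * (y ^ m * (x ^ n * x)) := by rw [pow_add]; group
        _ = c ^ ((n + 1) * m) * (y ^ m * x ^ (n + 1)) := by
          rw [pow_succ x n]; congr 2; ring
  rw [h3 n]
  group

variable {X : Type*} [Group X]

/-- the terms of the chain -/
def Chain_G (N : Subgroup X) (j : ℕ) : Subgroup X := (⊤ : Subgroup X).lowerCentralSeries j ⊔ N

instance Chain_normal (N : Subgroup X) [N.Normal] (j : ℕ) : (Chain_G N j).Normal := by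
  unfold Chain_G
  infer_instance

theorem Chain_anti (N : Subgroup X) (j : ℕ) : Chain_G N (j + 1) ≤ Chain_G N j :=
  sup_le_sup_right (Subgroup.lowerCentralSeries_antitone _ (Nat.le_succ j)) N

/-- commutators with elements of the chain -/
theorem Chain_comm (N : Subgroup X) [N.Normal] (j : ℕ) {c : X} (hc : c ∈ Chain_G N j) (g : X) :
    g * c * g⁻¹ * c⁻¹ ∈ Chain_G N (j + 1) := by
  have h : Chain_G N j ≤ (Subgroup.center (X ⧸ Chain_G N (j + 1))).comap
      (QuotientGroup.mk' (Chain_G N (j + 1))) := by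
    unfold Chain_G
    refine sup_le ?_ ?_
    · intro a ha
      rw [Subgroup.mem_comap, Subgroup.mem_center_iff]
      intro q
      obtain ⟨b, rfl⟩ := QuotientGroup.mk'_surjective _ q
      rw [← map_mul, ← map_mul]
      refine (QuotientGroup.mk'_eq_mk' _).2 ⟨(b * a)⁻¹ * (a * b), ?_, by group⟩
      have h1 : ⁅b⁻¹, a⁻¹⁆⁻¹ ∈ (⊤ : Subgroup X).lowerCentralSeries (j + 1) := by
        rw [commutatorElement_inv]
        exact Subgroup.commutator_mem_commutator ((inv_mem_iff).2 ha) (Subgroup.mem_top _)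
      have h2 : (b * a)⁻¹ * (a * b) = ⁅b⁻¹, a⁻¹⁆⁻¹ := by
        rw [commutatorElement_inv, commutatorElement_def]
        group
      rw [h2]
      exact Subgroup.mem_sup_left h1
    · intro a ha
      rw [Subgroup.mem_comap]
      have : (QuotientGroup.mk' (Chain_G N (j + 1))) a = 1 := by
        rw [QuotientGroup.mk'_apply, QuotientGroup.eq_one_iff]
        exact Subgroup.mem_sup_right ha
      unfold Chain_G at this
      rw [this]
      exact one_mem _
  have h1 := h hc
  rw [Subgroup.mem_comap, Subgroup.mem_center_iff] at h1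
  have h2 := h1 (QuotientGroup.mk' (Chain_G N (j + 1)) g)
  rw [← QuotientGroup.eq_one_iff (N := Chain_G N (j + 1))]
  show QuotientGroup.mk' (Chain_G N (j + 1)) (g * c * g⁻¹ * c⁻¹) = 1
  rw [map_mul, map_mul, map_mul, h2, map_inv, map_inv]
  group

/-- characters of a term of the chain which kill the next term -/
theorem Chain_good (N : Subgroup X) [N.Normal] (j : ℕ) (S : Set (Chain_G N (j + 1)))
    (hf : S.Finite) (hS : closure S = ⊤) (χ : Chain_G N (j + 1) → ℝ) (hχ : IsChar χ)
    (hk : ∀ d ∈ (Chain_G N (j + 2)).subgroupOf (Chain_G N (j + 1)), χ d = 0)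
    (hne : ∃ g, χ g ≠ 0) : Good χ S := by
  have hinv : ∀ a b : Chain_G N (j + 1), (a : X) * (b : X)⁻¹ ∈ Chain_G N (j + 2) → χ a = χ b := by
    intro a b hab
    have h1 : a * b⁻¹ ∈ (Chain_G N (j + 2)).subgroupOf (Chain_G N (j + 1)) := by
      rw [Subgroup.mem_subgroupOf]
      simpa using hab
    have h2 := hk _ h1
    have h3 := hχ (a * b⁻¹) b
    rw [inv_mul_cancel_right, h2, zero_add] at h3
    exact h3
  -- a commutator on which the character does not vanish
  have hex : ∃ x ∈ (⊤ : Subgroup X).lowerCentralSeries j, ∃ y : X,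
      ∃ hxy : x * y * x⁻¹ * y⁻¹ ∈ Chain_G N (j + 1), χ ⟨x * y * x⁻¹ * y⁻¹, hxy⟩ ≠ 0 := by
    by_contra hcon
    push Not at hcon
    obtain ⟨g, hg⟩ := hne
    have hle : Chain_G N (j + 1) ≤ (charKer χ hχ).map (Chain_G N (j + 1)).subtype := by
      nth_rewrite 1 [Chain_G]
      refine sup_le ?_ ?_
      · rw [Subgroup.lowerCentralSeries_succ, Subgroup.commutator_le]
        intro x hx y _
        have hxy : x * y * x⁻¹ * y⁻¹ ∈ Chain_G N (j + 1) :=
          Subgroup.mem_sup_left (Subgroup.commutator_mem_commutator hx (Subgroup.mem_top y))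
        exact ⟨⟨_, hxy⟩, hcon x hx y hxy, rfl⟩
      · intro a ha
        have h1 : a ∈ Chain_G N (j + 1) := Subgroup.mem_sup_right ha
        refine ⟨⟨a, h1⟩, hk _ ?_, rfl⟩
        rw [Subgroup.mem_subgroupOf]
        exact Subgroup.mem_sup_right ha
    obtain ⟨k, hk1, hk2⟩ := hle g.2
    have hkg : k = g := Subtype.ext hk2
    exact hg (hkg ▸ hk1)
  obtain ⟨x, hx, y, hxy, hκ⟩ := hex
  have hpres : ∀ (g : X) (c : Chain_G N (j + 1)), χ (MulAut.conjNormal g c) = χ c := by
    intro g c
    apply hinv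
    rw [MulAut.conjNormal_apply]
    exact Chain_comm N (j + 1) c.2 g
  refine dist hf hS hχ (MulAut.conjNormal x) (MulAut.conjNormal y) (hpres x) (hpres y) _ hκ ?_
  intro n
  have hxn : x ^ n ∈ (⊤ : Subgroup X).lowerCentralSeries j := pow_mem hx n
  have hz : x ^ n * y ^ n * (x ^ n)⁻¹ * (y ^ n)⁻¹ ∈ Chain_G N (j + 1) :=
    Subgroup.mem_sup_left (Subgroup.commutator_mem_commutator hxn (Subgroup.mem_top _))
  refine ⟨⟨_, hz⟩, ?_, ?_⟩
  · rw [← map_pow, ← map_pow, ← map_inv, ← map_inv, ← map_mul, ← map_mul, ← map_mul]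
    ext c
    rw [MulAut.conjNormal_apply, MulAut.conj_apply]
    rfl
  · set c : Chain_G N (j + 1) := ⟨x * y * x⁻¹ * y⁻¹, hxy⟩ with hc
    have h1 : χ (c ^ (n * n)) = ((n * n : ℕ) : ℝ) * χ c := IsChar.pow hχ c (n * n)
    have h2 : χ ⟨x ^ n * y ^ n * (x ^ n)⁻¹ * (y ^ n)⁻¹, hz⟩ = χ (c ^ (n * n)) := by
      apply hinv
      rw [← QuotientGroup.eq_one_iff (N := Chain_G N (j + 2))]
      show QuotientGroup.mk' (Chain_G N (j + 2)) (x ^ n * y ^ n * (x ^ n)⁻¹ * (y ^ n)⁻¹ *
        ((c ^ (n * n) : Chain_G N (j + 1)) : X)⁻¹) = 1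
      have h3 : ((c ^ (n * n) : Chain_G N (j + 1)) : X) = (x * y * x⁻¹ * y⁻¹) ^ (n * n) := by
        rw [SubmonoidClass.coe_pow, hc]
      rw [h3]
      have h4 := Chain_comm_pow (QuotientGroup.mk' (Chain_G N (j + 2)) x)
        (QuotientGroup.mk' (Chain_G N (j + 2)) y) (by
          intro q
          obtain ⟨g, rfl⟩ := QuotientGroup.mk'_surjective _ q
          rw [← map_inv, ← map_inv, ← map_mul, ← map_mul, ← map_mul, ← map_mul, ← map_mul]
          rw [← mul_inv_eq_one, ← map_inv, ← map_mul]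
          show ((g * (x * y * x⁻¹ * y⁻¹) * ((x * y * x⁻¹ * y⁻¹) * g)⁻¹ : X) :
            X ⧸ Chain_G N (j + 2)) = 1
          rw [QuotientGroup.eq_one_iff]
          have h5 := Chain_comm N (j + 1) hxy g
          have h6 : g * (x * y * x⁻¹ * y⁻¹) * ((x * y * x⁻¹ * y⁻¹) * g)⁻¹ =
              g * (x * y * x⁻¹ * y⁻¹) * g⁻¹ * (x * y * x⁻¹ * y⁻¹)⁻¹ := by group
          rw [h6]
          exact h5) n n
      rw [map_mul, map_inv, map_pow, mul_inv_eq_one]
      simp only [map_mul, map_inv, map_pow] at h4 ⊢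
      exact h4
    rw [h2, h1]
    push_cast
    ring

theorem fg_chain {X : Type*} [Group X] (hX : Group.FG X) (N : Subgroup X) [N.Normal]
    (hnil : Group.IsNilpotent (X ⧸ N))
    (h0 : ∀ S : Set X, S.Finite → closure S = ⊤ → ∀ χ : X → ℝ, IsChar χ → Good χ S) :
    N.FG := by
  have hall : ∀ j, (Chain_G N (j + 1)).FG := by
    intro j
    induction j with
    | zero =>
      refine fg_step hX (Chain_G N 1) ?_ ?_
      · intro x y
        exact Chain_comm N 0 (by
          show y ∈ (⊤ : Subgroup X).lowerCentralSeries 0 ⊔ N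
          rw [Subgroup.lowerCentralSeries_zero, top_sup_eq]
          exact Subgroup.mem_top y) x
      · intro S hSf hS χ hχ _ _
        exact h0 S hSf hS χ hχ
    | succ j ih =>
      have hC : Group.FG (Chain_G N (j + 1)) := (Group.fg_iff_subgroup_fg _).2 ih
      have hD := fg_step hC ((Chain_G N (j + 2)).subgroupOf (Chain_G N (j + 1))) (by
        intro x y
        rw [Subgroup.mem_subgroupOf]
        exact Chain_comm N (j + 1) y.2 (x : X)) (by
        intro S hSf hS χ hχ hk hne
        exact Chain_good N j S hSf hS χ hχ hk hne)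
      have hmap : ((Chain_G N (j + 2)).subgroupOf (Chain_G N (j + 1))).map
          (Chain_G N (j + 1)).subtype = Chain_G N (j + 2) := by
        rw [Subgroup.subgroupOf_map_subtype]
        exact inf_eq_left.2 (Chain_anti N (j + 1))
      rw [← hmap]
      exact Chain_fg_map hD _
  obtain ⟨c, hc⟩ := Subgroup.nilpotent_iff_lowerCentralSeries.1 hnil
  have hle : (⊤ : Subgroup X).lowerCentralSeries c ≤ N := by
    have h1 := Subgroup.map_lowerCentralSeries (⊤ : Subgroup X) (QuotientGroup.mk' N) c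
    rw [Subgroup.map_top_of_surjective _ (QuotientGroup.mk'_surjective N), hc] at h1
    rw [Subgroup.map_eq_bot_iff, QuotientGroup.ker_mk'] at h1
    exact h1
  have h2 : Chain_G N (c + 1) = N := by
    unfold Chain_G
    exact sup_eq_right.2 ((Subgroup.lowerCentralSeries_antitone _ (Nat.le_succ c)).trans hle)
  rw [← h2]
  exact hall c

end H36.PP
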