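import Mathlib

/-!
# Products of polycyclic-by-finite groups (MP_e8b852_al): definitions

`Max`      every subgroup is finitely generated
`AP`       almost polycyclic: `Max` and a soluble subgroup of finite index
`Fact`     `G = A B`
`FactS`    `X = A B` for subgroups of an ambient group
`ht`       length of the longest chain of subgroups of infinite index (for almost
           polycyclic groups this is finite; it replaces the Hirsch length)
`MinCE`    minimal counterexample `G = A B`, `A` nilpotent, `A`, `B` almost polycyclic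
`FRk`      every finitely generated subgroup has at most `r` generators
`JConn`    jump graph: right multiplication by elements of `A` and of `B`, at level `≥ r`
`CConn`    Cayley graph at level `≥ r`
`Good`     coarse connectivity of the half space of a character (`χ ∈ Σ¹`)
-/

set_option autoImplicit false

namespace H36.PP

open Subgroup

/-- every subgroup is finitely generated -/
def Max (G : Type*) [Group G] : Prop := ∀ H : Subgroup G, H.FG

/-- almost polycyclic -/
def AP (G : Type*) [Group G] : Prop :=
  Max G ∧ ∃ S : Subgroup G, S.FiniteIndex ∧ Group.IsSolvable S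

/-- `G = A B` -/
def Fact {G : Type*} [Group G] (A B : Subgroup G) : Prop :=
  ∀ g : G, ∃ a ∈ A, ∃ b ∈ B, g = a * b

/-- `X = A B` -/
def FactS {G : Type*} [Group G] (X A B : Subgroup G) : Prop :=
  A ≤ X ∧ B ≤ X ∧ ∀ g ∈ X, ∃ a ∈ A, ∃ b ∈ B, g = a * b

/-- a chain `c 0 ≥ c 1 ≥ ... ≥ c n` in which every step has infinite index -/
def HasChain (G : Type*) [Group G] (n : ℕ) : Prop :=
  ∃ c : ℕ → Subgroup G, ∀ i < n, c (i + 1) ≤ c i ∧ (c (i + 1)).relIndex (c i) = 0

/-- the largest length of a chain in which every step has infinite index -/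
noncomputable def ht (G : Type*) [Group G] : ℕ := sSup {n | HasChain G n}

/-- every finitely generated subgroup has at most `r` generators -/
def FRk (G : Type*) [Group G] (r : ℕ) : Prop :=
  ∀ F : Subgroup G, F.FG → ∃ S : Finset G, S.card ≤ r ∧ closure (S : Set G) = F

/-- minimal counterexample `G = A B` with `A` nilpotent, `A`, `B` almost polycyclic,
`G` not almost polycyclic; minimality only with respect to factorised subgroups -/
structure MinCE (G : Type*) [Group G] (A B : Subgroup G) : Prop where
  fact : Fact A B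
  nilA : Group.IsNilpotent A
  apA : AP A
  apB : AP B
  nap : ¬ AP G
  min : ∀ X A' B' : Subgroup G, A' ≤ A → B' ≤ B → FactS X A' B' →
    ht A' + ht B' < ht A + ht B → AP X

/-- a character: a homomorphism into the additive group of the reals -/
def IsChar {G : Type*} [Group G] (χ : G → ℝ) : Prop := ∀ g h, χ (g * h) = χ g + χ h

/-- one jump inside the level set `χ ≥ r` -/
def Jump {G : Type*} [Group G] (χ : G → ℝ) (A B : Subgroup G) (r : ℝ) (g h : G) : Prop :=
  r ≤ χ g ∧ r ≤ χ h ∧ (g⁻¹ * h ∈ A ∨ g⁻¹ * h ∈ B)

/-- connected by jumps inside the level set `χ ≥ r` -/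
def JConn {G : Type*} [Group G] (χ : G → ℝ) (A B : Subgroup G) (r : ℝ) : G → G → Prop :=
  Relation.ReflTransGen (Jump χ A B r)

/-- one edge of the Cayley graph inside the level set `χ ≥ r` -/
def CStep {G : Type*} [Group G] (χ : G → ℝ) (S : Set G) (r : ℝ) (g h : G) : Prop :=
  r ≤ χ g ∧ r ≤ χ h ∧ (g⁻¹ * h ∈ S ∨ h⁻¹ * g ∈ S)

/-- connected in the Cayley graph inside the level set `χ ≥ r` -/
def CConn {G : Type*} [Group G] (χ : G → ℝ) (S : Set G) (r : ℝ) : G → G → Prop :=
  Relation.ReflTransGen (CStep χ S r)

/-- the half space `χ ≥ 0` is coarsely connected in the Cayley graph -/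
def Good {G : Type*} [Group G] (χ : G → ℝ) (S : Set G) : Prop :=
  ∃ c : ℝ, 0 ≤ c ∧ ∀ g, 0 ≤ χ g → CConn χ S (-c) 1 g

/-- the kernel of a character -/
def charKer {G : Type*} [Group G] (χ : G → ℝ) (hχ : IsChar χ) : Subgroup G where
  carrier := {g | χ g = 0}
  mul_mem' := by
    intro a b ha hb
    simp only [Set.mem_ofPred_eq] at *
    rw [hχ, ha, hb, add_zero]
  one_mem' := by
    have h := hχ 1 1
    simp only [mul_one] at h
    simp only [Set.mem_ofPred_eq]
    linarith
  inv_mem' := by
    intro a ha
    simp only [Set.mem_ofPred_eq] at *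
    have h1 := hχ 1 1
    simp only [mul_one] at h1
    have h := hχ a a⁻¹
    rw [mul_inv_cancel, ha] at h
    linarith

/-- locally graded -/
def LG (G : Type*) [Group G] : Prop :=
  ∀ H : Subgroup G, H.FG → H ≠ ⊥ → ∃ N : Subgroup H, N.Normal ∧ N ≠ ⊤ ∧ N.FiniteIndex

/-- every infinite finitely generated subgroup has a subgroup of finite index with a
nontrivial homomorphism to the integers -/
def VInd (G : Type*) [Group G] : Prop :=
  ∀ H : Subgroup G, H.FG → Infinite H →
    ∃ K : Subgroup H, K.FiniteIndex ∧ ∃ f : K →* Multiplicative ℤ, f ≠ 1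

/-- residually finite -/
def RF (G : Type*) [Group G] : Prop :=
  ∀ g : G, g ≠ 1 → ∃ N : Subgroup G, N.Normal ∧ N.FiniteIndex ∧ g ∉ N

end H36.PP
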