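import Pool.Agent.H36.PP.Defs

/-!
# Module DerivT: derivations onto torsion modules; reduction of `deriv_fg`   (est. 250 lines)

A derivation `δ : H → M`, `δ (g h) = δ g + g • δ h`.  For a submodule `T` the set `δ⁻¹ T` is a
subgroup `H_T` of `H` (`δ 1 = 0`, `δ g⁻¹ = - g⁻¹ • δ g`).

* `deriv_torsion_finite`: `H` is generated by a finite set `S`, so every element of `M = δ(H)` is
  a sum of elements `± h • δ s` (closure induction), so `e • M = 0` for the product `e > 0` of the
  orders of the elements `δ s`.  A finitely generated subgroup of `M` has at most `e ^ r`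
  elements; hence `M` is finite (an infinite abelian group of exponent `e` has finite subgroups
  which are arbitrarily large; a finitely generated one is finite).
* `rank_quot`, `rank_sub`, `rank_vec`: the rank bound passes to quotients and subgroups, and
  it holds in every rational vector space of dimension `r` (finitely generated subgroups
  are free of rank at most `r`).
* `embed_vec`: a torsion-free abelian group with rank bound `r` embeds in `ℚ ⊗ M`, which
  has finite dimension (`r + 1` elements of `M` are linearly dependent over the integers); the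
  action of `H` extends.
-/

set_option autoImplicit false

namespace H36.PP

/-- every finitely generated subgroup has at most `r` generators, additive version -/
def ARk (M : Type*) [AddCommGroup M] (r : ℕ) : Prop :=
  ∀ F : AddSubgroup M, F.FG → ∃ S : Finset M, S.card ≤ r ∧ AddSubgroup.closure (S : Set M) = F

theorem ARk.of_surjective {M N : Type*} [AddCommGroup M] [AddCommGroup N] {r : ℕ}
    (h : ARk M r) (f : M →+ N) (hf : Function.Surjective f) : ARk N r := by
  classical
  intro F hF
  obtain ⟨T, hT⟩ := hF
  choose g hg using hf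
  have h1 : (AddSubgroup.closure ((T.image g : Finset M) : Set M)).FG := ⟨T.image g, rfl⟩
  obtain ⟨S, hS, hS'⟩ := h _ h1
  refine ⟨S.image f, le_trans Finset.card_image_le hS, ?_⟩
  rw [Finset.coe_image, ← AddMonoidHom.map_closure, hS', AddMonoidHom.map_closure,
    Finset.coe_image, ← Set.image_comp, ← hT]
  congr 1
  have : (f ∘ g) = id := by
    funext x
    exact hg x
  rw [this, Set.image_id]

theorem ARk.of_injective {M N : Type*} [AddCommGroup M] [AddCommGroup N] {r : ℕ}
    (h : ARk N r) (f : M →+ N) (hf : Function.Injective f) : ARk M r := by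
  classical
  intro F hF
  obtain ⟨T, hT⟩ := hF
  have h1 : (F.map f).FG := by
    refine ⟨T.image f, ?_⟩
    rw [Finset.coe_image, ← AddMonoidHom.map_closure, hT]
  obtain ⟨S, hS, hS'⟩ := h _ h1
  have h2 : (S : Set N) ⊆ Set.range f := by
    intro x hx
    have : x ∈ F.map f := by
      rw [← hS']
      exact AddSubgroup.subset_closure hx
    obtain ⟨y, -, rfl⟩ := this
    exact ⟨y, rfl⟩
  refine ⟨S.preimage f hf.injOn, ?_, ?_⟩
  · refine le_trans ?_ hS
    rw [Finset.card_preimage]
    exact Finset.card_filter_le _ _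
  · apply AddSubgroup.map_injective hf
    rw [AddMonoidHom.map_closure, Finset.coe_preimage, Set.image_preimage_eq_of_subset h2, hS']

theorem ARk.of_vec (V : Type*) [AddCommGroup V] [Module ℚ V] [FiniteDimensional ℚ V] :
    ARk V (Module.finrank ℚ V) := by
  classical
  intro F hF
  let P : Submodule ℤ V := AddSubgroup.toIntSubmodule F
  have hP : P.FG := by
    rw [Submodule.fg_iff_addSubgroup_fg]
    exact hF
  have : Module.Finite ℤ P := Module.Finite.iff_fg.mpr hP
  have hV : IsAddTorsionFree V := by
    refine ⟨fun n hn => ?_⟩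
    intro a b hab
    have h1 : (n : ℚ) • a = (n : ℚ) • b := by
      simpa [Nat.cast_smul_eq_nsmul] using hab
    exact smul_right_injective V (show (n : ℚ) ≠ 0 by exact_mod_cast hn) h1
  have hPt : IsAddTorsionFree P := by
    refine ⟨fun n hn => ?_⟩
    intro a b hab
    have h1 : n • (a : V) = n • (b : V) := by
      have := congrArg (fun x : P => (x : V)) hab
      simpa using this
    exact Subtype.ext (hV.nsmul_right_injective hn h1)
  have : Module.Free ℤ P := inferInstance
  let b := Module.Free.chooseBasis ℤ P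
  have hli : LinearIndependent ℤ (fun i => (b i : V)) := by
    have := b.linearIndependent
    exact this.map' P.subtype (Submodule.ker_subtype P)
  have hli2 : LinearIndependent ℚ (fun i => (b i : V)) := by
    rwa [← LinearIndependent.iff_fractionRing ℤ ℚ]
  have hcard : Fintype.card (Module.Free.ChooseBasisIndex ℤ P) ≤ Module.finrank ℚ V :=
    hli2.fintype_card_le_finrank
  refine ⟨Finset.univ.image (fun i => (b i : V)), ?_, ?_⟩
  · exact le_trans Finset.card_image_le (by simpa using hcard)
  · have h3 : Submodule.span ℤ (Set.range b) = ⊤ := b.span_eq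
    have h4 : Submodule.span ℤ (Set.range (fun i => (b i : V))) = P := by
      have h5 : Set.range (fun i => (b i : V)) = P.subtype '' (Set.range b) := by
        rw [← Set.range_comp]
        rfl
      rw [h5, ← Submodule.map_span, h3, Submodule.map_top, Submodule.range_subtype]
    have h6 : (Submodule.span ℤ (Set.range (fun i => (b i : V)))).toAddSubgroup = F := by
      rw [h4]
      rfl
    rw [← h6, Submodule.span_int_eq_addSubgroupClosure]
    rw [Finset.coe_image, Finset.coe_univ, Set.image_univ]

/-- the subgroup generated by `k` elements in an abelian group of exponent `e` is finite -/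
theorem DerivT_card_closure_le {M : Type*} [AddCommGroup M] (e : ℕ) (he : 0 < e)
    (h : ∀ m : M, e • m = 0) (S : Finset M) :
    (AddSubgroup.closure (S : Set M) : Set M).Finite ∧
      (AddSubgroup.closure (S : Set M) : Set M).ncard ≤ e ^ S.card := by
  classical
  let F : (S → Fin e) → M := fun c => ∑ s : S, (c s : ℕ) • (s : M)
  have hsub : (AddSubgroup.closure (S : Set M) : Set M) ⊆ Set.range F := by
    have key : ∀ x ∈ AddSubgroup.closure (S : Set M), ∃ c : S → ℤ, ∑ s : S, c s • (s : M) = x := by
      intro x hx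
      induction hx using AddSubgroup.closure_induction with
      | mem x hx =>
        refine ⟨Pi.single ⟨x, hx⟩ 1, ?_⟩
        rw [Finset.sum_eq_single (⟨x, hx⟩ : S)]
        · simp
        · intro b _ hb
          rw [Pi.single_eq_of_ne hb, zero_smul]
        · intro h
          exact absurd (Finset.mem_univ _) h
      | zero => exact ⟨0, by simp⟩
      | add x y _ _ h1 h2 =>
        obtain ⟨c, hc⟩ := h1
        obtain ⟨d, hd⟩ := h2
        refine ⟨c + d, ?_⟩
        rw [← hc, ← hd, ← Finset.sum_add_distrib]
        exact Finset.sum_congr rfl (fun s _ => by rw [Pi.add_apply, add_smul])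
      | neg x _ h1 =>
        obtain ⟨c, hc⟩ := h1
        refine ⟨-c, ?_⟩
        rw [← hc, ← Finset.sum_neg_distrib]
        exact Finset.sum_congr rfl (fun s _ => by rw [Pi.neg_apply, neg_smul])
    intro x hx
    obtain ⟨c, hc⟩ := key x hx
    have he' : (e : ℤ) ≠ 0 := by exact_mod_cast he.ne'
    have hpos : ∀ s, 0 ≤ c s % (e : ℤ) := fun s => Int.emod_nonneg _ he'
    have hlt : ∀ s, c s % (e : ℤ) < e := fun s => Int.emod_lt_of_pos _ (by exact_mod_cast he)
    refine ⟨fun s => ⟨(c s % (e : ℤ)).toNat, by have := hpos s; have := hlt s; omega⟩, ?_⟩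
    rw [← hc]
    refine Finset.sum_congr rfl (fun s _ => ?_)
    have h1 : (((c s % (e : ℤ)).toNat : ℕ) : ℤ) = c s % (e : ℤ) := Int.toNat_of_nonneg (hpos s)
    change ((c s % (e : ℤ)).toNat) • (s : M) = c s • (s : M)
    rw [← natCast_zsmul, h1]
    conv_rhs => rw [← Int.emod_add_mul_ediv (c s) (e : ℤ)]
    rw [add_smul, mul_smul, natCast_zsmul, h, add_zero]
  have hfin : (Set.range F).Finite := Set.finite_range F
  refine ⟨hfin.subset hsub, ?_⟩
  refine le_trans (Set.ncard_le_ncard hsub hfin) ?_
  have h2 : (Set.range F).ncard ≤ (Set.univ : Set (S → Fin e)).ncard := by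
    rw [← Set.image_univ]
    exact Set.ncard_image_le Set.finite_univ
  refine le_trans h2 ?_
  rw [Set.ncard_univ, Nat.card_eq_fintype_card, Fintype.card_fun, Fintype.card_fin,
    Fintype.card_coe]

/-- `deriv_torsion_finite` for an action given as a function -/
theorem DerivT_torsion_finite {H M : Type*} [Group H] [AddCommGroup M] (act : H → (M →+ M))
    (hH : Group.FG H) (r : ℕ) (hr : ARk M r) (ht : ∀ m : M, ∃ n : ℕ, 0 < n ∧ n • m = 0)
    (δ : H → M) (hδ : ∀ g h, δ (g * h) = δ g + act g (δ h)) (hs : Function.Surjective δ) :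
    Finite M := by
  classical
  obtain ⟨T, hT⟩ := hH.out
  choose n hn hn' using ht
  let e : ℕ := ∏ t ∈ insert 1 T, n (δ t)
  have he : 0 < e := Finset.prod_pos (fun t _ => hn _)
  have hgen : ∀ t ∈ insert 1 T, e • δ t = 0 := by
    intro t ht
    obtain ⟨k, hk⟩ : n (δ t) ∣ e := Finset.dvd_prod_of_mem (fun t => n (δ t)) ht
    rw [hk, mul_comm, mul_smul, hn', smul_zero]
  have h1 : e • δ 1 = 0 := hgen 1 (Finset.mem_insert_self _ _)
  have hall : ∀ g : H, e • δ g = 0 := by
    intro g
    have hg : g ∈ Subgroup.closure (T : Set H) := by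
      rw [hT]; trivial
    induction hg using Subgroup.closure_induction with
    | mem x hx => exact hgen x (Finset.mem_insert_of_mem hx)
    | one => exact h1
    | mul x y _ _ hx hy => rw [hδ, smul_add, hx, ← map_nsmul, hy, map_zero, add_zero]
    | inv x _ hx =>
      have h2 := hδ x⁻¹ x
      rw [inv_mul_cancel] at h2
      have h3 : e • δ 1 = e • δ x⁻¹ + act x⁻¹ (e • δ x) := by
        rw [h2, smul_add, map_nsmul]
      rw [h1, hx, map_zero, add_zero] at h3
      exact h3.symm
  have hexp : ∀ m : M, e • m = 0 := by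
    intro m
    obtain ⟨g, rfl⟩ := hs m
    exact hall g
  by_contra hfin
  rw [not_finite_iff_infinite] at hfin
  obtain ⟨W, hW⟩ := Infinite.exists_subset_card_eq M (e ^ r + 1)
  obtain ⟨S, hS, hS'⟩ := hr (AddSubgroup.closure (W : Set M)) ⟨W, rfl⟩
  obtain ⟨h2, h3⟩ := DerivT_card_closure_le e he hexp S
  rw [hS'] at h2 h3
  have h4 : (W : Set M) ⊆ (AddSubgroup.closure (W : Set M) : Set M) := AddSubgroup.subset_closure
  have h5 := Set.ncard_le_ncard h4 h2
  rw [Set.ncard_coe_finset, hW] at h5
  have h6 : e ^ S.card ≤ e ^ r := Nat.pow_le_pow_right he hS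
  omega

/-- derivations of finitely generated groups onto torsion modules of finite rank -/
theorem deriv_torsion_finite {H M : Type*} [Group H] [AddCommGroup M] [DistribMulAction H M]
    (hH : Group.FG H) (r : ℕ) (hr : ARk M r) (ht : ∀ m : M, ∃ n : ℕ, 0 < n ∧ n • m = 0)
    (δ : H → M) (hδ : ∀ g h, δ (g * h) = δ g + g • δ h) (hs : Function.Surjective δ) :
    Finite M :=
  DerivT_torsion_finite (fun g => DistribSMul.toAddMonoidHom M g) hH r hr ht δ hδ hs

/-- `embed_vec` for an action given as a homomorphism -/
theorem DerivT_embed_vec {H M : Type*} [Group H] [AddCommGroup M] (act : H →* AddMonoid.End M)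
    (r : ℕ) (hr : ARk M r) (htf : ∀ m : M, ∀ n : ℕ, 0 < n → n • m = 0 → m = 0) :
    ∃ (d : ℕ) (ρ : H →* ((Fin d → ℚ) →ₗ[ℚ] (Fin d → ℚ))) (i : M →+ (Fin d → ℚ)),
      Function.Injective i ∧ ∀ h m, i (act h m) = ρ h (i m) := by
  classical
  let V := TensorProduct ℤ ℚ M
  let j : M →ₗ[ℤ] V := TensorProduct.mk ℤ ℚ M 1
  have hloc : IsLocalizedModule (nonZeroDivisors ℤ) j :=
    (isLocalizedModule_iff_isBaseChange (nonZeroDivisors ℤ) ℚ j).mpr
      (TensorProduct.isBaseChange ℤ M ℚ)
  have hj : Function.Injective j := by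
    rw [IsLocalizedModule.injective_iff_isRegular (nonZeroDivisors ℤ)]
    intro c x y hxy
    have hc : (c : ℤ) ≠ 0 := nonZeroDivisors.ne_zero c.2
    have h1 : (c : ℤ) • (x - y) = 0 := by
      rw [smul_sub]
      exact sub_eq_zero.mpr hxy
    have h2 : (c : ℤ).natAbs • (x - y) = 0 := by
      rcases Int.natAbs_eq (c : ℤ) with h | h
      · rw [← natCast_zsmul, ← h, h1]
      · rw [← natCast_zsmul]
        rw [h, neg_smul] at h1
        exact neg_eq_zero.mp h1
    exact sub_eq_zero.mp (htf _ _ (Int.natAbs_pos.mpr hc) h2)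
  have hsurj : ∀ v : V, ∃ (n : ℤ) (m : M), n ≠ 0 ∧ n • v = j m := by
    intro v
    obtain ⟨⟨m, s⟩, hs⟩ := hloc.surj v
    exact ⟨s, m, nonZeroDivisors.ne_zero s.2, hs⟩
  have hrank : Module.rank ℚ V ≤ r := by
    apply rank_le
    intro s hs
    choose n m hn hnm using hsurj
    let u : V → ℚˣ := fun v => Units.mk0 (n v : ℚ) (by exact_mod_cast hn v)
    have h1 := hs.units_smul (fun i => u i)
    have h2 : ∀ v : V, (n v : ℚ) • v = j (m v) := by
      intro v
      rw [← hnm v]
      exact (Int.cast_smul_eq_zsmul ℚ (n v) v)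
    obtain ⟨S, hS, hS'⟩ := hr (AddSubgroup.closure ((s.image m : Finset M) : Set M))
      ⟨s.image m, rfl⟩
    have h3 : Module.finrank ℚ (Submodule.span ℚ (Set.range (fun i : s => u i • (i : V))))
        = Fintype.card s := finrank_span_eq_card h1
    have h4 : Submodule.span ℚ (Set.range (fun i : s => u i • (i : V)))
        ≤ Submodule.span ℚ ((S.image j : Finset V) : Set V) := by
      rw [Submodule.span_le]
      rintro _ ⟨i, rfl⟩
      have h5 : u i • (i : V) = j (m i) := by
        rw [← h2 i]
        rfl
      have h6 : m i ∈ AddSubgroup.closure (S : Set M) := by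
        rw [hS']
        apply AddSubgroup.subset_closure
        exact Finset.mem_coe.mpr (Finset.mem_image_of_mem m i.2)
      have h7 : ∀ x ∈ AddSubgroup.closure (S : Set M),
          j x ∈ Submodule.span ℚ ((S.image j : Finset V) : Set V) := by
        intro x hx
        induction hx using AddSubgroup.closure_induction with
        | mem x hx =>
          apply Submodule.subset_span
          exact Finset.mem_coe.mpr (Finset.mem_image_of_mem j hx)
        | zero => rw [map_zero]; exact Submodule.zero_mem _
        | add x y _ _ hx hy => rw [map_add]; exact Submodule.add_mem _ hx hy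
        | neg x _ hx => rw [map_neg]; exact Submodule.neg_mem _ hx
      simp only [SetLike.mem_coe]
      rw [h5]
      exact h7 _ h6
    have h8 := Submodule.finrank_mono h4
    rw [h3, Fintype.card_coe] at h8
    have h9 : Module.finrank ℚ (Submodule.span ℚ ((S.image j : Finset V) : Set V))
        ≤ (S.image j).card := by
      have := finrank_span_finset_le_card (R := ℚ) (S.image j)
      exact this
    exact le_trans h8 (le_trans h9 (le_trans Finset.card_image_le hS))
  have hfd : Module.Finite ℚ V := by
    rw [← Module.rank_lt_aleph0_iff]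
    exact lt_of_le_of_lt hrank (Cardinal.natCast_lt_aleph0)
  let b := Module.finBasis ℚ V
  let φ : V ≃ₗ[ℚ] (Fin (Module.finrank ℚ V) → ℚ) := b.equivFun
  let ρ0 : H → (V →ₗ[ℚ] V) := fun h => LinearMap.baseChange ℚ (act h : M →+ M).toIntLinearMap
  have hρ1 : ρ0 1 = LinearMap.id := by
    have h1 : (act 1 : M →+ M).toIntLinearMap = LinearMap.id := by
      rw [map_one]
      rfl
    simp only [ρ0]
    rw [h1, LinearMap.baseChange_id]
  have hρm : ∀ g h, ρ0 (g * h) = ρ0 g ∘ₗ ρ0 h := by
    intro g h
    have h1 : (act (g * h) : M →+ M).toIntLinearMap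
        = (act g : M →+ M).toIntLinearMap ∘ₗ (act h : M →+ M).toIntLinearMap := by
      rw [map_mul]
      rfl
    simp only [ρ0]
    rw [h1, LinearMap.baseChange_comp]
  let ρ : H →* ((Fin (Module.finrank ℚ V) → ℚ) →ₗ[ℚ] (Fin (Module.finrank ℚ V) → ℚ)) :=
    { toFun := fun h => φ.toLinearMap ∘ₗ ρ0 h ∘ₗ φ.symm.toLinearMap
      map_one' := by
        rw [hρ1]
        ext x
        simp
      map_mul' := by
        intro g h
        rw [hρm]
        ext x
        simp }
  refine ⟨Module.finrank ℚ V, ρ, φ.toLinearMap.toAddMonoidHom.comp j.toAddMonoidHom, ?_, ?_⟩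
  · intro x y hxy
    exact hj (φ.injective hxy)
  · intro h m
    have h1 : ρ0 h (j m) = j (act h m) :=
      LinearMap.baseChange_tmul (A := ℚ) (f := (act h : M →+ M).toIntLinearMap) 1 m
    change φ (j (act h m)) = φ (ρ0 h (φ.symm (φ (j m))))
    rw [LinearEquiv.symm_apply_apply, h1]

/-- a torsion-free module of finite rank embeds equivariantly in a vector space of finite
dimension -/
theorem embed_vec {H M : Type*} [Group H] [AddCommGroup M] [DistribMulAction H M]
    (r : ℕ) (hr : ARk M r) (htf : ∀ m : M, ∀ n : ℕ, 0 < n → n • m = 0 → m = 0) :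
    ∃ (d : ℕ) (ρ : H →* ((Fin d → ℚ) →ₗ[ℚ] (Fin d → ℚ))) (i : M →+ (Fin d → ℚ)),
      Function.Injective i ∧ ∀ h m, i (h • m) = ρ h (i m) :=
  DerivT_embed_vec (DistribMulAction.toAddMonoidEnd H M) r hr htf

end H36.PP
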