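import Pool.Agent.H36.PP.Ht

/-!
# Module Dich: the factoriser and the dichotomy for normal subgroups   (est. 200 lines)

* `factorizer`: `x = a b` with `x ∈ AN ⊓ BN`: `b = a⁻¹ x ∈ AN` and `a = x b⁻¹ ∈ BN`.  The other two
  equations are the Dedekind law.
* `MinCE.dich`: with `X = AN ⊓ BN`, `A' = A ⊓ BN`, `B' = B ⊓ AN`: `X ≥ N` is not almost
  polycyclic, so by minimality `ht A' + ht B' = ht A + ht B`, hence `A'` has finite index in
  `A` and `B'` has finite index in `B` (`ht_lt`).  `G ⧸ N` is the union of finitely many sets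
  `a X b = (a b) (b⁻¹ X b)`, so by B. H. Neumann's lemma
  (`Subgroup.exists_finiteIndex_of_leftCoset_cover`) some conjugate of `X/N` has finite index in
  `G ⧸ N`, so `X` has finite index in `G`, and `X/N` is an image of `A'`.
* `MinCE.restrict`: transport everything to the group `X` (`ht_congr`, `subgroupOfEquivOfLe`,
  `AP.of_finiteIndex`).
* `MinCE.ht_quot_le`: `G ⧸ N` has the subgroup `A'N/N` of finite index.
-/

set_option autoImplicit false

namespace H36.PP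

open Subgroup
open scoped Pointwise

variable {G : Type*} [Group G] {A B : Subgroup G}

theorem Dich_inf_sup (A B N : Subgroup G) [N.Normal] :
    (A ⊓ (B ⊔ N)) ⊔ N = (A ⊔ N) ⊓ (B ⊔ N) := by
  apply le_antisymm
  · apply sup_le
    · exact le_inf (inf_le_left.trans le_sup_left) inf_le_right
    · exact le_inf le_sup_right le_sup_right
  · rintro x ⟨hx1, hx2⟩
    have h1 : x ∈ ((A ⊔ N : Subgroup G) : Set G) := hx1
    rw [Subgroup.mul_normal] at h1
    obtain ⟨a, ha, n, hn, rfl⟩ := h1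
    have hn' : n ∈ B ⊔ N := (le_sup_right : N ≤ B ⊔ N) hn
    have ha' : a ∈ B ⊔ N := by
      have h2 := (B ⊔ N).mul_mem hx2 ((B ⊔ N).inv_mem hn')
      simpa using h2
    exact mul_mem ((le_sup_left : A ⊓ (B ⊔ N) ≤ _) ⟨ha, ha'⟩) ((le_sup_right : N ≤ _) hn)

theorem factorizer (hf : Fact A B) (N : Subgroup G) [N.Normal] :
    FactS ((A ⊔ N) ⊓ (B ⊔ N)) (A ⊓ (B ⊔ N)) (B ⊓ (A ⊔ N)) ∧
      (A ⊓ (B ⊔ N)) ⊔ N = (A ⊔ N) ⊓ (B ⊔ N) ∧ (B ⊓ (A ⊔ N)) ⊔ N = (A ⊔ N) ⊓ (B ⊔ N) := by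
  refine ⟨⟨?_, ?_, ?_⟩, Dich_inf_sup A B N, ?_⟩
  · exact le_inf (inf_le_left.trans le_sup_left) inf_le_right
  · exact le_inf inf_le_right (inf_le_left.trans le_sup_left)
  · rintro x ⟨hx1, hx2⟩
    obtain ⟨a, ha, b, hb, rfl⟩ := hf x
    have ha1 : a ∈ A ⊔ N := (le_sup_left : A ≤ A ⊔ N) ha
    have hb1 : b ∈ B ⊔ N := (le_sup_left : B ≤ B ⊔ N) hb
    refine ⟨a, ⟨ha, ?_⟩, b, ⟨hb, ?_⟩, rfl⟩
    · have h := (B ⊔ N).mul_mem hx2 ((B ⊔ N).inv_mem hb1)
      simpa using h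
    · have h := (A ⊔ N).mul_mem ((A ⊔ N).inv_mem ha1) hx1
      simpa using h
  · rw [Dich_inf_sup B A N, inf_comm]

/-- `G = A B`, `X = A' B'`, finite relative indices -/
theorem Dich_finiteIndex (hf : Fact A B) {X A' B' : Subgroup G}
    (hAX : A' ≤ X) (hBX : B' ≤ X) (hAi : A'.relIndex A ≠ 0) (hBi : B'.relIndex B ≠ 0) :
    X.FiniteIndex := by
  classical
  have : (A'.subgroupOf A).FiniteIndex := ⟨hAi⟩
  have : (B'.subgroupOf B).FiniteIndex := ⟨hBi⟩
  have : Fintype (A ⧸ A'.subgroupOf A) := Fintype.ofFinite _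
  have : Fintype (B ⧸ B'.subgroupOf B) := Fintype.ofFinite _
  have hcov : ⋃ i ∈ (Finset.univ : Finset ((A ⧸ A'.subgroupOf A) × (B ⧸ B'.subgroupOf B))),
      ((((Quotient.out i.1 : A) : G) * ((Quotient.out i.2 : B) : G)⁻¹) •
        ((X.map (MulAut.conj ((Quotient.out i.2 : B) : G)).toMonoidHom : Subgroup G) : Set G)) =
      Set.univ := by
    rw [Set.eq_univ_iff_forall]
    intro x
    obtain ⟨a, ha, b, hb, rfl⟩ := hf x
    set p : A ⧸ A'.subgroupOf A := QuotientGroup.mk ⟨a, ha⟩ with hp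
    set q : B ⧸ B'.subgroupOf B := QuotientGroup.mk ⟨b⁻¹, inv_mem hb⟩ with hq
    have h1 : (((Quotient.out p : A) : G))⁻¹ * a ∈ A' := by
      have h := QuotientGroup.eq.mp ((QuotientGroup.out_eq' p).trans hp)
      rw [Subgroup.mem_subgroupOf] at h
      simpa using h
    have h2 : (((Quotient.out q : B) : G))⁻¹ * b⁻¹ ∈ B' := by
      have h := QuotientGroup.eq.mp ((QuotientGroup.out_eq' q).trans hq)
      rw [Subgroup.mem_subgroupOf] at h
      simpa using h
    refine Set.mem_iUnion₂.mpr ⟨(p, q), Finset.mem_univ _, ?_⟩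
    rw [Set.mem_smul_set_iff_inv_smul_mem]
    set α : G := ((Quotient.out p : A) : G)
    set β : G := ((Quotient.out q : B) : G)
    show (α * β⁻¹)⁻¹ • (a * b) ∈ ((X.map (MulAut.conj β).toMonoidHom : Subgroup G) : Set G)
    refine ⟨(α⁻¹ * a) * (β⁻¹ * b⁻¹)⁻¹, mul_mem (hAX h1) (inv_mem (hBX h2)), ?_⟩
    simp only [MulEquiv.toMonoidHom_eq_coe, MonoidHom.coe_coe, MulAut.conj_apply, smul_eq_mul,
      mul_inv_rev, inv_inv]
    group
  obtain ⟨k, _, hk⟩ := Subgroup.exists_finiteIndex_of_leftCoset_cover hcov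
  constructor
  have h := hk.index_ne_zero
  rwa [MulEquiv.toMonoidHom_eq_coe, Subgroup.index_map_equiv] at h

theorem MinCE.dich (h : MinCE G A B) (N : Subgroup G) [N.Normal] (hN : ¬ AP N) :
    AP (G ⧸ N) ∧ ∃ X A' B' : Subgroup G, A' ≤ A ∧ B' ≤ B ∧ A'.relIndex A ≠ 0 ∧
      B'.relIndex B ≠ 0 ∧ X.FiniteIndex ∧ FactS X A' B' ∧ N ≤ X ∧ A' ⊔ N = X ∧
      B' ⊔ N = X := by
  obtain ⟨hF, hA, hB⟩ := factorizer h.fact N
  set X := (A ⊔ N) ⊓ (B ⊔ N) with hX
  set A' := A ⊓ (B ⊔ N) with hA'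
  set B' := B ⊓ (A ⊔ N) with hB'
  have hNX : N ≤ X := le_inf le_sup_right le_sup_right
  have hnap : ¬ AP X := fun hX => hN (AP.mono hNX hX)
  have hAle : A' ≤ A := inf_le_left
  have hBle : B' ≤ B := inf_le_left
  have hlt : ¬ (ht A' + ht B' < ht A + ht B) := fun hlt =>
    hnap (h.min X A' B' hAle hBle hF hlt)
  have h1 := ht_mono h.apA hAle
  have h2 := ht_mono h.apB hBle
  have hAi : A'.relIndex A ≠ 0 := by
    intro h0
    have := ht_lt h.apA hAle h0
    omega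
  have hBi : B'.relIndex B ≠ 0 := by
    intro h0
    have := ht_lt h.apB hBle h0
    omega
  have hXf : X.FiniteIndex := Dich_finiteIndex h.fact hF.1 hF.2.1 hAi hBi
  refine ⟨?_, X, A', B', hAle, hBle, hAi, hBi, hXf, hF, hNX, hA, hB⟩
  have hmap : X.map (QuotientGroup.mk' N) = A'.map (QuotientGroup.mk' N) := by
    rw [← hA, Subgroup.map_sup]
    simp [QuotientGroup.map_mk'_self]
  have hapA' : AP A' := AP.mono hAle h.apA
  have hap : AP (A'.map (QuotientGroup.mk' N)) :=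
    AP.of_surjective ((QuotientGroup.mk' N).subgroupMap A')
      (MonoidHom.subgroupMap_surjective _ _) hapA'
  have hfi : (A'.map (QuotientGroup.mk' N)).FiniteIndex := by
    rw [← hmap]
    constructor
    have h3 := Subgroup.index_map_dvd (f := QuotientGroup.mk' N) X
      (QuotientGroup.mk'_surjective N)
    intro h0
    rw [h0, zero_dvd_iff] at h3
    exact hXf.index_ne_zero h3
  exact AP.of_finiteIndex _ hfi hap

theorem MinCE.restrict (h : MinCE G A B) {X A' B' : Subgroup G} (hA : A' ≤ A) (hB : B' ≤ B)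
    (hX : X.FiniteIndex) (hf : FactS X A' B') :
    MinCE X (A'.subgroupOf X) (B'.subgroupOf X) := by
  have eA := Subgroup.subgroupOfEquivOfLe hf.1
  have eB := Subgroup.subgroupOfEquivOfLe hf.2.1
  refine ⟨?_, ?_, ?_, ?_, ?_, ?_⟩
  · rintro ⟨x, hx⟩
    obtain ⟨a, ha, b, hb, rfl⟩ := hf.2.2 x hx
    exact ⟨⟨a, hf.1 ha⟩, Subgroup.mem_subgroupOf.mpr ha, ⟨b, hf.2.1 hb⟩,
      Subgroup.mem_subgroupOf.mpr hb, rfl⟩
  · have := h.nilA
    have h1 : Group.IsNilpotent (A'.subgroupOf A) := inferInstance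
    have h2 : Group.IsNilpotent A' :=
      (Group.isNilpotent_congr (Subgroup.subgroupOfEquivOfLe hA)).mp h1
    exact (Group.isNilpotent_congr eA).mpr h2
  · exact (AP.congr eA).mpr (AP.mono hA h.apA)
  · exact (AP.congr eB).mpr (AP.mono hB h.apB)
  · exact fun hap => h.nap (AP.of_finiteIndex X hX hap)
  · intro X₁ A₁ B₁ hA₁ hB₁ hf₁ hlt
    have inj : Function.Injective X.subtype := X.subtype_injective
    have hA₂ : A₁.map X.subtype ≤ A' := by
      rintro _ ⟨a, ha, rfl⟩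
      exact Subgroup.mem_subgroupOf.mp (hA₁ ha)
    have hB₂ : B₁.map X.subtype ≤ B' := by
      rintro _ ⟨b, hb, rfl⟩
      exact Subgroup.mem_subgroupOf.mp (hB₁ hb)
    have e1 : ht (A₁.map X.subtype) = ht A₁ := ht_congr (A₁.equivMapOfInjective _ inj).symm
    have e2 : ht (B₁.map X.subtype) = ht B₁ := ht_congr (B₁.equivMapOfInjective _ inj).symm
    have e3 : ht (A'.subgroupOf X) = ht A' := ht_congr eA
    have e4 : ht (B'.subgroupOf X) = ht B' := ht_congr eB
    have m1 := ht_mono h.apA hA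
    have m2 := ht_mono h.apB hB
    have hF : FactS (X₁.map X.subtype) (A₁.map X.subtype) (B₁.map X.subtype) := by
      refine ⟨Subgroup.map_mono hf₁.1, Subgroup.map_mono hf₁.2.1, ?_⟩
      rintro _ ⟨x, hx, rfl⟩
      obtain ⟨a, ha, b, hb, rfl⟩ := hf₁.2.2 x hx
      exact ⟨X.subtype a, ⟨a, ha, rfl⟩, X.subtype b, ⟨b, hb, rfl⟩, map_mul _ _ _⟩
    have h5 := h.min (X₁.map X.subtype) (A₁.map X.subtype) (B₁.map X.subtype)
      (hA₂.trans hA) (hB₂.trans hB) hF (by rw [e1, e2]; omega)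
    exact (AP.congr (X₁.equivMapOfInjective _ inj)).mpr h5

theorem MinCE.ht_quot_le (h : MinCE G A B) (N : Subgroup G) [N.Normal] (hN : ¬ AP N) :
    ht (G ⧸ N) ≤ ht A := by
  obtain ⟨hq, X, A', B', hA, hB, hAi, hBi, hX, hf, hNX, hAN, hBN⟩ := h.dich N hN
  have hmap : X.map (QuotientGroup.mk' N) = A'.map (QuotientGroup.mk' N) := by
    rw [← hAN, Subgroup.map_sup]
    simp [QuotientGroup.map_mk'_self]
  have hfi : (A'.map (QuotientGroup.mk' N)).FiniteIndex := by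
    rw [← hmap]
    constructor
    have h3 := Subgroup.index_map_dvd (f := QuotientGroup.mk' N) X
      (QuotientGroup.mk'_surjective N)
    intro h0
    rw [h0, zero_dvd_iff] at h3
    exact hX.index_ne_zero h3
  rw [← ht_eq_of_finiteIndex hq _ hfi]
  refine (ht_le_of_surjective (AP.mono hA h.apA) ((QuotientGroup.mk' N).subgroupMap A')
    (MonoidHom.subgroupMap_surjective _ _)).trans ?_
  exact ht_mono h.apA hA

end H36.PP
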