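import Pool.Agent.H36.PP.Defs

/-!
# Module Tree: connectivity of the jump graph, or a factorised ascending kernel

`G = A B` with a character `χ`.  Write `C r g` for the component of `g` in the level set
`{χ ≥ r}` with respect to jumps (right multiplication by elements of `A` or of `B`).
All elements `a ∈ A` with `χ a ≥ r` lie in one component `α(r)`, all elements `b ∈ B` with
`χ b ≥ r` lie in one component `β(r)`; `x • α(r)` is the component of `x a`, at level `r + χ x`.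
`a • α(r) = α(r + χ a)` for `a ∈ A`, `b • β(r) = β(r + χ b)` for `b ∈ B`, and `α(r) = β(r)` for
`r ≤ 0` (both contain `1`).

* If `χ` vanishes on `B`: `g = a b ∈ {χ ≥ r}`, `χ a = χ g ≥ r`: `1 → a → a b`.  So the level set is
  connected to `1` if `r ≤ 0`; in general `g → g (g⁻¹ g')`, write `g⁻¹ g' = a b`, `χ (g a) = χ g'`:
  `g → g a → g a b = g'`.  If `χ` vanishes on `A`: `g⁻¹ g' = (b⁻¹ a⁻¹)` with `g'⁻¹ g = a b`,
  `χ (g b⁻¹) = χ g'`.
* Otherwise let `E = {r | α(r) = β(r)}` (formally: `∃ a ∈ A, ∃ b ∈ B, r ≤ χ a, r ≤ χ b,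
  JConn χ A B r a b`), downward closed, `(-∞, 0] ⊆ E`.
  - `E` is everything: for `g = a b` at level `r`, the coset `a B` contains `g` and elements of level
    `≥ r` in the component `a • β(r - χ a) = a • α(r - χ a) = α(r)`.  So everything is connected.
  - Otherwise `E` is bounded above; `s = sup E`, `r = s + 1`, and let `Q` be the stabiliser of
    `α(r)` in the kernel of `χ`:  `q ∈ Q` iff `χ q = 0` and `q a` is connected to `a` at level `r`
    for one (for all) `a ∈ A` with `χ a ≥ r`.  `A ⊓ ker χ ≤ Q`.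
    If `q = a b ∈ Q` then `b • α(r) = a⁻¹ • α(r) = α(r + c)`, `c = χ b = - χ a`, hence (the same for all
    lower levels) `b • α(x) = α(x + c)` for all `x ≤ r`.
    If `c > 0` take `x = s - c/2 ∈ E`, `x + c ∉ E`: `α(x+c) = b • α(x) = b • β(x) = β(x+c)`,
    contradiction.  If `c < 0` take `x = min r (s - c/2)`, `x ∉ E`, `x + c ∈ E`:
    `b • α(x) = α(x+c) = β(x+c) = b • β(x)`, so `α(x) = β(x)`, contradiction.  So `c = 0`,
    `a ∈ A ⊓ ker χ ≤ Q` and `b = a⁻¹ q ∈ Q`.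
    Let `t ∈ A` with `χ t < 0`.  `t⁻¹ Q t` is the stabiliser of `α(r - χ t)`, a higher level, so it
    is contained in `Q`; and `k ∈ ker χ` fixes `α(x)` for `x ≤ min 0 (χ a)`, `k = a b`
    (`1 → a → k`), so `t⁻ⁿ k tⁿ ∈ Q` as soon as `r + n χ t ≤ min 0 (χ a)`.
-/

set_option autoImplicit false

namespace H36.PP

open Subgroup

variable {G : Type*} [Group G] {A B : Subgroup G}

section Tree

variable {χ : G → ℝ}

lemma Tree_one (hχ : IsChar χ) : χ 1 = 0 := by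
  have h := hχ 1 1
  simp only [mul_one] at h
  linarith

lemma Tree_inv (hχ : IsChar χ) (g : G) : χ g⁻¹ = -χ g := by
  have h := hχ g g⁻¹
  rw [mul_inv_cancel, Tree_one hχ] at h
  linarith

lemma Tree_pow (hχ : IsChar χ) (g : G) (n : ℕ) : χ (g ^ n) = n * χ g := by
  induction n with
  | zero => simp [Tree_one hχ]
  | succ n ih =>
    rw [pow_succ, hχ, ih]
    push_cast
    ring

lemma Tree_jump_symm {r : ℝ} {g h : G} (H : Jump χ A B r g h) : Jump χ A B r h g := by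
  refine ⟨H.2.1, H.1, ?_⟩
  rcases H.2.2 with h1 | h1
  · left
    have := A.inv_mem h1
    simpa using this
  · right
    have := B.inv_mem h1
    simpa using this

lemma Tree_symm {r : ℝ} {g h : G} (H : JConn χ A B r g h) : JConn χ A B r h g := by
  induction H with
  | refl => exact Relation.ReflTransGen.refl
  | tail _ h2 ih => exact Relation.ReflTransGen.head (Tree_jump_symm h2) ih

lemma Tree_trans {r : ℝ} {g h k : G} (H : JConn χ A B r g h) (K : JConn χ A B r h k) :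
    JConn χ A B r g k := Relation.ReflTransGen.trans H K

lemma Tree_mono {r r' : ℝ} (hr : r' ≤ r) {g h : G} (H : JConn χ A B r g h) :
    JConn χ A B r' g h := by
  induction H with
  | refl => exact Relation.ReflTransGen.refl
  | tail _ h2 ih => exact ih.tail ⟨hr.trans h2.1, hr.trans h2.2.1, h2.2.2⟩

lemma Tree_left (hχ : IsChar χ) (x : G) {r r' : ℝ} (hr : r' ≤ r + χ x) {g h : G}
    (H : JConn χ A B r g h) : JConn χ A B r' (x * g) (x * h) := by
  induction H with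
  | refl => exact Relation.ReflTransGen.refl
  | @tail a b _ h5 ih =>
    obtain ⟨h1, h2, h3⟩ := h5
    refine ih.tail ⟨by rw [hχ]; linarith, by rw [hχ]; linarith, ?_⟩
    have h4 : (x * a)⁻¹ * (x * b) = a⁻¹ * b := by group
    rw [h4]
    exact h3

lemma Tree_A {r : ℝ} {a a' : G} (ha : a ∈ A) (ha' : a' ∈ A) (h : r ≤ χ a) (h' : r ≤ χ a') :
    JConn χ A B r a a' :=
  Relation.ReflTransGen.single ⟨h, h', Or.inl (A.mul_mem (A.inv_mem ha) ha')⟩

lemma Tree_B {r : ℝ} {b b' : G} (hb : b ∈ B) (hb' : b' ∈ B) (h : r ≤ χ b) (h' : r ≤ χ b') :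
    JConn χ A B r b b' :=
  Relation.ReflTransGen.single ⟨h, h', Or.inr (B.mul_mem (B.inv_mem hb) hb')⟩

/-- a subgroup on which the character does not vanish has elements at every level -/
lemma Tree_high (hχ : IsChar χ) {H : Subgroup G} (hH : ∃ a ∈ H, χ a ≠ 0) (r : ℝ) :
    ∃ a ∈ H, r ≤ χ a := by
  obtain ⟨a, ha, h0⟩ := hH
  obtain ⟨a', ha', h1⟩ : ∃ a' ∈ H, 0 < χ a' := by
    rcases lt_or_gt_of_ne h0 with h | h
    · exact ⟨a⁻¹, H.inv_mem ha, by rw [Tree_inv hχ]; linarith⟩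
    · exact ⟨a, ha, h⟩
  obtain ⟨n, hn⟩ := exists_nat_ge (r / χ a')
  refine ⟨a' ^ n, H.pow_mem ha' n, ?_⟩
  rw [Tree_pow hχ]
  rwa [div_le_iff₀ h1] at hn

/-- connectivity when the character vanishes on `B` -/
lemma Tree_vanB (hf : Fact A B) (hχ : IsChar χ) (hB : ∀ b ∈ B, χ b = 0) (r : ℝ) (g h : G)
    (hg : r ≤ χ g) (hh : r ≤ χ h) : JConn χ A B r g h := by
  obtain ⟨a, ha, b, hb, hab⟩ := hf (g⁻¹ * h)
  have e1 : h = g * a * b := by
    rw [mul_assoc, ← hab]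
    group
  have e2 : χ (g * a) = χ h := by
    rw [e1, hχ (g * a) b, hB b hb, add_zero]
  refine Relation.ReflTransGen.tail (b := g * a) (Relation.ReflTransGen.single
    ⟨hg, by rw [e2]; exact hh, Or.inl ?_⟩) ⟨by rw [e2]; exact hh, hh, Or.inr ?_⟩
  · simpa using ha
  · have e3 : (g * a)⁻¹ * h = b := by
      rw [e1]
      group
    rwa [e3]

/-- connectivity when the character vanishes on `A` -/
lemma Tree_vanA (hf : Fact A B) (hχ : IsChar χ) (hA : ∀ a ∈ A, χ a = 0) (r : ℝ) (g h : G)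
    (hg : r ≤ χ g) (hh : r ≤ χ h) : JConn χ A B r g h := by
  obtain ⟨a, ha, b, hb, hab⟩ := hf (h⁻¹ * g)
  have e1 : g = h * a * b := by
    rw [mul_assoc, ← hab]
    group
  have e2 : χ (h * a) = χ h := by
    rw [hχ, hA a ha, add_zero]
  refine Relation.ReflTransGen.tail (b := h * a) (Relation.ReflTransGen.single
    ⟨hg, by rw [e2]; exact hh, Or.inr ?_⟩) ⟨by rw [e2]; exact hh, hh, Or.inl ?_⟩
  · rw [e1]
    have := B.inv_mem hb
    have e3 : (h * a * b)⁻¹ * (h * a) = b⁻¹ := by group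
    rwa [e3]
  · have := A.inv_mem ha
    have e3 : (h * a)⁻¹ * h = a⁻¹ := by group
    rwa [e3]

/-- the set of levels at which the two special components agree -/
def TreeE (χ : G → ℝ) (A B : Subgroup G) : Set ℝ :=
  {r | ∃ a ∈ A, ∃ b ∈ B, r ≤ χ a ∧ r ≤ χ b ∧ JConn χ A B r a b}

lemma TreeE_down {r r' : ℝ} (hr : r' ≤ r) (h : r ∈ TreeE χ A B) : r' ∈ TreeE χ A B := by
  obtain ⟨a, ha, b, hb, h1, h2, h3⟩ := h
  exact ⟨a, ha, b, hb, hr.trans h1, hr.trans h2, Tree_mono hr h3⟩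

lemma TreeE_zero (hχ : IsChar χ) : (0 : ℝ) ∈ TreeE χ A B :=
  ⟨1, A.one_mem, 1, B.one_mem, (Tree_one hχ).ge, (Tree_one hχ).ge, Relation.ReflTransGen.refl⟩

/-- from one pair to all pairs -/
lemma TreeE_all {r : ℝ} (h : r ∈ TreeE χ A B) {a b : G} (ha : a ∈ A) (hb : b ∈ B)
    (h1 : r ≤ χ a) (h2 : r ≤ χ b) : JConn χ A B r a b := by
  obtain ⟨a', ha', b', hb', h1', h2', h3⟩ := h
  exact Tree_trans (Tree_A ha ha' h1 h1') (Tree_trans h3 (Tree_B hb' hb h2' h2))

/-- everything is connected when the two components agree at all levels -/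
lemma Tree_allE (hf : Fact A B) (hχ : IsChar χ) (hA : ∃ a ∈ A, χ a ≠ 0)
    (hE : ∀ r, r ∈ TreeE χ A B) (r : ℝ) (g h : G)
    (hg : r ≤ χ g) (hh : r ≤ χ h) : JConn χ A B r g h := by
  obtain ⟨a0, ha0, h0⟩ := Tree_high hχ hA r
  have key : ∀ x : G, r ≤ χ x → JConn χ A B r x a0 := by
    intro x hx
    obtain ⟨a, ha, b, hb, rfl⟩ := hf x
    rw [hχ] at hx
    obtain ⟨a1, ha1, h1⟩ := Tree_high hχ hA (r - χ a)
    have h2 : JConn χ A B (r - χ a) b a1 :=
      Tree_symm (TreeE_all (hE _) ha1 hb h1 (by linarith))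
    have h3 : JConn χ A B r (a * b) (a * a1) := Tree_left hχ a (by linarith) h2
    exact Tree_trans h3 (Tree_A (A.mul_mem ha ha1) ha0 (by rw [hχ]; linarith) h0)
  exact Tree_trans (key g hg) (Tree_symm (key h hh))

/-- the stabiliser in the kernel of the component of `A` at level `r` -/
def TreeQ (χ : G → ℝ) (hχ : IsChar χ) (A B : Subgroup G) (hA : ∃ a ∈ A, χ a ≠ 0) (r : ℝ) :
    Subgroup G where
  carrier := {q | χ q = 0 ∧ ∀ a ∈ A, r ≤ χ a → JConn χ A B r (q * a) a}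
  mul_mem' := by
    rintro p q ⟨hp1, hp2⟩ ⟨hq1, hq2⟩
    refine ⟨by rw [hχ, hp1, hq1, add_zero], fun a ha h => ?_⟩
    rw [mul_assoc]
    exact Tree_trans (Tree_left hχ p (by linarith) (hq2 a ha h)) (hp2 a ha h)
  one_mem' := ⟨Tree_one hχ, fun a _ _ => by rw [one_mul]; exact Relation.ReflTransGen.refl⟩
  inv_mem' := by
    rintro p ⟨hp1, hp2⟩
    refine ⟨by rw [Tree_inv hχ, hp1, neg_zero], fun a ha h => ?_⟩
    have h1 := Tree_left hχ p⁻¹ (r' := r) (by rw [Tree_inv hχ]; linarith)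
      (Tree_symm (hp2 a ha h))
    rwa [inv_mul_cancel_left] at h1

lemma TreeQ_mem (hχ : IsChar χ) (hA : ∃ a ∈ A, χ a ≠ 0) {r : ℝ} {q : G} :
    q ∈ TreeQ χ hχ A B hA r ↔ χ q = 0 ∧ ∀ a ∈ A, r ≤ χ a → JConn χ A B r (q * a) a := Iff.rfl

/-- one element suffices -/
lemma TreeQ_of (hχ : IsChar χ) (hA : ∃ a ∈ A, χ a ≠ 0) {r : ℝ} {q a : G} (hq : χ q = 0)
    (ha : a ∈ A) (h : r ≤ χ a) (hc : JConn χ A B r (q * a) a) : q ∈ TreeQ χ hχ A B hA r := by
  refine ⟨hq, fun a' ha' h' => ?_⟩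
  have h1 : JConn χ A B r (q * a') (q * a) :=
    Tree_left hχ q (by linarith) (Tree_A ha' ha h' h)
  exact Tree_trans h1 (Tree_trans hc (Tree_A ha ha' h h'))

lemma TreeQ_A (hχ : IsChar χ) (hA : ∃ a ∈ A, χ a ≠ 0) {r : ℝ} {q : G} (hq : χ q = 0)
    (hqA : q ∈ A) : q ∈ TreeQ χ hχ A B hA r := by
  refine ⟨hq, fun a ha h => Tree_A (A.mul_mem hqA ha) ha ?_ h⟩
  rw [hχ, hq, zero_add]
  exact h

/-- the factorisation of the stabiliser: both factors have character zero -/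
lemma TreeQ_fact (hχ : IsChar χ) (hA : ∃ a ∈ A, χ a ≠ 0) (hB : ∃ b ∈ B, χ b ≠ 0) {s : ℝ}
    (hlt : ∀ x < s, x ∈ TreeE χ A B) (hgt : ∀ x, s < x → x ∉ TreeE χ A B) {a b : G}
    (ha : a ∈ A) (hb : b ∈ B) (hq : a * b ∈ TreeQ χ hχ A B hA (s + 1)) : χ b = 0 := by
  obtain ⟨h0, hQ⟩ := hq
  rw [hχ] at h0
  obtain ⟨a', ha', h'⟩ := Tree_high hχ hA (s + 1)
  -- `b a'` is joined to `a⁻¹ a'` at level `s + 1 + χ b`
  have key : JConn χ A B (s + 1 + χ b) (b * a') (a⁻¹ * a') := by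
    have h1 := Tree_left hχ a⁻¹ (r' := s + 1 + χ b) (by rw [Tree_inv hχ]; linarith) (hQ a' ha' h')
    have e : a⁻¹ * (a * b * a') = b * a' := by group
    rwa [e] at h1
  have ha'' : a⁻¹ * a' ∈ A := A.mul_mem (A.inv_mem ha) ha'
  have hl : s + 1 + χ b ≤ χ (a⁻¹ * a') := by
    rw [hχ, Tree_inv hχ]
    linarith
  rcases lt_trichotomy (χ b) 0 with hc | hc | hc
  · exfalso
    set x := min (s + 1) (s - χ b / 2) with hx
    have hx1 : x ≤ s + 1 := min_le_left _ _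
    have hx2 : x ≤ s - χ b / 2 := min_le_right _ _
    have hx3 : s < x := by
      rw [hx]
      exact lt_min (by linarith) (by linarith)
    have hx4 : x + χ b ∈ TreeE χ A B := hlt _ (by linarith)
    apply hgt x hx3
    obtain ⟨b2, hb2, h2⟩ := Tree_high hχ hB (x + χ b)
    have h3 : JConn χ A B (x + χ b) (b * a') b2 :=
      Tree_trans (Tree_mono (by linarith) key)
        (TreeE_all hx4 ha'' hb2 (by linarith) h2)
    have h4 := Tree_left hχ b⁻¹ (r' := x) (by rw [Tree_inv hχ]; linarith) h3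
    rw [inv_mul_cancel_left] at h4
    refine ⟨a', ha', b⁻¹ * b2, B.mul_mem (B.inv_mem hb) hb2, by linarith, ?_, h4⟩
    rw [hχ, Tree_inv hχ]
    linarith
  · exact hc
  · exfalso
    set x := s - χ b / 2 with hx
    have hx1 : x ∈ TreeE χ A B := hlt _ (by linarith)
    apply hgt (x + χ b) (by linarith)
    obtain ⟨b1, hb1, h1⟩ := Tree_high hχ hB x
    have h2 : JConn χ A B x a' b1 := TreeE_all hx1 ha' hb1 (by linarith) h1
    have h3 : JConn χ A B (x + χ b) (b * a') (b * b1) := Tree_left hχ b (by linarith) h2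
    refine ⟨a⁻¹ * a', ha'', b * b1, B.mul_mem hb hb1, by linarith, ?_, ?_⟩
    · rw [hχ]
      linarith
    · exact Tree_trans (Tree_symm (Tree_mono (by linarith) key)) h3

end Tree

theorem tree_dich (hf : Fact A B) (χ : G → ℝ) (hχ : IsChar χ) :
    (∀ (r : ℝ) (g h : G), r ≤ χ g → r ≤ χ h → JConn χ A B r g h) ∨
      ∃ (Q : Subgroup G) (t : G), t ∈ A ∧ χ t < 0 ∧ Q ≤ charKer χ hχ ∧
        FactS Q (A ⊓ charKer χ hχ) (B ⊓ Q) ∧ (∀ q ∈ Q, t⁻¹ * q * t ∈ Q) ∧
        ∀ k ∈ charKer χ hχ, ∃ n : ℕ, (t ^ n)⁻¹ * k * t ^ n ∈ Q := by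
  by_cases hB : ∃ b ∈ B, χ b ≠ 0
  swap
  · left
    push Not at hB
    exact fun r g h => Tree_vanB hf hχ hB r g h
  by_cases hA : ∃ a ∈ A, χ a ≠ 0
  swap
  · left
    push Not at hA
    exact fun r g h => Tree_vanA hf hχ hA r g h
  by_cases hE : ∀ r, r ∈ TreeE χ A B
  · left
    exact fun r g h => Tree_allE hf hχ hA hE r g h
  right
  push Not at hE
  obtain ⟨r0, hr0⟩ := hE
  have hbdd : BddAbove (TreeE χ A B) := by
    refine ⟨r0, fun x hx => ?_⟩
    by_contra hc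
    push Not at hc
    exact hr0 (TreeE_down hc.le hx)
  have hne : (TreeE χ A B).Nonempty := ⟨0, TreeE_zero hχ⟩
  set s := sSup (TreeE χ A B) with hs
  have hlt : ∀ x < s, x ∈ TreeE χ A B := by
    intro x hx
    obtain ⟨y, hy, hxy⟩ := exists_lt_of_lt_csSup hne hx
    exact TreeE_down hxy.le hy
  have hgt : ∀ x, s < x → x ∉ TreeE χ A B := by
    intro x hx hx'
    exact absurd (le_csSup hbdd hx') (not_le.mpr hx)
  have hkm : ∀ g, g ∈ charKer χ hχ ↔ χ g = 0 := fun g => Iff.rfl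
  obtain ⟨t, htA, ht⟩ : ∃ t ∈ A, χ t < 0 := by
    obtain ⟨a, ha, h0⟩ := hA
    rcases lt_or_gt_of_ne h0 with h | h
    · exact ⟨a, ha, h⟩
    · exact ⟨a⁻¹, A.inv_mem ha, by rw [Tree_inv hχ]; linarith⟩
  refine ⟨TreeQ χ hχ A B hA (s + 1), t, htA, ht, fun q hq => hq.1, ⟨?_, inf_le_right, ?_⟩, ?_, ?_⟩
  · rintro q ⟨hq1, hq2⟩
    exact TreeQ_A hχ hA hq2 hq1
  · intro q hq
    obtain ⟨a, ha, b, hb, rfl⟩ := hf q
    have hb0 : χ b = 0 := TreeQ_fact hχ hA hB hlt hgt ha hb hq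
    have ha0 : χ a = 0 := by
      have := hq.1
      rw [hχ, hb0, add_zero] at this
      exact this
    have haQ : a ∈ TreeQ χ hχ A B hA (s + 1) := TreeQ_A hχ hA ha0 ha
    refine ⟨a, ⟨ha, ha0⟩, b, ⟨hb, ?_⟩, rfl⟩
    have := (TreeQ χ hχ A B hA (s + 1)).mul_mem
      ((TreeQ χ hχ A B hA (s + 1)).inv_mem haQ) hq
    rwa [inv_mul_cancel_left] at this
  · intro q hq
    obtain ⟨a', ha', h'⟩ := Tree_high hχ hA (s + 1 - χ t)
    refine TreeQ_of hχ hA (a := a') ?_ ha' (by linarith) ?_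
    · rw [hχ, hχ, hq.1, Tree_inv hχ]
      ring
    · have h1 := hq.2 (t * a') (A.mul_mem htA ha') (by rw [hχ]; linarith)
      have h2 := Tree_left hχ t⁻¹ (r' := s + 1) (by rw [Tree_inv hχ]; linarith) h1
      have e1 : t⁻¹ * (q * (t * a')) = t⁻¹ * q * t * a' := by group
      rw [e1, inv_mul_cancel_left] at h2
      exact h2
  · intro k hk
    rw [hkm] at hk
    obtain ⟨a, ha, b, hb, hab⟩ := hf k
    set m := min 0 (χ a) with hm
    have hm0 : m ≤ 0 := min_le_left _ _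
    have hma : m ≤ χ a := min_le_right _ _
    obtain ⟨n, hn⟩ := exists_nat_ge ((s + 1 - m) / (-χ t))
    rw [div_le_iff₀ (by linarith)] at hn
    refine ⟨n, ?_⟩
    set l := s + 1 + n * χ t with hl
    have hlm : l ≤ m := by
      rw [hl]
      linarith
    have h1 : JConn χ A B l 1 k := by
      refine Relation.ReflTransGen.tail (b := a) (Relation.ReflTransGen.single
        ⟨?_, by linarith, Or.inl ?_⟩) ⟨by linarith, ?_, Or.inr ?_⟩
      · rw [Tree_one hχ]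
        linarith
      · simpa using ha
      · rw [hk]
        linarith
      · rw [hab]
        simpa using hb
    obtain ⟨a2, ha2, h2⟩ := Tree_high hχ hA (s + 1)
    have ha3 : t ^ n * a2 ∈ A := A.mul_mem (A.pow_mem htA n) ha2
    have hl3 : l ≤ χ (t ^ n * a2) := by
      rw [hχ, Tree_pow hχ]
      linarith
    have h3 : JConn χ A B l 1 (t ^ n * a2) :=
      Tree_A A.one_mem ha3 (by rw [Tree_one hχ]; linarith) hl3
    have h4 : JConn χ A B l (k * 1) (k * (t ^ n * a2)) :=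
      Tree_left hχ k (by rw [hk]; linarith) h3
    rw [mul_one] at h4
    have h5 : JConn χ A B l (k * (t ^ n * a2)) (t ^ n * a2) :=
      Tree_trans (Tree_symm h4) (Tree_trans (Tree_symm h1) h3)
    have h6 := Tree_left hχ (t ^ n)⁻¹ (r' := s + 1)
      (by rw [Tree_inv hχ, Tree_pow hχ]; linarith) h5
    have e1 : (t ^ n)⁻¹ * (k * (t ^ n * a2)) = (t ^ n)⁻¹ * k * t ^ n * a2 := by group
    rw [e1, inv_mul_cancel_left] at h6
    refine TreeQ_of hχ hA (a := a2) ?_ ha2 h2 h6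
    rw [hχ, hχ, hk, Tree_inv hχ]
    ring

end H36.PP
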