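import Pool.Agent.H36.PP.Dich
import Pool.Agent.H36.PP.SolRank
import Pool.Agent.H36.PP.Union
import Pool.Agent.H36.PP.Tree

/-!
# Module Jc: in a minimal counterexample the jump graph is connected   (est. 100 lines)

`tree_dich`; in the second case `A ⊓ ker χ` has infinite index in `A` (`χ t ≠ 0`), so `AP Q` by
minimality (`ht_lt`, `ht_mono`); `union_radical` gives `R`, and `AP (G ⧸ R)`: `ker χ / R` is finite
and `G ⧸ ker χ` is finitely generated abelian; `sol_rank` gives `AP G`: contradiction.
-/

set_option autoImplicit false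

namespace H36.PP

open Subgroup

variable {G : Type*} [Group G] {A B : Subgroup G}

theorem fact_sup (hf : Fact A B) : A ⊔ B = ⊤ := by
  rw [eq_top_iff]
  intro g _
  obtain ⟨a, ha, b, hb, rfl⟩ := hf g
  exact mul_mem (le_sup_left (a := A) (b := B) ha) (le_sup_right (a := A) (b := B) hb)

theorem fg_of_fact (hf : Fact A B) (hA : A.FG) (hB : B.FG) : Group.FG G := by
  rw [Group.fg_def, ← fact_sup hf]
  exact hA.sup hB

theorem max_fg {K : Subgroup G} (h : Max K) : K.FG := by
  have h1 : (⊤ : Subgroup K).FG := h ⊤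
  rw [← Group.fg_def] at h1
  rw [← Group.fg_iff_subgroup_fg]
  exact h1

theorem MinCE.groupFG (h : MinCE G A B) : Group.FG G :=
  fg_of_fact h.fact (max_fg h.apA.1) (max_fg h.apB.1)

theorem isChar_pow {χ : G → ℝ} (hχ : IsChar χ) (g : G) (n : ℕ) : χ (g ^ n) = n * χ g := by
  induction n with
  | zero =>
    have h := hχ 1 1
    simp only [mul_one] at h
    simp only [pow_zero, Nat.cast_zero, zero_mul]
    linarith
  | succ n ih =>
    rw [pow_succ, hχ, ih]
    push_cast
    ring

theorem charKer_normal {χ : G → ℝ} (hχ : IsChar χ) : (charKer χ hχ).Normal where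
  conj_mem := by
    intro n hn g
    have h1 : χ n = 0 := hn
    have h2 : χ 1 = 0 := (charKer χ hχ).one_mem
    have h3 := hχ g g⁻¹
    rw [mul_inv_cancel, h2] at h3
    change χ (g * n * g⁻¹) = 0
    rw [hχ, hχ, h1]
    linarith

theorem MinCE.jconn (h : MinCE G A B) (χ : G → ℝ) (hχ : IsChar χ) :
    ∀ (r : ℝ) (g h : G), r ≤ χ g → r ≤ χ h → JConn χ A B r g h := by
  rcases tree_dich h.fact χ hχ with hc | ⟨Q, t, htA, hχt, hQK, hQf, h1, h2⟩
  · exact hc
  · exfalso
    have hKn : (charKer χ hχ).Normal := charKer_normal hχ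
    have hlt : ht (A ⊓ charKer χ hχ : Subgroup G) < ht A := by
      refine ht_lt h.apA inf_le_left ?_
      rw [inf_relIndex_left]
      by_contra hne
      obtain ⟨n, hn, -, hm⟩ := exists_pow_mem_of_relIndex_ne_zero hne htA
      have h3 : χ (t ^ n) = 0 := hm.1
      rw [isChar_pow hχ] at h3
      rcases mul_eq_zero.1 h3 with h4 | h4
      · exact hn.ne' (by exact_mod_cast h4)
      · linarith
    have hQ : AP Q := by
      refine h.min Q (A ⊓ charKer χ hχ) (B ⊓ Q) inf_le_left inf_le_left hQf ?_
      have : ht (B ⊓ Q : Subgroup G) ≤ ht B := ht_mono h.apB inf_le_left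
      omega
    obtain ⟨R, hRn, hRK, hRi, hRs, r, hr⟩ := union_radical (charKer χ hχ) Q hQK hQ t h1 h2
    have hGfg := h.groupFG
    have hGK : AP (G ⧸ charKer χ hχ) := by
      refine AP.of_comm_fg ?_ inferInstance
      intro x y
      induction x using QuotientGroup.induction_on with
      | H x =>
      induction y using QuotientGroup.induction_on with
      | H y =>
      rw [← QuotientGroup.mk_mul, ← QuotientGroup.mk_mul, QuotientGroup.eq]
      change χ ((x * y)⁻¹ * (y * x)) = 0
      have h5 : χ 1 = 0 := (charKer χ hχ).one_mem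
      have h6 := hχ (x * y)⁻¹ (x * y)
      rw [inv_mul_cancel, h5] at h6
      rw [hχ, hχ y x]
      rw [hχ x y] at h6
      linarith
    have hfin : Finite ((charKer χ hχ).map (QuotientGroup.mk' R) : Subgroup (G ⧸ R)) := by
      have h7 : (R.map (QuotientGroup.mk' R)).relIndex
          ((charKer χ hχ).map (QuotientGroup.mk' R)) ≠ 0 := by
        rw [relIndex_map_map]
        rw [QuotientGroup.ker_mk', sup_idem, sup_eq_left.2 hRK]
        exact hRi
      have h8 : R.map (QuotientGroup.mk' R) = ⊥ := by
        rw [Subgroup.map_eq_bot_iff, QuotientGroup.ker_mk']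
      rw [h8, relIndex_bot_left] at h7
      exact Nat.finite_of_card_ne_zero h7
    have hGR : AP (G ⧸ R) := by
      refine AP.quotient_of_le R (charKer χ hχ) hRK ?_ hGK
      exact AP.of_finite
    exact h.nap (sol_rank h.fact h.nilA h.apA h.apB R hRs r hr hGR)

end H36.PP
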