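import Pool.Agent.H36.PP.Jc
import Pool.Agent.H36.PP.Cay
import Pool.Agent.H36.PP.Chain

/-!
# Module MinFG: kernels of almost polycyclic quotients of a minimal counterexample are finitely
generated   (est. 100 lines)

`MinCE.dich` gives `X` of finite index with `N ≤ X`, `A' ⊔ N = X`; `MinCE.restrict` makes `X` a
minimal counterexample, all its characters are good (`MinCE.jconn`, `good_of_jconn`), `X/N` is an
image of `A'`, so it is nilpotent: `fg_chain`.
-/

set_option autoImplicit false

namespace H36.PP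

open Subgroup

variable {G : Type*} [Group G] {A B : Subgroup G}

theorem fg_map {H : Type*} [Group H] {K : Subgroup G} (h : K.FG) (f : G →* H) :
    (K.map f).FG := by
  classical
  obtain ⟨S, hS⟩ := h
  refine ⟨S.image f, ?_⟩
  rw [Finset.coe_image, ← MonoidHom.map_closure, hS]

/-- if `A N = G` then `G ⧸ N` is an image of `A` -/
theorem quot_surj (N : Subgroup G) [N.Normal] (h : A ⊔ N = ⊤) :
    Function.Surjective ((QuotientGroup.mk' N).comp A.subtype) := by
  intro x
  induction x using QuotientGroup.induction_on with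
  | H x =>
  have hx : x ∈ A ⊔ N := by rw [h]; trivial
  rw [← SetLike.mem_coe, mul_normal, Set.mem_mul] at hx
  obtain ⟨a, ha, n, hn, rfl⟩ := hx
  refine ⟨⟨a, ha⟩, ?_⟩
  change (QuotientGroup.mk a : G ⧸ N) = QuotientGroup.mk (a * n)
  rw [QuotientGroup.eq, inv_mul_cancel_left]
  exact hn

theorem MinCE.fg (h : MinCE G A B) (N : Subgroup G) [N.Normal] (hq : AP (G ⧸ N)) : N.FG := by
  have hN : ¬ AP N := fun h1 => h.nap (AP.ext N h1 hq)
  obtain ⟨-, X, A', B', hA', hB', -, -, hXf, hXfact, hNX, hAN, -⟩ := h.dich N hN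
  have hM := h.restrict hA' hB' hXf hXfact
  have hsup : A'.subgroupOf X ⊔ N.subgroupOf X = ⊤ := by
    rw [eq_top_iff]
    intro x _
    have hx : (x : G) ∈ A' ⊔ N := by rw [hAN]; exact x.2
    rw [← SetLike.mem_coe, mul_normal, Set.mem_mul] at hx
    obtain ⟨a, ha, n, hn, hx⟩ := hx
    have haX : a ∈ X := hXfact.1 ha
    have hnX : n ∈ X := hNX hn
    have : x = ⟨a, haX⟩ * ⟨n, hnX⟩ := Subtype.ext hx.symm
    rw [this]
    exact mul_mem (le_sup_left (a := A'.subgroupOf X) (mem_subgroupOf.2 ha))
      (le_sup_right (a := A'.subgroupOf X) (b := N.subgroupOf X) (mem_subgroupOf.2 hn))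
  have hnil : Group.IsNilpotent (X ⧸ N.subgroupOf X) := by
    have := hM.nilA
    exact Group.nilpotent_of_surjective _ (quot_surj (N.subgroupOf X) hsup)
  have h2 : (N.subgroupOf X).FG := by
    refine fg_chain hM.groupFG (N.subgroupOf X) hnil ?_
    intro S _ hS χ hχ
    exact good_of_jconn hχ hS hM.apA.1 hM.apB.1 (hM.jconn χ hχ)
  have h3 : N = (N.subgroupOf X).map X.subtype := by
    rw [subgroupOf_map_subtype, inf_eq_left.2 hNX]
  rw [h3]
  exact fg_map h2 _

end H36.PP
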