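import Pool.Agent.H36.PP.ThmB

/-!
# Module ThmC: the reduction to the residually finite case inside any class of factorised groups
which is closed under factorised subgroups and quotients by almost polycyclic subgroups
-/

set_option autoImplicit false

universe u

namespace H36.PP

open Subgroup

/-- a class of factorised groups, closed under subgroups and quotients -/
structure ThmC_Closed (C : ∀ (X : Type u) [Group X], Subgroup X → Subgroup X → Prop) : Prop where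
  sub : ∀ (X : Type u) [Group X] (A B : Subgroup X), C X A B → ∀ X' A' B' : Subgroup X,
    A' ≤ A → B' ≤ B → A' ≤ X' → B' ≤ X' → C X' (A'.subgroupOf X') (B'.subgroupOf X')
  quo : ∀ (X : Type u) [Group X] (A B : Subgroup X), C X A B → ∀ (M : Subgroup X) [M.Normal],
    C (X ⧸ M) (A.map (QuotientGroup.mk' M)) (B.map (QuotientGroup.mk' M))

variable {C : ∀ (X : Type u) [Group X], Subgroup X → Subgroup X → Prop}

/-- the class of locally graded counterexamples with given sum of lengths -/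
def ThmC_Cls (C : ∀ (X : Type u) [Group X], Subgroup X → Subgroup X → Prop) (X : Type u) [Group X] (A B : Subgroup X) : Prop :=
  Fact A B ∧ Group.IsNilpotent A ∧ AP A ∧ AP B ∧ C X A B ∧ LG X ∧ ¬ AP X

/-- a minimal member of the class is a minimal counterexample -/
theorem ThmC_minCE (hC : ThmC_Closed C) {X : Type u} [Group X] {A B : Subgroup X} (h : ThmC_Cls C X A B)
    (hmin : ∀ (Y : Type u) (_ : Group Y) (A' B' : Subgroup Y), ThmC_Cls C Y A' B' →
      ht A + ht B ≤ ht A' + ht B') : MinCE X A B := by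
  obtain ⟨hf, hn, hA, hB, hc, hLG, hG⟩ := h
  refine ⟨hf, hn, hA, hB, hG, ?_⟩
  intro X' A' B' hA' hB' hf' hlt
  by_contra hX'
  obtain ⟨hAX, hBX, hfac⟩ := hf'
  have hcls : ThmC_Cls C X' (A'.subgroupOf X') (B'.subgroupOf X') := by
    refine ⟨?_, ThmB_nil_subgroupOf hn hA' hAX, ?_, ?_, ?_, hLG.subgroup X', hX'⟩
    · intro g
      obtain ⟨a, ha, b, hb, hab⟩ := hfac g g.2
      exact ⟨⟨a, hAX ha⟩, ha, ⟨b, hBX hb⟩, hb, Subtype.ext hab⟩
    · exact (AP.congr (Subgroup.subgroupOfEquivOfLe hAX)).mpr (hA.mono hA')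
    · exact (AP.congr (Subgroup.subgroupOfEquivOfLe hBX)).mpr (hB.mono hB')
    · exact hC.sub X A B hc X' A' B' hA' hB' hAX hBX
  have := hmin X' inferInstance _ _ hcls
  rw [ht_congr (Subgroup.subgroupOfEquivOfLe hAX), ht_congr (Subgroup.subgroupOfEquivOfLe hBX)]
    at this
  omega

theorem thmC (hC : ThmC_Closed C) {G : Type u} [Group G] (A B : Subgroup G) (hf : Fact A B)
    (hn : Group.IsNilpotent A) (hA : AP A) (hB : AP B) (hc : C G A B)
    (hLG : LG G) (hG : ¬ AP G) :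
    ∃ (X : Type u) (_ : Group X) (A' B' : Subgroup X), Fact A' B' ∧ Group.IsNilpotent A' ∧
      AP A' ∧ AP B' ∧ C X A' B' ∧ RF X ∧ ¬ AP X ∧
      (∀ (N : Subgroup X) [N.Normal], N ≠ ⊥ → N.FG ∧ AP (X ⧸ N)) ∧
      ∃ (N : Subgroup X) (_ : N.Normal), Infinite N ∧ N.FG ∧ AP (X ⧸ N) ∧
        ∀ K : Subgroup N, K.FiniteIndex → ∀ f : K →* Multiplicative ℤ, f = 1 := by
  classical
  -- a minimal member of the class
  let P : ℕ → Prop := fun n => ∃ (X : Type u) (_ : Group X) (A B : Subgroup X),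
    ThmC_Cls C X A B ∧ ht A + ht B = n
  have hex : ∃ n, P n := ⟨_, G, inferInstance, A, B, ⟨hf, hn, hA, hB, hc, hLG, hG⟩, rfl⟩
  obtain ⟨Y, hY, A₁, B₁, hcls, hsum⟩ := Nat.find_spec hex
  have hmin : ∀ (Z : Type u) (_ : Group Z) (A' B' : Subgroup Z), ThmC_Cls C Z A' B' →
      ht A₁ + ht B₁ ≤ ht A' + ht B' := by
    intro Z hZ A' B' h
    rw [hsum]
    exact Nat.find_min' hex ⟨Z, hZ, A', B', h, rfl⟩
  have hmce := ThmC_minCE hC hcls hmin
  obtain ⟨M, hMn, hMap, hMmax⟩ := ThmB_join hmce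
  obtain ⟨hf₁, hn₁, hA₁, hB₁, hc₁, hLG₁, hG₁⟩ := hcls
  -- the quotient
  let π : Y →* Y ⧸ M := QuotientGroup.mk' M
  have hπ : Function.Surjective π := QuotientGroup.mk'_surjective M
  have hLGq : LG (Y ⧸ M) := hLG₁.quotient M hMap
  have hGq : ¬ AP (Y ⧸ M) := fun h => hG₁ (AP.ext M hMap h)
  have hclsq : ThmC_Cls C (Y ⧸ M) (A₁.map π) (B₁.map π) := by
    refine ⟨?_, ?_, ?_, ?_, ?_, hLGq, hGq⟩
    · intro x
      obtain ⟨g, rfl⟩ := hπ x
      obtain ⟨a, ha, b, hb, rfl⟩ := hf₁ g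
      exact ⟨π a, mem_map_of_mem π ha, π b, mem_map_of_mem π hb, map_mul π a b⟩
    · have := hn₁
      exact Group.nilpotent_of_surjective (π.subgroupMap A₁) (π.subgroupMap_surjective A₁)
    · exact AP.of_surjective (π.subgroupMap A₁) (π.subgroupMap_surjective A₁) hA₁
    · exact AP.of_surjective (π.subgroupMap B₁) (π.subgroupMap_surjective B₁) hB₁
    · exact hC.quo Y A₁ B₁ hc₁ M
  have hle1 : ht (A₁.map π : Subgroup (Y ⧸ M)) ≤ ht A₁ :=
    ht_le_of_surjective hA₁ (π.subgroupMap A₁) (π.subgroupMap_surjective A₁)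
  have hle2 : ht (B₁.map π : Subgroup (Y ⧸ M)) ≤ ht B₁ :=
    ht_le_of_surjective hB₁ (π.subgroupMap B₁) (π.subgroupMap_surjective B₁)
  have hmceq : MinCE (Y ⧸ M) (A₁.map π) (B₁.map π) :=
    ThmC_minCE hC hclsq fun Z hZ A' B' h => (add_le_add hle1 hle2).trans (hmin Z hZ A' B' h)
  -- normal subgroups
  have hNorm : ∀ (N : Subgroup (Y ⧸ M)) [N.Normal], N ≠ ⊥ → N.FG ∧ AP ((Y ⧸ M) ⧸ N) := by
    intro N hN hne
    have hnap : ¬ AP N := by
      intro hNap
      have h1 : AP (N.comap π : Subgroup Y) := ThmB_comap M hMap N hNap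
      have h2 : N.comap π ≤ M := hMmax _ inferInstance h1
      apply hne
      rw [eq_bot_iff]
      intro x hx
      obtain ⟨g, rfl⟩ := hπ x
      have h3 : g ∈ M := h2 hx
      rw [mem_bot]
      exact (QuotientGroup.eq_one_iff g).mpr h3
    have h4 := (hmceq.dich N hnap).1
    exact ⟨hmceq.fg N h4, h4⟩
  obtain ⟨hf₂, hn₂, hA₂, hB₂, hc₂, -, hG₂⟩ := hclsq
  exact ⟨Y ⧸ M, inferInstance, A₁.map π, B₁.map π, hf₂, hn₂, hA₂, hB₂, hc₂,
    ThmB_rf hLGq hNorm, hG₂, hNorm, hmceq.exists_fab⟩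

end H36.PP
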