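import Pool.Agent.H36.PP.ThmC

/-!
# Module ThmD: the reduction inside the class of sections of the given group
-/

set_option autoImplicit false

universe u

namespace H36.PP

open Subgroup

/-- `X` is a quotient of a subgroup `H` of `G`, and `A'`, `B'` are contained in the images
of `A ⊓ H`, `B ⊓ H` -/
def IsSec {G : Type u} [Group G] (A B : Subgroup G) (X : Type u) [Group X]
    (A' B' : Subgroup X) : Prop :=
  ∃ (H : Subgroup G) (f : H →* X), Function.Surjective f ∧ A' ≤ (A.subgroupOf H).map f ∧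
    B' ≤ (B.subgroupOf H).map f

theorem IsSec.refl {G : Type u} [Group G] (A B : Subgroup G) : IsSec A B G A B := by
  refine ⟨⊤, Subgroup.topEquiv.toMonoidHom, fun x => ⟨⟨x, trivial⟩, rfl⟩, ?_, ?_⟩
  · intro x hx
    exact ⟨⟨x, trivial⟩, hx, rfl⟩
  · intro x hx
    exact ⟨⟨x, trivial⟩, hx, rfl⟩

theorem isSec_closed {G : Type u} [Group G] (A B : Subgroup G) :
    ThmC_Closed (fun X _ A' B' => IsSec A B X A' B') := by
  constructor
  · rintro X _ A₁ B₁ ⟨H, f, hf, hA, hB⟩ X' A' B' hA' hB' hAX hBX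
    let e : X'.comap f ≃* (X'.comap f).map H.subtype :=
      (X'.comap f).equivMapOfInjective H.subtype H.subtype_injective
    refine ⟨(X'.comap f).map H.subtype, (f.subgroupComap X').comp e.symm.toMonoidHom, ?_, ?_, ?_⟩
    · exact (f.subgroupComap_surjective_of_surjective X' hf).comp e.symm.surjective
    · intro x hx
      obtain ⟨h, hh, hhx⟩ := hA (hA' hx)
      have hm : h ∈ X'.comap f := by
        rw [mem_comap, hhx]
        exact x.2
      refine ⟨e ⟨h, hm⟩, hh, ?_⟩
      change f.subgroupComap X' (e.symm (e ⟨h, hm⟩)) = x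
      rw [MulEquiv.symm_apply_apply]
      exact Subtype.ext hhx
    · intro x hx
      obtain ⟨h, hh, hhx⟩ := hB (hB' hx)
      have hm : h ∈ X'.comap f := by
        rw [mem_comap, hhx]
        exact x.2
      refine ⟨e ⟨h, hm⟩, hh, ?_⟩
      change f.subgroupComap X' (e.symm (e ⟨h, hm⟩)) = x
      rw [MulEquiv.symm_apply_apply]
      exact Subtype.ext hhx
  · rintro X _ A₁ B₁ ⟨H, f, hf, hA, hB⟩ M hM
    refine ⟨H, (QuotientGroup.mk' M).comp f, (QuotientGroup.mk'_surjective M).comp hf, ?_, ?_⟩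
    · rw [← map_map]
      exact map_mono hA
    · rw [← map_map]
      exact map_mono hB

theorem thmD {G : Type u} [Group G] (A B : Subgroup G) (hf : Fact A B)
    (hn : Group.IsNilpotent A) (hA : AP A) (hB : AP B) (hLG : LG G) (hG : ¬ AP G) :
    ∃ (X : Type u) (_ : Group X) (A' B' : Subgroup X), IsSec A B X A' B' ∧ Fact A' B' ∧
      Group.IsNilpotent A' ∧ AP A' ∧ AP B' ∧ RF X ∧ ¬ AP X ∧
      (∀ (N : Subgroup X) [N.Normal], N ≠ ⊥ → N.FG ∧ AP (X ⧸ N)) ∧
      ∃ (N : Subgroup X) (_ : N.Normal), Infinite N ∧ N.FG ∧ AP (X ⧸ N) ∧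
        ∀ K : Subgroup N, K.FiniteIndex → ∀ f : K →* Multiplicative ℤ, f = 1 := by
  obtain ⟨X, hX, A', B', h1, hn', hA', hB', h2, h3, h4, h5, h6⟩ :=
    thmC (isSec_closed A B) A B hf hn hA hB (IsSec.refl A B) hLG hG
  exact ⟨X, hX, A', B', h2, h1, hn', hA', hB', h3, h4, h5, h6⟩

end H36.PP
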